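import Pool.Agent.Lib.MP_7ea278_ag.Sv.Leaf

/-!
The search trees for the extensions to seven elements.
-/

namespace MP7ea278

def sv0 : CT :=
  .N (.N (.D 1865) (.N (.N (.D 3395) (.N (.D 19154) (.N (.D 3401) (.N (.D 22723) (.N (.D 5443) (.N
  (.N (.D 5449) (.N (.D 22738) (.L 27944449))) (.N (.D 5449) (.N (.D 22738) (.L 20133120)))))))))
  (.N (.D 3395) (.N (.N (.D 3401) (.N (.N (.D 5443) (.N (.D 6725) (.N (.D 5449) (.N (.D 6737) (.L
  27420289))))) (.N (.D 5443) (.N (.D 6725) (.N (.D 5449) (.N (.D 6737) (.L 23252096))))))) (.N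
  (.D 3401) (.N (.N (.D 5443) (.N (.D 21218) (.N (.D 5449) (.N (.D 22754) (.L 24326400))))) (.N
  (.D 5443) (.N (.N (.D 5449) (.N (.D 6753) (.L 19582080))) (.N (.D 5449) (.N (.L 11324544) (.L
  23252096))))))))))) (.N (.N (.N (.N (.D 3653) (.D 35284)) (.N (.D 3653) (.N (.D 3657) (.N (.D
  22723) (.N (.N (.D 5701) (.N (.D 5705) (.N (.D 22738) (.L 26912257)))) (.N (.D 5701) (.N (.D
  5705) (.N (.D 22738) (.L 20141184))))))))) (.N (.N (.D 3653) (.N (.D 3657) (.N (.N (.D 6467) (.N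
  (.D 5701) (.N (.D 5705) (.N (.D 6481) (.L 26904193))))) (.N (.D 6467) (.N (.D 5701) (.N (.D
  5705) (.N (.D 6481) (.L 22728832)))))))) (.N (.D 3653) (.N (.D 3657) (.N (.N (.N (.D 5701) (.D
  37348)) (.N (.D 5701) (.N (.D 5705) (.N (.D 22754) (.L 24334464))))) (.N (.N (.D 5701) (.N (.D
  5705) (.N (.D 6497) (.L 18535552)))) (.N (.D 5701) (.N (.D 5705) (.N (.L 23488640) (.L
  23488640)))))))))) (.N (.N (.N (.N (.N (.D 22723) (.N (.D 6467) (.N (.D 6725) (.N (.D 7241) (.N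
  (.L 24406144) (.D 82928)))))) (.D 50136)) (.D 35284)) (.N (.D 19154) (.N (.D 19666) (.N (.D
  22723) (.N (.N (.D 4961) (.N (.D 5473) (.N (.D 22738) (.L 20262144)))) (.N (.N (.D 5729) (.N (.D
  22738) (.L 20270208))) (.N (.N (.D 22738) (.L 20277376)) (.N (.D 22738) (.L 27617408)))))))))
  (.N (.N (.D 2897) (.N (.D 3409) (.N (.N (.D 6467) (.N (.D 21218) (.N (.D 21730) (.N (.D 6481)
  (.L 24390912))))) (.N (.D 6467) (.N (.N (.D 5729) (.N (.D 6481) (.L 15388800))) (.N (.N (.D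
  6481) (.L 11260032)) (.N (.D 6481) (.L 22728832)))))))) (.N (.N (.D 3665) (.N (.N (.N (.D 6725)
  (.D 37348)) (.N (.D 6725) (.N (.D 21730) (.N (.D 6737) (.L 24398976))))) (.N (.N (.D 6725) (.N
  (.D 5473) (.N (.D 6737) (.L 14865536)))) (.N (.D 6725) (.N (.N (.D 6737) (.L 22972544)) (.N (.D
  6737) (.L 22972544))))))) (.N (.N (.N (.N (.N (.D 7241) (.D 50152)) (.D 37348)) (.N (.D 21218)
  (.N (.D 7241) (.N (.D 7249) (.L 24406144))))) (.N (.N (.D 4961) (.N (.D 7241) (.N (.D 7249) (.L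
  10736768)))) (.N (.N (.D 7241) (.N (.D 7249) (.L 18786432))) (.N (.D 7241) (.N (.D 7249) (.L
  24406144)))))) (.N (.N (.N (.N (.N (.L 28076160) (.D 66544)) (.D 50152)) (.D 37348)) (.N (.D
  21218) (.N (.D 21730) (.N (.D 22754) (.L 28076160))))) (.N (.N (.D 4961) (.N (.D 5473) (.N (.D
  6497) (.L 18535552)))) (.N (.N (.D 5729) (.N (.D 6753) (.L 18786432))) (.N (.N (.D 7265) (.L
  20277376)) (.N (.L 28076160) (.L 28076160)))))))))))

def ext0 : CT :=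
  .N (.N (.N (.N (.N (.N (.N (.N (.N (.N (.N (.N (.N (.N (.N (.L 28076160) (.D 66544)) (.D 50152))
  (.D 82916)) (.D 82914)) (.D 82913)) (.D 50136)) (.D 66516)) (.D 66514)) (.D 66513)) (.D 50124))
  (.D 50122)) (.D 50121)) (.N (.N (.D 34246) (.N (.D 18118) (.N (.N (.D 35270) (.N (.D 19142) (.N
  (.D 19658) (.N (.N (.D 37318) (.N (.D 21190) (.N (.D 21706) (.N (.D 22738) (.L 28076160))))) (.D
  82913))))) (.D 66513)))) (.D 50121))) (.N (.N (.D 34245) (.N (.N (.D 1861) (.N (.D 35269) (.N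
  (.N (.D 2885) (.N (.D 3401) (.N (.D 37317) (.N (.N (.D 4933) (.N (.D 5449) (.N (.D 6481) (.L
  23287936)))) (.D 82914))))) (.D 66514)))) (.D 50122))) (.N (.D 34245) (.N (.D 34246) (.N (.N (.D
  35269) (.N (.D 35270) (.N (.D 3653) (.N (.D 3657) (.N (.D 37317) (.N (.D 37318) (.N (.D 5701)
  (.N (.D 5705) (.N (.L 28076161) (.L 26914944)))))))))) (.N (.D 35269) (.N (.D 35270) (.N (.N (.D
  3665) (.N (.D 37317) (.N (.D 37318) (.N (.D 6725) (.N (.N (.D 6737) (.L 28018817)) (.N (.D 6737)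
  (.L 27438208))))))) (.N (.N (.D 37317) (.N (.D 37318) (.N (.N (.D 7241) (.N (.D 7249) (.L
  27502721))) (.N (.D 7241) (.N (.D 7249) (.L 27502720)))))) (.N (.D 37317) (.N (.D 37318) (.N (.N
  (.D 5729) (.N (.D 6753) (.L 27954304))) (.N (.N (.D 7265) (.L 28018816)) (.N (.L 28076160) (.L
  28076160))))))))))))))) (.N (.N (.N (.D 18115) (.N (.D 1859) (.N (.N (.D 19139) (.N (.D 2883)
  (.N (.N (.D 3657) (.N (.D 21187) (.N (.D 4931) (.N (.N (.D 5705) (.N (.D 6737) (.L 23316608)))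
  (.D 82916))))) (.D 66516)))) (.D 50124)))) (.N (.D 18115) (.N (.N (.D 18118) (.N (.D 19139) (.N
  (.D 3395) (.N (.D 19142) (.N (.D 3401) (.N (.D 21187) (.N (.D 5443) (.N (.D 21190) (.N (.D 5449)
  (.N (.L 28075265) (.L 26849536))))))))))) (.N (.D 18118) (.N (.D 19139) (.N (.N (.D 19142) (.N
  (.D 3409) (.N (.D 21187) (.N (.D 6467) (.N (.D 21190) (.N (.N (.D 6481) (.L 28017921)) (.N (.D
  6481) (.L 27372800)))))))) (.N (.D 19142) (.N (.N (.D 21187) (.N (.N (.D 21190) (.N (.D 7241)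
  (.N (.D 7249) (.L 27501825)))) (.N (.D 21190) (.N (.D 7241) (.N (.D 7249) (.L 11826304)))))) (.N
  (.D 21187) (.N (.N (.D 21190) (.N (.D 5473) (.N (.D 6497) (.L 27888896)))) (.N (.D 21190) (.N
  (.N (.D 7265) (.L 11890816)) (.N (.L 11897984) (.L 26578048)))))))))))))) (.N (.N (.N (.D 1859)
  (.N (.D 1861) (.N (.D 19651) (.N (.D 2883) (.N (.D 2885) (.N (.D 19658) (.N (.D 21699) (.N (.D
  4931) (.N (.D 4933) (.N (.D 21706) (.N (.L 28067201) (.L 26325376)))))))))))) (.N (.D 1859) (.N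
  (.D 1861) (.N (.N (.D 2883) (.N (.D 2885) (.N (.D 19666) (.N (.D 22723) (.N (.D 4931) (.N (.D
  4933) (.N (.N (.D 22738) (.L 28001793)) (.N (.D 22738) (.L 20067712))))))))) (.N (.D 2883) (.N
  (.D 2885) (.N (.N (.N (.D 4931) (.N (.D 4933) (.N (.D 7241) (.N (.D 7249) (.L 27477633))))) (.N
  (.D 4931) (.N (.D 4933) (.N (.D 7241) (.N (.D 7249) (.L 23316608)))))) (.N (.N (.D 4931) (.N (.D
  4933) (.N (.D 21730) (.N (.D 22754) (.L 24260992))))) (.N (.D 4931) (.N (.D 4933) (.N (.N (.D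
  7265) (.L 19646592)) (.N (.L 15517824) (.L 23316608))))))))))))) (.N (.N (.N (.N (.D 19651) (.N
  (.D 3395) (.N (.D 3653) (.N (.N (.D 21699) (.N (.D 5443) (.N (.D 5701) (.N (.N (.D 7249) (.L
  23488640)) (.D 82920))))) (.D 66520))))) (.D 34252)) (.N (.D 18122) (.N (.D 19651) (.N (.N (.D
  2897) (.N (.D 19658) (.N (.D 21699) (.N (.D 6467) (.N (.N (.D 21706) (.N (.D 6481) (.L
  27952513))) (.N (.D 21706) (.N (.D 6481) (.L 16004352)))))))) (.N (.N (.D 19658) (.N (.D 21699)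
  (.N (.N (.D 6725) (.N (.D 21706) (.N (.D 6737) (.L 27436417)))) (.N (.D 6725) (.N (.D 21706) (.N
  (.D 6737) (.L 16012416))))))) (.N (.D 19658) (.N (.D 21699) (.N (.N (.D 4961) (.N (.D 21706) (.N
  (.D 6497) (.L 16068864)))) (.N (.N (.D 21706) (.N (.D 6753) (.L 16076928))) (.N (.D 21706) (.N
  (.L 16091264) (.L 27101312)))))))))))) sv0)))

def sv1 : CT :=
  .N (.N (.D 1865) (.N (.N (.D 3395) (.N (.D 19154) (.N (.D 3401) (.N (.D 22723) (.N (.D 5443) (.N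
  (.N (.D 11305) (.N (.D 11313) (.L 28018818))) (.N (.D 11305) (.N (.D 11313) (.L
  28018819))))))))) (.N (.D 3395) (.N (.N (.D 3401) (.N (.N (.D 5443) (.N (.D 6725) (.N (.D 11305)
  (.N (.D 11313) (.L 27502722))))) (.N (.D 5443) (.N (.D 6725) (.N (.D 11305) (.N (.D 11313) (.L
  28074259))))))) (.N (.D 3401) (.N (.N (.D 5443) (.N (.D 21218) (.N (.D 11305) (.N (.D 11313) (.L
  27502723))))) (.N (.D 5443) (.N (.N (.D 11305) (.N (.D 11313) (.L 27615507))) (.N (.D 11305) (.N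
  (.D 11313) (.L 11303040))))))))))) (.N (.N (.N (.N (.D 3653) (.D 35284)) (.N (.D 3653) (.N (.D
  3657) (.N (.D 22723) (.N (.N (.D 5701) (.N (.D 11305) (.N (.D 11313) (.L 27101314)))) (.N (.D
  5701) (.N (.D 11305) (.N (.D 11313) (.L 28017923))))))))) (.N (.N (.D 3653) (.N (.D 3657) (.N
  (.N (.D 6467) (.N (.D 5701) (.N (.D 11305) (.N (.D 11313) (.L 27043970))))) (.N (.D 6467) (.N
  (.D 5701) (.N (.D 11305) (.N (.D 11313) (.L 28016915)))))))) (.N (.D 3653) (.N (.D 3657) (.N (.N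
  (.N (.D 5701) (.D 37348)) (.N (.D 5701) (.N (.D 11305) (.N (.D 11313) (.L 27501827))))) (.N (.N
  (.D 5701) (.N (.D 11305) (.N (.D 11313) (.L 27500819)))) (.N (.D 5701) (.N (.D 11305) (.N (.D
  11313) (.L 23316608)))))))))) (.N (.N (.N (.N (.N (.D 22723) (.N (.D 6467) (.N (.D 6725) (.N (.N
  (.L 24406144) (.D 14361)) (.D 13337))))) (.D 50136)) (.D 35284)) (.N (.D 19154) (.N (.D 19666)
  (.N (.D 22723) (.N (.N (.D 4961) (.N (.D 11305) (.N (.D 11313) (.L 27101315)))) (.N (.N (.D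
  11305) (.N (.D 11313) (.L 27100419))) (.N (.D 11305) (.N (.D 11313) (.L 27617408))))))))) (.N
  (.N (.D 2897) (.N (.D 3409) (.N (.N (.D 6467) (.N (.D 21218) (.N (.D 11305) (.N (.D 11313) (.L
  27043971))))) (.N (.D 6467) (.N (.N (.D 11305) (.N (.D 11313) (.L 27099411))) (.N (.D 11305) (.N
  (.D 11313) (.L 11245696)))))))) (.N (.N (.D 3665) (.N (.N (.N (.D 6725) (.D 37348)) (.N (.D
  6725) (.N (.D 11305) (.N (.D 11313) (.L 27043075))))) (.N (.N (.D 6725) (.N (.D 11305) (.N (.D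
  11313) (.L 27042067)))) (.N (.D 6725) (.N (.D 11305) (.N (.D 11313) (.L 22857856))))))) (.N (.N
  (.N (.N (.N (.N (.L 28076160) (.D 14361)) (.D 13337)) (.D 37348)) (.N (.D 21218) (.N (.D 21730)
  (.D 13337)))) (.N (.N (.D 4961) (.N (.D 5473) (.D 13337))) (.N (.N (.D 5729) (.D 13337)) (.N (.N
  (.L 28076160) (.D 14361)) (.D 13337))))) (.N (.N (.N (.N (.D 11305) (.D 50152)) (.D 37348)) (.N
  (.D 21218) (.N (.D 11305) (.N (.D 11313) (.L 28076160))))) (.N (.N (.D 4961) (.N (.D 11305) (.N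
  (.D 11313) (.L 10729600)))) (.N (.N (.D 11305) (.N (.D 11313) (.L 18729088))) (.N (.D 11305) (.N
  (.D 11313) (.L 28076160)))))))))))

def ext1 : CT :=
  .N (.N (.N (.N (.N (.N (.N (.N (.N (.N (.N (.N (.N (.N (.N (.L 28076160) (.D 14361)) (.D 13337))
  (.D 82916)) (.D 82914)) (.D 82913)) (.D 50136)) (.D 66516)) (.D 66514)) (.D 66513)) (.D 50124))
  (.D 50122)) (.D 50121)) (.N (.N (.D 34246) (.N (.D 18118) (.N (.N (.D 35270) (.N (.D 19142) (.N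
  (.D 19658) (.N (.N (.D 37318) (.N (.D 21190) (.N (.D 11305) (.N (.D 11313) (.L 28076160))))) (.D
  82913))))) (.D 66513)))) (.D 50121))) (.N (.N (.D 34245) (.N (.N (.D 1861) (.N (.D 35269) (.N
  (.N (.D 2885) (.N (.D 3401) (.N (.D 37317) (.N (.N (.D 4933) (.N (.D 11305) (.N (.D 11313) (.L
  23287936)))) (.D 82914))))) (.D 66514)))) (.D 50122))) (.N (.D 34245) (.N (.D 34246) (.N (.N (.D
  35269) (.N (.D 35270) (.N (.D 3653) (.N (.D 3657) (.N (.D 37317) (.N (.D 37318) (.N (.D 5701)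
  (.N (.D 11305) (.N (.D 11313) (.L 26456192)))))))))) (.N (.D 35269) (.N (.D 35270) (.N (.N (.D
  3665) (.N (.D 37317) (.N (.D 37318) (.N (.D 6725) (.N (.D 11305) (.N (.D 11313) (.L
  26520704))))))) (.N (.N (.D 37317) (.N (.D 37318) (.N (.N (.D 5729) (.D 13337)) (.N (.N (.L
  28076160) (.D 14361)) (.D 13337))))) (.N (.D 37317) (.N (.D 37318) (.N (.N (.D 11305) (.N (.D
  11313) (.L 26578048))) (.N (.D 11305) (.N (.D 11313) (.L 28076160))))))))))))))) (.N (.N (.N (.D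
  18115) (.N (.D 1859) (.N (.N (.D 19139) (.N (.D 2883) (.N (.N (.D 3657) (.N (.D 21187) (.N (.D
  4931) (.N (.N (.D 11305) (.N (.D 11313) (.L 23316608))) (.D 82916))))) (.D 66516)))) (.D
  50124)))) (.N (.D 18115) (.N (.N (.D 18118) (.N (.D 19139) (.N (.D 3395) (.N (.D 19142) (.N (.D
  3401) (.N (.D 21187) (.N (.D 5443) (.N (.D 21190) (.N (.D 11305) (.N (.D 11313) (.L
  25932032))))))))))) (.N (.D 18118) (.N (.D 19139) (.N (.N (.D 19142) (.N (.D 3409) (.N (.D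
  21187) (.N (.D 6467) (.N (.D 21190) (.N (.D 11305) (.N (.D 11313) (.L 25996544)))))))) (.N (.D
  19142) (.N (.N (.D 21187) (.N (.N (.D 21190) (.N (.D 5473) (.D 13337))) (.N (.D 21190) (.N (.N
  (.L 11897984) (.D 14361)) (.D 13337))))) (.N (.D 21187) (.N (.N (.D 21190) (.N (.D 11305) (.N
  (.D 11313) (.L 26053888)))) (.N (.D 21190) (.N (.D 11305) (.N (.D 11313) (.L
  26578048)))))))))))))) (.N (.N (.N (.D 1859) (.N (.D 1861) (.N (.D 19651) (.N (.D 2883) (.N (.D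
  2885) (.N (.D 19658) (.N (.D 21699) (.N (.D 4931) (.N (.D 4933) (.N (.D 11305) (.N (.D 11313)
  (.L 26325376)))))))))))) (.N (.D 1859) (.N (.D 1861) (.N (.N (.D 2883) (.N (.D 2885) (.N (.D
  19666) (.N (.D 22723) (.N (.D 4931) (.N (.D 4933) (.N (.D 11305) (.N (.D 11313) (.L
  26324480))))))))) (.N (.D 2883) (.N (.D 2885) (.N (.N (.N (.D 4931) (.N (.D 4933) (.N (.D 21730)
  (.D 13337)))) (.N (.D 4931) (.N (.D 4933) (.N (.N (.L 23316608) (.D 14361)) (.D 13337))))) (.N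
  (.N (.D 4931) (.N (.D 4933) (.N (.D 11305) (.N (.D 11313) (.L 26316416))))) (.N (.D 4931) (.N
  (.D 4933) (.N (.D 11305) (.N (.D 11313) (.L 23316608))))))))))))) (.N (.N (.N (.N (.D 19651) (.N
  (.D 3395) (.N (.D 3653) (.N (.N (.D 21699) (.N (.D 5443) (.N (.D 5701) (.N (.N (.L 23488640) (.D
  14361)) (.D 13337))))) (.D 66520))))) (.D 34252)) (.N (.D 18122) (.N (.D 19651) (.N (.N (.D
  2897) (.N (.D 19658) (.N (.D 21699) (.N (.D 6467) (.N (.N (.D 11305) (.N (.D 11313) (.L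
  28076162))) (.N (.D 11305) (.N (.D 11313) (.L 28076163)))))))) (.N (.N (.D 19658) (.N (.D 21699)
  (.N (.N (.D 6725) (.N (.D 11305) (.N (.D 11313) (.L 27617410)))) (.N (.D 6725) (.N (.D 11305)
  (.N (.D 11313) (.L 28075267))))))) (.N (.D 19658) (.N (.D 21699) (.N (.N (.D 4961) (.N (.D
  11305) (.N (.D 11313) (.L 27617411)))) (.N (.N (.D 11305) (.N (.D 11313) (.L 27616515))) (.N (.D
  11305) (.N (.D 11313) (.L 27101312)))))))))))) sv1)))

def sv2 : CT :=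
  .N (.N (.N (.N (.D 19651) (.N (.D 3395) (.N (.D 3653) (.N (.N (.D 21699) (.N (.D 8995) (.N (.D
  8997) (.N (.N (.L 20162688) (.D 14361)) (.D 13337))))) (.D 66520))))) (.D 34252)) (.N (.D 18122)
  (.N (.D 19651) (.N (.N (.D 2897) (.N (.D 19658) (.N (.D 21699) (.N (.D 8995) (.N (.D 8997) (.N
  (.D 11305) (.N (.D 11313) (.L 27931012)))))))) (.N (.N (.D 19658) (.N (.D 21699) (.N (.D 8995)
  (.N (.D 8997) (.N (.D 11305) (.N (.D 11313) (.L 27873668))))))) (.N (.D 19658) (.N (.D 21699)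
  (.N (.D 8995) (.N (.D 8997) (.N (.D 11305) (.N (.D 11313) (.L 27043968)))))))))))) (.N (.N (.D
  1865) (.N (.N (.D 3395) (.N (.D 19154) (.N (.D 3401) (.N (.D 22723) (.N (.D 8995) (.N (.D 8997)
  (.N (.D 11305) (.N (.D 11313) (.L 27930116))))))))) (.N (.D 3395) (.N (.N (.D 3401) (.N (.N (.D
  8995) (.N (.D 8997) (.N (.D 11305) (.N (.D 11313) (.L 28076165))))) (.N (.D 8995) (.N (.D 8997)
  (.N (.D 11305) (.N (.D 11313) (.L 28076166))))))) (.N (.D 3401) (.N (.N (.D 8995) (.N (.D 8997)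
  (.N (.D 11305) (.N (.D 11313) (.L 22663426))))) (.N (.D 8995) (.N (.D 8997) (.N (.D 11305) (.N
  (.D 11313) (.L 24322595))))))))))) (.N (.N (.N (.N (.D 3653) (.D 35284)) (.N (.D 3653) (.N (.D
  3657) (.N (.D 22723) (.N (.D 8995) (.N (.D 8997) (.N (.D 11305) (.N (.D 11313) (.L
  27872772))))))))) (.N (.N (.D 3653) (.N (.D 3657) (.N (.N (.D 8995) (.N (.D 8997) (.N (.D 11305)
  (.N (.D 11313) (.L 28018821))))) (.N (.D 8995) (.N (.D 8997) (.N (.D 11305) (.N (.D 11313) (.L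
  28018822)))))))) (.N (.D 3653) (.N (.D 3657) (.N (.N (.D 8995) (.N (.D 8997) (.N (.D 11305) (.N
  (.D 11313) (.L 22728834))))) (.N (.D 8995) (.N (.D 8997) (.N (.D 11305) (.N (.D 11313) (.L
  24330771)))))))))) (.N (.N (.N (.N (.N (.D 22723) (.N (.D 8995) (.N (.D 8997) (.N (.N (.L
  27502720) (.D 14361)) (.D 13337))))) (.D 50136)) (.D 35284)) (.N (.D 19154) (.N (.D 19666) (.N
  (.D 22723) (.N (.D 8995) (.N (.D 8997) (.N (.D 11305) (.N (.D 11313) (.L 27502720))))))))) (.N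
  (.N (.D 2897) (.N (.D 3409) (.N (.N (.D 8995) (.N (.D 8997) (.N (.D 11305) (.N (.D 11313) (.L
  23186690))))) (.N (.D 8995) (.N (.D 8997) (.N (.D 11305) (.N (.D 11313) (.L 24388003)))))))) (.N
  (.N (.D 3665) (.N (.N (.D 8995) (.N (.D 8997) (.N (.D 11305) (.N (.D 11313) (.L 23252098)))))
  (.N (.D 8995) (.N (.D 8997) (.N (.D 11305) (.N (.D 11313) (.L 24396179))))))) (.N (.N (.N (.D
  8995) (.N (.D 8997) (.N (.D 21730) (.D 13337)))) (.N (.D 8995) (.N (.D 8997) (.N (.N (.L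
  27502720) (.D 14361)) (.D 13337))))) (.N (.N (.D 8995) (.N (.D 8997) (.N (.D 11305) (.N (.D
  11313) (.L 23283457))))) (.N (.D 8995) (.N (.D 8997) (.N (.D 11305) (.N (.D 11313) (.L
  27502720))))))))))))

def ext2 : CT :=
  .N (.N (.N (.N (.N (.N (.N (.N (.N (.N (.N (.N (.N (.N (.N (.L 27502720) (.D 14361)) (.D 13337))
  (.D 12807)) (.D 12551)) (.D 82913)) (.D 50136)) (.D 66516)) (.D 66514)) (.D 66513)) (.D 50124))
  (.D 50122)) (.D 50121)) (.N (.N (.D 34246) (.N (.D 18118) (.N (.N (.D 35270) (.N (.D 19142) (.N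
  (.D 19658) (.N (.N (.D 8995) (.N (.D 8997) (.N (.D 11305) (.N (.D 11313) (.L 27502720))))) (.D
  82913))))) (.D 66513)))) (.D 50121))) (.N (.N (.D 34245) (.N (.N (.D 1861) (.N (.D 35269) (.N
  (.N (.D 2885) (.N (.D 3401) (.N (.D 37317) (.N (.N (.N (.D 11305) (.N (.D 11313) (.L 18700416)))
  (.D 12807)) (.D 12551))))) (.D 66514)))) (.D 50122))) (.N (.D 34245) (.N (.D 34246) (.N (.N (.D
  35269) (.N (.D 35270) (.N (.D 3653) (.N (.D 3657) (.N (.D 37317) (.N (.D 8995) (.N (.D 8997) (.N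
  (.D 11305) (.N (.D 11313) (.L 28076164)))))))))) (.N (.D 35269) (.N (.D 35270) (.N (.N (.D 3665)
  (.N (.D 37317) (.N (.D 8995) (.N (.D 8997) (.N (.D 11305) (.N (.D 11313) (.L 28018820))))))) (.N
  (.N (.D 37317) (.N (.D 8995) (.N (.D 8997) (.N (.N (.L 27502720) (.D 14361)) (.D 13337))))) (.N
  (.D 37317) (.N (.D 8995) (.N (.D 8997) (.N (.D 11305) (.N (.D 11313) (.L 27502720)))))))))))))))
  (.N (.N (.N (.D 18115) (.N (.D 1859) (.N (.N (.D 19139) (.N (.D 2883) (.N (.N (.D 3657) (.N (.D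
  21187) (.N (.N (.N (.D 11305) (.N (.D 11313) (.L 18729088))) (.D 12807)) (.D 12551)))) (.D
  66516)))) (.D 50124)))) (.N (.D 18115) (.N (.N (.D 18118) (.N (.D 19139) (.N (.D 3395) (.N (.D
  19142) (.N (.D 3401) (.N (.D 21187) (.N (.D 8995) (.N (.D 8997) (.N (.D 11305) (.N (.D 11313)
  (.L 28075268))))))))))) (.N (.D 18118) (.N (.D 19139) (.N (.N (.D 19142) (.N (.D 3409) (.N (.D
  21187) (.N (.D 8995) (.N (.D 8997) (.N (.D 11305) (.N (.D 11313) (.L 28017924)))))))) (.N (.D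
  19142) (.N (.N (.D 21187) (.N (.D 8995) (.N (.D 8997) (.N (.N (.L 27501824) (.D 14361)) (.D
  13337))))) (.N (.D 21187) (.N (.D 8995) (.N (.D 8997) (.N (.D 11305) (.N (.D 11313) (.L
  27501824)))))))))))))) (.N (.N (.N (.D 1859) (.N (.D 1861) (.N (.D 19651) (.N (.D 2883) (.N (.D
  2885) (.N (.D 19658) (.N (.D 21699) (.N (.N (.N (.D 11305) (.N (.D 11313) (.L 26325376))) (.D
  12807)) (.D 12551))))))))) (.N (.D 1859) (.N (.D 1861) (.N (.N (.D 2883) (.N (.D 2885) (.N (.D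
  19666) (.N (.D 22723) (.N (.N (.N (.D 11305) (.N (.D 11313) (.L 26324480))) (.D 12807)) (.D
  12551)))))) (.N (.D 2883) (.N (.D 2885) (.N (.N (.N (.N (.N (.N (.L 18786432) (.D 14361)) (.D
  13337)) (.D 12807)) (.D 12551)) (.N (.N (.N (.D 1889) (.D 13337)) (.D 12807)) (.D 12551))) (.N
  (.N (.N (.N (.D 11305) (.D 50152)) (.D 12807)) (.D 12551)) (.N (.N (.N (.D 11305) (.N (.D 11313)
  (.L 18729088))) (.D 12807)) (.D 12551)))))))))) sv2))

def sv3 : CT :=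
  .N (.N (.D 1865) (.N (.N (.D 3395) (.N (.D 19154) (.N (.D 3401) (.N (.D 22723) (.N (.D 5443) (.N
  (.N (.D 11305) (.N (.D 11313) (.L 28018823))) (.N (.D 11305) (.N (.D 11313) (.L 6649892)))))))))
  (.N (.D 3395) (.N (.N (.D 3401) (.N (.N (.D 5443) (.N (.D 6725) (.N (.D 11305) (.N (.D 11313)
  (.L 27502727))))) (.N (.D 5443) (.N (.D 6725) (.N (.D 11305) (.N (.D 11313) (.L 10328196)))))))
  (.N (.D 3401) (.N (.N (.D 5443) (.N (.D 21218) (.N (.D 11305) (.N (.D 11313) (.L 7108644)))))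
  (.N (.D 5443) (.N (.N (.D 11305) (.N (.D 11313) (.L 10270852))) (.N (.D 11305) (.N (.D 11313)
  (.L 11303040))))))))))) (.N (.N (.N (.N (.D 3653) (.D 35284)) (.N (.D 3653) (.N (.D 3657) (.N
  (.D 22723) (.N (.N (.D 5701) (.N (.D 11305) (.N (.D 11313) (.L 27101319)))) (.N (.D 5701) (.N
  (.D 11305) (.N (.D 11313) (.L 10844180))))))))) (.N (.N (.D 3653) (.N (.D 3657) (.N (.N (.D
  6467) (.N (.D 5701) (.N (.D 11305) (.N (.D 11313) (.L 27043975))))) (.N (.D 6467) (.N (.D 5701)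
  (.N (.D 11305) (.N (.D 11313) (.L 10844292)))))))) (.N (.D 3653) (.N (.D 3657) (.N (.N (.N (.D
  5701) (.D 37348)) (.N (.D 5701) (.N (.D 11305) (.N (.D 11313) (.L 11302932))))) (.N (.N (.D
  5701) (.N (.D 11305) (.N (.D 11313) (.L 11303044)))) (.N (.D 5701) (.N (.D 11305) (.N (.D 11313)
  (.L 23316608)))))))))) (.N (.N (.N (.N (.N (.D 22723) (.N (.D 6467) (.N (.D 6725) (.N (.N (.L
  24406144) (.D 14361)) (.D 13337))))) (.D 51672)) (.D 35284)) (.N (.D 19154) (.N (.D 19666) (.N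
  (.D 22723) (.N (.N (.D 4961) (.N (.D 11305) (.N (.D 11313) (.L 6535204)))) (.N (.N (.D 11305)
  (.N (.D 11313) (.L 10729492))) (.N (.D 11305) (.N (.D 11313) (.L 27617408))))))))) (.N (.N (.D
  2897) (.N (.D 3409) (.N (.N (.D 6467) (.N (.D 21218) (.N (.D 11305) (.N (.D 11313) (.L
  7051300))))) (.N (.D 6467) (.N (.N (.D 11305) (.N (.D 11313) (.L 10729604))) (.N (.D 11305) (.N
  (.D 11313) (.L 11245696)))))))) (.N (.N (.D 3665) (.N (.N (.N (.D 6725) (.D 37348)) (.N (.D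
  6725) (.N (.D 11305) (.N (.D 11313) (.L 11245588))))) (.N (.N (.D 6725) (.N (.D 11305) (.N (.D
  11313) (.L 11245700)))) (.N (.D 6725) (.N (.D 11305) (.N (.D 11313) (.L 22857856))))))) (.N (.N
  (.N (.N (.N (.N (.L 28076160) (.D 14361)) (.D 13337)) (.D 37348)) (.N (.D 21218) (.N (.D 21730)
  (.D 13337)))) (.N (.N (.D 4961) (.N (.D 5473) (.D 13337))) (.N (.N (.D 5729) (.D 13337)) (.N (.N
  (.L 28076160) (.D 14361)) (.D 13337))))) (.N (.N (.N (.N (.D 11305) (.D 53736)) (.D 37348)) (.N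
  (.D 21218) (.N (.D 11305) (.N (.D 11313) (.L 28076160))))) (.N (.N (.D 4961) (.N (.D 11305) (.N
  (.D 11313) (.L 10729600)))) (.N (.N (.D 11305) (.N (.D 11313) (.L 18729088))) (.N (.D 11305) (.N
  (.D 11313) (.L 28076160)))))))))))

def ext3 : CT :=
  .N (.N (.N (.N (.N (.N (.N (.N (.N (.N (.N (.N (.N (.N (.N (.L 28076160) (.D 14361)) (.D 13337))
  (.D 83428)) (.D 83426)) (.D 83425)) (.D 67032)) (.D 67028)) (.D 67026)) (.D 67025)) (.D 34252))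
  (.N (.D 18122) (.N (.N (.D 51658) (.N (.D 51660) (.N (.D 19658) (.N (.N (.D 53706) (.N (.D
  53708) (.N (.D 11305) (.N (.D 11313) (.L 28076160))))) (.D 83425))))) (.D 67025)))) (.N (.N (.D
  1865) (.N (.D 51657) (.N (.N (.D 51660) (.N (.D 3401) (.N (.D 53705) (.N (.N (.D 53708) (.N (.D
  11305) (.N (.D 11313) (.L 23287936)))) (.D 83426))))) (.D 67026)))) (.N (.N (.D 51657) (.N (.D
  51658) (.N (.N (.D 3657) (.N (.D 53705) (.N (.D 53706) (.N (.N (.D 11305) (.N (.D 11313) (.L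
  23316608))) (.D 83428))))) (.D 67028)))) (.N (.D 51657) (.N (.D 51658) (.N (.D 51660) (.N (.N
  (.D 53705) (.N (.D 53706) (.N (.D 53708) (.N (.N (.L 28076160) (.D 14361)) (.D 13337))))) (.N
  (.D 53705) (.N (.D 53706) (.N (.D 53708) (.N (.D 11305) (.N (.D 11313) (.L 28076160)))))))))))))
  (.D 58123)) (.D 57995)) (.N (.D 57741) (.N (.D 57742) (.N (.N (.N (.N (.D 19651) (.N (.D 3395)
  (.N (.D 3653) (.N (.N (.D 21699) (.N (.D 5443) (.N (.D 5701) (.N (.N (.L 23488640) (.D 14361))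
  (.D 13337))))) (.D 67032))))) (.D 34252)) (.N (.D 18122) (.N (.D 19651) (.N (.N (.D 2897) (.N
  (.D 19658) (.N (.D 21699) (.N (.D 6467) (.N (.N (.D 11305) (.N (.D 11313) (.L 28076167))) (.N
  (.D 11305) (.N (.D 11313) (.L 6133796)))))))) (.N (.N (.D 19658) (.N (.D 21699) (.N (.N (.D
  6725) (.N (.D 11305) (.N (.D 11313) (.L 27617415)))) (.N (.D 6725) (.N (.D 11305) (.N (.D 11313)
  (.L 10328084))))))) (.N (.D 19658) (.N (.D 21699) (.N (.N (.D 4961) (.N (.D 11305) (.N (.D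
  11313) (.L 6076452)))) (.N (.N (.D 11305) (.N (.D 11313) (.L 10270740))) (.N (.D 11305) (.N (.D
  11313) (.L 27101312)))))))))))) sv3)))

def sv4 : CT :=
  .N (.N (.N (.D 18115) (.N (.D 1859) (.N (.N (.N (.D 2883) (.N (.N (.D 3657) (.N (.D 21187) (.N
  (.N (.N (.D 11305) (.N (.D 11313) (.L 18692352))) (.D 12807)) (.D 12551)))) (.D 27143))) (.D
  26759)) (.D 50124)))) (.N (.D 18115) (.N (.N (.D 18118) (.N (.N (.D 3395) (.N (.N (.D 3401) (.N
  (.D 21187) (.N (.D 8995) (.N (.D 8997) (.N (.D 11305) (.N (.D 11313) (.L 27399576))))))) (.D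
  27143))) (.D 26759))) (.N (.D 18118) (.N (.N (.N (.N (.N (.D 21187) (.N (.D 8995) (.N (.D 8997)
  (.N (.N (.L 27501824) (.D 14361)) (.D 13337))))) (.D 50136)) (.D 27143)) (.N (.N (.D 18130) (.N
  (.D 21187) (.N (.D 8995) (.N (.D 8997) (.N (.D 11305) (.N (.D 11313) (.L 27501824))))))) (.D
  27143))) (.D 26759)))))) (.N (.N (.N (.D 1859) (.N (.D 1861) (.N (.D 25235) (.N (.D 2883) (.N
  (.D 25238) (.N (.D 19658) (.N (.D 21699) (.N (.N (.N (.D 11305) (.N (.D 11313) (.L 27931016)))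
  (.D 12807)) (.D 12551))))))))) (.N (.D 1859) (.N (.D 1861) (.N (.D 25235) (.N (.D 2883) (.N (.D
  25238) (.N (.N (.N (.N (.N (.N (.L 18785536) (.D 14361)) (.D 13337)) (.D 12807)) (.D 12551)) (.N
  (.N (.N (.D 1889) (.D 13337)) (.D 12807)) (.D 12551))) (.N (.N (.N (.N (.D 11305) (.D 50152))
  (.D 12807)) (.D 12551)) (.N (.N (.N (.D 11305) (.N (.D 11313) (.L 18728192))) (.D 12807)) (.D
  12551)))))))))) (.N (.N (.N (.N (.D 25235) (.N (.D 3395) (.N (.D 25238) (.N (.N (.D 21699) (.N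
  (.D 8995) (.N (.D 8997) (.N (.N (.L 20161792) (.D 14361)) (.D 13337))))) (.D 66520))))) (.D
  34252)) (.N (.D 18122) (.N (.D 25235) (.N (.N (.D 25238) (.N (.D 19658) (.N (.D 21699) (.N (.D
  8995) (.N (.D 8997) (.N (.D 11305) (.N (.D 11313) (.L 17652103)))))))) (.N (.D 25238) (.N (.D
  19658) (.N (.D 21699) (.N (.D 8995) (.N (.D 8997) (.N (.D 11305) (.N (.D 11313) (.L
  21393684)))))))))))) (.N (.N (.D 1865) (.N (.D 25235) (.N (.D 3395) (.N (.D 25238) (.N (.D 3401)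
  (.N (.N (.D 8995) (.N (.D 8997) (.N (.D 11305) (.N (.D 11313) (.L 22663431))))) (.N (.D 8995)
  (.N (.D 8997) (.N (.D 11305) (.N (.D 11313) (.L 17724676))))))))))) (.N (.N (.D 25235) (.N (.N
  (.D 25238) (.N (.D 3657) (.N (.N (.D 8995) (.N (.D 8997) (.N (.D 11305) (.N (.D 11313) (.L
  28076169))))) (.N (.D 8995) (.N (.D 8997) (.N (.D 11305) (.N (.D 11313) (.L 18076805)))))))) (.N
  (.D 25238) (.N (.D 3657) (.N (.N (.D 8995) (.N (.D 8997) (.N (.D 11305) (.N (.D 11313) (.L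
  22269973))))) (.N (.D 8995) (.N (.D 8997) (.N (.D 11305) (.N (.D 11313) (.L 10328194))))))))))
  (.N (.D 25235) (.N (.N (.D 25238) (.N (.D 3409) (.N (.N (.D 8995) (.N (.D 8997) (.N (.D 11305)
  (.N (.D 11313) (.L 23185461))))) (.N (.D 8995) (.N (.D 8997) (.N (.D 11305) (.N (.D 11313) (.L
  17652098)))))))) (.N (.D 25238) (.N (.N (.N (.D 8995) (.N (.D 8997) (.N (.D 21730) (.D 13337))))
  (.N (.D 8995) (.N (.D 8997) (.N (.N (.L 20161792) (.D 14361)) (.D 13337))))) (.N (.N (.D 8995)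
  (.N (.D 8997) (.N (.D 11305) (.N (.D 11313) (.L 21256594))))) (.N (.D 8995) (.N (.D 8997) (.N
  (.D 11305) (.N (.D 11313) (.L 10328195))))))))))))))

def ext4 : CT :=
  .N (.N (.N (.N (.N (.N (.N (.N (.N (.N (.N (.N (.N (.N (.N (.L 27501824) (.D 14361)) (.D 13337))
  (.D 12807)) (.D 12551)) (.D 82913)) (.D 50136)) (.D 27143)) (.D 66514)) (.D 26759)) (.D 50124))
  (.D 50122)) (.D 50121)) (.N (.N (.D 34246) (.N (.D 18118) (.N (.N (.D 35270) (.N (.N (.D 19658)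
  (.N (.N (.D 8995) (.N (.D 8997) (.N (.D 11305) (.N (.D 11313) (.L 27501824))))) (.D 82913))) (.D
  27143))) (.D 26759)))) (.D 50121))) (.N (.N (.D 34245) (.N (.N (.D 1861) (.N (.D 25235) (.N (.N
  (.D 25238) (.N (.D 3401) (.N (.D 37317) (.N (.N (.N (.D 11305) (.N (.D 11313) (.L 18728192)))
  (.D 12807)) (.D 12551))))) (.D 66514)))) (.D 50122))) (.N (.D 34245) (.N (.D 34246) (.N (.N (.D
  25235) (.N (.D 35270) (.N (.D 25238) (.N (.D 3657) (.N (.D 37317) (.N (.D 8995) (.N (.D 8997)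
  (.N (.D 11305) (.N (.D 11313) (.L 10328199)))))))))) (.N (.D 25235) (.N (.D 35270) (.N (.D
  25238) (.N (.N (.D 37317) (.N (.D 8995) (.N (.D 8997) (.N (.N (.L 28076168) (.D 14361)) (.D
  13337))))) (.N (.D 37317) (.N (.D 8995) (.N (.D 8997) (.N (.D 11305) (.N (.D 11313) (.L
  21375540))))))))))))))) sv4

def sv5 : CT :=
  .N (.N (.N (.D 1859) (.N (.D 1861) (.N (.D 19651) (.N (.D 2883) (.N (.D 2885) (.N (.D 19658) (.N
  (.D 26787) (.N (.D 10531) (.N (.D 10789) (.N (.D 11305) (.N (.L 26325376) (.D 99312))))))))))))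
  (.N (.D 1859) (.N (.D 1861) (.N (.N (.D 2883) (.N (.D 2885) (.N (.D 19666) (.N (.N (.D 10531)
  (.N (.D 10789) (.N (.D 11305) (.N (.L 23479680) (.D 30739))))) (.D 28819))))) (.N (.D 2883) (.N
  (.D 2885) (.N (.N (.D 26787) (.N (.D 10531) (.N (.D 10789) (.N (.N (.L 23316608) (.D 14361)) (.D
  13337))))) (.N (.D 26787) (.N (.D 10531) (.N (.D 10789) (.N (.D 11305) (.N (.L 23316608) (.D
  99312))))))))))))) (.N (.N (.N (.N (.D 19651) (.N (.D 3395) (.N (.D 3653) (.N (.N (.D 26787) (.N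
  (.D 10531) (.N (.D 10789) (.N (.N (.L 23488640) (.D 14361)) (.D 13337))))) (.D 66520))))) (.D
  34252)) (.N (.D 18122) (.N (.D 19651) (.N (.N (.D 2897) (.N (.D 19658) (.N (.D 26787) (.N (.N
  (.D 10789) (.N (.D 11305) (.N (.L 16090368) (.D 14355)))) (.D 12563))))) (.N (.N (.D 19658) (.N
  (.D 26787) (.N (.D 10531) (.N (.N (.D 11305) (.N (.L 16091264) (.D 14357))) (.D 12821))))) (.N
  (.D 19658) (.N (.D 26787) (.N (.D 10531) (.N (.D 10789) (.N (.D 11305) (.N (.L 27101312) (.D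
  99312)))))))))))) (.N (.N (.D 1865) (.N (.N (.D 3395) (.N (.D 19154) (.N (.D 3401) (.N (.N (.D
  10531) (.N (.D 10789) (.N (.D 11305) (.N (.L 23487744) (.D 30739))))) (.D 28819))))) (.N (.D
  3395) (.N (.N (.D 3401) (.N (.D 26787) (.N (.D 10531) (.N (.N (.D 11305) (.N (.L 23252096) (.D
  14357))) (.D 12821))))) (.N (.D 3401) (.N (.D 26787) (.N (.D 10531) (.N (.D 10789) (.N (.D
  11305) (.N (.L 23252096) (.D 99312))))))))))) (.N (.N (.N (.N (.D 3653) (.D 35284)) (.N (.D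
  3653) (.N (.D 3657) (.N (.N (.D 10531) (.N (.D 10789) (.N (.D 11305) (.N (.L 23488640) (.D
  30739))))) (.D 28819))))) (.N (.N (.D 3653) (.N (.D 3657) (.N (.D 26787) (.N (.N (.D 10789) (.N
  (.D 11305) (.N (.L 14069888) (.D 14355)))) (.D 12563))))) (.N (.D 3653) (.N (.D 3657) (.N (.D
  26787) (.N (.D 10531) (.N (.D 10789) (.N (.D 11305) (.N (.L 23488640) (.D 99312)))))))))) (.N
  (.N (.N (.N (.N (.N (.N (.N (.N (.L 28076160) (.D 14355)) (.D 13337)) (.D 12821)) (.D 12563))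
  (.D 28819)) (.D 50136)) (.D 35284)) (.N (.D 19154) (.N (.D 19666) (.N (.N (.D 10531) (.N (.D
  10789) (.N (.D 11305) (.N (.L 28076160) (.D 30739))))) (.D 28819))))) (.N (.N (.D 2897) (.N (.D
  3409) (.N (.D 26787) (.N (.N (.D 10789) (.N (.D 11305) (.N (.L 14069888) (.D 14355)))) (.D
  12563))))) (.N (.N (.D 3665) (.N (.D 26787) (.N (.D 10531) (.N (.N (.D 11305) (.N (.L 16091264)
  (.D 14357))) (.D 12821))))) (.N (.N (.D 26787) (.N (.D 10531) (.N (.D 10789) (.N (.N (.L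
  28076160) (.D 14361)) (.D 13337))))) (.N (.D 26787) (.N (.D 10531) (.N (.D 10789) (.N (.D 11305)
  (.N (.L 28076160) (.D 99312)))))))))))))

def ext5 : CT :=
  .N (.N (.N (.N (.N (.N (.N (.N (.N (.N (.N (.N (.N (.N (.N (.L 28076160) (.D 14355)) (.D 13337))
  (.D 12821)) (.D 12563)) (.D 28819)) (.D 50136)) (.D 66516)) (.D 66514)) (.D 66513)) (.D 50124))
  (.D 50122)) (.D 50121)) (.N (.N (.D 34246) (.N (.D 18118) (.N (.N (.D 35270) (.N (.D 19142) (.N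
  (.D 19658) (.N (.N (.D 10531) (.N (.D 10789) (.N (.D 11305) (.N (.L 28076160) (.D 30739))))) (.D
  28819))))) (.D 66513)))) (.D 50121))) (.N (.N (.D 34245) (.N (.N (.D 1861) (.N (.D 35269) (.N
  (.N (.D 2885) (.N (.D 3401) (.N (.D 26787) (.N (.N (.D 10789) (.N (.D 11305) (.N (.L 23287936)
  (.D 14355)))) (.D 12563))))) (.D 66514)))) (.D 50122))) (.N (.D 34245) (.N (.D 34246) (.N (.N
  (.D 35269) (.N (.D 35270) (.N (.D 3653) (.N (.D 3657) (.N (.D 26787) (.N (.D 10531) (.N (.D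
  10789) (.N (.D 11305) (.N (.L 26914944) (.D 99312)))))))))) (.N (.D 35269) (.N (.D 35270) (.N
  (.N (.D 3665) (.N (.D 26787) (.N (.D 10531) (.N (.N (.D 11305) (.N (.L 28068992) (.D 14357)))
  (.D 12821))))) (.N (.N (.D 26787) (.N (.D 10531) (.N (.D 10789) (.N (.N (.L 28076160) (.D
  14361)) (.D 13337))))) (.N (.D 26787) (.N (.D 10531) (.N (.D 10789) (.N (.D 11305) (.N (.L
  28076160) (.D 99312))))))))))))))) (.N (.N (.N (.D 18115) (.N (.D 1859) (.N (.N (.D 19139) (.N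
  (.D 2883) (.N (.N (.D 3657) (.N (.D 26787) (.N (.D 10531) (.N (.N (.D 11305) (.N (.L 23316608)
  (.D 14357))) (.D 12821))))) (.D 66516)))) (.D 50124)))) (.N (.D 18115) (.N (.N (.D 18118) (.N
  (.D 19139) (.N (.D 3395) (.N (.D 19142) (.N (.D 3401) (.N (.D 26787) (.N (.D 10531) (.N (.D
  10789) (.N (.D 11305) (.N (.L 26849536) (.D 99312))))))))))) (.N (.D 18118) (.N (.D 19139) (.N
  (.N (.D 19142) (.N (.D 3409) (.N (.D 26787) (.N (.N (.D 10789) (.N (.D 11305) (.N (.L 28060928)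
  (.D 14355)))) (.D 12563))))) (.N (.D 19142) (.N (.N (.D 26787) (.N (.D 10531) (.N (.D 10789) (.N
  (.N (.L 11897984) (.D 14361)) (.D 13337))))) (.N (.D 26787) (.N (.D 10531) (.N (.D 10789) (.N
  (.D 11305) (.N (.L 26578048) (.D 99312)))))))))))))) sv5)

def sv6 : CT :=
  .N (.N (.N (.D 1859) (.N (.D 1861) (.N (.D 19651) (.N (.D 2883) (.N (.D 9749) (.N (.D 9753) (.N
  (.D 21699) (.N (.D 4931) (.N (.D 9765) (.N (.D 9769) (.N (.D 9777) (.L 25866624)))))))))))) (.N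
  (.D 1859) (.N (.D 1861) (.N (.N (.D 2883) (.N (.D 9749) (.N (.D 9753) (.N (.D 22723) (.N (.D
  4931) (.N (.D 9765) (.N (.D 9769) (.N (.D 9777) (.L 25865728))))))))) (.N (.D 2883) (.N (.D
  9749) (.N (.D 9753) (.N (.N (.D 4931) (.N (.D 9765) (.N (.D 9769) (.N (.D 9777) (.L
  25857664))))) (.N (.D 4931) (.N (.D 9765) (.N (.D 9769) (.N (.D 9777) (.L 23287936)))))))))))))
  (.N (.N (.N (.N (.D 19651) (.N (.D 3395) (.N (.N (.N (.D 21699) (.N (.D 5443) (.N (.N (.N (.L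
  23488640) (.D 14349)) (.D 13325)) (.D 12813)))) (.D 11277)) (.D 10765)))) (.D 34252)) (.N (.D
  18122) (.N (.D 19651) (.N (.N (.D 9749) (.N (.D 9753) (.N (.D 21699) (.N (.D 6467) (.N (.D 9765)
  (.N (.D 9769) (.N (.D 9777) (.L 25995648)))))))) (.N (.D 9749) (.N (.D 9753) (.N (.D 21699) (.N
  (.N (.D 9765) (.N (.D 9769) (.N (.D 9777) (.L 26052992)))) (.N (.D 9765) (.N (.D 9769) (.N (.D
  9777) (.L 27101312)))))))))))) (.N (.N (.D 1865) (.N (.N (.D 3395) (.N (.D 9749) (.N (.D 9753)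
  (.N (.D 22723) (.N (.D 5443) (.N (.D 9765) (.N (.D 9769) (.N (.D 9777) (.L 25930240))))))))) (.N
  (.D 3395) (.N (.D 9749) (.N (.D 9753) (.N (.N (.D 5443) (.N (.D 9765) (.N (.D 9769) (.N (.D
  9777) (.L 25922176))))) (.N (.D 5443) (.N (.D 9765) (.N (.D 9769) (.N (.D 9777) (.L
  23230592))))))))))) (.N (.N (.N (.N (.N (.N (.D 22723) (.N (.D 6467) (.N (.N (.N (.L 24406144)
  (.D 14349)) (.D 13325)) (.D 12813)))) (.D 11277)) (.D 10765)) (.N (.D 19154) (.D 10765))) (.N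
  (.N (.D 2897) (.D 10765)) (.N (.N (.N (.N (.N (.N (.N (.L 28076160) (.D 14349)) (.D 13325)) (.D
  12813)) (.N (.D 21218) (.D 12813))) (.N (.N (.D 4961) (.D 12813)) (.N (.N (.N (.L 28076160) (.D
  14349)) (.D 13325)) (.D 12813)))) (.D 11277)) (.D 10765)))) (.N (.N (.N (.D 9749) (.D 35284))
  (.N (.D 9749) (.N (.D 9753) (.N (.D 22723) (.N (.N (.D 9765) (.N (.D 9769) (.N (.D 9777) (.L
  26044928)))) (.N (.D 9765) (.N (.D 9769) (.N (.D 9777) (.L 27617408))))))))) (.N (.N (.D 9749)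
  (.N (.D 9753) (.N (.N (.D 6467) (.N (.D 9765) (.N (.D 9769) (.N (.D 9777) (.L 25979520))))) (.N
  (.D 6467) (.N (.D 9765) (.N (.D 9769) (.N (.D 9777) (.L 22714496)))))))) (.N (.D 9749) (.N (.D
  9753) (.N (.N (.N (.D 9765) (.D 37348)) (.N (.D 9765) (.N (.D 9769) (.N (.D 9777) (.L
  28076160))))) (.N (.N (.D 9765) (.N (.D 9769) (.N (.D 9777) (.L 18528384)))) (.N (.D 9765) (.N
  (.D 9769) (.N (.D 9777) (.L 28076160)))))))))))))

def ext6 : CT :=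
  .N (.N (.N (.N (.N (.N (.N (.N (.N (.N (.N (.N (.N (.N (.N (.L 28076160) (.D 14349)) (.D 13325))
  (.D 12813)) (.D 82914)) (.D 82913)) (.D 11277)) (.D 10765)) (.D 66514)) (.D 66513)) (.D 50124))
  (.D 50122)) (.D 50121)) (.N (.N (.D 34246) (.N (.D 18118) (.N (.N (.D 35270) (.N (.D 9749) (.N
  (.D 9753) (.N (.N (.D 37318) (.N (.D 9765) (.N (.D 9769) (.N (.D 9777) (.L 28076160))))) (.D
  82913))))) (.D 66513)))) (.D 50121))) (.N (.N (.D 34245) (.N (.N (.D 1861) (.N (.D 35269) (.N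
  (.N (.D 9749) (.N (.D 9753) (.N (.D 37317) (.N (.N (.D 9765) (.N (.D 9769) (.N (.D 9777) (.L
  23287936)))) (.D 82914))))) (.D 66514)))) (.D 50122))) (.N (.D 34245) (.N (.D 34246) (.N (.N (.D
  35269) (.N (.D 35270) (.N (.N (.N (.D 37317) (.N (.D 37318) (.N (.N (.N (.L 28076160) (.D
  14349)) (.D 13325)) (.D 12813)))) (.D 11277)) (.D 10765)))) (.N (.D 35269) (.N (.D 35270) (.N
  (.D 9749) (.N (.D 9753) (.N (.D 37317) (.N (.D 37318) (.N (.D 9765) (.N (.D 9769) (.N (.D 9777)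
  (.L 28076160))))))))))))))) (.N (.N (.N (.D 18115) (.N (.D 1859) (.N (.N (.D 19139) (.N (.D
  2883) (.N (.N (.N (.D 21187) (.N (.D 4931) (.N (.N (.N (.L 23316608) (.D 14349)) (.D 13325)) (.D
  12813)))) (.D 11277)) (.D 10765)))) (.D 50124)))) (.N (.D 18115) (.N (.N (.D 18118) (.N (.D
  19139) (.N (.D 3395) (.N (.D 9749) (.N (.D 9753) (.N (.D 21187) (.N (.D 5443) (.N (.D 9765) (.N
  (.D 9769) (.N (.D 9777) (.L 25932032))))))))))) (.N (.D 18118) (.N (.D 19139) (.N (.N (.D 9749)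
  (.N (.D 9753) (.N (.D 21187) (.N (.D 6467) (.N (.D 9765) (.N (.D 9769) (.N (.D 9777) (.L
  25996544)))))))) (.N (.D 9749) (.N (.D 9753) (.N (.D 21187) (.N (.N (.D 9765) (.N (.D 9769) (.N
  (.D 9777) (.L 26053888)))) (.N (.D 9765) (.N (.D 9769) (.N (.D 9777) (.L 26578048))))))))))))))
  sv6)

def ext7 : CT :=
  .N (.N (.N (.N (.N (.N (.N (.N (.N (.N (.N (.N (.N (.N (.N (.L 28076170) (.D 14361)) (.D 13337))
  (.D 12807)) (.D 12551)) (.D 82913)) (.D 50136)) (.D 27143)) (.D 66514)) (.D 26759)) (.D 50124))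
  (.D 42247)) (.D 42119)) (.N (.N (.N (.D 18118) (.N (.N (.D 35270) (.N (.N (.D 35276) (.N (.N (.D
  8995) (.N (.D 8997) (.N (.D 11305) (.N (.D 11313) (.L 28076171))))) (.D 82913))) (.D 27143)))
  (.D 26759))) (.D 42247)) (.D 42119))) (.N (.N (.N (.N (.D 1861) (.N (.D 25235) (.N (.N (.D
  25238) (.N (.D 35276) (.N (.D 37317) (.N (.N (.N (.D 11305) (.N (.D 11313) (.L 27617307))) (.D
  12807)) (.D 12551))))) (.D 66514)))) (.D 42247)) (.D 42119)) (.N (.N (.N (.N (.D 25235) (.N (.D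
  35270) (.N (.D 25238) (.N (.N (.D 37317) (.N (.D 8995) (.N (.D 8997) (.N (.N (.L 26554427) (.D
  14361)) (.D 13337))))) (.D 66520))))) (.N (.D 25235) (.N (.D 35270) (.N (.D 25238) (.N (.D
  35276) (.N (.D 37317) (.N (.D 8995) (.N (.D 8997) (.N (.D 11305) (.N (.D 11313) (.L
  1693224))))))))))) (.D 42247)) (.D 42119)))) (.N (.N (.N (.D 41357) (.N (.D 41358) (.N (.N (.N
  (.D 2883) (.N (.N (.D 3657) (.N (.D 21187) (.N (.N (.N (.D 11305) (.N (.D 11313) (.L 27100203)))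
  (.D 12807)) (.D 12551)))) (.D 27143))) (.D 26759)) (.D 50124)))) (.N (.D 41357) (.N (.D 41358)
  (.N (.D 18118) (.N (.N (.N (.N (.N (.D 21187) (.N (.D 8995) (.N (.D 8997) (.N (.N (.L 26037323)
  (.D 14361)) (.D 13337))))) (.D 50136)) (.D 27143)) (.N (.N (.D 18130) (.N (.D 21187) (.N (.D
  8995) (.N (.D 8997) (.N (.D 11305) (.N (.D 11313) (.L 2282904))))))) (.D 27143))) (.D
  26759)))))) (.N (.N (.D 41357) (.N (.D 41358) (.N (.D 1861) (.N (.D 25235) (.N (.D 2883) (.N (.D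
  25238) (.N (.N (.N (.N (.N (.N (.L 25447643) (.D 14361)) (.D 13337)) (.D 12807)) (.D 12551)) (.N
  (.N (.N (.D 1889) (.D 13337)) (.D 12807)) (.D 12551))) (.N (.N (.N (.N (.D 11305) (.D 50152))
  (.D 12807)) (.D 12551)) (.N (.N (.N (.D 11305) (.N (.D 11313) (.L 7000456))) (.D 12807)) (.D
  12551)))))))))) (.N (.D 41357) (.N (.D 41358) (.N (.N (.D 25235) (.N (.N (.D 25238) (.N (.D
  3657) (.N (.N (.D 8995) (.N (.D 8997) (.N (.D 11305) (.N (.D 11313) (.L 20277388))))) (.N (.D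
  8995) (.N (.D 8997) (.N (.D 11305) (.N (.D 11313) (.L 18073225)))))))) (.N (.D 25238) (.N (.D
  3657) (.N (.N (.D 8995) (.N (.D 8997) (.N (.D 11305) (.N (.D 11313) (.L 22266393))))) (.N (.D
  8995) (.N (.D 8997) (.N (.D 11305) (.N (.D 11313) (.L 10323045)))))))))) (.N (.D 25235) (.N (.N
  (.D 25238) (.N (.D 3409) (.N (.N (.D 8995) (.N (.D 8997) (.N (.D 11305) (.N (.D 11313) (.L
  21807529))))) (.N (.D 8995) (.N (.D 8997) (.N (.D 11305) (.N (.D 11313) (.L 6645861)))))))) (.N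
  (.D 25238) (.N (.N (.N (.D 8995) (.N (.D 8997) (.N (.D 21730) (.D 13337)))) (.N (.D 8995) (.N
  (.D 8997) (.N (.N (.L 15517832) (.D 14361)) (.D 13337))))) (.N (.N (.D 8995) (.N (.D 8997) (.N
  (.D 11305) (.N (.D 11313) (.L 2910437))))) (.N (.D 8995) (.N (.D 8997) (.N (.D 11305) (.N (.D
  11313) (.L 10323046)))))))))))))))

def ext8 : CT :=
  .N (.N (.N (.N (.N (.N (.N (.N (.N (.N (.N (.N (.N (.N (.N (.L 28076160) (.D 14355)) (.D 13337))
  (.D 12821)) (.D 12563)) (.D 28819)) (.D 50136)) (.D 66516)) (.D 66514)) (.D 66513)) (.D 9735))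
  (.D 9479)) (.D 50121)) (.N (.N (.D 8971) (.N (.D 8973) (.N (.N (.D 35270) (.N (.D 19142) (.N (.D
  19658) (.N (.N (.D 10531) (.N (.D 10789) (.N (.D 11305) (.N (.L 28076160) (.D 30739))))) (.D
  28819))))) (.D 66513)))) (.D 50121))) (.N (.N (.D 34245) (.N (.N (.N (.D 35269) (.N (.N (.D
  2885) (.N (.D 2889) (.N (.D 26787) (.N (.N (.D 10789) (.N (.D 11305) (.N (.L 23287936) (.D
  14355)))) (.D 12563))))) (.D 66514))) (.D 9735)) (.D 9479))) (.N (.D 34245) (.N (.D 8971) (.N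
  (.D 8973) (.N (.D 35269) (.N (.D 35270) (.N (.N (.D 3665) (.N (.D 26787) (.N (.D 10531) (.N (.N
  (.D 11305) (.N (.L 28068992) (.D 14357))) (.D 12821))))) (.N (.N (.D 26787) (.N (.D 10531) (.N
  (.D 10789) (.N (.N (.L 28076160) (.D 14361)) (.D 13337))))) (.N (.D 26787) (.N (.D 10531) (.N
  (.D 10789) (.N (.D 11305) (.N (.L 28076160) (.D 99312))))))))))))))) (.N (.N (.N (.D 18115) (.N
  (.N (.N (.D 19139) (.N (.D 2883) (.N (.N (.D 2889) (.N (.D 26787) (.N (.D 10531) (.N (.N (.D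
  11305) (.N (.L 23316608) (.D 14357))) (.D 12821))))) (.D 66516)))) (.D 9735)) (.D 9479))) (.N
  (.D 18115) (.N (.D 8971) (.N (.D 8973) (.N (.D 19139) (.N (.N (.D 19142) (.N (.D 3409) (.N (.D
  26787) (.N (.N (.D 10789) (.N (.D 11305) (.N (.L 28060928) (.D 14355)))) (.D 12563))))) (.N (.D
  19142) (.N (.N (.D 26787) (.N (.D 10531) (.N (.D 10789) (.N (.N (.L 28075264) (.D 14361)) (.D
  13337))))) (.N (.D 26787) (.N (.D 10531) (.N (.D 10789) (.N (.D 11305) (.N (.L 28075264) (.D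
  99312)))))))))))))) (.N (.N (.N (.N (.N (.D 19651) (.N (.D 2883) (.N (.D 2885) (.N (.N (.D
  26787) (.N (.D 10531) (.N (.D 10789) (.N (.N (.L 23488640) (.D 14361)) (.D 13337))))) (.D
  66520))))) (.D 9735)) (.D 9479)) (.N (.N (.N (.N (.D 2883) (.N (.D 2885) (.N (.D 2889) (.N (.N
  (.D 10531) (.N (.D 10789) (.N (.D 11305) (.N (.L 23488640) (.D 30739))))) (.D 28819))))) (.N (.D
  2883) (.N (.D 2885) (.N (.D 2889) (.N (.D 26787) (.N (.D 10531) (.N (.D 10789) (.N (.D 11305)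
  (.N (.L 23488640) (.D 99312)))))))))) (.D 9735)) (.D 9479))) (.N (.N (.D 8971) (.N (.D 8973) (.N
  (.D 19651) (.N (.N (.D 2897) (.N (.D 19658) (.N (.D 26787) (.N (.N (.D 10789) (.N (.D 11305) (.N
  (.L 28060032) (.D 14355)))) (.D 12563))))) (.N (.N (.D 19658) (.N (.D 26787) (.N (.D 10531) (.N
  (.N (.D 11305) (.N (.L 28067200) (.D 14357))) (.D 12821))))) (.N (.D 19658) (.N (.D 26787) (.N
  (.D 10531) (.N (.D 10789) (.N (.D 11305) (.N (.L 28067200) (.D 99312)))))))))))) (.N (.D 8971)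
  (.N (.D 8973) (.N (.N (.N (.N (.N (.N (.N (.N (.N (.L 28076160) (.D 14355)) (.D 13337)) (.D
  12821)) (.D 12563)) (.D 28819)) (.D 50136)) (.D 35284)) (.N (.D 19154) (.N (.D 19666) (.N (.N
  (.D 10531) (.N (.D 10789) (.N (.D 11305) (.N (.L 28076160) (.D 30739))))) (.D 28819))))) (.N (.N
  (.D 2897) (.N (.D 3409) (.N (.D 26787) (.N (.N (.D 10789) (.N (.D 11305) (.N (.L 28060928) (.D
  14355)))) (.D 12563))))) (.N (.N (.D 3665) (.N (.D 26787) (.N (.D 10531) (.N (.N (.D 11305) (.N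
  (.L 28068992) (.D 14357))) (.D 12821))))) (.N (.N (.D 26787) (.N (.D 10531) (.N (.D 10789) (.N
  (.N (.L 28076160) (.D 14361)) (.D 13337))))) (.N (.D 26787) (.N (.D 10531) (.N (.D 10789) (.N
  (.D 11305) (.N (.L 28076160) (.D 99312)))))))))))))))

def sv7 : CT :=
  .N (.N (.N (.D 18115) (.N (.D 1859) (.N (.N (.D 19139) (.N (.D 2883) (.N (.N (.N (.D 41381) (.N
  (.D 41382) (.N (.N (.N (.L 23316608) (.D 14349)) (.D 13325)) (.D 12813)))) (.D 11277)) (.D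
  10765)))) (.D 50124)))) (.N (.D 18115) (.N (.N (.D 18118) (.N (.D 19139) (.N (.D 3395) (.N (.D
  9749) (.N (.D 9753) (.N (.D 41381) (.N (.D 41382) (.N (.D 9765) (.N (.D 9769) (.N (.D 9777) (.L
  22714504))))))))))) (.N (.D 18118) (.N (.D 19139) (.N (.N (.D 9749) (.N (.D 9753) (.N (.D 41381)
  (.N (.D 41382) (.N (.D 9765) (.N (.D 9769) (.N (.D 9777) (.L 23230600)))))))) (.N (.D 9749) (.N
  (.D 9753) (.N (.D 41381) (.N (.D 41382) (.N (.D 9765) (.N (.D 9769) (.N (.D 9777) (.L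
  26506368)))))))))))))) (.N (.N (.N (.D 1859) (.N (.D 1861) (.N (.D 19651) (.N (.D 2883) (.N (.D
  9749) (.N (.D 9753) (.N (.D 41381) (.N (.D 41382) (.N (.D 9765) (.N (.D 9769) (.N (.D 9777) (.L
  22255752)))))))))))) (.N (.D 1859) (.N (.D 1861) (.N (.N (.D 2883) (.N (.D 9749) (.N (.D 9753)
  (.N (.D 41381) (.N (.D 41382) (.N (.D 9765) (.N (.D 9769) (.N (.D 9777) (.L 22313096)))))))))
  (.N (.D 2883) (.N (.D 9749) (.N (.D 9753) (.N (.D 41381) (.N (.D 41382) (.N (.D 9765) (.N (.D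
  9769) (.N (.D 9777) (.L 23287936))))))))))))) (.N (.N (.N (.N (.D 19651) (.N (.D 3395) (.N (.N
  (.N (.D 41381) (.N (.D 41382) (.N (.N (.N (.L 23488640) (.D 14349)) (.D 13325)) (.D 12813))))
  (.D 11277)) (.D 10765)))) (.D 34252)) (.N (.D 18122) (.N (.D 19651) (.N (.N (.D 9749) (.N (.D
  9753) (.N (.D 41381) (.N (.D 41382) (.N (.D 9765) (.N (.D 9769) (.N (.D 9777) (.L
  23287944)))))))) (.N (.D 9749) (.N (.D 9753) (.N (.D 41381) (.N (.D 41382) (.N (.D 9765) (.N (.D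
  9769) (.N (.D 9777) (.L 27022464)))))))))))) (.N (.N (.D 1865) (.N (.N (.D 3395) (.N (.D 9749)
  (.N (.D 9753) (.N (.D 41381) (.N (.D 41382) (.N (.D 9765) (.N (.D 9769) (.N (.D 9777) (.L
  22829192))))))))) (.N (.D 3395) (.N (.D 9749) (.N (.D 9753) (.N (.D 41381) (.N (.D 41382) (.N
  (.D 9765) (.N (.D 9769) (.N (.D 9777) (.L 23230592))))))))))) (.N (.N (.N (.N (.N (.N (.D 41381)
  (.N (.D 41382) (.N (.N (.N (.L 24406144) (.D 14349)) (.D 13325)) (.D 12813)))) (.D 11277)) (.D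
  10765)) (.N (.D 19154) (.D 10765))) (.N (.N (.D 2897) (.D 10765)) (.N (.N (.N (.D 41381) (.N (.D
  41382) (.N (.N (.N (.L 24406144) (.D 14349)) (.D 13325)) (.D 12813)))) (.D 11277)) (.D 10765))))
  (.N (.N (.N (.D 9749) (.D 35284)) (.N (.D 9749) (.N (.D 9753) (.N (.D 41381) (.N (.D 41382) (.N
  (.D 9765) (.N (.D 9769) (.N (.D 9777) (.L 27481216))))))))) (.N (.N (.D 9749) (.N (.D 9753) (.N
  (.D 41381) (.N (.D 41382) (.N (.D 9765) (.N (.D 9769) (.N (.D 9777) (.L 22714496)))))))) (.N (.D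
  9749) (.N (.D 9753) (.N (.D 41381) (.N (.D 41382) (.N (.D 9765) (.N (.D 9769) (.N (.D 9777) (.L
  27481216))))))))))))))

def ext9 : CT :=
  .N (.N (.N (.N (.N (.N (.N (.N (.N (.N (.N (.N (.N (.N (.N (.L 28076160) (.D 14349)) (.D 13325))
  (.D 12813)) (.D 45319)) (.D 45191)) (.D 11277)) (.D 10765)) (.D 66514)) (.D 66513)) (.D 50124))
  (.D 50122)) (.D 50121)) (.N (.N (.D 34246) (.N (.D 18118) (.N (.N (.D 35270) (.N (.D 9749) (.N
  (.D 9753) (.N (.N (.N (.D 9765) (.N (.D 9769) (.N (.D 9777) (.L 28076160)))) (.D 45319)) (.D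
  45191))))) (.D 66513)))) (.D 50121))) (.N (.N (.D 34245) (.N (.N (.D 1861) (.N (.D 35269) (.N
  (.N (.D 9749) (.N (.D 9753) (.N (.N (.N (.D 9765) (.N (.D 9769) (.N (.D 9777) (.L 23287936))))
  (.D 45319)) (.D 45191)))) (.D 66514)))) (.D 50122))) (.N (.D 34245) (.N (.D 34246) (.N (.N (.D
  35269) (.N (.D 35270) (.N (.N (.N (.N (.N (.N (.N (.L 28076160) (.D 14349)) (.D 13325)) (.D
  12813)) (.D 45319)) (.D 45191)) (.D 11277)) (.D 10765)))) (.N (.D 35269) (.N (.D 35270) (.N (.D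
  9749) (.N (.D 9753) (.N (.N (.N (.D 9765) (.N (.D 9769) (.N (.D 9777) (.L 28076160)))) (.D
  45319)) (.D 45191))))))))))) sv7

def sv8 : CT :=
  .N (.N (.N (.D 18115) (.N (.D 1859) (.N (.N (.D 19139) (.N (.D 2883) (.N (.N (.N (.D 26787) (.N
  (.D 10531) (.N (.N (.N (.L 23316608) (.D 14349)) (.D 13325)) (.D 12813)))) (.D 11277)) (.D
  10765)))) (.D 50124)))) (.N (.D 18115) (.N (.N (.D 18118) (.N (.D 19139) (.N (.D 3395) (.N (.D
  9749) (.N (.D 9753) (.N (.D 26787) (.N (.D 10531) (.N (.D 9765) (.N (.D 9769) (.N (.L 25932032)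
  (.D 99312))))))))))) (.N (.D 18118) (.N (.D 19139) (.N (.N (.D 9749) (.N (.D 9753) (.N (.D
  26787) (.N (.N (.D 9765) (.N (.D 9769) (.N (.L 26053888) (.D 14355)))) (.D 12563))))) (.N (.D
  9749) (.N (.D 9753) (.N (.D 26787) (.N (.D 10531) (.N (.D 9765) (.N (.D 9769) (.N (.L 26578048)
  (.D 99312)))))))))))))) (.N (.N (.N (.D 1859) (.N (.D 1861) (.N (.D 19651) (.N (.D 2883) (.N (.D
  9749) (.N (.D 9753) (.N (.D 26787) (.N (.D 10531) (.N (.D 9765) (.N (.D 9769) (.N (.L 25866624)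
  (.D 99312)))))))))))) (.N (.D 1859) (.N (.D 1861) (.N (.N (.D 2883) (.N (.D 9749) (.N (.D 9753)
  (.N (.N (.D 10531) (.N (.D 9765) (.N (.D 9769) (.N (.L 25851392) (.D 30739))))) (.D 28819)))))
  (.N (.D 2883) (.N (.D 9749) (.N (.D 9753) (.N (.D 26787) (.N (.D 10531) (.N (.D 9765) (.N (.D
  9769) (.N (.L 23287936) (.D 99312))))))))))))) (.N (.N (.N (.N (.D 19651) (.N (.D 3395) (.N (.N
  (.N (.D 26787) (.N (.D 10531) (.N (.N (.N (.L 23488640) (.D 14349)) (.D 13325)) (.D 12813))))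
  (.D 11277)) (.D 10765)))) (.D 34252)) (.N (.D 18122) (.N (.D 19651) (.N (.N (.D 9749) (.N (.D
  9753) (.N (.D 26787) (.N (.N (.D 9765) (.N (.D 9769) (.N (.L 26052992) (.D 14355)))) (.D
  12563))))) (.N (.D 9749) (.N (.D 9753) (.N (.D 26787) (.N (.D 10531) (.N (.D 9765) (.N (.D 9769)
  (.N (.L 27101312) (.D 99312)))))))))))) (.N (.N (.D 1865) (.N (.N (.D 3395) (.N (.D 9749) (.N
  (.D 9753) (.N (.N (.D 10531) (.N (.D 9765) (.N (.D 9769) (.N (.L 25908736) (.D 30739))))) (.D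
  28819))))) (.N (.D 3395) (.N (.D 9749) (.N (.D 9753) (.N (.D 26787) (.N (.D 10531) (.N (.D 9765)
  (.N (.D 9769) (.N (.L 23230592) (.D 99312))))))))))) (.N (.N (.N (.N (.N (.N (.N (.N (.N (.N (.L
  28076160) (.D 14349)) (.D 13325)) (.D 12813)) (.D 12563)) (.D 28819)) (.D 11277)) (.D 10765))
  (.N (.D 19154) (.D 10765))) (.N (.N (.D 2897) (.D 10765)) (.N (.N (.N (.D 26787) (.N (.D 10531)
  (.N (.N (.N (.L 28076160) (.D 14349)) (.D 13325)) (.D 12813)))) (.D 11277)) (.D 10765)))) (.N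
  (.N (.N (.D 9749) (.D 35284)) (.N (.D 9749) (.N (.D 9753) (.N (.N (.D 10531) (.N (.D 9765) (.N
  (.D 9769) (.N (.L 28076160) (.D 30739))))) (.D 28819))))) (.N (.N (.D 9749) (.N (.D 9753) (.N
  (.D 26787) (.N (.N (.D 9765) (.N (.D 9769) (.N (.L 13998208) (.D 14355)))) (.D 12563))))) (.N
  (.D 9749) (.N (.D 9753) (.N (.D 26787) (.N (.D 10531) (.N (.D 9765) (.N (.D 9769) (.N (.L
  28076160) (.D 99312))))))))))))))

def ext10 : CT :=
  .N (.N (.N (.N (.N (.N (.N (.N (.N (.N (.N (.N (.N (.N (.N (.L 28076160) (.D 14349)) (.D 13325))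
  (.D 12813)) (.D 12563)) (.D 28819)) (.D 11277)) (.D 10765)) (.D 66514)) (.D 66513)) (.D 50124))
  (.D 50122)) (.D 50121)) (.N (.N (.D 34246) (.N (.D 18118) (.N (.N (.D 35270) (.N (.D 9749) (.N
  (.D 9753) (.N (.N (.D 10531) (.N (.D 9765) (.N (.D 9769) (.N (.L 28076160) (.D 30739))))) (.D
  28819))))) (.D 66513)))) (.D 50121))) (.N (.N (.D 34245) (.N (.N (.D 1861) (.N (.D 35269) (.N
  (.N (.D 9749) (.N (.D 9753) (.N (.D 26787) (.N (.N (.D 9765) (.N (.D 9769) (.N (.L 23287936) (.D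
  14355)))) (.D 12563))))) (.D 66514)))) (.D 50122))) (.N (.D 34245) (.N (.D 34246) (.N (.N (.D
  35269) (.N (.D 35270) (.N (.N (.N (.D 26787) (.N (.D 10531) (.N (.N (.N (.L 28076160) (.D
  14349)) (.D 13325)) (.D 12813)))) (.D 11277)) (.D 10765)))) (.N (.D 35269) (.N (.D 35270) (.N
  (.D 9749) (.N (.D 9753) (.N (.D 26787) (.N (.D 10531) (.N (.D 9765) (.N (.D 9769) (.N (.L
  28076160) (.D 99312))))))))))))))) sv8

def ext11 : CT :=
  .N (.N (.N (.N (.N (.N (.N (.N (.N (.N (.N (.N (.N (.N (.N (.L 27101312) (.D 14349)) (.D 13325))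
  (.D 12813)) (.D 12563)) (.D 28819)) (.D 11277)) (.D 10765)) (.D 66514)) (.D 66513)) (.D 50124))
  (.D 42247)) (.D 42119)) (.N (.N (.N (.D 18118) (.N (.N (.D 35270) (.N (.D 9749) (.N (.D 9753)
  (.N (.N (.D 10531) (.N (.D 9765) (.N (.D 9769) (.N (.L 27101312) (.D 30739))))) (.D 28819)))))
  (.D 66513))) (.D 42247)) (.D 42119))) (.N (.N (.N (.N (.D 1861) (.N (.D 35269) (.N (.N (.D 9749)
  (.N (.D 9753) (.N (.D 26787) (.N (.N (.D 9765) (.N (.D 9769) (.N (.L 15489152) (.D 14355)))) (.D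
  12563))))) (.D 66514)))) (.D 42247)) (.D 42119)) (.N (.N (.N (.N (.D 35269) (.N (.D 35270) (.N
  (.N (.N (.D 26787) (.N (.D 10531) (.N (.N (.N (.L 27101312) (.D 14349)) (.D 13325)) (.D
  12813)))) (.D 11277)) (.D 10765)))) (.N (.D 35269) (.N (.D 35270) (.N (.D 9749) (.N (.D 9753)
  (.N (.D 26787) (.N (.D 10531) (.N (.D 9765) (.N (.D 9769) (.N (.L 27101312) (.D 99312)))))))))))
  (.D 42247)) (.D 42119)))) (.N (.N (.N (.D 41357) (.N (.D 41358) (.N (.N (.D 19139) (.N (.D 2883)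
  (.N (.N (.N (.D 26787) (.N (.D 10531) (.N (.N (.N (.L 15517824) (.D 14349)) (.D 13325)) (.D
  12813)))) (.D 11277)) (.D 10765)))) (.D 50124)))) (.N (.D 41357) (.N (.D 41358) (.N (.D 18118)
  (.N (.D 19139) (.N (.N (.D 9749) (.N (.D 9753) (.N (.D 26787) (.N (.N (.D 9765) (.N (.D 9769)
  (.N (.L 21155019) (.D 14355)))) (.D 12563))))) (.N (.D 9749) (.N (.D 9753) (.N (.D 26787) (.N
  (.D 10531) (.N (.D 9765) (.N (.D 9769) (.N (.L 26578048) (.D 99312)))))))))))))) (.N (.N (.D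
  41357) (.N (.D 41358) (.N (.D 1861) (.N (.N (.D 2883) (.N (.D 9749) (.N (.D 9753) (.N (.N (.D
  10531) (.N (.D 9765) (.N (.D 9769) (.N (.L 21679179) (.D 30739))))) (.D 28819))))) (.N (.D 2883)
  (.N (.D 9749) (.N (.D 9753) (.N (.D 26787) (.N (.D 10531) (.N (.D 9765) (.N (.D 9769) (.N (.L
  15489152) (.D 99312))))))))))))) (.N (.D 41357) (.N (.D 41358) (.N (.N (.N (.N (.N (.N (.N (.N
  (.N (.N (.L 16091264) (.D 14349)) (.D 13325)) (.D 12813)) (.D 12563)) (.D 28819)) (.D 11277))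
  (.D 10765)) (.N (.D 19154) (.D 10765))) (.N (.N (.D 2897) (.D 10765)) (.N (.N (.N (.D 26787) (.N
  (.D 10531) (.N (.N (.N (.L 16091264) (.D 14349)) (.D 13325)) (.D 12813)))) (.D 11277)) (.D
  10765)))) (.N (.N (.N (.D 9749) (.D 35284)) (.N (.D 9749) (.N (.D 9753) (.N (.N (.D 10531) (.N
  (.D 9765) (.N (.D 9769) (.N (.L 28068992) (.D 30739))))) (.D 28819))))) (.N (.N (.D 9749) (.N
  (.D 9753) (.N (.D 26787) (.N (.N (.D 9765) (.N (.D 9769) (.N (.L 13998208) (.D 14355)))) (.D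
  12563))))) (.N (.D 9749) (.N (.D 9753) (.N (.D 26787) (.N (.D 10531) (.N (.D 9765) (.N (.D 9769)
  (.N (.L 28068992) (.D 99312)))))))))))))))

def ext12 : CT :=
  .N (.N (.N (.N (.N (.N (.N (.N (.N (.N (.N (.N (.N (.N (.N (.L 28076160) (.D 47111)) (.D 13325))
  (.D 12813)) (.D 45319)) (.D 45191)) (.D 11277)) (.D 10765)) (.D 43271)) (.D 43143)) (.D 50124))
  (.D 50122)) (.D 50121)) (.N (.N (.D 34246) (.N (.D 18118) (.N (.N (.N (.D 9749) (.N (.D 9753)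
  (.N (.N (.N (.D 9765) (.N (.D 9769) (.N (.L 28076160) (.D 47111)))) (.D 45319)) (.D 45191))))
  (.D 43271)) (.D 43143)))) (.D 50121))) (.N (.N (.D 34245) (.N (.N (.D 1861) (.N (.N (.N (.D
  9749) (.N (.D 9753) (.N (.N (.N (.D 9765) (.N (.D 9769) (.N (.L 23287936) (.D 47111)))) (.D
  45319)) (.D 45191)))) (.D 43271)) (.D 43143))) (.D 50122))) (.N (.D 34245) (.N (.D 34246) (.N
  (.N (.N (.N (.N (.N (.N (.N (.N (.N (.L 28076160) (.D 47111)) (.D 13325)) (.D 12813)) (.D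
  45319)) (.D 45191)) (.D 11277)) (.D 10765)) (.D 43271)) (.D 43143)) (.N (.N (.N (.D 9749) (.N
  (.D 9753) (.N (.N (.N (.D 9765) (.N (.D 9769) (.N (.L 28076160) (.D 47111)))) (.D 45319)) (.D
  45191)))) (.D 43271)) (.D 43143))))))) (.N (.N (.N (.D 18115) (.N (.D 1859) (.N (.N (.D 41365)
  (.N (.D 41366) (.N (.N (.N (.D 41381) (.N (.D 41382) (.N (.N (.N (.L 23316608) (.D 14349)) (.D
  13325)) (.D 12813)))) (.D 11277)) (.D 10765)))) (.D 50124)))) (.N (.D 18115) (.N (.N (.D 18118)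
  (.N (.D 41365) (.N (.D 41366) (.N (.D 9749) (.N (.D 9753) (.N (.D 41381) (.N (.D 41382) (.N (.D
  9765) (.N (.D 9769) (.N (.L 24324171) (.D 99312))))))))))) (.N (.D 18118) (.N (.D 41365) (.N (.D
  41366) (.N (.D 9749) (.N (.D 9753) (.N (.D 41381) (.N (.D 41382) (.N (.D 9765) (.N (.D 9769) (.N
  (.L 26456192) (.D 99312)))))))))))))) (.N (.N (.N (.D 1859) (.N (.D 1861) (.N (.D 41365) (.N (.D
  41366) (.N (.D 9749) (.N (.D 9753) (.N (.D 41381) (.N (.D 41382) (.N (.D 9765) (.N (.D 9769) (.N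
  (.L 24259659) (.D 99312)))))))))))) (.N (.D 1859) (.N (.D 1861) (.N (.D 41365) (.N (.D 41366)
  (.N (.D 9749) (.N (.D 9753) (.N (.D 41381) (.N (.D 41382) (.N (.D 9765) (.N (.D 9769) (.N (.L
  23287936) (.D 99312))))))))))))) (.N (.N (.N (.N (.D 41365) (.N (.D 41366) (.N (.N (.N (.D
  41381) (.N (.D 41382) (.N (.N (.N (.L 23488640) (.D 14349)) (.D 13325)) (.D 12813)))) (.D
  11277)) (.D 10765)))) (.D 34252)) (.N (.D 18122) (.N (.D 41365) (.N (.D 41366) (.N (.D 9749) (.N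
  (.D 9753) (.N (.D 41381) (.N (.D 41382) (.N (.D 9765) (.N (.D 9769) (.N (.L 26914944) (.D
  99312)))))))))))) (.N (.N (.D 1865) (.N (.D 41365) (.N (.D 41366) (.N (.D 9749) (.N (.D 9753)
  (.N (.D 41381) (.N (.D 41382) (.N (.D 9765) (.N (.D 9769) (.N (.L 23230592) (.D 99312)))))))))))
  (.N (.N (.D 41365) (.N (.D 41366) (.N (.N (.N (.D 41381) (.N (.D 41382) (.N (.N (.N (.L
  23488640) (.D 14349)) (.D 13325)) (.D 12813)))) (.D 11277)) (.D 10765)))) (.N (.D 41365) (.N (.D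
  41366) (.N (.D 9749) (.N (.D 9753) (.N (.D 41381) (.N (.D 41382) (.N (.D 9765) (.N (.D 9769) (.N
  (.L 26914944) (.D 99312)))))))))))))))

def ext13 : CT :=
  .N (.N (.N (.N (.N (.N (.N (.N (.N (.N (.N (.N (.N (.N (.N (.L 28076160) (.D 14355)) (.D 13333))
  (.D 12821)) (.D 12563)) (.D 28819)) (.D 11285)) (.D 66516)) (.D 66514)) (.D 66513)) (.D 9735))
  (.D 9479)) (.D 25735)) (.N (.N (.D 8971) (.N (.N (.N (.D 35270) (.N (.D 19142) (.N (.D 10777)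
  (.N (.N (.D 10531) (.N (.D 10789) (.N (.D 10793) (.N (.L 28076160) (.D 30739))))) (.D 28819)))))
  (.D 66513)) (.D 26119))) (.D 25735))) (.N (.N (.D 25227) (.N (.N (.N (.D 35269) (.N (.N (.D
  2885) (.N (.D 10777) (.N (.D 26787) (.N (.N (.D 10789) (.N (.D 10793) (.N (.L 23287936) (.D
  14355)))) (.D 12563))))) (.D 66514))) (.D 9735)) (.D 9479))) (.N (.D 25227) (.N (.D 8971) (.N
  (.N (.D 35269) (.N (.D 35270) (.N (.N (.N (.D 26787) (.N (.D 10531) (.N (.N (.N (.L 28076160)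
  (.D 14357)) (.D 13333)) (.D 12821)))) (.D 11285)) (.N (.D 10777) (.N (.D 26787) (.N (.D 10531)
  (.N (.D 10789) (.N (.D 10793) (.N (.L 28076160) (.D 99312)))))))))) (.D 99276)))))) (.N (.N (.N
  (.N (.N (.N (.D 19139) (.N (.D 2883) (.N (.N (.N (.D 26787) (.N (.D 10531) (.N (.N (.N (.L
  23488640) (.D 14357)) (.D 13333)) (.D 12821)))) (.D 11285)) (.D 66516)))) (.D 9735)) (.D 9479))
  (.D 25735)) (.N (.N (.D 8971) (.N (.N (.D 19139) (.N (.N (.D 19142) (.N (.D 10777) (.N (.D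
  26787) (.N (.N (.D 10789) (.N (.D 10793) (.N (.L 14069888) (.D 14355)))) (.D 12563))))) (.N (.D
  19142) (.N (.D 10777) (.N (.D 26787) (.N (.D 10531) (.N (.D 10789) (.N (.D 10793) (.N (.L
  26914944) (.D 99312)))))))))) (.D 26119))) (.D 25735))) (.N (.N (.D 25227) (.N (.N (.N (.N (.D
  2883) (.N (.D 2885) (.N (.D 10777) (.N (.N (.D 10531) (.N (.D 10789) (.N (.D 10793) (.N (.L
  23488640) (.D 30739))))) (.D 28819))))) (.N (.D 2883) (.N (.D 2885) (.N (.D 10777) (.N (.D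
  26787) (.N (.D 10531) (.N (.D 10789) (.N (.D 10793) (.N (.L 23488640) (.D 99312)))))))))) (.D
  9735)) (.D 9479))) (.N (.D 25227) (.N (.D 8971) (.N (.N (.N (.N (.N (.N (.N (.N (.N (.N (.L
  28076160) (.D 14355)) (.D 13333)) (.D 12821)) (.D 12563)) (.D 28819)) (.D 11285)) (.D 35284))
  (.N (.D 19154) (.N (.D 10777) (.N (.N (.D 10531) (.N (.D 10789) (.N (.D 10793) (.N (.L 28076160)
  (.D 30739))))) (.D 28819))))) (.N (.N (.D 2897) (.N (.D 10777) (.N (.D 26787) (.N (.N (.D 10789)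
  (.N (.D 10793) (.N (.L 14069888) (.D 14355)))) (.D 12563))))) (.N (.N (.N (.D 26787) (.N (.D
  10531) (.N (.N (.N (.L 28076160) (.D 14357)) (.D 13333)) (.D 12821)))) (.D 11285)) (.N (.D
  10777) (.N (.D 26787) (.N (.D 10531) (.N (.D 10789) (.N (.D 10793) (.N (.L 28076160) (.D
  99312)))))))))) (.D 99276))))))

def ext14 : CT :=
  .N (.N (.N (.N (.N (.N (.N (.N (.N (.N (.N (.N (.N (.N (.N (.L 28076160) (.D 14355)) (.D 13337))
  (.D 12821)) (.D 12563)) (.D 28819)) (.D 51672)) (.D 35284)) (.N (.D 19154) (.N (.D 19666) (.N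
  (.N (.D 10531) (.N (.D 10789) (.N (.D 11305) (.N (.L 28076160) (.D 30739))))) (.D 28819))))) (.N
  (.N (.D 2897) (.N (.D 3409) (.N (.D 26787) (.N (.N (.D 10789) (.N (.D 11305) (.N (.L 14069888)
  (.D 14355)))) (.D 12563))))) (.N (.N (.D 3665) (.N (.D 26787) (.N (.D 10531) (.N (.N (.D 11305)
  (.N (.L 16091264) (.D 14357))) (.D 12821))))) (.N (.N (.D 26787) (.N (.D 10531) (.N (.D 10789)
  (.N (.N (.L 28076160) (.D 14361)) (.D 13337))))) (.N (.D 26787) (.N (.D 10531) (.N (.D 10789)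
  (.N (.D 11305) (.N (.L 28076160) (.D 100848)))))))))) (.D 75283)) (.D 75027)) (.D 74899)) (.D
  74515)) (.D 74387)) (.N (.D 74133) (.N (.D 74134) (.N (.D 74137) (.N (.D 74138) (.N (.D 74140)
  (.N (.N (.N (.N (.N (.N (.N (.N (.N (.L 28076160) (.D 14355)) (.D 13337)) (.D 12821)) (.D
  12563)) (.D 28819)) (.D 51672)) (.D 35284)) (.N (.D 19154) (.N (.D 19666) (.N (.N (.D 10531) (.N
  (.D 10789) (.N (.D 11305) (.N (.L 28076160) (.D 30739))))) (.D 28819))))) (.N (.N (.D 2897) (.N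
  (.D 3409) (.N (.D 26787) (.N (.N (.D 10789) (.N (.D 11305) (.N (.L 14069888) (.D 14355)))) (.D
  12563))))) (.N (.N (.D 3665) (.N (.D 26787) (.N (.D 10531) (.N (.N (.D 11305) (.N (.L 16091264)
  (.D 14357))) (.D 12821))))) (.N (.N (.D 26787) (.N (.D 10531) (.N (.D 10789) (.N (.N (.L
  28076160) (.D 14361)) (.D 13337))))) (.N (.D 26787) (.N (.D 10531) (.N (.D 10789) (.N (.D 11305)
  (.N (.L 28076160) (.D 100848)))))))))))))))

def sv9 : CT :=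
  .N (.N (.N (.D 1859) (.N (.D 1861) (.N (.D 19651) (.N (.D 2883) (.N (.D 2885) (.N (.D 19658) (.N
  (.N (.N (.N (.N (.L 27931008) (.D 66544)) (.D 29707)) (.D 12807)) (.D 12551)) (.D 28811))))))))
  (.N (.D 1859) (.N (.D 1861) (.N (.N (.D 2883) (.N (.D 2885) (.N (.D 19666) (.N (.N (.N (.N (.N
  (.L 20268416) (.D 30739)) (.D 50152)) (.D 12807)) (.D 12551)) (.D 28819))))) (.N (.D 2883) (.N
  (.D 2885) (.N (.N (.N (.N (.N (.N (.L 18786432) (.D 14361)) (.D 13337)) (.D 12807)) (.D 12551))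
  (.D 99297)) (.N (.N (.N (.N (.N (.L 18786432) (.D 66544)) (.D 50152)) (.D 12807)) (.D 12551))
  (.D 99297))))))))) (.N (.N (.N (.N (.D 19651) (.N (.D 3395) (.N (.D 3653) (.N (.N (.N (.N (.N
  (.N (.L 20277376) (.D 14361)) (.D 13323)) (.D 12813)) (.D 12555)) (.D 28811)) (.D 66520))))) (.D
  34252)) (.N (.D 18122) (.N (.D 19651) (.N (.N (.D 2897) (.N (.D 19658) (.N (.N (.N (.N (.N (.L
  16090368) (.D 14355)) (.D 29707)) (.D 99300)) (.D 12563)) (.D 28811)))) (.N (.N (.D 19658) (.N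
  (.N (.N (.N (.N (.L 16091264) (.D 14357)) (.D 29707)) (.D 12821)) (.D 99298)) (.D 28811))) (.N
  (.D 19658) (.N (.N (.N (.N (.N (.L 28018816) (.D 66544)) (.D 29707)) (.D 99300)) (.D 99298)) (.D
  28811)))))))) (.N (.N (.D 1865) (.N (.N (.D 3395) (.N (.D 19154) (.N (.D 3401) (.N (.N (.N (.N
  (.N (.L 20276480) (.D 30739)) (.D 13323)) (.D 99300)) (.D 12555)) (.D 28819))))) (.N (.D 3395)
  (.N (.N (.D 3401) (.N (.N (.N (.N (.N (.L 18263168) (.D 14357)) (.D 13323)) (.D 12821)) (.D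
  12555)) (.D 99297))) (.N (.D 3401) (.N (.N (.N (.N (.N (.L 18263168) (.D 66544)) (.D 13323)) (.D
  99300)) (.D 12555)) (.D 99297))))))) (.N (.N (.N (.N (.D 3653) (.D 35284)) (.N (.D 3653) (.N (.D
  3657) (.N (.N (.N (.N (.N (.L 20277376) (.D 30739)) (.D 13325)) (.D 12813)) (.D 99298)) (.D
  28819))))) (.N (.N (.D 3653) (.N (.D 3657) (.N (.N (.N (.N (.N (.L 14069888) (.D 14355)) (.D
  13325)) (.D 12813)) (.D 12563)) (.D 99297)))) (.N (.D 3653) (.N (.D 3657) (.N (.N (.N (.N (.N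
  (.L 20277376) (.D 66544)) (.D 13325)) (.D 12813)) (.D 99298)) (.D 99297)))))) (.N (.N (.N (.N
  (.N (.N (.N (.N (.N (.L 28076160) (.D 14355)) (.D 13337)) (.D 12821)) (.D 12563)) (.D 28819))
  (.D 50136)) (.D 35284)) (.N (.D 19154) (.N (.D 19666) (.N (.N (.N (.N (.N (.L 28076160) (.D
  30739)) (.D 50152)) (.D 99300)) (.D 99298)) (.D 28819))))) (.N (.N (.D 2897) (.N (.D 3409) (.N
  (.N (.N (.N (.N (.L 14069888) (.D 14355)) (.D 50152)) (.D 99300)) (.D 12563)) (.D 99297)))) (.N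
  (.N (.D 3665) (.N (.N (.N (.N (.N (.L 16091264) (.D 14357)) (.D 50152)) (.D 12821)) (.D 99298))
  (.D 99297))) (.N (.N (.N (.N (.N (.N (.L 28076160) (.D 14361)) (.D 13337)) (.D 99300)) (.D
  99298)) (.D 99297)) (.N (.N (.N (.N (.N (.L 28076160) (.D 66544)) (.D 50152)) (.D 99300)) (.D
  99298)) (.D 99297)))))))))

def ext15 : CT :=
  .N (.N (.N (.N (.N (.N (.N (.N (.N (.N (.N (.N (.N (.N (.N (.L 28076160) (.D 14355)) (.D 13323))
  (.D 12807)) (.D 12551)) (.D 28807)) (.D 50136)) (.D 66516)) (.D 66514)) (.D 66513)) (.D 50124))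
  (.D 50122)) (.D 50121)) (.N (.N (.D 34246) (.N (.D 18118) (.N (.N (.D 35270) (.N (.D 19142) (.N
  (.D 19658) (.N (.N (.N (.N (.N (.L 28076160) (.D 30739)) (.D 29707)) (.D 29191)) (.D 45319)) (.D
  28807))))) (.D 66513)))) (.D 50121))) (.N (.N (.D 34245) (.N (.N (.D 1861) (.N (.D 35269) (.N
  (.N (.D 2885) (.N (.D 3401) (.N (.N (.N (.N (.N (.L 18535552) (.D 14355)) (.D 13323)) (.D
  12807)) (.D 12551)) (.D 45191)))) (.D 66514)))) (.D 50122))) (.N (.D 34245) (.N (.D 34246) (.N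
  (.N (.D 35269) (.N (.D 35270) (.N (.D 3653) (.N (.D 3657) (.N (.N (.N (.N (.N (.L 28004480) (.D
  66544)) (.D 13325)) (.D 12813)) (.D 45319)) (.D 45191)))))) (.N (.D 35269) (.N (.D 35270) (.N
  (.N (.D 3665) (.N (.N (.N (.N (.N (.L 28068992) (.D 14357)) (.D 50152)) (.D 12821)) (.D 45319))
  (.D 45191))) (.N (.N (.N (.N (.N (.N (.L 28076160) (.D 14361)) (.D 13337)) (.D 99300)) (.D
  45319)) (.D 45191)) (.N (.N (.N (.N (.N (.L 28076160) (.D 66544)) (.D 50152)) (.D 99300)) (.D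
  45319)) (.D 45191))))))))))) (.N (.N (.N (.D 18115) (.N (.D 1859) (.N (.N (.D 19139) (.N (.D
  2883) (.N (.N (.D 3657) (.N (.N (.N (.N (.N (.L 18786432) (.D 14357)) (.D 13325)) (.D 12807))
  (.D 12551)) (.D 28807))) (.D 66516)))) (.D 50124)))) (.N (.D 18115) (.N (.N (.D 18118) (.N (.D
  19139) (.N (.D 3395) (.N (.D 19142) (.N (.D 3401) (.N (.N (.N (.N (.N (.L 27996416) (.D 66544))
  (.D 13323)) (.D 29191)) (.D 12555)) (.D 28807))))))) (.N (.D 18118) (.N (.D 19139) (.N (.N (.D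
  19142) (.N (.D 3409) (.N (.N (.N (.N (.N (.L 28060928) (.D 14355)) (.D 50152)) (.D 29191)) (.D
  12563)) (.D 28807)))) (.N (.D 19142) (.N (.N (.N (.N (.N (.N (.L 11897984) (.D 14361)) (.D
  13337)) (.D 29191)) (.D 99298)) (.D 28807)) (.N (.N (.N (.N (.N (.L 27954304) (.D 66544)) (.D
  50152)) (.D 29191)) (.D 99298)) (.D 28807)))))))))) sv9)

def ext16 : CT :=
  .N (.N (.N (.N (.N (.N (.N (.N (.N (.N (.N (.N (.N (.N (.N (.L 28076160) (.D 14347)) (.D 13323))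
  (.D 12813)) (.D 12555)) (.D 28811)) (.D 11275)) (.D 10765)) (.D 10507)) (.D 26763)) (.D 50124))
  (.D 50122)) (.D 50121)) (.N (.N (.D 34246) (.N (.D 18118) (.N (.N (.D 9491) (.N (.D 9749) (.N
  (.N (.N (.D 9507) (.N (.D 9765) (.N (.N (.L 28076160) (.D 30731)) (.D 29707)))) (.D 28811)) (.D
  27659)))) (.D 26763)))) (.D 50121))) (.N (.N (.D 34245) (.N (.N (.D 1861) (.N (.D 25747) (.N (.N
  (.D 9749) (.N (.N (.D 25763) (.N (.N (.D 9765) (.N (.N (.L 23287936) (.D 14347)) (.D 13323)))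
  (.D 12555))) (.D 11275))) (.D 10507)))) (.D 50122))) (.N (.D 34245) (.N (.D 34246) (.N (.N (.D
  25747) (.N (.D 9491) (.N (.N (.N (.D 25763) (.N (.D 9507) (.N (.N (.N (.L 28076160) (.D 14349))
  (.D 13325)) (.D 12813)))) (.D 11277)) (.D 10765)))) (.N (.D 25747) (.N (.D 9491) (.N (.D 9749)
  (.N (.N (.D 25763) (.N (.D 9507) (.N (.D 9765) (.N (.N (.L 28076160) (.D 14409)) (.D 99304)))))
  (.D 99288)))))))))) (.N (.N (.N (.D 18115) (.N (.D 1859) (.N (.N (.D 25747) (.N (.D 9491) (.N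
  (.N (.N (.D 25763) (.N (.D 9507) (.N (.N (.N (.L 23316608) (.D 14349)) (.D 13325)) (.D 12813))))
  (.D 11277)) (.D 10765)))) (.D 50124)))) (.N (.D 18115) (.N (.N (.D 18118) (.N (.D 25747) (.N (.N
  (.D 9749) (.N (.N (.D 25763) (.N (.N (.D 9765) (.N (.N (.L 11897984) (.D 14347)) (.D 13323)))
  (.D 12555))) (.D 11275))) (.D 10507)))) (.N (.D 18118) (.N (.D 25747) (.N (.D 9491) (.N (.D
  9749) (.N (.N (.D 25763) (.N (.D 9507) (.N (.D 9765) (.N (.N (.L 26578048) (.D 14409)) (.D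
  99304))))) (.D 99288))))))))) (.N (.N (.N (.D 1859) (.N (.D 1861) (.N (.N (.D 9491) (.N (.D
  9749) (.N (.N (.N (.D 9507) (.N (.D 9765) (.N (.N (.L 23316608) (.D 30731)) (.D 29707)))) (.D
  28811)) (.D 27659)))) (.D 26763)))) (.N (.D 1859) (.N (.D 1861) (.N (.D 25747) (.N (.D 9491) (.N
  (.D 9749) (.N (.N (.D 25763) (.N (.D 9507) (.N (.D 9765) (.N (.N (.L 23316608) (.D 14409)) (.D
  99304))))) (.D 99288)))))))) (.N (.N (.N (.N (.N (.N (.N (.N (.N (.N (.N (.N (.L 28076160) (.D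
  14347)) (.D 13323)) (.D 12813)) (.D 12555)) (.D 28811)) (.D 11275)) (.D 10765)) (.D 10507)) (.D
  26763)) (.D 34252)) (.N (.D 18122) (.N (.N (.D 9491) (.N (.D 9749) (.N (.N (.N (.D 9507) (.N (.D
  9765) (.N (.N (.L 28076160) (.D 30731)) (.D 29707)))) (.D 28811)) (.D 27659)))) (.D 26763))))
  (.N (.N (.D 1865) (.N (.D 25747) (.N (.N (.D 9749) (.N (.N (.D 25763) (.N (.N (.D 9765) (.N (.N
  (.L 11897984) (.D 14347)) (.D 13323))) (.D 12555))) (.D 11275))) (.D 10507)))) (.N (.N (.D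
  25747) (.N (.D 9491) (.N (.N (.N (.D 25763) (.N (.D 9507) (.N (.N (.N (.L 28076160) (.D 14349))
  (.D 13325)) (.D 12813)))) (.D 11277)) (.D 10765)))) (.N (.D 25747) (.N (.D 9491) (.N (.D 9749)
  (.N (.N (.D 25763) (.N (.D 9507) (.N (.D 9765) (.N (.N (.L 28076160) (.D 14409)) (.D 99304)))))
  (.D 99288))))))))))

def ext17 : CT :=
  .N (.N (.N (.N (.N (.N (.N (.N (.N (.N (.N (.N (.N (.N (.N (.L 28076160) (.D 47111)) (.D 13333))
  (.D 12821)) (.D 45319)) (.D 45191)) (.D 11285)) (.D 66516)) (.D 43271)) (.D 43143)) (.D 9735))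
  (.D 9479)) (.D 25735)) (.N (.N (.D 8971) (.N (.N (.N (.N (.D 19142) (.N (.D 10777) (.N (.N (.N
  (.D 10789) (.N (.D 10793) (.N (.L 28076160) (.D 47111)))) (.D 45319)) (.D 45191)))) (.D 43271))
  (.D 43143)) (.D 26119))) (.D 25735))) (.N (.N (.D 25227) (.N (.N (.N (.N (.N (.D 2885) (.N (.D
  10777) (.N (.N (.N (.D 10789) (.N (.D 10793) (.N (.L 23488640) (.D 47111)))) (.D 45319)) (.D
  45191)))) (.D 43271)) (.D 43143)) (.D 9735)) (.D 9479))) (.N (.D 25227) (.N (.D 8971) (.N (.N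
  (.N (.N (.N (.N (.N (.N (.N (.N (.L 28076160) (.D 47111)) (.D 13333)) (.D 12821)) (.D 45319))
  (.D 45191)) (.D 11285)) (.N (.D 10777) (.N (.N (.N (.D 10789) (.N (.D 10793) (.N (.L 28076160)
  (.D 47111)))) (.D 45319)) (.D 45191)))) (.D 43271)) (.D 43143)) (.D 99276)))))) (.N (.N (.N (.N
  (.N (.N (.D 41365) (.N (.D 41366) (.N (.N (.N (.D 41381) (.N (.D 41382) (.N (.N (.N (.L
  23488640) (.D 14357)) (.D 13333)) (.D 12821)))) (.D 11285)) (.D 66516)))) (.D 9735)) (.D 9479))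
  (.D 25735)) (.N (.N (.D 8971) (.N (.N (.D 41365) (.N (.D 41366) (.N (.D 19142) (.N (.D 10777)
  (.N (.D 41381) (.N (.D 41382) (.N (.D 10789) (.N (.D 10793) (.N (.L 26914944) (.D
  99312)))))))))) (.D 26119))) (.D 25735))) (.N (.N (.D 25227) (.N (.N (.N (.D 41365) (.N (.D
  41366) (.N (.D 2885) (.N (.D 10777) (.N (.D 41381) (.N (.D 41382) (.N (.D 10789) (.N (.D 10793)
  (.N (.L 23488640) (.D 99312)))))))))) (.D 9735)) (.D 9479))) (.N (.D 25227) (.N (.D 8971) (.N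
  (.N (.D 41365) (.N (.D 41366) (.N (.N (.N (.D 41381) (.N (.D 41382) (.N (.N (.N (.L 23488640)
  (.D 14357)) (.D 13333)) (.D 12821)))) (.D 11285)) (.N (.D 10777) (.N (.D 41381) (.N (.D 41382)
  (.N (.D 10789) (.N (.D 10793) (.N (.L 23488640) (.D 99312)))))))))) (.D 99276))))))

def ext18 : CT :=
  .N (.N (.N (.N (.N (.N (.N (.N (.N (.N (.N (.N (.N (.N (.N (.L 28076160) (.D 14343)) (.D 13319))
  (.D 12807)) (.D 12551)) (.D 82913)) (.D 11271)) (.D 10759)) (.D 10503)) (.D 66513)) (.D 9735))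
  (.D 9479)) (.D 50121)) (.N (.N (.D 8971) (.N (.D 8973) (.N (.N (.D 8979) (.N (.D 8981) (.N (.D
  8985) (.N (.N (.D 8995) (.N (.D 8997) (.N (.D 9001) (.N (.D 9009) (.L 28076160))))) (.D
  82913))))) (.D 66513)))) (.D 50121))) (.N (.N (.D 34245) (.N (.N (.N (.D 35269) (.N (.N (.N (.N
  (.D 37317) (.N (.N (.N (.N (.L 28076160) (.D 14343)) (.D 13319)) (.D 12807)) (.D 12551))) (.D
  11271)) (.D 10759)) (.D 10503))) (.D 9735)) (.D 9479))) (.N (.D 34245) (.N (.D 8971) (.N (.D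
  8973) (.N (.D 35269) (.N (.D 8979) (.N (.D 8981) (.N (.D 8985) (.N (.D 37317) (.N (.D 8995) (.N
  (.D 8997) (.N (.D 9001) (.N (.D 9009) (.L 28076160))))))))))))))) (.N (.N (.N (.D 18115) (.N (.N
  (.N (.D 19139) (.N (.N (.N (.N (.D 21187) (.N (.N (.N (.N (.L 23316608) (.D 14343)) (.D 13319))
  (.D 12807)) (.D 12551))) (.D 11271)) (.D 10759)) (.D 10503))) (.D 9735)) (.D 9479))) (.N (.D
  18115) (.N (.D 8971) (.N (.D 8973) (.N (.D 19139) (.N (.D 8979) (.N (.D 8981) (.N (.D 8985) (.N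
  (.D 21187) (.N (.D 8995) (.N (.D 8997) (.N (.D 9001) (.N (.D 9009) (.L 26578048))))))))))))))
  (.N (.N (.N (.N (.N (.D 19651) (.N (.N (.N (.N (.D 21699) (.N (.N (.N (.N (.L 23488640) (.D
  14343)) (.D 13319)) (.D 12807)) (.D 12551))) (.D 11271)) (.D 10759)) (.D 10503))) (.D 9735)) (.D
  9479)) (.N (.N (.N (.N (.N (.N (.N (.D 22723) (.N (.N (.N (.N (.L 24406144) (.D 14343)) (.D
  13319)) (.D 12807)) (.D 12551))) (.D 11271)) (.D 10759)) (.D 10503)) (.N (.N (.N (.N (.N (.N (.N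
  (.N (.L 28076160) (.D 14343)) (.D 13319)) (.D 12807)) (.D 12551)) (.N (.N (.N (.N (.L 28076160)
  (.D 14343)) (.D 13319)) (.D 12807)) (.D 12551))) (.D 11271)) (.D 10759)) (.D 10503))) (.D 9735))
  (.D 9479))) (.N (.N (.D 8971) (.N (.D 8973) (.N (.D 19651) (.N (.D 8979) (.N (.D 8981) (.N (.D
  8985) (.N (.D 21699) (.N (.D 8995) (.N (.D 8997) (.N (.D 9001) (.N (.D 9009) (.L
  27101312)))))))))))) (.N (.D 8971) (.N (.D 8973) (.N (.N (.D 8979) (.N (.D 8981) (.N (.D 8985)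
  (.N (.D 22723) (.N (.D 8995) (.N (.D 8997) (.N (.D 9001) (.N (.D 9009) (.L 27617408))))))))) (.N
  (.D 8979) (.N (.D 8981) (.N (.D 8985) (.N (.N (.D 8995) (.N (.D 8997) (.N (.D 9001) (.N (.D
  9009) (.L 28076160))))) (.N (.D 8995) (.N (.D 8997) (.N (.D 9001) (.N (.D 9009) (.L
  28076160)))))))))))))))

def sv10 : CT :=
  .N (.N (.N (.D 18115) (.N (.D 1859) (.N (.N (.D 19139) (.N (.D 2883) (.N (.N (.N (.N (.N (.N (.N
  (.L 18786432) (.D 14349)) (.D 13325)) (.D 12807)) (.D 12551)) (.D 28807)) (.D 11277)) (.D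
  10765)))) (.D 50124)))) (.N (.D 18115) (.N (.N (.D 18118) (.N (.D 19139) (.N (.D 3395) (.N (.D
  9749) (.N (.D 9753) (.N (.N (.N (.N (.N (.L 27881728) (.D 66544)) (.D 13323)) (.D 29191)) (.D
  12555)) (.D 28807))))))) (.N (.D 18118) (.N (.D 19139) (.N (.N (.D 9749) (.N (.D 9753) (.N (.N
  (.N (.N (.N (.L 27888896) (.D 14355)) (.D 50152)) (.D 29191)) (.D 12563)) (.D 28807)))) (.N (.D
  9749) (.N (.D 9753) (.N (.N (.N (.N (.N (.L 27954304) (.D 66544)) (.D 50152)) (.D 29191)) (.D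
  99298)) (.D 28807)))))))))) (.N (.N (.N (.D 1859) (.N (.D 1861) (.N (.D 19651) (.N (.D 2883) (.N
  (.D 9749) (.N (.D 9753) (.N (.N (.N (.N (.N (.L 27873664) (.D 66544)) (.D 29707)) (.D 12807))
  (.D 12551)) (.D 28811)))))))) (.N (.D 1859) (.N (.D 1861) (.N (.N (.D 2883) (.N (.D 9749) (.N
  (.D 9753) (.N (.N (.N (.N (.N (.L 27872768) (.D 30739)) (.D 50152)) (.D 12807)) (.D 12551)) (.D
  28819))))) (.N (.D 2883) (.N (.D 9749) (.N (.D 9753) (.N (.N (.N (.N (.N (.L 18535552) (.D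
  66544)) (.D 50152)) (.D 12807)) (.D 12551)) (.D 99297))))))))) (.N (.N (.N (.N (.D 19651) (.N
  (.D 3395) (.N (.N (.N (.N (.N (.N (.N (.L 20277376) (.D 14349)) (.D 13323)) (.D 12813)) (.D
  12555)) (.D 28811)) (.D 11277)) (.D 10765)))) (.D 34252)) (.N (.D 18122) (.N (.D 19651) (.N (.N
  (.D 9749) (.N (.D 9753) (.N (.N (.N (.N (.N (.L 27888000) (.D 14355)) (.D 29707)) (.D 99300))
  (.D 12563)) (.D 28811)))) (.N (.D 9749) (.N (.D 9753) (.N (.N (.N (.N (.N (.L 28018816) (.D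
  66544)) (.D 29707)) (.D 99300)) (.D 99298)) (.D 28811)))))))) (.N (.N (.D 1865) (.N (.N (.D
  3395) (.N (.D 9749) (.N (.D 9753) (.N (.N (.N (.N (.N (.L 27879936) (.D 30739)) (.D 13323)) (.D
  99300)) (.D 12555)) (.D 28819))))) (.N (.D 3395) (.N (.D 9749) (.N (.D 9753) (.N (.N (.N (.N (.N
  (.L 18076800) (.D 66544)) (.D 13323)) (.D 99300)) (.D 12555)) (.D 99297))))))) (.N (.N (.N (.N
  (.N (.N (.N (.N (.N (.N (.L 28076160) (.D 14349)) (.D 13325)) (.D 12813)) (.D 12563)) (.D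
  28819)) (.D 11277)) (.D 10765)) (.N (.D 19154) (.D 10765))) (.N (.N (.D 2897) (.D 10765)) (.N
  (.N (.N (.N (.N (.N (.N (.L 28076160) (.D 14349)) (.D 13325)) (.D 12813)) (.D 99298)) (.D
  99297)) (.D 11277)) (.D 10765)))) (.N (.N (.N (.D 9749) (.D 35284)) (.N (.D 9749) (.N (.D 9753)
  (.N (.N (.N (.N (.N (.L 28076160) (.D 30739)) (.D 50152)) (.D 99300)) (.D 99298)) (.D 28819)))))
  (.N (.N (.D 9749) (.N (.D 9753) (.N (.N (.N (.N (.N (.L 13948032) (.D 14355)) (.D 50152)) (.D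
  99300)) (.D 12563)) (.D 99297)))) (.N (.D 9749) (.N (.D 9753) (.N (.N (.N (.N (.N (.L 28076160)
  (.D 66544)) (.D 50152)) (.D 99300)) (.D 99298)) (.D 99297))))))))))

def ext19 : CT :=
  .N (.N (.N (.N (.N (.N (.N (.N (.N (.N (.N (.N (.N (.N (.N (.L 28076160) (.D 14349)) (.D 13323))
  (.D 12807)) (.D 12551)) (.D 28807)) (.D 11277)) (.D 10765)) (.D 66514)) (.D 66513)) (.D 50124))
  (.D 50122)) (.D 50121)) (.N (.N (.D 34246) (.N (.D 18118) (.N (.N (.D 35270) (.N (.D 9749) (.N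
  (.D 9753) (.N (.N (.N (.N (.N (.L 28076160) (.D 30739)) (.D 29707)) (.D 29191)) (.D 45319)) (.D
  28807))))) (.D 66513)))) (.D 50121))) (.N (.N (.D 34245) (.N (.N (.D 1861) (.N (.D 35269) (.N
  (.N (.D 9749) (.N (.D 9753) (.N (.N (.N (.N (.N (.L 18535552) (.D 14355)) (.D 13323)) (.D
  12807)) (.D 12551)) (.D 45191)))) (.D 66514)))) (.D 50122))) (.N (.D 34245) (.N (.D 34246) (.N
  (.N (.D 35269) (.N (.D 35270) (.N (.N (.N (.N (.N (.N (.N (.L 28076160) (.D 14349)) (.D 13325))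
  (.D 12813)) (.D 45319)) (.D 45191)) (.D 11277)) (.D 10765)))) (.N (.D 35269) (.N (.D 35270) (.N
  (.D 9749) (.N (.D 9753) (.N (.N (.N (.N (.N (.L 28076160) (.D 66544)) (.D 50152)) (.D 99300))
  (.D 45319)) (.D 45191))))))))))) sv10

def ext20 : CT :=
  .N (.N (.N (.N (.N (.N (.N (.N (.N (.N (.N (.N (.N (.N (.N (.L 28076160) (.D 14347)) (.D 13323))
  (.D 12813)) (.D 12555)) (.D 28811)) (.D 11275)) (.D 10765)) (.D 10507)) (.D 26763)) (.D 34252))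
  (.N (.D 18122) (.N (.N (.D 9491) (.N (.D 9749) (.N (.N (.N (.D 9507) (.N (.D 9765) (.N (.N (.L
  28076160) (.D 30731)) (.D 29707)))) (.D 28811)) (.D 27659)))) (.D 26763)))) (.N (.N (.D 1865)
  (.N (.D 25747) (.N (.N (.D 9749) (.N (.N (.D 25763) (.N (.N (.D 9765) (.N (.N (.L 11897984) (.D
  14347)) (.D 13323))) (.D 12555))) (.D 11275))) (.D 10507)))) (.N (.N (.D 25747) (.N (.D 9491)
  (.N (.N (.N (.D 25763) (.N (.D 9507) (.N (.N (.N (.L 28076160) (.D 14349)) (.D 13325)) (.D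
  12813)))) (.D 11277)) (.D 10765)))) (.N (.D 25747) (.N (.D 9491) (.N (.D 9749) (.N (.N (.D
  25763) (.N (.D 9507) (.N (.D 9765) (.N (.N (.L 28076160) (.D 14409)) (.D 99816))))) (.D
  99800)))))))) (.D 58123)) (.D 57995)) (.N (.D 57741) (.N (.D 57742) (.N (.N (.N (.N (.N (.N (.N
  (.N (.N (.N (.N (.N (.L 28076160) (.D 14347)) (.D 13323)) (.D 12813)) (.D 12555)) (.D 28811))
  (.D 11275)) (.D 10765)) (.D 10507)) (.D 26763)) (.D 34252)) (.N (.D 18122) (.N (.N (.D 9491) (.N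
  (.D 9749) (.N (.N (.N (.D 9507) (.N (.D 9765) (.N (.N (.L 28076160) (.D 30731)) (.D 29707))))
  (.D 28811)) (.D 27659)))) (.D 26763)))) (.N (.N (.D 1865) (.N (.D 25747) (.N (.N (.D 9749) (.N
  (.N (.D 25763) (.N (.N (.D 9765) (.N (.N (.L 11897984) (.D 14347)) (.D 13323))) (.D 12555))) (.D
  11275))) (.D 10507)))) (.N (.N (.D 25747) (.N (.D 9491) (.N (.N (.N (.D 25763) (.N (.D 9507) (.N
  (.N (.N (.L 28076160) (.D 14349)) (.D 13325)) (.D 12813)))) (.D 11277)) (.D 10765)))) (.N (.D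
  25747) (.N (.D 9491) (.N (.D 9749) (.N (.N (.D 25763) (.N (.D 9507) (.N (.D 9765) (.N (.N (.L
  28076160) (.D 14409)) (.D 99816))))) (.D 99800))))))))))

def ext21 : CT :=
  .N (.N (.N (.N (.N (.N (.N (.N (.N (.N (.N (.N (.N (.N (.N (.L 28076160) (.D 14343)) (.D 13319))
  (.D 12807)) (.D 12551)) (.D 28819)) (.D 11271)) (.D 10759)) (.D 10503)) (.D 66513)) (.D 9735))
  (.D 9479)) (.D 50121)) (.N (.N (.D 8971) (.N (.D 8973) (.N (.N (.D 8979) (.N (.D 8981) (.N (.D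
  8985) (.N (.N (.D 8995) (.N (.D 8997) (.N (.D 9001) (.N (.L 28076160) (.D 30739))))) (.D
  28819))))) (.D 66513)))) (.D 50121))) (.N (.N (.D 34245) (.N (.N (.N (.D 35269) (.N (.N (.N (.N
  (.D 26787) (.N (.N (.N (.N (.L 28076160) (.D 14343)) (.D 13319)) (.D 12807)) (.D 12551))) (.D
  11271)) (.D 10759)) (.D 10503))) (.D 9735)) (.D 9479))) (.N (.D 34245) (.N (.D 8971) (.N (.D
  8973) (.N (.D 35269) (.N (.D 8979) (.N (.D 8981) (.N (.D 8985) (.N (.D 26787) (.N (.D 8995) (.N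
  (.D 8997) (.N (.D 9001) (.N (.L 28076160) (.D 99312))))))))))))))) (.N (.N (.N (.D 18115) (.N
  (.N (.N (.D 19139) (.N (.N (.N (.N (.D 26787) (.N (.N (.N (.N (.L 23316608) (.D 14343)) (.D
  13319)) (.D 12807)) (.D 12551))) (.D 11271)) (.D 10759)) (.D 10503))) (.D 9735)) (.D 9479))) (.N
  (.D 18115) (.N (.D 8971) (.N (.D 8973) (.N (.D 19139) (.N (.D 8979) (.N (.D 8981) (.N (.D 8985)
  (.N (.D 26787) (.N (.D 8995) (.N (.D 8997) (.N (.D 9001) (.N (.L 26578048) (.D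
  99312)))))))))))))) (.N (.N (.N (.N (.N (.D 19651) (.N (.N (.N (.N (.D 26787) (.N (.N (.N (.N
  (.L 23488640) (.D 14343)) (.D 13319)) (.D 12807)) (.D 12551))) (.D 11271)) (.D 10759)) (.D
  10503))) (.D 9735)) (.D 9479)) (.N (.N (.N (.N (.N (.N (.N (.N (.N (.N (.N (.L 28076160) (.D
  14343)) (.D 13319)) (.D 12807)) (.D 12551)) (.D 28819)) (.D 11271)) (.D 10759)) (.D 10503)) (.N
  (.N (.N (.N (.D 26787) (.N (.N (.N (.N (.L 28076160) (.D 14343)) (.D 13319)) (.D 12807)) (.D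
  12551))) (.D 11271)) (.D 10759)) (.D 10503))) (.D 9735)) (.D 9479))) (.N (.N (.D 8971) (.N (.D
  8973) (.N (.D 19651) (.N (.D 8979) (.N (.D 8981) (.N (.D 8985) (.N (.D 26787) (.N (.D 8995) (.N
  (.D 8997) (.N (.D 9001) (.N (.L 27101312) (.D 99312)))))))))))) (.N (.D 8971) (.N (.D 8973) (.N
  (.N (.D 8979) (.N (.D 8981) (.N (.D 8985) (.N (.N (.D 8995) (.N (.D 8997) (.N (.D 9001) (.N (.L
  28076160) (.D 30739))))) (.D 28819))))) (.N (.D 8979) (.N (.D 8981) (.N (.D 8985) (.N (.D 26787)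
  (.N (.D 8995) (.N (.D 8997) (.N (.D 9001) (.N (.L 28076160) (.D 99312)))))))))))))))

def ext22 : CT :=
  .N (.N (.N (.N (.N (.N (.N (.N (.N (.N (.N (.N (.N (.N (.N (.L 28076160) (.D 47111)) (.D 13323))
  (.D 12807)) (.D 12551)) (.D 28807)) (.D 11277)) (.D 10765)) (.D 43271)) (.D 43143)) (.D 50124))
  (.D 50122)) (.D 50121)) (.N (.N (.D 34246) (.N (.D 18118) (.N (.N (.N (.D 9749) (.N (.D 9753)
  (.N (.N (.N (.N (.N (.L 28076160) (.D 47111)) (.D 29707)) (.D 29191)) (.D 45319)) (.D 28807))))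
  (.D 43271)) (.D 43143)))) (.D 50121))) (.N (.N (.D 34245) (.N (.N (.D 1861) (.N (.N (.N (.D
  9749) (.N (.D 9753) (.N (.N (.N (.N (.N (.L 18535552) (.D 47111)) (.D 13323)) (.D 12807)) (.D
  12551)) (.D 45191)))) (.D 43271)) (.D 43143))) (.D 50122))) (.N (.D 34245) (.N (.D 34246) (.N
  (.N (.N (.N (.N (.N (.N (.N (.N (.N (.L 28076160) (.D 47111)) (.D 13325)) (.D 12813)) (.D
  45319)) (.D 45191)) (.D 11277)) (.D 10765)) (.D 43271)) (.D 43143)) (.N (.N (.N (.D 9749) (.N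
  (.D 9753) (.N (.N (.N (.N (.N (.L 28076160) (.D 47111)) (.D 50152)) (.D 99300)) (.D 45319)) (.D
  45191)))) (.D 43271)) (.D 43143))))))) (.N (.N (.N (.D 18115) (.N (.D 1859) (.N (.N (.D 41365)
  (.N (.D 41366) (.N (.N (.N (.N (.N (.N (.N (.L 18786432) (.D 14349)) (.D 13325)) (.D 12807)) (.D
  12551)) (.D 28807)) (.D 11277)) (.D 10765)))) (.D 50124)))) (.N (.D 18115) (.N (.N (.D 18118)
  (.N (.D 41365) (.N (.D 41366) (.N (.D 9749) (.N (.D 9753) (.N (.N (.N (.N (.N (.L 22714506) (.D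
  66544)) (.D 13323)) (.D 29191)) (.D 12555)) (.D 28807))))))) (.N (.D 18118) (.N (.D 41365) (.N
  (.D 41366) (.N (.D 9749) (.N (.D 9753) (.N (.N (.N (.N (.N (.L 27947136) (.D 66544)) (.D 50152))
  (.D 29191)) (.D 99298)) (.D 28807)))))))))) (.N (.N (.N (.D 1859) (.N (.D 1861) (.N (.D 41365)
  (.N (.D 41366) (.N (.D 9749) (.N (.D 9753) (.N (.N (.N (.N (.N (.L 22255754) (.D 66544)) (.D
  29707)) (.D 12807)) (.D 12551)) (.D 28811)))))))) (.N (.D 1859) (.N (.D 1861) (.N (.D 41365) (.N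
  (.D 41366) (.N (.D 9749) (.N (.D 9753) (.N (.N (.N (.N (.N (.L 18535552) (.D 66544)) (.D 50152))
  (.D 12807)) (.D 12551)) (.D 99297))))))))) (.N (.N (.N (.N (.D 41365) (.N (.D 41366) (.N (.N (.N
  (.N (.N (.N (.N (.L 20277376) (.D 14349)) (.D 13323)) (.D 12813)) (.D 12555)) (.D 28811)) (.D
  11277)) (.D 10765)))) (.D 34252)) (.N (.D 18122) (.N (.D 41365) (.N (.D 41366) (.N (.D 9749) (.N
  (.D 9753) (.N (.N (.N (.N (.N (.L 28004480) (.D 66544)) (.D 29707)) (.D 99300)) (.D 99298)) (.D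
  28811)))))))) (.N (.N (.D 1865) (.N (.D 41365) (.N (.D 41366) (.N (.D 9749) (.N (.D 9753) (.N
  (.N (.N (.N (.N (.L 18076800) (.D 66544)) (.D 13323)) (.D 99300)) (.D 12555)) (.D 99297)))))))
  (.N (.N (.D 41365) (.N (.D 41366) (.N (.N (.N (.N (.N (.N (.N (.L 20277376) (.D 14349)) (.D
  13325)) (.D 12813)) (.D 99298)) (.D 99297)) (.D 11277)) (.D 10765)))) (.N (.D 41365) (.N (.D
  41366) (.N (.D 9749) (.N (.D 9753) (.N (.N (.N (.N (.N (.L 28004480) (.D 66544)) (.D 50152)) (.D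
  99300)) (.D 99298)) (.D 99297)))))))))))

def ext23 : CT :=
  .N (.N (.N (.N (.N (.N (.N (.N (.N (.N (.N (.N (.N (.N (.N (.L 28076160) (.D 14343)) (.D 13319))
  (.D 12807)) (.D 12551)) (.D 28819)) (.D 11271)) (.D 10759)) (.D 10503)) (.D 66513)) (.D 9735))
  (.D 9479)) (.D 25735)) (.N (.N (.D 8971) (.N (.N (.N (.D 8979) (.N (.D 8981) (.N (.D 8985) (.N
  (.N (.D 8995) (.N (.D 8997) (.N (.D 9001) (.N (.L 28076160) (.D 30739))))) (.D 28819))))) (.D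
  66513)) (.D 26119))) (.D 25735))) (.N (.N (.D 25227) (.N (.N (.N (.D 35269) (.N (.N (.N (.N (.D
  26787) (.N (.N (.N (.N (.L 28076160) (.D 14343)) (.D 13319)) (.D 12807)) (.D 12551))) (.D
  11271)) (.D 10759)) (.D 10503))) (.D 9735)) (.D 9479))) (.N (.D 25227) (.N (.D 8971) (.N (.N (.D
  35269) (.N (.D 8979) (.N (.D 8981) (.N (.D 8985) (.N (.D 26787) (.N (.D 8995) (.N (.D 8997) (.N
  (.D 9001) (.N (.L 28076160) (.D 99312)))))))))) (.D 99276)))))) (.N (.N (.N (.N (.N (.N (.D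
  19139) (.N (.N (.N (.N (.D 26787) (.N (.N (.N (.N (.L 23488640) (.D 14343)) (.D 13319)) (.D
  12807)) (.D 12551))) (.D 11271)) (.D 10759)) (.D 10503))) (.D 9735)) (.D 9479)) (.D 25735)) (.N
  (.N (.D 8971) (.N (.N (.D 19139) (.N (.D 8979) (.N (.D 8981) (.N (.D 8985) (.N (.D 26787) (.N
  (.D 8995) (.N (.D 8997) (.N (.D 9001) (.N (.L 26914944) (.D 99312)))))))))) (.D 26119))) (.D
  25735))) (.N (.N (.D 25227) (.N (.N (.N (.N (.N (.N (.N (.N (.N (.N (.N (.L 28076160) (.D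
  14343)) (.D 13319)) (.D 12807)) (.D 12551)) (.D 28819)) (.D 11271)) (.D 10759)) (.D 10503)) (.N
  (.N (.N (.N (.D 26787) (.N (.N (.N (.N (.L 28076160) (.D 14343)) (.D 13319)) (.D 12807)) (.D
  12551))) (.D 11271)) (.D 10759)) (.D 10503))) (.D 9735)) (.D 9479))) (.N (.D 25227) (.N (.D
  8971) (.N (.N (.N (.D 8979) (.N (.D 8981) (.N (.D 8985) (.N (.N (.D 8995) (.N (.D 8997) (.N (.D
  9001) (.N (.L 28076160) (.D 30739))))) (.D 28819))))) (.N (.D 8979) (.N (.D 8981) (.N (.D 8985)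
  (.N (.D 26787) (.N (.D 8995) (.N (.D 8997) (.N (.D 9001) (.N (.L 28076160) (.D 99312))))))))))
  (.D 99276))))))

def ext24 : CT :=
  .N (.N (.N (.N (.N (.N (.N (.N (.N (.N (.N (.N (.N (.N (.N (.L 28076160) (.D 14357)) (.D 13333))
  (.D 12821)) (.D 45333)) (.D 45205)) (.D 11285)) (.N (.D 10777) (.N (.N (.N (.D 10789) (.N (.D
  10793) (.N (.L 28076160) (.D 47125)))) (.D 45333)) (.D 45205)))) (.D 43285)) (.N (.D 43158) (.N
  (.N (.N (.D 43173) (.N (.D 43174) (.N (.N (.N (.L 28076160) (.D 14357)) (.D 13333)) (.D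
  12821)))) (.D 11285)) (.N (.D 10777) (.N (.D 43173) (.N (.D 43174) (.N (.D 10789) (.N (.D 10793)
  (.N (.L 28076160) (.D 101104)))))))))) (.D 75285)) (.D 75029)) (.D 74901)) (.D 74517)) (.N (.D
  74390) (.N (.D 74393) (.N (.D 74394) (.N (.N (.N (.N (.N (.N (.N (.N (.N (.N (.L 28076160) (.D
  14357)) (.D 13333)) (.D 12821)) (.D 45333)) (.D 45205)) (.D 11285)) (.N (.D 10777) (.N (.N (.N
  (.D 10789) (.N (.D 10793) (.N (.L 28076160) (.D 47125)))) (.D 45333)) (.D 45205)))) (.D 43285))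
  (.N (.D 43158) (.N (.N (.N (.D 43173) (.N (.D 43174) (.N (.N (.N (.L 28076160) (.D 14357)) (.D
  13333)) (.D 12821)))) (.D 11285)) (.N (.D 10777) (.N (.D 43173) (.N (.D 43174) (.N (.D 10789)
  (.N (.D 10793) (.N (.L 28076160) (.D 101104)))))))))) (.D 101068)))))) (.D 101059)

def ext25 : CT :=
  .N (.N (.N (.N (.N (.N (.N (.N (.N (.N (.N (.N (.N (.N (.N (.L 28076160) (.D 14347)) (.D 13323))
  (.D 12807)) (.D 12551)) (.D 28807)) (.D 11275)) (.D 10765)) (.D 10507)) (.D 26763)) (.D 50124))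
  (.D 50122)) (.D 50121)) (.N (.N (.D 34246) (.N (.D 18118) (.N (.N (.D 9491) (.N (.D 9749) (.N
  (.N (.N (.N (.N (.N (.L 28076160) (.D 30731)) (.D 29707)) (.D 29191)) (.D 45319)) (.D 28807))
  (.D 27659)))) (.D 26763)))) (.D 50121))) (.N (.N (.D 34245) (.N (.N (.D 1861) (.N (.D 25747) (.N
  (.N (.D 9749) (.N (.N (.N (.N (.N (.N (.L 18535552) (.D 14347)) (.D 13323)) (.D 12807)) (.D
  12551)) (.D 45191)) (.D 11275))) (.D 10507)))) (.D 50122))) (.N (.D 34245) (.N (.D 34246) (.N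
  (.N (.D 25747) (.N (.D 9491) (.N (.N (.N (.N (.N (.N (.N (.L 28076160) (.D 14349)) (.D 13325))
  (.D 12813)) (.D 45319)) (.D 45191)) (.D 11277)) (.D 10765)))) (.N (.D 25747) (.N (.D 9491) (.N
  (.D 9749) (.N (.N (.N (.N (.N (.N (.L 28076160) (.D 14409)) (.D 50152)) (.D 99300)) (.D 45319))
  (.D 45191)) (.D 99288)))))))))) (.N (.N (.N (.D 18115) (.N (.D 1859) (.N (.N (.D 25747) (.N (.D
  9491) (.N (.N (.N (.N (.N (.N (.N (.L 18786432) (.D 14349)) (.D 13325)) (.D 12807)) (.D 12551))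
  (.D 28807)) (.D 11277)) (.D 10765)))) (.D 50124)))) (.N (.D 18115) (.N (.N (.D 18118) (.N (.D
  25747) (.N (.N (.D 9749) (.N (.N (.N (.N (.N (.N (.L 11897984) (.D 14347)) (.D 13323)) (.D
  29191)) (.D 12555)) (.D 28807)) (.D 11275))) (.D 10507)))) (.N (.D 18118) (.N (.D 25747) (.N (.D
  9491) (.N (.D 9749) (.N (.N (.N (.N (.N (.N (.L 27954304) (.D 14409)) (.D 50152)) (.D 29191))
  (.D 99298)) (.D 28807)) (.D 99288))))))))) (.N (.N (.N (.D 1859) (.N (.D 1861) (.N (.N (.D 9491)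
  (.N (.D 9749) (.N (.N (.N (.N (.N (.N (.L 18786432) (.D 30731)) (.D 29707)) (.D 12807)) (.D
  12551)) (.D 28811)) (.D 27659)))) (.D 26763)))) (.N (.D 1859) (.N (.D 1861) (.N (.D 25747) (.N
  (.D 9491) (.N (.D 9749) (.N (.N (.N (.N (.N (.N (.L 18786432) (.D 14409)) (.D 50152)) (.D
  12807)) (.D 12551)) (.D 99297)) (.D 99288)))))))) (.N (.N (.N (.N (.N (.N (.N (.N (.N (.N (.N
  (.N (.L 28076160) (.D 14347)) (.D 13323)) (.D 12813)) (.D 12555)) (.D 28811)) (.D 11275)) (.D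
  10765)) (.D 10507)) (.D 26763)) (.D 34252)) (.N (.D 18122) (.N (.N (.D 9491) (.N (.D 9749) (.N
  (.N (.N (.N (.N (.N (.L 28076160) (.D 30731)) (.D 29707)) (.D 99300)) (.D 99298)) (.D 28811))
  (.D 27659)))) (.D 26763)))) (.N (.N (.D 1865) (.N (.D 25747) (.N (.N (.D 9749) (.N (.N (.N (.N
  (.N (.N (.L 11897984) (.D 14347)) (.D 13323)) (.D 99300)) (.D 12555)) (.D 99297)) (.D 11275)))
  (.D 10507)))) (.N (.N (.D 25747) (.N (.D 9491) (.N (.N (.N (.N (.N (.N (.N (.L 28076160) (.D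
  14349)) (.D 13325)) (.D 12813)) (.D 99298)) (.D 99297)) (.D 11277)) (.D 10765)))) (.N (.D 25747)
  (.N (.D 9491) (.N (.D 9749) (.N (.N (.N (.N (.N (.N (.L 28076160) (.D 14409)) (.D 50152)) (.D
  99300)) (.D 99298)) (.D 99297)) (.D 99288))))))))))

def ext26 : CT :=
  .N (.N (.N (.N (.N (.N (.N (.N (.N (.N (.N (.N (.N (.N (.N (.L 28076160) (.D 14343)) (.D 13319))
  (.D 12807)) (.D 12551)) (.D 28811)) (.D 11271)) (.D 10759)) (.D 10503)) (.D 26763)) (.D 9735))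
  (.D 9479)) (.D 50121)) (.N (.N (.D 8971) (.N (.D 8973) (.N (.N (.D 8979) (.N (.D 8981) (.N (.N
  (.N (.D 8995) (.N (.D 8997) (.N (.N (.L 28076160) (.D 30731)) (.D 29707)))) (.D 28811)) (.D
  27659)))) (.D 26763)))) (.D 50121))) (.N (.N (.D 34245) (.N (.N (.N (.D 25747) (.N (.N (.N (.N
  (.D 25763) (.N (.N (.N (.N (.L 28076160) (.D 14343)) (.D 13319)) (.D 12807)) (.D 12551))) (.D
  11271)) (.D 10759)) (.D 10503))) (.D 9735)) (.D 9479))) (.N (.D 34245) (.N (.D 8971) (.N (.D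
  8973) (.N (.D 25747) (.N (.D 8979) (.N (.D 8981) (.N (.N (.D 25763) (.N (.D 8995) (.N (.D 8997)
  (.N (.N (.L 28076160) (.D 14409)) (.D 99304))))) (.D 99288)))))))))) (.N (.N (.N (.D 18115) (.N
  (.N (.N (.D 25747) (.N (.N (.N (.N (.D 25763) (.N (.N (.N (.N (.L 23316608) (.D 14343)) (.D
  13319)) (.D 12807)) (.D 12551))) (.D 11271)) (.D 10759)) (.D 10503))) (.D 9735)) (.D 9479))) (.N
  (.D 18115) (.N (.D 8971) (.N (.D 8973) (.N (.D 25747) (.N (.D 8979) (.N (.D 8981) (.N (.N (.D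
  25763) (.N (.D 8995) (.N (.D 8997) (.N (.N (.L 26578048) (.D 14409)) (.D 99304))))) (.D
  99288))))))))) (.N (.N (.N (.N (.N (.N (.N (.N (.N (.N (.N (.N (.N (.L 28076160) (.D 14343)) (.D
  13319)) (.D 12807)) (.D 12551)) (.D 28811)) (.D 11271)) (.D 10759)) (.D 10503)) (.D 26763)) (.D
  9735)) (.D 9479)) (.N (.N (.N (.D 25747) (.N (.N (.N (.N (.D 25763) (.N (.N (.N (.N (.L
  28076160) (.D 14343)) (.D 13319)) (.D 12807)) (.D 12551))) (.D 11271)) (.D 10759)) (.D 10503)))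
  (.D 9735)) (.D 9479))) (.N (.N (.D 8971) (.N (.D 8973) (.N (.N (.D 8979) (.N (.D 8981) (.N (.N
  (.N (.D 8995) (.N (.D 8997) (.N (.N (.L 28076160) (.D 30731)) (.D 29707)))) (.D 28811)) (.D
  27659)))) (.D 26763)))) (.N (.D 8971) (.N (.D 8973) (.N (.D 25747) (.N (.D 8979) (.N (.D 8981)
  (.N (.N (.D 25763) (.N (.D 8995) (.N (.D 8997) (.N (.N (.L 28076160) (.D 14409)) (.D 99304)))))
  (.D 99288))))))))))

def ext27 : CT :=
  .N (.N (.N (.N (.N (.N (.N (.N (.N (.N (.N (.N (.N (.N (.N (.L 28076160) (.D 14347)) (.D 13323))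
  (.D 61963)) (.D 12555)) (.D 28811)) (.D 11275)) (.D 10765)) (.D 10507)) (.D 26763)) (.D 34252))
  (.N (.D 18122) (.N (.N (.D 9491) (.N (.D 9749) (.N (.N (.N (.N (.N (.N (.L 28076160) (.D 30731))
  (.D 29707)) (.D 61963)) (.D 61707)) (.D 28811)) (.D 27659)))) (.D 26763)))) (.N (.N (.D 1865)
  (.N (.D 25747) (.N (.N (.D 9749) (.N (.N (.N (.N (.N (.N (.L 11897984) (.D 14347)) (.D 13323))
  (.D 61963)) (.D 12555)) (.D 61579)) (.D 11275))) (.D 10507)))) (.N (.N (.D 25747) (.N (.D 9491)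
  (.N (.N (.N (.N (.N (.N (.N (.L 28076160) (.D 14349)) (.D 13325)) (.D 61963)) (.D 61707)) (.D
  61579)) (.D 11277)) (.D 10765)))) (.N (.D 25747) (.N (.D 9491) (.N (.D 9749) (.N (.N (.N (.N (.N
  (.N (.L 28076160) (.D 14409)) (.D 99816)) (.D 61963)) (.D 61707)) (.D 61579)) (.D 99800))))))))
  (.D 58123)) (.D 57995)) (.N (.D 57741) (.N (.D 57742) (.N (.N (.N (.N (.N (.N (.N (.N (.N (.N
  (.N (.N (.L 28076160) (.D 14347)) (.D 13323)) (.D 12813)) (.D 12555)) (.D 28811)) (.D 11275))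
  (.D 10765)) (.D 10507)) (.D 26763)) (.D 34252)) (.N (.D 18122) (.N (.N (.D 9491) (.N (.D 9749)
  (.N (.N (.N (.N (.N (.N (.L 28076160) (.D 30731)) (.D 29707)) (.D 99812)) (.D 99810)) (.D
  28811)) (.D 27659)))) (.D 26763)))) (.N (.N (.D 1865) (.N (.D 25747) (.N (.N (.D 9749) (.N (.N
  (.N (.N (.N (.N (.L 11897984) (.D 14347)) (.D 13323)) (.D 99812)) (.D 12555)) (.D 99809)) (.D
  11275))) (.D 10507)))) (.N (.N (.D 25747) (.N (.D 9491) (.N (.N (.N (.N (.N (.N (.N (.L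
  28076160) (.D 14349)) (.D 13325)) (.D 12813)) (.D 99810)) (.D 99809)) (.D 11277)) (.D 10765))))
  (.N (.D 25747) (.N (.D 9491) (.N (.D 9749) (.N (.N (.N (.N (.N (.N (.L 28076160) (.D 14409)) (.D
  99816)) (.D 99812)) (.D 99810)) (.D 99809)) (.D 99800))))))))))

def ext28 : CT :=
  .N (.N (.N (.N (.N (.N (.N (.N (.N (.N (.N (.N (.N (.N (.N (.L 28076160) (.D 14343)) (.D 13319))
  (.D 12807)) (.D 12551)) (.D 28807)) (.D 11271)) (.D 10759)) (.D 10503)) (.D 66513)) (.D 9735))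
  (.D 9479)) (.D 50121)) (.N (.N (.D 8971) (.N (.D 8973) (.N (.N (.D 8979) (.N (.D 8981) (.N (.D
  8985) (.N (.N (.N (.N (.N (.L 28076160) (.D 30739)) (.D 29707)) (.D 29191)) (.D 45319)) (.D
  28807))))) (.D 66513)))) (.D 50121))) (.N (.N (.D 34245) (.N (.N (.N (.D 35269) (.N (.N (.N (.N
  (.N (.N (.N (.N (.L 28076160) (.D 14343)) (.D 13319)) (.D 12807)) (.D 12551)) (.D 45191)) (.D
  11271)) (.D 10759)) (.D 10503))) (.D 9735)) (.D 9479))) (.N (.D 34245) (.N (.D 8971) (.N (.D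
  8973) (.N (.D 35269) (.N (.D 8979) (.N (.D 8981) (.N (.D 8985) (.N (.N (.N (.N (.N (.L 28076160)
  (.D 66544)) (.D 50152)) (.D 99300)) (.D 45319)) (.D 45191))))))))))) (.N (.N (.N (.D 18115) (.N
  (.N (.N (.D 19139) (.N (.N (.N (.N (.N (.N (.N (.N (.L 18786432) (.D 14343)) (.D 13319)) (.D
  12807)) (.D 12551)) (.D 28807)) (.D 11271)) (.D 10759)) (.D 10503))) (.D 9735)) (.D 9479))) (.N
  (.D 18115) (.N (.D 8971) (.N (.D 8973) (.N (.D 19139) (.N (.D 8979) (.N (.D 8981) (.N (.D 8985)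
  (.N (.N (.N (.N (.N (.L 27954304) (.D 66544)) (.D 50152)) (.D 29191)) (.D 99298)) (.D
  28807)))))))))) (.N (.N (.N (.N (.N (.D 19651) (.N (.N (.N (.N (.N (.N (.N (.N (.L 20277376) (.D
  14343)) (.D 13319)) (.D 12807)) (.D 12551)) (.D 28811)) (.D 11271)) (.D 10759)) (.D 10503))) (.D
  9735)) (.D 9479)) (.N (.N (.N (.N (.N (.N (.N (.N (.N (.N (.N (.L 28076160) (.D 14343)) (.D
  13319)) (.D 12807)) (.D 12551)) (.D 28819)) (.D 11271)) (.D 10759)) (.D 10503)) (.N (.N (.N (.N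
  (.N (.N (.N (.N (.L 28076160) (.D 14343)) (.D 13319)) (.D 12807)) (.D 12551)) (.D 99297)) (.D
  11271)) (.D 10759)) (.D 10503))) (.D 9735)) (.D 9479))) (.N (.N (.D 8971) (.N (.D 8973) (.N (.D
  19651) (.N (.D 8979) (.N (.D 8981) (.N (.D 8985) (.N (.N (.N (.N (.N (.L 28018816) (.D 66544))
  (.D 29707)) (.D 99300)) (.D 99298)) (.D 28811)))))))) (.N (.D 8971) (.N (.D 8973) (.N (.N (.D
  8979) (.N (.D 8981) (.N (.D 8985) (.N (.N (.N (.N (.N (.L 28076160) (.D 30739)) (.D 50152)) (.D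
  99300)) (.D 99298)) (.D 28819))))) (.N (.D 8979) (.N (.D 8981) (.N (.D 8985) (.N (.N (.N (.N (.N
  (.L 28076160) (.D 66544)) (.D 50152)) (.D 99300)) (.D 99298)) (.D 99297)))))))))))

def ext29 : CT :=
  .N (.N (.N (.N (.N (.N (.N (.N (.N (.N (.N (.N (.N (.N (.N (.L 28076160) (.D 14347)) (.D 13323))
  (.D 12811)) (.D 12555)) (.D 28811)) (.D 11275)) (.D 10763)) (.D 10507)) (.D 26763)) (.D 9739))
  (.N (.D 9485) (.N (.N (.D 9491) (.N (.D 9493) (.N (.N (.N (.D 9507) (.N (.D 9509) (.N (.N (.L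
  28076160) (.D 30731)) (.D 29707)))) (.D 28811)) (.D 27659)))) (.D 26763)))) (.N (.N (.N (.D
  25747) (.N (.N (.N (.N (.D 25763) (.N (.N (.N (.N (.L 28076160) (.D 14347)) (.D 13323)) (.D
  12811)) (.D 12555))) (.D 11275)) (.D 10763)) (.D 10507))) (.D 9739)) (.N (.D 9485) (.N (.D
  25747) (.N (.D 9491) (.N (.D 9493) (.N (.N (.D 25763) (.N (.D 9507) (.N (.D 9509) (.N (.N (.L
  28076160) (.D 14409)) (.D 99816))))) (.D 99800)))))))) (.D 58123)) (.D 57995)) (.N (.D 57741)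
  (.N (.N (.N (.N (.N (.N (.N (.N (.N (.N (.N (.N (.N (.L 28076160) (.D 14347)) (.D 13323)) (.D
  12811)) (.D 12555)) (.D 28811)) (.D 11275)) (.D 10763)) (.D 10507)) (.D 26763)) (.D 9739)) (.N
  (.D 9485) (.N (.N (.D 9491) (.N (.D 9493) (.N (.N (.N (.D 9507) (.N (.D 9509) (.N (.N (.L
  28076160) (.D 30731)) (.D 29707)))) (.D 28811)) (.D 27659)))) (.D 26763)))) (.N (.N (.N (.D
  25747) (.N (.N (.N (.N (.D 25763) (.N (.N (.N (.N (.L 28076160) (.D 14347)) (.D 13323)) (.D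
  12811)) (.D 12555))) (.D 11275)) (.D 10763)) (.D 10507))) (.D 9739)) (.N (.D 9485) (.N (.D
  25747) (.N (.D 9491) (.N (.D 9493) (.N (.N (.D 25763) (.N (.D 9507) (.N (.D 9509) (.N (.N (.L
  28076160) (.D 14409)) (.D 99816))))) (.D 99800)))))))) (.D 99782)))

def ext30 : CT :=
  .N (.N (.N (.N (.N (.N (.N (.N (.N (.N (.N (.N (.N (.N (.N (.L 28076160) (.D 14343)) (.D 13319))
  (.D 12807)) (.D 12551)) (.D 28807)) (.D 11271)) (.D 10759)) (.D 10503)) (.D 26763)) (.D 9735))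
  (.D 9479)) (.D 50121)) (.N (.N (.D 8971) (.N (.D 8973) (.N (.N (.D 8979) (.N (.D 8981) (.N (.N
  (.N (.N (.N (.N (.L 28076160) (.D 30731)) (.D 29707)) (.D 29191)) (.D 45319)) (.D 28807)) (.D
  27659)))) (.D 26763)))) (.D 50121))) (.N (.N (.D 34245) (.N (.N (.N (.D 25747) (.N (.N (.N (.N
  (.N (.N (.N (.N (.L 28076160) (.D 14343)) (.D 13319)) (.D 12807)) (.D 12551)) (.D 45191)) (.D
  11271)) (.D 10759)) (.D 10503))) (.D 9735)) (.D 9479))) (.N (.D 34245) (.N (.D 8971) (.N (.D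
  8973) (.N (.D 25747) (.N (.D 8979) (.N (.D 8981) (.N (.N (.N (.N (.N (.N (.L 28076160) (.D
  14409)) (.D 50152)) (.D 99300)) (.D 45319)) (.D 45191)) (.D 99288)))))))))) (.N (.N (.N (.D
  18115) (.N (.N (.N (.D 25747) (.N (.N (.N (.N (.N (.N (.N (.N (.L 18786432) (.D 14343)) (.D
  13319)) (.D 12807)) (.D 12551)) (.D 28807)) (.D 11271)) (.D 10759)) (.D 10503))) (.D 9735)) (.D
  9479))) (.N (.D 18115) (.N (.D 8971) (.N (.D 8973) (.N (.D 25747) (.N (.D 8979) (.N (.D 8981)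
  (.N (.N (.N (.N (.N (.N (.L 27954304) (.D 14409)) (.D 50152)) (.D 29191)) (.D 99298)) (.D
  28807)) (.D 99288))))))))) (.N (.N (.N (.N (.N (.N (.N (.N (.N (.N (.N (.N (.N (.L 28076160) (.D
  14343)) (.D 13319)) (.D 12807)) (.D 12551)) (.D 28811)) (.D 11271)) (.D 10759)) (.D 10503)) (.D
  26763)) (.D 9735)) (.D 9479)) (.N (.N (.N (.D 25747) (.N (.N (.N (.N (.N (.N (.N (.N (.L
  28076160) (.D 14343)) (.D 13319)) (.D 12807)) (.D 12551)) (.D 99297)) (.D 11271)) (.D 10759))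
  (.D 10503))) (.D 9735)) (.D 9479))) (.N (.N (.D 8971) (.N (.D 8973) (.N (.N (.D 8979) (.N (.D
  8981) (.N (.N (.N (.N (.N (.N (.L 28076160) (.D 30731)) (.D 29707)) (.D 99300)) (.D 99298)) (.D
  28811)) (.D 27659)))) (.D 26763)))) (.N (.D 8971) (.N (.D 8973) (.N (.D 25747) (.N (.D 8979) (.N
  (.D 8981) (.N (.N (.N (.N (.N (.N (.L 28076160) (.D 14409)) (.D 50152)) (.D 99300)) (.D 99298))
  (.D 99297)) (.D 99288))))))))))

def ext31 : CT :=
  .N (.N (.N (.N (.N (.N (.N (.N (.N (.N (.N (.N (.N (.N (.N (.L 28076160) (.D 14343)) (.D 13323))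
  (.D 12807)) (.D 12551)) (.D 28807)) (.D 11275)) (.D 10759)) (.D 10503)) (.D 26759)) (.D 50124))
  (.D 50122)) (.D 50121)) (.N (.N (.D 34246) (.N (.D 18118) (.N (.N (.N (.N (.N (.N (.N (.N (.N
  (.L 28076160) (.D 30727)) (.D 29707)) (.D 29191)) (.D 45319)) (.D 28807)) (.D 27659)) (.D
  27143)) (.D 43271)) (.D 26759)))) (.D 50121))) (.N (.N (.D 34245) (.N (.N (.D 1861) (.N (.N (.N
  (.N (.N (.N (.N (.N (.N (.L 14069888) (.D 14343)) (.D 13323)) (.D 12807)) (.D 12551)) (.D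
  45191)) (.D 11275)) (.D 10759)) (.D 10503)) (.D 43143))) (.D 50122))) (.N (.D 34245) (.N (.D
  34246) (.N (.N (.N (.N (.N (.N (.N (.N (.N (.N (.L 28076160) (.D 47111)) (.D 13325)) (.D 12813))
  (.D 45319)) (.D 45191)) (.D 11277)) (.D 10765)) (.D 43271)) (.D 43143)) (.N (.N (.N (.N (.N (.N
  (.N (.N (.N (.L 28076160) (.D 47111)) (.D 50152)) (.D 99300)) (.D 45319)) (.D 45191)) (.D
  50136)) (.D 99284)) (.D 43271)) (.D 43143))))))) (.N (.N (.N (.D 18115) (.N (.D 1859) (.N (.N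
  (.N (.N (.N (.N (.N (.N (.N (.N (.L 16091264) (.D 14343)) (.D 13325)) (.D 12807)) (.D 12551))
  (.D 28807)) (.D 11277)) (.D 10759)) (.D 10503)) (.D 26759)) (.D 50124)))) (.N (.D 18115) (.N (.N
  (.D 18118) (.N (.N (.N (.N (.N (.N (.N (.N (.N (.L 11897984) (.D 30727)) (.D 13323)) (.D 29191))
  (.D 12555)) (.D 28807)) (.D 11275)) (.D 27143)) (.D 10507)) (.D 26759))) (.N (.D 18118) (.N (.N
  (.N (.N (.N (.N (.N (.N (.N (.L 28068992) (.D 30727)) (.D 50152)) (.D 29191)) (.D 99298)) (.D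
  28807)) (.D 50136)) (.D 27143)) (.D 99282)) (.D 26759)))))) (.N (.N (.N (.D 1859) (.N (.D 1861)
  (.N (.N (.N (.N (.N (.N (.N (.N (.N (.L 16091264) (.D 14343)) (.D 29707)) (.D 12807)) (.D
  12551)) (.D 28811)) (.D 27659)) (.D 10759)) (.D 10503)) (.D 26763)))) (.N (.D 1859) (.N (.D
  1861) (.N (.N (.N (.N (.N (.N (.N (.N (.N (.L 16091264) (.D 14343)) (.D 50152)) (.D 12807)) (.D
  12551)) (.D 99297)) (.D 50136)) (.D 10759)) (.D 10503)) (.D 99281))))) (.N (.N (.N (.N (.N (.N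
  (.N (.N (.N (.N (.N (.N (.L 28076160) (.D 14347)) (.D 13323)) (.D 12813)) (.D 12555)) (.D
  28811)) (.D 11275)) (.D 10765)) (.D 10507)) (.D 26763)) (.D 34252)) (.N (.D 18122) (.N (.N (.N
  (.N (.N (.N (.N (.N (.N (.L 28076160) (.D 30731)) (.D 29707)) (.D 99300)) (.D 99298)) (.D
  28811)) (.D 27659)) (.D 99284)) (.D 99282)) (.D 26763)))) (.N (.N (.D 1865) (.N (.N (.N (.N (.N
  (.N (.N (.N (.N (.L 11897984) (.D 14347)) (.D 13323)) (.D 99300)) (.D 12555)) (.D 99297)) (.D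
  11275)) (.D 99284)) (.D 10507)) (.D 99281))) (.N (.N (.N (.N (.N (.N (.N (.N (.N (.N (.L
  28076160) (.D 14349)) (.D 13325)) (.D 12813)) (.D 99298)) (.D 99297)) (.D 11277)) (.D 10765))
  (.D 99282)) (.D 99281)) (.N (.N (.N (.N (.N (.N (.N (.N (.N (.L 28076160) (.D 14403)) (.D
  50152)) (.D 99300)) (.D 99298)) (.D 99297)) (.D 50136)) (.D 99284)) (.D 99282)) (.D 99281)))))))

def ext32 : CT :=
  .N (.N (.N (.N (.N (.N (.N (.N (.N (.N (.N (.N (.N (.N (.N (.L 28076160) (.D 14347)) (.D 13323))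
  (.D 12811)) (.D 12555)) (.D 28811)) (.D 11275)) (.D 10763)) (.D 10507)) (.D 26763)) (.D 9739))
  (.N (.D 9485) (.N (.N (.D 9491) (.N (.D 9493) (.N (.N (.N (.N (.N (.N (.L 28076160) (.D 30731))
  (.D 29707)) (.D 61963)) (.D 61707)) (.D 28811)) (.D 27659)))) (.D 26763)))) (.N (.N (.N (.D
  25747) (.N (.N (.N (.N (.N (.N (.N (.N (.L 28076160) (.D 14347)) (.D 13323)) (.D 12811)) (.D
  12555)) (.D 61579)) (.D 11275)) (.D 10763)) (.D 10507))) (.D 9739)) (.N (.D 9485) (.N (.D 25747)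
  (.N (.D 9491) (.N (.D 9493) (.N (.N (.N (.N (.N (.N (.L 28076160) (.D 14409)) (.D 99816)) (.D
  61963)) (.D 61707)) (.D 61579)) (.D 99800)))))))) (.D 58123)) (.D 57995)) (.N (.D 57741) (.N (.N
  (.N (.N (.N (.N (.N (.N (.N (.N (.N (.N (.N (.L 28076160) (.D 14347)) (.D 13323)) (.D 12811))
  (.D 12555)) (.D 28811)) (.D 11275)) (.D 10763)) (.D 10507)) (.D 26763)) (.D 9739)) (.N (.D 9485)
  (.N (.N (.D 9491) (.N (.D 9493) (.N (.N (.N (.N (.N (.N (.L 28076160) (.D 30731)) (.D 29707))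
  (.D 12867)) (.D 99810)) (.D 28811)) (.D 27659)))) (.D 26763)))) (.N (.N (.N (.D 25747) (.N (.N
  (.N (.N (.N (.N (.N (.N (.L 28076160) (.D 14347)) (.D 13323)) (.D 12811)) (.D 12555)) (.D
  99809)) (.D 11275)) (.D 10763)) (.D 10507))) (.D 9739)) (.N (.D 9485) (.N (.D 25747) (.N (.D
  9491) (.N (.D 9493) (.N (.N (.N (.N (.N (.N (.L 28076160) (.D 14409)) (.D 99816)) (.D 12867))
  (.D 99810)) (.D 99809)) (.D 99800)))))))) (.D 99782)))

def ext33 : CT :=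
  .N (.N (.N (.N (.N (.N (.N (.N (.N (.N (.N (.N (.N (.N (.N (.L 28076160) (.D 14343)) (.D 13319))
  (.D 12807)) (.D 12551)) (.D 28807)) (.D 11271)) (.D 10759)) (.D 10503)) (.D 26759)) (.D 9735))
  (.D 9479)) (.D 25735)) (.N (.N (.D 8971) (.N (.N (.N (.D 8979) (.N (.N (.N (.N (.D 8995) (.N (.N
  (.N (.L 28076160) (.D 30727)) (.D 29703)) (.D 29191))) (.D 28807)) (.D 27655)) (.D 27143))) (.D
  26759)) (.D 26119))) (.D 25735))) (.N (.N (.D 25227) (.N (.N (.N (.D 25235) (.N (.N (.N (.N (.D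
  25251) (.N (.N (.N (.N (.L 28076160) (.D 14343)) (.D 13319)) (.D 12807)) (.D 12551))) (.D
  11271)) (.D 10759)) (.D 10503))) (.D 9735)) (.D 9479))) (.N (.D 25227) (.N (.D 8971) (.N (.N (.D
  25235) (.N (.D 8979) (.N (.N (.N (.D 25251) (.N (.D 8995) (.N (.N (.N (.L 28076160) (.D 14405))
  (.D 13381)) (.D 99300)))) (.D 11333)) (.D 99284)))) (.D 99276)))))) (.N (.N (.N (.N (.N (.N (.N
  (.N (.N (.N (.N (.N (.N (.N (.L 28076160) (.D 14343)) (.D 13319)) (.D 12807)) (.D 12551)) (.D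
  28807)) (.D 11271)) (.D 10759)) (.D 10503)) (.D 26759)) (.D 9735)) (.D 9479)) (.D 25735)) (.N
  (.N (.D 8971) (.N (.N (.N (.D 8979) (.N (.N (.N (.N (.D 8995) (.N (.N (.N (.L 28076160) (.D
  30727)) (.D 29703)) (.D 29191))) (.D 28807)) (.D 27655)) (.D 27143))) (.D 26759)) (.D 26119)))
  (.D 25735))) (.N (.N (.D 25227) (.N (.N (.N (.D 25235) (.N (.N (.N (.N (.D 25251) (.N (.N (.N
  (.N (.L 28076160) (.D 14343)) (.D 13319)) (.D 12807)) (.D 12551))) (.D 11271)) (.D 10759)) (.D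
  10503))) (.D 9735)) (.D 9479))) (.N (.D 25227) (.N (.D 8971) (.N (.N (.D 25235) (.N (.D 8979)
  (.N (.N (.N (.D 25251) (.N (.D 8995) (.N (.N (.N (.L 28076160) (.D 14405)) (.D 13381)) (.D
  99300)))) (.D 11333)) (.D 99284)))) (.D 99276))))))

def ext34 : CT :=
  .N (.N (.N (.N (.N (.N (.N (.N (.N (.N (.N (.N (.N (.N (.N (.L 28076160) (.D 14343)) (.D 13319))
  (.D 12807)) (.D 12551)) (.D 28807)) (.D 11271)) (.D 10759)) (.D 10503)) (.D 26759)) (.D 9735))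
  (.D 9479)) (.D 50121)) (.N (.N (.D 8971) (.N (.D 8973) (.N (.N (.N (.N (.N (.N (.N (.N (.N (.L
  28076160) (.D 30727)) (.D 29707)) (.D 29191)) (.D 45319)) (.D 28807)) (.D 27659)) (.D 27143))
  (.D 43271)) (.D 26759)))) (.D 50121))) (.N (.N (.D 34245) (.N (.N (.N (.N (.N (.N (.N (.N (.N
  (.N (.N (.L 28076160) (.D 14343)) (.D 13319)) (.D 12807)) (.D 12551)) (.D 45191)) (.D 11271))
  (.D 10759)) (.D 10503)) (.D 43143)) (.D 9735)) (.D 9479))) (.N (.D 34245) (.N (.D 8971) (.N (.D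
  8973) (.N (.N (.N (.N (.N (.N (.N (.N (.N (.L 28076160) (.D 47111)) (.D 50152)) (.D 99300)) (.D
  45319)) (.D 45191)) (.D 50136)) (.D 99284)) (.D 43271)) (.D 43143))))))) (.N (.N (.N (.D 18115)
  (.N (.N (.N (.N (.N (.N (.N (.N (.N (.N (.N (.L 16091264) (.D 14343)) (.D 13319)) (.D 12807))
  (.D 12551)) (.D 28807)) (.D 11271)) (.D 10759)) (.D 10503)) (.D 26759)) (.D 9735)) (.D 9479)))
  (.N (.D 18115) (.N (.D 8971) (.N (.D 8973) (.N (.N (.N (.N (.N (.N (.N (.N (.N (.L 28068992) (.D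
  30727)) (.D 50152)) (.D 29191)) (.D 99298)) (.D 28807)) (.D 50136)) (.D 27143)) (.D 99282)) (.D
  26759)))))) (.N (.N (.N (.N (.N (.N (.N (.N (.N (.N (.N (.N (.N (.L 28076160) (.D 14343)) (.D
  13319)) (.D 12807)) (.D 12551)) (.D 28811)) (.D 11271)) (.D 10759)) (.D 10503)) (.D 26763)) (.D
  9735)) (.D 9479)) (.N (.N (.N (.N (.N (.N (.N (.N (.N (.N (.N (.L 28076160) (.D 14343)) (.D
  13319)) (.D 12807)) (.D 12551)) (.D 99297)) (.D 11271)) (.D 10759)) (.D 10503)) (.D 99281)) (.D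
  9735)) (.D 9479))) (.N (.N (.D 8971) (.N (.D 8973) (.N (.N (.N (.N (.N (.N (.N (.N (.N (.L
  28076160) (.D 30731)) (.D 29707)) (.D 99300)) (.D 99298)) (.D 28811)) (.D 27659)) (.D 99284))
  (.D 99282)) (.D 26763)))) (.N (.D 8971) (.N (.D 8973) (.N (.N (.N (.N (.N (.N (.N (.N (.N (.L
  28076160) (.D 14403)) (.D 50152)) (.D 99300)) (.D 99298)) (.D 99297)) (.D 50136)) (.D 99284))
  (.D 99282)) (.D 99281)))))))

def ext35 : CT :=
  .N (.N (.N (.N (.N (.N (.N (.N (.N (.N (.N (.N (.N (.N (.N (.L 28076160) (.D 14343)) (.D 13319))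
  (.D 12807)) (.D 12551)) (.D 28807)) (.D 11271)) (.D 10759)) (.D 10503)) (.D 26759)) (.D 9735))
  (.D 9479)) (.D 25735)) (.N (.N (.D 8971) (.N (.N (.N (.D 8979) (.N (.N (.N (.N (.N (.N (.N (.L
  28076160) (.D 30727)) (.D 29703)) (.D 29191)) (.D 45319)) (.D 28807)) (.D 27655)) (.D 27143)))
  (.D 26759)) (.D 26119))) (.D 25735))) (.N (.N (.D 25227) (.N (.N (.N (.D 25235) (.N (.N (.N (.N
  (.N (.N (.N (.N (.L 28076160) (.D 14343)) (.D 13319)) (.D 12807)) (.D 12551)) (.D 45191)) (.D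
  11271)) (.D 10759)) (.D 10503))) (.D 9735)) (.D 9479))) (.N (.D 25227) (.N (.D 8971) (.N (.N (.D
  25235) (.N (.D 8979) (.N (.N (.N (.N (.N (.N (.N (.L 28076160) (.D 14405)) (.D 13381)) (.D
  99300)) (.D 45319)) (.D 45191)) (.D 11333)) (.D 99284)))) (.D 99276)))))) (.N (.N (.N (.N (.N
  (.N (.N (.N (.N (.N (.N (.N (.N (.N (.L 28076160) (.D 14343)) (.D 13319)) (.D 12807)) (.D
  12551)) (.D 28807)) (.D 11271)) (.D 10759)) (.D 10503)) (.D 26759)) (.D 9735)) (.D 9479)) (.D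
  25735)) (.N (.N (.D 8971) (.N (.N (.N (.D 8979) (.N (.N (.N (.N (.N (.N (.N (.L 28076160) (.D
  30727)) (.D 29703)) (.D 29191)) (.D 99298)) (.D 28807)) (.D 27655)) (.D 27143))) (.D 26759)) (.D
  26119))) (.D 25735))) (.N (.N (.D 25227) (.N (.N (.N (.D 25235) (.N (.N (.N (.N (.N (.N (.N (.N
  (.L 28076160) (.D 14343)) (.D 13319)) (.D 12807)) (.D 12551)) (.D 99297)) (.D 11271)) (.D
  10759)) (.D 10503))) (.D 9735)) (.D 9479))) (.N (.D 25227) (.N (.D 8971) (.N (.N (.D 25235) (.N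
  (.D 8979) (.N (.N (.N (.N (.N (.N (.N (.L 28076160) (.D 14405)) (.D 13381)) (.D 99300)) (.D
  99298)) (.D 99297)) (.D 11333)) (.D 99284)))) (.D 99276))))))

def ext36 : CT :=
  .N (.N (.N (.N (.N (.N (.N (.N (.N (.N (.N (.N (.N (.N (.N (.L 28076160) (.D 14343)) (.D 13319))
  (.D 12807)) (.D 12551)) (.D 28807)) (.D 11271)) (.D 10759)) (.D 10503)) (.D 26759)) (.D 9735))
  (.D 9479)) (.D 25735)) (.N (.N (.D 8971) (.N (.N (.N (.N (.N (.N (.N (.N (.N (.N (.L 28076160)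
  (.D 30727)) (.D 29703)) (.D 29191)) (.D 45319)) (.D 28807)) (.D 27655)) (.D 27143)) (.D 43271))
  (.D 26759)) (.D 26119))) (.D 25735))) (.N (.N (.D 25227) (.N (.N (.N (.N (.N (.N (.N (.N (.N (.N
  (.N (.L 28076160) (.D 14343)) (.D 13319)) (.D 12807)) (.D 12551)) (.D 45191)) (.D 11271)) (.D
  10759)) (.D 10503)) (.D 43143)) (.D 9735)) (.D 9479))) (.N (.D 25227) (.N (.D 8971) (.N (.N (.N
  (.N (.N (.N (.N (.N (.N (.N (.L 28076160) (.D 47111)) (.D 13381)) (.D 99300)) (.D 45319)) (.D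
  45191)) (.D 11333)) (.D 99284)) (.D 43271)) (.D 43143)) (.D 99276)))))) (.N (.N (.N (.N (.N (.N
  (.N (.N (.N (.N (.N (.N (.N (.N (.L 28076160) (.D 14343)) (.D 13319)) (.D 12807)) (.D 12551))
  (.D 28807)) (.D 11271)) (.D 10759)) (.D 10503)) (.D 26759)) (.D 9735)) (.D 9479)) (.D 25735))
  (.N (.N (.D 8971) (.N (.N (.N (.N (.N (.N (.N (.N (.N (.N (.L 28076160) (.D 30727)) (.D 29703))
  (.D 29191)) (.D 99298)) (.D 28807)) (.D 27655)) (.D 27143)) (.D 99282)) (.D 26759)) (.D 26119)))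
  (.D 25735))) (.N (.N (.D 25227) (.N (.N (.N (.N (.N (.N (.N (.N (.N (.N (.N (.L 28076160) (.D
  14343)) (.D 13319)) (.D 12807)) (.D 12551)) (.D 99297)) (.D 11271)) (.D 10759)) (.D 10503)) (.D
  99281)) (.D 9735)) (.D 9479))) (.N (.D 25227) (.N (.D 8971) (.N (.N (.N (.N (.N (.N (.N (.N (.N
  (.N (.L 28076160) (.D 14403)) (.D 13381)) (.D 99300)) (.D 99298)) (.D 99297)) (.D 11333)) (.D
  99284)) (.D 99282)) (.D 99281)) (.D 99276))))))

def ext37 : CT :=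
  .N (.N (.N (.N (.N (.N (.N (.N (.N (.N (.N (.N (.N (.N (.N (.L 28076160) (.D 14343)) (.D 13319))
  (.D 12807)) (.D 12551)) (.D 28807)) (.D 11271)) (.D 10759)) (.D 10503)) (.D 26759)) (.D 9735))
  (.D 9479)) (.D 25735)) (.N (.N (.N (.N (.N (.N (.N (.N (.N (.N (.N (.N (.L 28076160) (.D 30727))
  (.D 29703)) (.D 29191)) (.D 45319)) (.D 28807)) (.D 27655)) (.D 27143)) (.D 43271)) (.D 26759))
  (.D 26119)) (.D 42247)) (.D 25735))) (.N (.N (.N (.N (.N (.N (.N (.N (.N (.N (.N (.N (.N (.L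
  28076160) (.D 14343)) (.D 13319)) (.D 12807)) (.D 12551)) (.D 45191)) (.D 11271)) (.D 10759))
  (.D 10503)) (.D 43143)) (.D 9735)) (.D 9479)) (.D 42119)) (.N (.N (.N (.N (.N (.N (.N (.N (.N
  (.N (.N (.N (.L 28076160) (.D 47111)) (.D 46087)) (.D 99300)) (.D 45319)) (.D 45191)) (.D
  44039)) (.D 99284)) (.D 43271)) (.D 43143)) (.D 99276)) (.D 42247)) (.D 42119)))) (.N (.N (.N
  (.N (.N (.N (.N (.N (.N (.N (.N (.N (.N (.N (.L 28076160) (.D 14343)) (.D 13319)) (.D 12807))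
  (.D 12551)) (.D 28807)) (.D 11271)) (.D 10759)) (.D 10503)) (.D 26759)) (.D 9735)) (.D 9479))
  (.D 25735)) (.N (.N (.N (.N (.N (.N (.N (.N (.N (.N (.N (.N (.L 28076160) (.D 30727)) (.D
  29703)) (.D 29191)) (.D 99298)) (.D 28807)) (.D 27655)) (.D 27143)) (.D 99282)) (.D 26759)) (.D
  26119)) (.D 99274)) (.D 25735))) (.N (.N (.N (.N (.N (.N (.N (.N (.N (.N (.N (.N (.N (.L
  28076160) (.D 14343)) (.D 13319)) (.D 12807)) (.D 12551)) (.D 99297)) (.D 11271)) (.D 10759))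
  (.D 10503)) (.D 99281)) (.D 9735)) (.D 9479)) (.D 99273)) (.N (.N (.N (.N (.N (.N (.N (.N (.N
  (.N (.N (.N (.L 28076160) (.D 14403)) (.D 13379)) (.D 99300)) (.D 99298)) (.D 99297)) (.D
  11331)) (.D 99284)) (.D 99282)) (.D 99281)) (.D 99276)) (.D 99274)) (.D 99273))))

end MP7ea278
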