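import Pool.Agent.Lib.MP_7ea278_ag.Sv.Tests
import Pool.Agent.Lib.MP_7ea278_ag.Sv.Tree7

/-!
Evaluation of the search trees for the extensions to seven elements.
-/

namespace MP7ea278

/-- The search trees of the extensions of the representatives. -/
def exts : List CT := [ext0, ext1, ext2, ext3, ext4, ext5, ext6, ext7, ext8, ext9, 
  ext10, ext11, ext12, ext13, ext14, ext15, ext16, ext17, ext18, ext19, 
  ext20, ext21, ext22, ext23, ext24, ext25, ext26, ext27, ext28, ext29, 
  ext30, ext31, ext32, ext33, ext34, ext35, ext36, ext37]

theorem run7 : ∀ k < 38, chk leaf7 (exts.getD k (.D 0)) X7m 18446744073709551615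
    (reps.getD k 0) = true := by decide +kernel

end MP7ea278
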