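import Pool.Agent.Lib.MP_7ea278_ag.Sv.Cone

/-!
Cut tree of the matroid number 0 on seven elements with nonbases 127, 347, 567.
-/

namespace MP7ea278

/-- The cone over the base polytope. -/
def ty0R : Set (Amb 7) := {x | 1 ≤ x.1 ∧
  (0 ≤ x.2 0 ∧ x.2 0 ≤ (x.1 : ℤ)) ∧
  (0 ≤ x.2 1 ∧ x.2 1 ≤ (x.1 : ℤ)) ∧
  (0 ≤ x.2 2 ∧ x.2 2 ≤ (x.1 : ℤ)) ∧
  (0 ≤ x.2 3 ∧ x.2 3 ≤ (x.1 : ℤ)) ∧
  (0 ≤ x.2 4 ∧ x.2 4 ≤ (x.1 : ℤ)) ∧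
  (0 ≤ x.2 5 ∧ x.2 5 ≤ (x.1 : ℤ)) ∧
  (0 ≤ x.2 6 ∧ x.2 6 ≤ (x.1 : ℤ)) ∧
  x.2 0 + x.2 1 + x.2 2 + x.2 3 + x.2 4 + x.2 5 + x.2 6 = 3 * (x.1 : ℤ) ∧
  x.2 0 + x.2 1 + x.2 6 ≤ 2 * (x.1 : ℤ) ∧
  x.2 2 + x.2 3 + x.2 6 ≤ 2 * (x.1 : ℤ) ∧
  x.2 4 + x.2 5 + x.2 6 ≤ 2 * (x.1 : ℤ)}

theorem ty0R_add : ∀ a ∈ ty0R, ∀ b ∈ ty0R, a + b ∈ ty0R := by
  rintro a ha b hb
  unfold ty0R at ha hb ⊢
  rw [Set.mem_ofPred_eq] at ha hb ⊢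
  have e1 : (a + b).1 = a.1 + b.1 := rfl
  have e2 : ∀ i, (a + b).2 i = a.2 i + b.2 i := fun _ => rfl
  simp only [e1, e2]
  push_cast
  omega

theorem ty0R_pos : ∀ a ∈ ty0R, 1 ≤ a.1 := fun _ ha => ha.1

/-- Order of leaf 0. -/
def t0s0 : Equiv.Perm (Fin 7) := mkQ ![0, 1, 2, 3, 6, 4, 5] ![0, 1, 2, 3, 5, 6, 4]
  (by decide) (by decide)

/-- Lower bounds of leaf 0. -/
def t0l0 : ℕ → ℕ → ℤ := tb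
  [[0, 0, 0, 0, 1, 1, 2, 3], [0, 0, 0, 0, 0, 0, 1, 2], [0, 0, 0, 0, 0, 0, 1, 2], [0, 0, 0, 0, 0,
    0, 0, 1], [0, 0, 0, 0, 0, 0, 0, 0], [0, 0, 0, 0, 0, 0, 0, 0], [0, 0, 0, 0, 0, 0, 0, 0], [0,
    0, 0, 0, 0, 0, 0, 0]]

/-- Upper bounds of leaf 0. -/
def t0h0 : ℕ → ℕ → ℤ := tb
  [[0, 1, 1, 2, 3, 3, 3, 3], [0, 0, 1, 2, 3, 3, 3, 3], [0, 0, 0, 1, 2, 2, 3, 3], [0, 0, 0, 0, 1,
    2, 3, 3], [0, 0, 0, 0, 0, 1, 2, 2], [0, 0, 0, 0, 0, 0, 1, 2], [0, 0, 0, 0, 0, 0, 0, 1], [0,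
    0, 0, 0, 0, 0, 0, 0]]

theorem t0leaf0 (K : Type) [CommRing K] : TV K (dg 7)
    {a : Amb 7 | a ∈ ty0R ∧ 0 ≤ cutH7 1 1 1 0 0 0 0 0 a} := by
  refine TV_leaf7 t0s0 t0l0 t0h0 (by decide) (by decide) _ fun x => ?_
  simp only [Set.mem_ofPred_eq, ty0R, B7, t0l0, t0h0, tb, t0s0, mkQ, cutH7,
    AddMonoidHom.coe_mk, ZeroHom.coe_mk, Equiv.coe_fn_mk, List.getD_cons_zero,
    List.getD_cons_succ, Matrix.cons_val]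
  constructor
  · intro h
    omega
  · intro h
    omega

/-- Order of leaf 1. -/
def t0s1 : Equiv.Perm (Fin 7) := mkQ ![0, 1, 2, 3, 4, 5, 6] ![0, 1, 2, 3, 4, 5, 6]
  (by decide) (by decide)

/-- Lower bounds of leaf 1. -/
def t0l1 : ℕ → ℕ → ℤ := tb
  [[0, 0, 1, 1, 1, 1, 2, 3], [0, 0, 0, 0, 0, 0, 1, 2], [0, 0, 0, 0, 0, 0, 1, 1], [0, 0, 0, 0, 0,
    0, 0, 0], [0, 0, 0, 0, 0, 0, 0, 0], [0, 0, 0, 0, 0, 0, 0, 0], [0, 0, 0, 0, 0, 0, 0, 0], [0,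
    0, 0, 0, 0, 0, 0, 0]]

/-- Upper bounds of leaf 1. -/
def t0h1 : ℕ → ℕ → ℤ := tb
  [[0, 1, 2, 3, 3, 3, 3, 3], [0, 0, 1, 2, 3, 3, 3, 3], [0, 0, 0, 1, 2, 2, 2, 2], [0, 0, 0, 0, 1,
    2, 2, 2], [0, 0, 0, 0, 0, 1, 2, 2], [0, 0, 0, 0, 0, 0, 1, 2], [0, 0, 0, 0, 0, 0, 0, 1], [0,
    0, 0, 0, 0, 0, 0, 0]]

theorem t0leaf1 (K : Type) [CommRing K] : TV K (dg 7)
    {a : Amb 7 | a ∈ ty0R ∧ cutH7 1 1 1 0 0 0 0 0 a ≤ 0} := by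
  refine TV_leaf7 t0s1 t0l1 t0h1 (by decide) (by decide) _ fun x => ?_
  simp only [Set.mem_ofPred_eq, ty0R, B7, t0l1, t0h1, tb, t0s1, mkQ, cutH7,
    AddMonoidHom.coe_mk, ZeroHom.coe_mk, Equiv.coe_fn_mk, List.getD_cons_zero,
    List.getD_cons_succ, Matrix.cons_val]
  constructor
  · intro h
    omega
  · intro h
    omega

/-- The cut tree. -/
theorem TV_ty0R (K : Type) [CommRing K] : TV K (dg 7) ty0R := by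
  refine TV_cut7 _ ty0R_add ty0R_pos (cutH7 1 1 1 0 0 0 0 0) ?_ ?_
  · exact t0leaf0 K
  · exact t0leaf1 K

/-- The family of the bases. -/
def ty0M : ℕ := 22025765290448503320889608661120

theorem ty0_spec : ∀ m < 128, (ty0M.testBit m = true ↔ ((1 : ℕ), vec m) ∈ ty0R) := by
  unfold ty0R
  simp only [Set.mem_ofPred_eq]
  decide +kernel

/-- Families isomorphic to this one. -/
theorem TV_ty0 {K : Type} [CommRing K] [Nontrivial K] (C : Set (Fin 7 → ℤ))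
    (h01 : ∀ u ∈ C, ∀ i, 0 ≤ u i ∧ u i ≤ 1)
    (hC : ∀ m < 128, (vec m ∈ C ↔ ty0M.testBit m = true)) : TV K (dg 7) (Sg C) := by
  refine TV_Sg_of_cone ty0R (TV_ty0R K) ty0R_add ty0R_pos C fun u => ?_
  constructor
  · intro hu
    obtain ⟨m, hm, rfl⟩ := exists_vec (h01 u hu)
    exact (ty0_spec m hm).1 ((hC m hm).1 hu)
  · intro hu
    have h2 : ∀ i, 0 ≤ u i ∧ u i ≤ 1 := by
      have h3 := hu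
      unfold ty0R at h3
      rw [Set.mem_ofPred_eq] at h3
      simp only [Nat.cast_one] at h3
      have h4 : (0 ≤ u 0 ∧ u 0 ≤ 1) ∧ (0 ≤ u 1 ∧ u 1 ≤ 1) ∧ (0 ≤ u 2 ∧ u 2 ≤ 1) ∧
          (0 ≤ u 3 ∧ u 3 ≤ 1) ∧ (0 ≤ u 4 ∧ u 4 ≤ 1) ∧ (0 ≤ u 5 ∧ u 5 ≤ 1) ∧
          (0 ≤ u 6 ∧ u 6 ≤ 1) := by omega
      intro i
      fin_cases i
      · exact h4.1
      · exact h4.2.1
      · exact h4.2.2.1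
      · exact h4.2.2.2.1
      · exact h4.2.2.2.2.1
      · exact h4.2.2.2.2.2.1
      · exact h4.2.2.2.2.2.2
    obtain ⟨m, hm, rfl⟩ := exists_vec h2
    exact (hC m hm).2 ((ty0_spec m hm).2 hu)

end MP7ea278
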