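import Pool.Agent.Lib.MP_7ea278_ag.Sv.Cone

/-!
Cut tree of the matroid number 6 on seven elements with nonbases 123, 456, 147, 257, 367.
-/

namespace MP7ea278

/-- The cone over the base polytope. -/
def ty6R : Set (Amb 7) := {x | 1 ≤ x.1 ∧
  (0 ≤ x.2 0 ∧ x.2 0 ≤ (x.1 : ℤ)) ∧
  (0 ≤ x.2 1 ∧ x.2 1 ≤ (x.1 : ℤ)) ∧
  (0 ≤ x.2 2 ∧ x.2 2 ≤ (x.1 : ℤ)) ∧
  (0 ≤ x.2 3 ∧ x.2 3 ≤ (x.1 : ℤ)) ∧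
  (0 ≤ x.2 4 ∧ x.2 4 ≤ (x.1 : ℤ)) ∧
  (0 ≤ x.2 5 ∧ x.2 5 ≤ (x.1 : ℤ)) ∧
  (0 ≤ x.2 6 ∧ x.2 6 ≤ (x.1 : ℤ)) ∧
  x.2 0 + x.2 1 + x.2 2 + x.2 3 + x.2 4 + x.2 5 + x.2 6 = 3 * (x.1 : ℤ) ∧
  x.2 0 + x.2 1 + x.2 2 ≤ 2 * (x.1 : ℤ) ∧
  x.2 0 + x.2 3 + x.2 6 ≤ 2 * (x.1 : ℤ) ∧
  x.2 1 + x.2 4 + x.2 6 ≤ 2 * (x.1 : ℤ) ∧
  x.2 2 + x.2 5 + x.2 6 ≤ 2 * (x.1 : ℤ) ∧
  x.2 3 + x.2 4 + x.2 5 ≤ 2 * (x.1 : ℤ)}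

theorem ty6R_add : ∀ a ∈ ty6R, ∀ b ∈ ty6R, a + b ∈ ty6R := by
  rintro a ha b hb
  unfold ty6R at ha hb ⊢
  rw [Set.mem_ofPred_eq] at ha hb ⊢
  have e1 : (a + b).1 = a.1 + b.1 := rfl
  have e2 : ∀ i, (a + b).2 i = a.2 i + b.2 i := fun _ => rfl
  simp only [e1, e2]
  push_cast
  omega

theorem ty6R_pos : ∀ a ∈ ty6R, 1 ≤ a.1 := fun _ ha => ha.1

/-- Order of leaf 0. -/
def t6s0 : Equiv.Perm (Fin 7) := mkQ ![0, 1, 6, 2, 5, 4, 3] ![0, 1, 3, 6, 5, 4, 2]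
  (by decide) (by decide)

/-- Lower bounds of leaf 0. -/
def t6l0 : ℕ → ℕ → ℤ := tb
  [[0, 0, 0, 0, 1, 1, 2, 3], [0, 0, 0, 0, 0, 1, 2, 2], [0, 0, 0, 0, 0, 0, 1, 2], [0, 0, 0, 0, 0,
    0, 1, 1], [0, 0, 0, 0, 0, 0, 0, 0], [0, 0, 0, 0, 0, 0, 0, 0], [0, 0, 0, 0, 0, 0, 0, 0], [0,
    0, 0, 0, 0, 0, 0, 0]]

/-- Upper bounds of leaf 0. -/
def t6h0 : ℕ → ℕ → ℤ := tb
  [[0, 1, 1, 2, 3, 3, 3, 3], [0, 0, 1, 1, 2, 2, 3, 3], [0, 0, 0, 1, 2, 2, 3, 3], [0, 0, 0, 0, 1,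
    1, 2, 3], [0, 0, 0, 0, 0, 1, 2, 2], [0, 0, 0, 0, 0, 0, 1, 2], [0, 0, 0, 0, 0, 0, 0, 1], [0,
    0, 0, 0, 0, 0, 0, 0]]

theorem t6leaf0 (K : Type) [CommRing K] : TV K (dg 7)
    {a : Amb 7 | a ∈ {a : Amb 7 | a ∈ {a : Amb 7 | a ∈ {a : Amb 7 | a ∈ ty6R ∧ 0 ≤ cutH7 1 1 0 0 1 0
    0 0 a} ∧ 0 ≤ cutH7 1 1 1 0 0 0 0 0 a} ∧ 0 ≤ cutH7 1 0 0 1 0 0 1 0 a} ∧ 0 ≤ cutH7 1 0 1 0 0 0
    0 1 a} := by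
  refine TV_leaf7 t6s0 t6l0 t6h0 (by decide) (by decide) _ fun x => ?_
  simp only [Set.mem_ofPred_eq, ty6R, B7, t6l0, t6h0, tb, t6s0, mkQ, cutH7,
    AddMonoidHom.coe_mk, ZeroHom.coe_mk, Equiv.coe_fn_mk, List.getD_cons_zero,
    List.getD_cons_succ, Matrix.cons_val]
  constructor
  · intro h
    omega
  · intro h
    omega

/-- Order of leaf 1. -/
def t6s1 : Equiv.Perm (Fin 7) := mkQ ![0, 1, 6, 4, 2, 5, 3] ![0, 1, 4, 6, 3, 5, 2]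
  (by decide) (by decide)

/-- Lower bounds of leaf 1. -/
def t6l1 : ℕ → ℕ → ℤ := tb
  [[0, 0, 0, 1, 1, 1, 2, 3], [0, 0, 0, 1, 1, 1, 2, 2], [0, 0, 0, 0, 0, 0, 1, 2], [0, 0, 0, 0, 0,
    0, 0, 1], [0, 0, 0, 0, 0, 0, 0, 0], [0, 0, 0, 0, 0, 0, 0, 0], [0, 0, 0, 0, 0, 0, 0, 0], [0,
    0, 0, 0, 0, 0, 0, 0]]

/-- Upper bounds of leaf 1. -/
def t6h1 : ℕ → ℕ → ℤ := tb
  [[0, 1, 1, 2, 3, 3, 3, 3], [0, 0, 1, 2, 2, 3, 3, 3], [0, 0, 0, 1, 2, 3, 3, 3], [0, 0, 0, 0, 1,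
    2, 2, 2], [0, 0, 0, 0, 0, 1, 1, 2], [0, 0, 0, 0, 0, 0, 1, 2], [0, 0, 0, 0, 0, 0, 0, 1], [0,
    0, 0, 0, 0, 0, 0, 0]]

theorem t6leaf1 (K : Type) [CommRing K] : TV K (dg 7)
    {a : Amb 7 | a ∈ {a : Amb 7 | a ∈ {a : Amb 7 | a ∈ {a : Amb 7 | a ∈ ty6R ∧ 0 ≤ cutH7 1 1 0 0 1 0
    0 0 a} ∧ 0 ≤ cutH7 1 1 1 0 0 0 0 0 a} ∧ 0 ≤ cutH7 1 0 0 1 0 0 1 0 a} ∧ cutH7 1 0 1 0 0 0 0 1
    a ≤ 0} := by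
  refine TV_leaf7 t6s1 t6l1 t6h1 (by decide) (by decide) _ fun x => ?_
  simp only [Set.mem_ofPred_eq, ty6R, B7, t6l1, t6h1, tb, t6s1, mkQ, cutH7,
    AddMonoidHom.coe_mk, ZeroHom.coe_mk, Equiv.coe_fn_mk, List.getD_cons_zero,
    List.getD_cons_succ, Matrix.cons_val]
  constructor
  · intro h
    omega
  · intro h
    omega

/-- Order of leaf 2. -/
def t6s2 : Equiv.Perm (Fin 7) := mkQ ![0, 1, 6, 2, 5, 4, 3] ![0, 1, 3, 6, 5, 4, 2]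
  (by decide) (by decide)

/-- Lower bounds of leaf 2. -/
def t6l2 : ℕ → ℕ → ℤ := tb
  [[0, 0, 0, 0, 1, 1, 2, 3], [0, 0, 0, 0, 0, 1, 2, 2], [0, 0, 0, 0, 0, 1, 1, 2], [0, 0, 0, 0, 0,
    1, 1, 1], [0, 0, 0, 0, 0, 0, 0, 0], [0, 0, 0, 0, 0, 0, 0, 0], [0, 0, 0, 0, 0, 0, 0, 0], [0,
    0, 0, 0, 0, 0, 0, 0]]

/-- Upper bounds of leaf 2. -/
def t6h2 : ℕ → ℕ → ℤ := tb
  [[0, 1, 1, 2, 3, 3, 3, 3], [0, 0, 1, 2, 3, 3, 3, 3], [0, 0, 0, 1, 2, 2, 3, 3], [0, 0, 0, 0, 1,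
    2, 3, 3], [0, 0, 0, 0, 0, 1, 2, 2], [0, 0, 0, 0, 0, 0, 1, 2], [0, 0, 0, 0, 0, 0, 0, 1], [0,
    0, 0, 0, 0, 0, 0, 0]]

theorem t6leaf2 (K : Type) [CommRing K] : TV K (dg 7)
    {a : Amb 7 | a ∈ {a : Amb 7 | a ∈ {a : Amb 7 | a ∈ ty6R ∧ 0 ≤ cutH7 1 1 0 0 1 0 0 0 a} ∧ 0 ≤
    cutH7 1 1 1 0 0 0 0 0 a} ∧ cutH7 1 0 0 1 0 0 1 0 a ≤ 0} := by
  refine TV_leaf7 t6s2 t6l2 t6h2 (by decide) (by decide) _ fun x => ?_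
  simp only [Set.mem_ofPred_eq, ty6R, B7, t6l2, t6h2, tb, t6s2, mkQ, cutH7,
    AddMonoidHom.coe_mk, ZeroHom.coe_mk, Equiv.coe_fn_mk, List.getD_cons_zero,
    List.getD_cons_succ, Matrix.cons_val]
  constructor
  · intro h
    omega
  · intro h
    omega

/-- Order of leaf 3. -/
def t6s3 : Equiv.Perm (Fin 7) := mkQ ![0, 1, 2, 4, 6, 5, 3] ![0, 1, 2, 6, 3, 5, 4]
  (by decide) (by decide)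

/-- Lower bounds of leaf 3. -/
def t6l3 : ℕ → ℕ → ℤ := tb
  [[0, 0, 1, 1, 1, 1, 2, 3], [0, 0, 0, 0, 0, 1, 2, 2], [0, 0, 0, 0, 0, 0, 1, 1], [0, 0, 0, 0, 0,
    0, 0, 1], [0, 0, 0, 0, 0, 0, 0, 0], [0, 0, 0, 0, 0, 0, 0, 0], [0, 0, 0, 0, 0, 0, 0, 0], [0,
    0, 0, 0, 0, 0, 0, 0]]

/-- Upper bounds of leaf 3. -/
def t6h3 : ℕ → ℕ → ℤ := tb
  [[0, 1, 2, 2, 3, 3, 3, 3], [0, 0, 1, 2, 3, 3, 3, 3], [0, 0, 0, 1, 2, 2, 2, 2], [0, 0, 0, 0, 1,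
    1, 2, 2], [0, 0, 0, 0, 0, 1, 2, 2], [0, 0, 0, 0, 0, 0, 1, 2], [0, 0, 0, 0, 0, 0, 0, 1], [0,
    0, 0, 0, 0, 0, 0, 0]]

theorem t6leaf3 (K : Type) [CommRing K] : TV K (dg 7)
    {a : Amb 7 | a ∈ {a : Amb 7 | a ∈ {a : Amb 7 | a ∈ ty6R ∧ 0 ≤ cutH7 1 1 0 0 1 0 0 0 a} ∧ cutH7 1
    1 1 0 0 0 0 0 a ≤ 0} ∧ 0 ≤ cutH7 1 0 0 0 0 1 0 1 a} := by
  refine TV_leaf7 t6s3 t6l3 t6h3 (by decide) (by decide) _ fun x => ?_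
  simp only [Set.mem_ofPred_eq, ty6R, B7, t6l3, t6h3, tb, t6s3, mkQ, cutH7,
    AddMonoidHom.coe_mk, ZeroHom.coe_mk, Equiv.coe_fn_mk, List.getD_cons_zero,
    List.getD_cons_succ, Matrix.cons_val]
  constructor
  · intro h
    omega
  · intro h
    omega

/-- Order of leaf 4. -/
def t6s4 : Equiv.Perm (Fin 7) := mkQ ![0, 1, 4, 6, 2, 5, 3] ![0, 1, 4, 6, 2, 5, 3]
  (by decide) (by decide)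

/-- Lower bounds of leaf 4. -/
def t6l4 : ℕ → ℕ → ℤ := tb
  [[0, 0, 1, 1, 2, 2, 2, 3], [0, 0, 0, 0, 1, 1, 2, 2], [0, 0, 0, 0, 1, 1, 1, 1], [0, 0, 0, 0, 0,
    0, 0, 0], [0, 0, 0, 0, 0, 0, 0, 0], [0, 0, 0, 0, 0, 0, 0, 0], [0, 0, 0, 0, 0, 0, 0, 0], [0,
    0, 0, 0, 0, 0, 0, 0]]

/-- Upper bounds of leaf 4. -/
def t6h4 : ℕ → ℕ → ℤ := tb
  [[0, 1, 2, 3, 3, 3, 3, 3], [0, 0, 1, 2, 2, 3, 3, 3], [0, 0, 0, 1, 2, 2, 2, 2], [0, 0, 0, 0, 1,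
    2, 2, 2], [0, 0, 0, 0, 0, 1, 1, 1], [0, 0, 0, 0, 0, 0, 1, 1], [0, 0, 0, 0, 0, 0, 0, 1], [0,
    0, 0, 0, 0, 0, 0, 0]]

theorem t6leaf4 (K : Type) [CommRing K] : TV K (dg 7)
    {a : Amb 7 | a ∈ {a : Amb 7 | a ∈ {a : Amb 7 | a ∈ ty6R ∧ 0 ≤ cutH7 1 1 0 0 1 0 0 0 a} ∧ cutH7 1
    1 1 0 0 0 0 0 a ≤ 0} ∧ cutH7 1 0 0 0 0 1 0 1 a ≤ 0} := by
  refine TV_leaf7 t6s4 t6l4 t6h4 (by decide) (by decide) _ fun x => ?_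
  simp only [Set.mem_ofPred_eq, ty6R, B7, t6l4, t6h4, tb, t6s4, mkQ, cutH7,
    AddMonoidHom.coe_mk, ZeroHom.coe_mk, Equiv.coe_fn_mk, List.getD_cons_zero,
    List.getD_cons_succ, Matrix.cons_val]
  constructor
  · intro h
    omega
  · intro h
    omega

/-- Order of leaf 5. -/
def t6s5 : Equiv.Perm (Fin 7) := mkQ ![0, 3, 4, 5, 1, 2, 6] ![0, 4, 5, 1, 2, 3, 6]
  (by decide) (by decide)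

/-- Lower bounds of leaf 5. -/
def t6l5 : ℕ → ℕ → ℤ := tb
  [[0, 0, 1, 1, 1, 1, 2, 3], [0, 0, 0, 0, 0, 0, 1, 2], [0, 0, 0, 0, 0, 0, 1, 1], [0, 0, 0, 0, 0,
    0, 0, 0], [0, 0, 0, 0, 0, 0, 0, 0], [0, 0, 0, 0, 0, 0, 0, 0], [0, 0, 0, 0, 0, 0, 0, 0], [0,
    0, 0, 0, 0, 0, 0, 0]]

/-- Upper bounds of leaf 5. -/
def t6h5 : ℕ → ℕ → ℤ := tb
  [[0, 1, 2, 3, 3, 3, 3, 3], [0, 0, 1, 2, 2, 3, 3, 3], [0, 0, 0, 1, 2, 2, 2, 2], [0, 0, 0, 0, 1,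
    2, 2, 2], [0, 0, 0, 0, 0, 1, 1, 2], [0, 0, 0, 0, 0, 0, 1, 2], [0, 0, 0, 0, 0, 0, 0, 1], [0,
    0, 0, 0, 0, 0, 0, 0]]

theorem t6leaf5 (K : Type) [CommRing K] : TV K (dg 7)
    {a : Amb 7 | a ∈ {a : Amb 7 | a ∈ ty6R ∧ cutH7 1 1 0 0 1 0 0 0 a ≤ 0} ∧ 0 ≤ cutH7 1 0 1 1 0 0 0
    0 a} := by
  refine TV_leaf7 t6s5 t6l5 t6h5 (by decide) (by decide) _ fun x => ?_
  simp only [Set.mem_ofPred_eq, ty6R, B7, t6l5, t6h5, tb, t6s5, mkQ, cutH7,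
    AddMonoidHom.coe_mk, ZeroHom.coe_mk, Equiv.coe_fn_mk, List.getD_cons_zero,
    List.getD_cons_succ, Matrix.cons_val]
  constructor
  · intro h
    omega
  · intro h
    omega

/-- Order of leaf 6. -/
def t6s6 : Equiv.Perm (Fin 7) := mkQ ![0, 1, 2, 4, 5, 6, 3] ![0, 1, 2, 6, 3, 4, 5]
  (by decide) (by decide)

/-- Lower bounds of leaf 6. -/
def t6l6 : ℕ → ℕ → ℤ := tb
  [[0, 0, 0, 1, 1, 1, 2, 3], [0, 0, 0, 1, 1, 1, 1, 2], [0, 0, 0, 0, 0, 0, 0, 1], [0, 0, 0, 0, 0,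
    0, 0, 1], [0, 0, 0, 0, 0, 0, 0, 0], [0, 0, 0, 0, 0, 0, 0, 0], [0, 0, 0, 0, 0, 0, 0, 0], [0,
    0, 0, 0, 0, 0, 0, 0]]

/-- Upper bounds of leaf 6. -/
def t6h6 : ℕ → ℕ → ℤ := tb
  [[0, 1, 2, 2, 3, 3, 3, 3], [0, 0, 1, 2, 2, 2, 2, 3], [0, 0, 0, 1, 2, 2, 2, 3], [0, 0, 0, 0, 1,
    1, 1, 2], [0, 0, 0, 0, 0, 1, 1, 2], [0, 0, 0, 0, 0, 0, 1, 2], [0, 0, 0, 0, 0, 0, 0, 1], [0,
    0, 0, 0, 0, 0, 0, 0]]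

theorem t6leaf6 (K : Type) [CommRing K] : TV K (dg 7)
    {a : Amb 7 | a ∈ {a : Amb 7 | a ∈ ty6R ∧ cutH7 1 1 0 0 1 0 0 0 a ≤ 0} ∧ cutH7 1 0 1 1 0 0 0 0 a
    ≤ 0} := by
  refine TV_leaf7 t6s6 t6l6 t6h6 (by decide) (by decide) _ fun x => ?_
  simp only [Set.mem_ofPred_eq, ty6R, B7, t6l6, t6h6, tb, t6s6, mkQ, cutH7,
    AddMonoidHom.coe_mk, ZeroHom.coe_mk, Equiv.coe_fn_mk, List.getD_cons_zero,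
    List.getD_cons_succ, Matrix.cons_val]
  constructor
  · intro h
    omega
  · intro h
    omega

/-- The cut tree. -/
theorem TV_ty6R (K : Type) [CommRing K] : TV K (dg 7) ty6R := by
  refine TV_cut7 _ ty6R_add ty6R_pos (cutH7 1 1 0 0 1 0 0 0) ?_ ?_
  · refine TV_cut7 _ (piece7_add _ ty6R_add _) (fun a ha => ty6R_pos a ha.1) (cutH7 1 1 1 0 0 0 0 0) ?_ ?_
    · refine TV_cut7 _ (piece7_add _ (piece7_add _ ty6R_add _) _) (fun a ha => ty6R_pos a ha.1.1) (cutH7 1 0 0 1 0 0 1 0) ?_ ?_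
      · refine TV_cut7 _ (piece7_add _ (piece7_add _ (piece7_add _ ty6R_add _) _) _) (fun a ha => ty6R_pos a ha.1.1.1) (cutH7 1 0 1 0 0 0 0 1) ?_ ?_
        · exact t6leaf0 K
        · exact t6leaf1 K
      · exact t6leaf2 K
    · refine TV_cut7 _ (piece7_add' _ (piece7_add _ ty6R_add _) _) (fun a ha => ty6R_pos a ha.1.1) (cutH7 1 0 0 0 0 1 0 1) ?_ ?_
      · exact t6leaf3 K
      · exact t6leaf4 K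
  · refine TV_cut7 _ (piece7_add' _ ty6R_add _) (fun a ha => ty6R_pos a ha.1) (cutH7 1 0 1 1 0 0 0 0) ?_ ?_
    · exact t6leaf5 K
    · exact t6leaf6 K

/-- The family of the bases. -/
def ty6M : ℕ := 5213054968455605256646543207327744

theorem ty6_spec : ∀ m < 128, (ty6M.testBit m = true ↔ ((1 : ℕ), vec m) ∈ ty6R) := by
  unfold ty6R
  simp only [Set.mem_ofPred_eq]
  decide +kernel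

/-- Families isomorphic to this one. -/
theorem TV_ty6 {K : Type} [CommRing K] [Nontrivial K] (C : Set (Fin 7 → ℤ))
    (h01 : ∀ u ∈ C, ∀ i, 0 ≤ u i ∧ u i ≤ 1)
    (hC : ∀ m < 128, (vec m ∈ C ↔ ty6M.testBit m = true)) : TV K (dg 7) (Sg C) := by
  refine TV_Sg_of_cone ty6R (TV_ty6R K) ty6R_add ty6R_pos C fun u => ?_
  constructor
  · intro hu
    obtain ⟨m, hm, rfl⟩ := exists_vec (h01 u hu)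
    exact (ty6_spec m hm).1 ((hC m hm).1 hu)
  · intro hu
    have h2 : ∀ i, 0 ≤ u i ∧ u i ≤ 1 := by
      have h3 := hu
      unfold ty6R at h3
      rw [Set.mem_ofPred_eq] at h3
      simp only [Nat.cast_one] at h3
      have h4 : (0 ≤ u 0 ∧ u 0 ≤ 1) ∧ (0 ≤ u 1 ∧ u 1 ≤ 1) ∧ (0 ≤ u 2 ∧ u 2 ≤ 1) ∧
          (0 ≤ u 3 ∧ u 3 ≤ 1) ∧ (0 ≤ u 4 ∧ u 4 ≤ 1) ∧ (0 ≤ u 5 ∧ u 5 ≤ 1) ∧
          (0 ≤ u 6 ∧ u 6 ≤ 1) := by omega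
      intro i
      fin_cases i
      · exact h4.1
      · exact h4.2.1
      · exact h4.2.2.1
      · exact h4.2.2.2.1
      · exact h4.2.2.2.2.1
      · exact h4.2.2.2.2.2.1
      · exact h4.2.2.2.2.2.2
    obtain ⟨m, hm, rfl⟩ := exists_vec h2
    exact (hC m hm).2 ((ty6_spec m hm).2 hu)

end MP7ea278
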