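import Pool.Agent.Lib.MP_7ea278_ag.Sv.Cone

/-!
Cut tree of the matroid number 8 on seven elements with nonbases 135, 236, 456, 347, 257, 167.
-/

namespace MP7ea278

/-- The cone over the base polytope. -/
def ty8R : Set (Amb 7) := {x | 1 ≤ x.1 ∧
  (0 ≤ x.2 0 ∧ x.2 0 ≤ (x.1 : ℤ)) ∧
  (0 ≤ x.2 1 ∧ x.2 1 ≤ (x.1 : ℤ)) ∧
  (0 ≤ x.2 2 ∧ x.2 2 ≤ (x.1 : ℤ)) ∧
  (0 ≤ x.2 3 ∧ x.2 3 ≤ (x.1 : ℤ)) ∧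
  (0 ≤ x.2 4 ∧ x.2 4 ≤ (x.1 : ℤ)) ∧
  (0 ≤ x.2 5 ∧ x.2 5 ≤ (x.1 : ℤ)) ∧
  (0 ≤ x.2 6 ∧ x.2 6 ≤ (x.1 : ℤ)) ∧
  x.2 0 + x.2 1 + x.2 2 + x.2 3 + x.2 4 + x.2 5 + x.2 6 = 3 * (x.1 : ℤ) ∧
  x.2 0 + x.2 2 + x.2 4 ≤ 2 * (x.1 : ℤ) ∧
  x.2 0 + x.2 5 + x.2 6 ≤ 2 * (x.1 : ℤ) ∧
  x.2 1 + x.2 2 + x.2 5 ≤ 2 * (x.1 : ℤ) ∧
  x.2 1 + x.2 4 + x.2 6 ≤ 2 * (x.1 : ℤ) ∧
  x.2 2 + x.2 3 + x.2 6 ≤ 2 * (x.1 : ℤ) ∧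
  x.2 3 + x.2 4 + x.2 5 ≤ 2 * (x.1 : ℤ)}

theorem ty8R_add : ∀ a ∈ ty8R, ∀ b ∈ ty8R, a + b ∈ ty8R := by
  rintro a ha b hb
  unfold ty8R at ha hb ⊢
  rw [Set.mem_ofPred_eq] at ha hb ⊢
  have e1 : (a + b).1 = a.1 + b.1 := rfl
  have e2 : ∀ i, (a + b).2 i = a.2 i + b.2 i := fun _ => rfl
  simp only [e1, e2]
  push_cast
  omega

theorem ty8R_pos : ∀ a ∈ ty8R, 1 ≤ a.1 := fun _ ha => ha.1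

/-- Order of leaf 0. -/
def t8s0 : Equiv.Perm (Fin 7) := mkQ ![0, 5, 3, 4, 1, 2, 6] ![0, 4, 5, 2, 3, 1, 6]
  (by decide) (by decide)

/-- Lower bounds of leaf 0. -/
def t8l0 : ℕ → ℕ → ℤ := tb
  [[0, 0, 0, 1, 1, 2, 2, 3], [0, 0, 0, 0, 0, 1, 1, 2], [0, 0, 0, 0, 0, 1, 1, 2], [0, 0, 0, 0, 0,
    0, 0, 1], [0, 0, 0, 0, 0, 0, 0, 0], [0, 0, 0, 0, 0, 0, 0, 0], [0, 0, 0, 0, 0, 0, 0, 0], [0,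
    0, 0, 0, 0, 0, 0, 0]]

/-- Upper bounds of leaf 0. -/
def t8h0 : ℕ → ℕ → ℤ := tb
  [[0, 1, 1, 2, 3, 3, 3, 3], [0, 0, 1, 2, 2, 3, 3, 3], [0, 0, 0, 1, 2, 2, 2, 3], [0, 0, 0, 0, 1,
    1, 1, 2], [0, 0, 0, 0, 0, 1, 1, 2], [0, 0, 0, 0, 0, 0, 1, 1], [0, 0, 0, 0, 0, 0, 0, 1], [0,
    0, 0, 0, 0, 0, 0, 0]]

theorem t8leaf0 (K : Type) [CommRing K] : TV K (dg 7)
    {a : Amb 7 | a ∈ {a : Amb 7 | a ∈ {a : Amb 7 | a ∈ ty8R ∧ 0 ≤ cutH7 1 0 1 1 0 1 0 0 a} ∧ 0 ≤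
    cutH7 1 1 0 0 0 0 1 0 a} ∧ 0 ≤ cutH7 1 0 0 1 0 0 0 1 a} := by
  refine TV_leaf7 t8s0 t8l0 t8h0 (by decide) (by decide) _ fun x => ?_
  simp only [Set.mem_ofPred_eq, ty8R, B7, t8l0, t8h0, tb, t8s0, mkQ, cutH7,
    AddMonoidHom.coe_mk, ZeroHom.coe_mk, Equiv.coe_fn_mk, List.getD_cons_zero,
    List.getD_cons_succ, Matrix.cons_val]
  constructor
  · intro h
    omega
  · intro h
    omega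

/-- Order of leaf 1. -/
def t8s1 : Equiv.Perm (Fin 7) := mkQ ![0, 1, 4, 2, 6, 3, 5] ![0, 1, 3, 5, 2, 6, 4]
  (by decide) (by decide)

/-- Lower bounds of leaf 1. -/
def t8l1 : ℕ → ℕ → ℤ := tb
  [[0, 0, 0, 0, 0, 1, 2, 3], [0, 0, 0, 0, 0, 1, 2, 2], [0, 0, 0, 0, 0, 1, 1, 1], [0, 0, 0, 0, 0,
    1, 1, 1], [0, 0, 0, 0, 0, 0, 1, 1], [0, 0, 0, 0, 0, 0, 0, 0], [0, 0, 0, 0, 0, 0, 0, 0], [0,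
    0, 0, 0, 0, 0, 0, 0]]

/-- Upper bounds of leaf 1. -/
def t8h1 : ℕ → ℕ → ℤ := tb
  [[0, 1, 2, 2, 2, 3, 3, 3], [0, 0, 1, 1, 1, 2, 3, 3], [0, 0, 0, 1, 1, 2, 3, 3], [0, 0, 0, 0, 1,
    2, 2, 3], [0, 0, 0, 0, 0, 1, 2, 3], [0, 0, 0, 0, 0, 0, 1, 2], [0, 0, 0, 0, 0, 0, 0, 1], [0,
    0, 0, 0, 0, 0, 0, 0]]

theorem t8leaf1 (K : Type) [CommRing K] : TV K (dg 7)
    {a : Amb 7 | a ∈ {a : Amb 7 | a ∈ {a : Amb 7 | a ∈ ty8R ∧ 0 ≤ cutH7 1 0 1 1 0 1 0 0 a} ∧ 0 ≤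
    cutH7 1 1 0 0 0 0 1 0 a} ∧ cutH7 1 0 0 1 0 0 0 1 a ≤ 0} := by
  refine TV_leaf7 t8s1 t8l1 t8h1 (by decide) (by decide) _ fun x => ?_
  simp only [Set.mem_ofPred_eq, ty8R, B7, t8l1, t8h1, tb, t8s1, mkQ, cutH7,
    AddMonoidHom.coe_mk, ZeroHom.coe_mk, Equiv.coe_fn_mk, List.getD_cons_zero,
    List.getD_cons_succ, Matrix.cons_val]
  constructor
  · intro h
    omega
  · intro h
    omega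

/-- Order of leaf 2. -/
def t8s2 : Equiv.Perm (Fin 7) := mkQ ![0, 5, 3, 4, 1, 2, 6] ![0, 4, 5, 2, 3, 1, 6]
  (by decide) (by decide)

/-- Lower bounds of leaf 2. -/
def t8l2 : ℕ → ℕ → ℤ := tb
  [[0, 0, 1, 1, 1, 1, 2, 3], [0, 0, 0, 0, 0, 0, 1, 2], [0, 0, 0, 0, 0, 0, 1, 1], [0, 0, 0, 0, 0,
    0, 0, 0], [0, 0, 0, 0, 0, 0, 0, 0], [0, 0, 0, 0, 0, 0, 0, 0], [0, 0, 0, 0, 0, 0, 0, 0], [0,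
    0, 0, 0, 0, 0, 0, 0]]

/-- Upper bounds of leaf 2. -/
def t8h2 : ℕ → ℕ → ℤ := tb
  [[0, 1, 2, 3, 3, 3, 3, 3], [0, 0, 1, 2, 2, 3, 3, 3], [0, 0, 0, 1, 2, 2, 2, 2], [0, 0, 0, 0, 1,
    1, 1, 2], [0, 0, 0, 0, 0, 1, 1, 2], [0, 0, 0, 0, 0, 0, 1, 2], [0, 0, 0, 0, 0, 0, 0, 1], [0,
    0, 0, 0, 0, 0, 0, 0]]

theorem t8leaf2 (K : Type) [CommRing K] : TV K (dg 7)
    {a : Amb 7 | a ∈ {a : Amb 7 | a ∈ ty8R ∧ 0 ≤ cutH7 1 0 1 1 0 1 0 0 a} ∧ cutH7 1 1 0 0 0 0 1 0 a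
    ≤ 0} := by
  refine TV_leaf7 t8s2 t8l2 t8h2 (by decide) (by decide) _ fun x => ?_
  simp only [Set.mem_ofPred_eq, ty8R, B7, t8l2, t8h2, tb, t8s2, mkQ, cutH7,
    AddMonoidHom.coe_mk, ZeroHom.coe_mk, Equiv.coe_fn_mk, List.getD_cons_zero,
    List.getD_cons_succ, Matrix.cons_val]
  constructor
  · intro h
    omega
  · intro h
    omega

/-- Order of leaf 3. -/
def t8s3 : Equiv.Perm (Fin 7) := mkQ ![0, 4, 1, 2, 5, 3, 6] ![0, 2, 3, 5, 1, 4, 6]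
  (by decide) (by decide)

/-- Lower bounds of leaf 3. -/
def t8l3 : ℕ → ℕ → ℤ := tb
  [[0, 0, 0, 0, 1, 2, 2, 3], [0, 0, 0, 0, 1, 1, 1, 2], [0, 0, 0, 0, 0, 1, 1, 2], [0, 0, 0, 0, 0,
    0, 0, 1], [0, 0, 0, 0, 0, 0, 0, 0], [0, 0, 0, 0, 0, 0, 0, 0], [0, 0, 0, 0, 0, 0, 0, 0], [0,
    0, 0, 0, 0, 0, 0, 0]]

/-- Upper bounds of leaf 3. -/
def t8h3 : ℕ → ℕ → ℤ := tb
  [[0, 1, 1, 2, 3, 3, 3, 3], [0, 0, 1, 1, 2, 3, 3, 3], [0, 0, 0, 1, 2, 2, 3, 3], [0, 0, 0, 0, 1,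
    2, 2, 3], [0, 0, 0, 0, 0, 1, 1, 2], [0, 0, 0, 0, 0, 0, 1, 1], [0, 0, 0, 0, 0, 0, 0, 1], [0,
    0, 0, 0, 0, 0, 0, 0]]

theorem t8leaf3 (K : Type) [CommRing K] : TV K (dg 7)
    {a : Amb 7 | a ∈ {a : Amb 7 | a ∈ {a : Amb 7 | a ∈ {a : Amb 7 | a ∈ {a : Amb 7 | a ∈ ty8R ∧
    cutH7 1 0 1 1 0 1 0 0 a ≤ 0} ∧ 0 ≤ cutH7 1 0 0 0 1 0 1 0 a} ∧ 0 ≤ cutH7 1 1 0 0 0 1 0 0 a} ∧
    0 ≤ cutH7 1 0 1 0 0 1 0 0 a} ∧ 0 ≤ cutH7 1 0 0 0 1 0 0 1 a} := by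
  refine TV_leaf7 t8s3 t8l3 t8h3 (by decide) (by decide) _ fun x => ?_
  simp only [Set.mem_ofPred_eq, ty8R, B7, t8l3, t8h3, tb, t8s3, mkQ, cutH7,
    AddMonoidHom.coe_mk, ZeroHom.coe_mk, Equiv.coe_fn_mk, List.getD_cons_zero,
    List.getD_cons_succ, Matrix.cons_val]
  constructor
  · intro h
    omega
  · intro h
    omega

/-- Order of leaf 4. -/
def t8s4 : Equiv.Perm (Fin 7) := mkQ ![0, 4, 1, 2, 6, 3, 5] ![0, 2, 3, 5, 1, 6, 4]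
  (by decide) (by decide)

/-- Lower bounds of leaf 4. -/
def t8l4 : ℕ → ℕ → ℤ := tb
  [[0, 0, 0, 0, 1, 2, 2, 3], [0, 0, 0, 0, 1, 1, 2, 2], [0, 0, 0, 0, 0, 1, 1, 2], [0, 0, 0, 0, 0,
    0, 1, 1], [0, 0, 0, 0, 0, 0, 1, 1], [0, 0, 0, 0, 0, 0, 0, 0], [0, 0, 0, 0, 0, 0, 0, 0], [0,
    0, 0, 0, 0, 0, 0, 0]]

/-- Upper bounds of leaf 4. -/
def t8h4 : ℕ → ℕ → ℤ := tb
  [[0, 1, 1, 2, 2, 3, 3, 3], [0, 0, 1, 1, 2, 3, 3, 3], [0, 0, 0, 1, 2, 3, 3, 3], [0, 0, 0, 0, 1,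
    2, 2, 3], [0, 0, 0, 0, 0, 1, 2, 2], [0, 0, 0, 0, 0, 0, 1, 1], [0, 0, 0, 0, 0, 0, 0, 1], [0,
    0, 0, 0, 0, 0, 0, 0]]

theorem t8leaf4 (K : Type) [CommRing K] : TV K (dg 7)
    {a : Amb 7 | a ∈ {a : Amb 7 | a ∈ {a : Amb 7 | a ∈ {a : Amb 7 | a ∈ {a : Amb 7 | a ∈ ty8R ∧
    cutH7 1 0 1 1 0 1 0 0 a ≤ 0} ∧ 0 ≤ cutH7 1 0 0 0 1 0 1 0 a} ∧ 0 ≤ cutH7 1 1 0 0 0 1 0 0 a} ∧
    0 ≤ cutH7 1 0 1 0 0 1 0 0 a} ∧ cutH7 1 0 0 0 1 0 0 1 a ≤ 0} := by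
  refine TV_leaf7 t8s4 t8l4 t8h4 (by decide) (by decide) _ fun x => ?_
  simp only [Set.mem_ofPred_eq, ty8R, B7, t8l4, t8h4, tb, t8s4, mkQ, cutH7,
    AddMonoidHom.coe_mk, ZeroHom.coe_mk, Equiv.coe_fn_mk, List.getD_cons_zero,
    List.getD_cons_succ, Matrix.cons_val]
  constructor
  · intro h
    omega
  · intro h
    omega

/-- Order of leaf 5. -/
def t8s5 : Equiv.Perm (Fin 7) := mkQ ![0, 2, 5, 3, 6, 1, 4] ![0, 5, 1, 3, 6, 2, 4]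
  (by decide) (by decide)

/-- Lower bounds of leaf 5. -/
def t8l5 : ℕ → ℕ → ℤ := tb
  [[0, 0, 0, 0, 1, 1, 2, 3], [0, 0, 0, 0, 0, 1, 2, 2], [0, 0, 0, 0, 0, 0, 1, 1], [0, 0, 0, 0, 0,
    0, 1, 1], [0, 0, 0, 0, 0, 0, 0, 1], [0, 0, 0, 0, 0, 0, 0, 1], [0, 0, 0, 0, 0, 0, 0, 0], [0,
    0, 0, 0, 0, 0, 0, 0]]

/-- Upper bounds of leaf 5. -/
def t8h5 : ℕ → ℕ → ℤ := tb
  [[0, 1, 2, 2, 2, 2, 3, 3], [0, 0, 1, 1, 2, 2, 3, 3], [0, 0, 0, 1, 1, 2, 3, 3], [0, 0, 0, 0, 1,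
    2, 3, 3], [0, 0, 0, 0, 0, 1, 2, 2], [0, 0, 0, 0, 0, 0, 1, 2], [0, 0, 0, 0, 0, 0, 0, 1], [0,
    0, 0, 0, 0, 0, 0, 0]]

theorem t8leaf5 (K : Type) [CommRing K] : TV K (dg 7)
    {a : Amb 7 | a ∈ {a : Amb 7 | a ∈ {a : Amb 7 | a ∈ {a : Amb 7 | a ∈ {a : Amb 7 | a ∈ ty8R ∧
    cutH7 1 0 1 1 0 1 0 0 a ≤ 0} ∧ 0 ≤ cutH7 1 0 0 0 1 0 1 0 a} ∧ 0 ≤ cutH7 1 1 0 0 0 1 0 0 a} ∧
    cutH7 1 0 1 0 0 1 0 0 a ≤ 0} ∧ 0 ≤ cutH7 1 0 0 1 0 0 1 0 a} := by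
  refine TV_leaf7 t8s5 t8l5 t8h5 (by decide) (by decide) _ fun x => ?_
  simp only [Set.mem_ofPred_eq, ty8R, B7, t8l5, t8h5, tb, t8s5, mkQ, cutH7,
    AddMonoidHom.coe_mk, ZeroHom.coe_mk, Equiv.coe_fn_mk, List.getD_cons_zero,
    List.getD_cons_succ, Matrix.cons_val]
  constructor
  · intro h
    omega
  · intro h
    omega

/-- Order of leaf 6. -/
def t8s6 : Equiv.Perm (Fin 7) := mkQ ![0, 4, 1, 2, 5, 3, 6] ![0, 2, 3, 5, 1, 4, 6]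
  (by decide) (by decide)

/-- Lower bounds of leaf 6. -/
def t8l6 : ℕ → ℕ → ℤ := tb
  [[0, 0, 0, 1, 1, 2, 2, 3], [0, 0, 0, 1, 1, 2, 2, 2], [0, 0, 0, 0, 0, 1, 1, 2], [0, 0, 0, 0, 0,
    1, 1, 1], [0, 0, 0, 0, 0, 0, 0, 0], [0, 0, 0, 0, 0, 0, 0, 0], [0, 0, 0, 0, 0, 0, 0, 0], [0,
    0, 0, 0, 0, 0, 0, 0]]

/-- Upper bounds of leaf 6. -/
def t8h6 : ℕ → ℕ → ℤ := tb
  [[0, 1, 1, 2, 3, 3, 3, 3], [0, 0, 1, 2, 3, 3, 3, 3], [0, 0, 0, 1, 2, 2, 3, 3], [0, 0, 0, 0, 1,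
    2, 2, 2], [0, 0, 0, 0, 0, 1, 1, 2], [0, 0, 0, 0, 0, 0, 1, 1], [0, 0, 0, 0, 0, 0, 0, 1], [0,
    0, 0, 0, 0, 0, 0, 0]]

theorem t8leaf6 (K : Type) [CommRing K] : TV K (dg 7)
    {a : Amb 7 | a ∈ {a : Amb 7 | a ∈ {a : Amb 7 | a ∈ {a : Amb 7 | a ∈ {a : Amb 7 | a ∈ ty8R ∧
    cutH7 1 0 1 1 0 1 0 0 a ≤ 0} ∧ 0 ≤ cutH7 1 0 0 0 1 0 1 0 a} ∧ 0 ≤ cutH7 1 1 0 0 0 1 0 0 a} ∧
    cutH7 1 0 1 0 0 1 0 0 a ≤ 0} ∧ cutH7 1 0 0 1 0 0 1 0 a ≤ 0} := by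
  refine TV_leaf7 t8s6 t8l6 t8h6 (by decide) (by decide) _ fun x => ?_
  simp only [Set.mem_ofPred_eq, ty8R, B7, t8l6, t8h6, tb, t8s6, mkQ, cutH7,
    AddMonoidHom.coe_mk, ZeroHom.coe_mk, Equiv.coe_fn_mk, List.getD_cons_zero,
    List.getD_cons_succ, Matrix.cons_val]
  constructor
  · intro h
    omega
  · intro h
    omega

/-- Order of leaf 7. -/
def t8s7 : Equiv.Perm (Fin 7) := mkQ ![0, 2, 3, 5, 6, 1, 4] ![0, 5, 1, 2, 6, 3, 4]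
  (by decide) (by decide)

/-- Lower bounds of leaf 7. -/
def t8l7 : ℕ → ℕ → ℤ := tb
  [[0, 0, 1, 1, 1, 2, 2, 3], [0, 0, 0, 0, 0, 1, 1, 2], [0, 0, 0, 0, 0, 0, 1, 1], [0, 0, 0, 0, 0,
    0, 0, 0], [0, 0, 0, 0, 0, 0, 0, 0], [0, 0, 0, 0, 0, 0, 0, 0], [0, 0, 0, 0, 0, 0, 0, 0], [0,
    0, 0, 0, 0, 0, 0, 0]]

/-- Upper bounds of leaf 7. -/
def t8h7 : ℕ → ℕ → ℤ := tb
  [[0, 1, 2, 3, 3, 3, 3, 3], [0, 0, 1, 2, 2, 2, 2, 3], [0, 0, 0, 1, 1, 1, 2, 2], [0, 0, 0, 0, 1,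
    1, 2, 2], [0, 0, 0, 0, 0, 1, 2, 2], [0, 0, 0, 0, 0, 0, 1, 1], [0, 0, 0, 0, 0, 0, 0, 1], [0,
    0, 0, 0, 0, 0, 0, 0]]

theorem t8leaf7 (K : Type) [CommRing K] : TV K (dg 7)
    {a : Amb 7 | a ∈ {a : Amb 7 | a ∈ {a : Amb 7 | a ∈ {a : Amb 7 | a ∈ {a : Amb 7 | a ∈ ty8R ∧
    cutH7 1 0 1 1 0 1 0 0 a ≤ 0} ∧ 0 ≤ cutH7 1 0 0 0 1 0 1 0 a} ∧ cutH7 1 1 0 0 0 1 0 0 a ≤ 0} ∧
    0 ≤ cutH7 1 0 1 0 0 1 0 0 a} ∧ 0 ≤ cutH7 1 0 0 0 1 0 1 1 a} := by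
  refine TV_leaf7 t8s7 t8l7 t8h7 (by decide) (by decide) _ fun x => ?_
  simp only [Set.mem_ofPred_eq, ty8R, B7, t8l7, t8h7, tb, t8s7, mkQ, cutH7,
    AddMonoidHom.coe_mk, ZeroHom.coe_mk, Equiv.coe_fn_mk, List.getD_cons_zero,
    List.getD_cons_succ, Matrix.cons_val]
  constructor
  · intro h
    omega
  · intro h
    omega

/-- Order of leaf 8. -/
def t8s8 : Equiv.Perm (Fin 7) := mkQ ![0, 3, 5, 6, 2, 1, 4] ![0, 5, 4, 1, 6, 2, 3]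
  (by decide) (by decide)

/-- Lower bounds of leaf 8. -/
def t8l8 : ℕ → ℕ → ℤ := tb
  [[0, 0, 0, 0, 1, 2, 2, 3], [0, 0, 0, 0, 1, 1, 1, 2], [0, 0, 0, 0, 0, 0, 0, 1], [0, 0, 0, 0, 0,
    0, 0, 1], [0, 0, 0, 0, 0, 0, 0, 1], [0, 0, 0, 0, 0, 0, 0, 0], [0, 0, 0, 0, 0, 0, 0, 0], [0,
    0, 0, 0, 0, 0, 0, 0]]

/-- Upper bounds of leaf 8. -/
def t8h8 : ℕ → ℕ → ℤ := tb
  [[0, 1, 2, 2, 2, 3, 3, 3], [0, 0, 1, 1, 2, 2, 2, 3], [0, 0, 0, 1, 2, 2, 2, 3], [0, 0, 0, 0, 1,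
    2, 2, 3], [0, 0, 0, 0, 0, 1, 1, 2], [0, 0, 0, 0, 0, 0, 1, 1], [0, 0, 0, 0, 0, 0, 0, 1], [0,
    0, 0, 0, 0, 0, 0, 0]]

theorem t8leaf8 (K : Type) [CommRing K] : TV K (dg 7)
    {a : Amb 7 | a ∈ {a : Amb 7 | a ∈ {a : Amb 7 | a ∈ {a : Amb 7 | a ∈ {a : Amb 7 | a ∈ ty8R ∧
    cutH7 1 0 1 1 0 1 0 0 a ≤ 0} ∧ 0 ≤ cutH7 1 0 0 0 1 0 1 0 a} ∧ cutH7 1 1 0 0 0 1 0 0 a ≤ 0} ∧
    0 ≤ cutH7 1 0 1 0 0 1 0 0 a} ∧ cutH7 1 0 0 0 1 0 1 1 a ≤ 0} := by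
  refine TV_leaf7 t8s8 t8l8 t8h8 (by decide) (by decide) _ fun x => ?_
  simp only [Set.mem_ofPred_eq, ty8R, B7, t8l8, t8h8, tb, t8s8, mkQ, cutH7,
    AddMonoidHom.coe_mk, ZeroHom.coe_mk, Equiv.coe_fn_mk, List.getD_cons_zero,
    List.getD_cons_succ, Matrix.cons_val]
  constructor
  · intro h
    omega
  · intro h
    omega

/-- Order of leaf 9. -/
def t8s9 : Equiv.Perm (Fin 7) := mkQ ![0, 2, 3, 5, 6, 1, 4] ![0, 5, 1, 2, 6, 3, 4]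
  (by decide) (by decide)

/-- Lower bounds of leaf 9. -/
def t8l9 : ℕ → ℕ → ℤ := tb
  [[0, 0, 0, 0, 1, 1, 2, 3], [0, 0, 0, 0, 0, 0, 1, 2], [0, 0, 0, 0, 0, 0, 1, 1], [0, 0, 0, 0, 0,
    0, 0, 1], [0, 0, 0, 0, 0, 0, 0, 1], [0, 0, 0, 0, 0, 0, 0, 1], [0, 0, 0, 0, 0, 0, 0, 0], [0,
    0, 0, 0, 0, 0, 0, 0]]

/-- Upper bounds of leaf 9. -/
def t8h9 : ℕ → ℕ → ℤ := tb
  [[0, 1, 2, 2, 2, 2, 3, 3], [0, 0, 1, 2, 2, 2, 2, 3], [0, 0, 0, 1, 1, 2, 2, 3], [0, 0, 0, 0, 1,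
    2, 2, 3], [0, 0, 0, 0, 0, 1, 2, 2], [0, 0, 0, 0, 0, 0, 1, 2], [0, 0, 0, 0, 0, 0, 0, 1], [0,
    0, 0, 0, 0, 0, 0, 0]]

theorem t8leaf9 (K : Type) [CommRing K] : TV K (dg 7)
    {a : Amb 7 | a ∈ {a : Amb 7 | a ∈ {a : Amb 7 | a ∈ {a : Amb 7 | a ∈ ty8R ∧ cutH7 1 0 1 1 0 1 0 0
    a ≤ 0} ∧ 0 ≤ cutH7 1 0 0 0 1 0 1 0 a} ∧ cutH7 1 1 0 0 0 1 0 0 a ≤ 0} ∧ cutH7 1 0 1 0 0 1 0 0
    a ≤ 0} := by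
  refine TV_leaf7 t8s9 t8l9 t8h9 (by decide) (by decide) _ fun x => ?_
  simp only [Set.mem_ofPred_eq, ty8R, B7, t8l9, t8h9, tb, t8s9, mkQ, cutH7,
    AddMonoidHom.coe_mk, ZeroHom.coe_mk, Equiv.coe_fn_mk, List.getD_cons_zero,
    List.getD_cons_succ, Matrix.cons_val]
  constructor
  · intro h
    omega
  · intro h
    omega

/-- Order of leaf 10. -/
def t8s10 : Equiv.Perm (Fin 7) := mkQ ![0, 3, 5, 4, 1, 2, 6] ![0, 4, 5, 1, 3, 2, 6]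
  (by decide) (by decide)

/-- Lower bounds of leaf 10. -/
def t8l10 : ℕ → ℕ → ℤ := tb
  [[0, 0, 0, 1, 2, 2, 2, 3], [0, 0, 0, 1, 1, 1, 2, 2], [0, 0, 0, 0, 0, 0, 1, 1], [0, 0, 0, 0, 0,
    0, 1, 1], [0, 0, 0, 0, 0, 0, 0, 0], [0, 0, 0, 0, 0, 0, 0, 0], [0, 0, 0, 0, 0, 0, 0, 0], [0,
    0, 0, 0, 0, 0, 0, 0]]

/-- Upper bounds of leaf 10. -/
def t8h10 : ℕ → ℕ → ℤ := tb
  [[0, 1, 2, 2, 3, 3, 3, 3], [0, 0, 1, 2, 2, 3, 3, 3], [0, 0, 0, 1, 2, 3, 3, 3], [0, 0, 0, 0, 1,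
    2, 2, 2], [0, 0, 0, 0, 0, 1, 1, 1], [0, 0, 0, 0, 0, 0, 1, 1], [0, 0, 0, 0, 0, 0, 0, 1], [0,
    0, 0, 0, 0, 0, 0, 0]]

theorem t8leaf10 (K : Type) [CommRing K] : TV K (dg 7)
    {a : Amb 7 | a ∈ {a : Amb 7 | a ∈ {a : Amb 7 | a ∈ ty8R ∧ cutH7 1 0 1 1 0 1 0 0 a ≤ 0} ∧ cutH7 1
    0 0 0 1 0 1 0 a ≤ 0} ∧ 0 ≤ cutH7 1 0 1 1 0 0 0 1 a} := by
  refine TV_leaf7 t8s10 t8l10 t8h10 (by decide) (by decide) _ fun x => ?_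
  simp only [Set.mem_ofPred_eq, ty8R, B7, t8l10, t8h10, tb, t8s10, mkQ, cutH7,
    AddMonoidHom.coe_mk, ZeroHom.coe_mk, Equiv.coe_fn_mk, List.getD_cons_zero,
    List.getD_cons_succ, Matrix.cons_val]
  constructor
  · intro h
    omega
  · intro h
    omega

/-- Order of leaf 11. -/
def t8s11 : Equiv.Perm (Fin 7) := mkQ ![0, 4, 1, 2, 6, 3, 5] ![0, 2, 3, 5, 1, 6, 4]
  (by decide) (by decide)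

/-- Lower bounds of leaf 11. -/
def t8l11 : ℕ → ℕ → ℤ := tb
  [[0, 0, 0, 0, 1, 1, 2, 3], [0, 0, 0, 0, 1, 1, 1, 2], [0, 0, 0, 0, 0, 1, 1, 2], [0, 0, 0, 0, 0,
    0, 0, 1], [0, 0, 0, 0, 0, 0, 0, 1], [0, 0, 0, 0, 0, 0, 0, 1], [0, 0, 0, 0, 0, 0, 0, 0], [0,
    0, 0, 0, 0, 0, 0, 0]]

/-- Upper bounds of leaf 11. -/
def t8h11 : ℕ → ℕ → ℤ := tb
  [[0, 1, 1, 2, 2, 2, 3, 3], [0, 0, 1, 2, 2, 2, 3, 3], [0, 0, 0, 1, 1, 2, 3, 3], [0, 0, 0, 0, 1,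
    2, 2, 3], [0, 0, 0, 0, 0, 1, 2, 2], [0, 0, 0, 0, 0, 0, 1, 2], [0, 0, 0, 0, 0, 0, 0, 1], [0,
    0, 0, 0, 0, 0, 0, 0]]

theorem t8leaf11 (K : Type) [CommRing K] : TV K (dg 7)
    {a : Amb 7 | a ∈ {a : Amb 7 | a ∈ {a : Amb 7 | a ∈ {a : Amb 7 | a ∈ ty8R ∧ cutH7 1 0 1 1 0 1 0 0
    a ≤ 0} ∧ cutH7 1 0 0 0 1 0 1 0 a ≤ 0} ∧ cutH7 1 0 1 1 0 0 0 1 a ≤ 0} ∧ 0 ≤ cutH7 1 0 1 1 0 0
    0 0 a} := by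
  refine TV_leaf7 t8s11 t8l11 t8h11 (by decide) (by decide) _ fun x => ?_
  simp only [Set.mem_ofPred_eq, ty8R, B7, t8l11, t8h11, tb, t8s11, mkQ, cutH7,
    AddMonoidHom.coe_mk, ZeroHom.coe_mk, Equiv.coe_fn_mk, List.getD_cons_zero,
    List.getD_cons_succ, Matrix.cons_val]
  constructor
  · intro h
    omega
  · intro h
    omega

/-- Order of leaf 12. -/
def t8s12 : Equiv.Perm (Fin 7) := mkQ ![0, 1, 2, 5, 3, 6, 4] ![0, 1, 2, 4, 6, 3, 5]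
  (by decide) (by decide)

/-- Lower bounds of leaf 12. -/
def t8l12 : ℕ → ℕ → ℤ := tb
  [[0, 0, 0, 1, 1, 2, 2, 3], [0, 0, 0, 1, 1, 2, 2, 2], [0, 0, 0, 0, 0, 1, 1, 1], [0, 0, 0, 0, 0,
    1, 1, 1], [0, 0, 0, 0, 0, 0, 0, 0], [0, 0, 0, 0, 0, 0, 0, 0], [0, 0, 0, 0, 0, 0, 0, 0], [0,
    0, 0, 0, 0, 0, 0, 0]]

/-- Upper bounds of leaf 12. -/
def t8h12 : ℕ → ℕ → ℤ := tb
  [[0, 1, 2, 2, 3, 3, 3, 3], [0, 0, 1, 2, 2, 3, 3, 3], [0, 0, 0, 1, 2, 3, 3, 3], [0, 0, 0, 0, 1,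
    2, 2, 2], [0, 0, 0, 0, 0, 1, 1, 2], [0, 0, 0, 0, 0, 0, 1, 1], [0, 0, 0, 0, 0, 0, 0, 1], [0,
    0, 0, 0, 0, 0, 0, 0]]

theorem t8leaf12 (K : Type) [CommRing K] : TV K (dg 7)
    {a : Amb 7 | a ∈ {a : Amb 7 | a ∈ {a : Amb 7 | a ∈ {a : Amb 7 | a ∈ {a : Amb 7 | a ∈ ty8R ∧
    cutH7 1 0 1 1 0 1 0 0 a ≤ 0} ∧ cutH7 1 0 0 0 1 0 1 0 a ≤ 0} ∧ cutH7 1 0 1 1 0 0 0 1 a ≤ 0} ∧
    cutH7 1 0 1 1 0 0 0 0 a ≤ 0} ∧ 0 ≤ cutH7 1 0 0 0 1 0 0 1 a} := by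
  refine TV_leaf7 t8s12 t8l12 t8h12 (by decide) (by decide) _ fun x => ?_
  simp only [Set.mem_ofPred_eq, ty8R, B7, t8l12, t8h12, tb, t8s12, mkQ, cutH7,
    AddMonoidHom.coe_mk, ZeroHom.coe_mk, Equiv.coe_fn_mk, List.getD_cons_zero,
    List.getD_cons_succ, Matrix.cons_val]
  constructor
  · intro h
    omega
  · intro h
    omega

/-- Order of leaf 13. -/
def t8s13 : Equiv.Perm (Fin 7) := mkQ ![0, 1, 2, 6, 3, 5, 4] ![0, 1, 2, 4, 6, 5, 3]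
  (by decide) (by decide)

/-- Lower bounds of leaf 13. -/
def t8l13 : ℕ → ℕ → ℤ := tb
  [[0, 0, 0, 1, 1, 2, 2, 3], [0, 0, 0, 1, 1, 2, 2, 2], [0, 0, 0, 0, 0, 1, 1, 1], [0, 0, 0, 0, 0,
    1, 1, 1], [0, 0, 0, 0, 0, 0, 1, 1], [0, 0, 0, 0, 0, 0, 0, 0], [0, 0, 0, 0, 0, 0, 0, 0], [0,
    0, 0, 0, 0, 0, 0, 0]]

/-- Upper bounds of leaf 13. -/
def t8h13 : ℕ → ℕ → ℤ := tb
  [[0, 1, 2, 2, 2, 3, 3, 3], [0, 0, 1, 2, 2, 3, 3, 3], [0, 0, 0, 1, 2, 2, 3, 3], [0, 0, 0, 0, 1,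
    2, 2, 2], [0, 0, 0, 0, 0, 1, 2, 2], [0, 0, 0, 0, 0, 0, 1, 1], [0, 0, 0, 0, 0, 0, 0, 1], [0,
    0, 0, 0, 0, 0, 0, 0]]

theorem t8leaf13 (K : Type) [CommRing K] : TV K (dg 7)
    {a : Amb 7 | a ∈ {a : Amb 7 | a ∈ {a : Amb 7 | a ∈ {a : Amb 7 | a ∈ {a : Amb 7 | a ∈ ty8R ∧
    cutH7 1 0 1 1 0 1 0 0 a ≤ 0} ∧ cutH7 1 0 0 0 1 0 1 0 a ≤ 0} ∧ cutH7 1 0 1 1 0 0 0 1 a ≤ 0} ∧
    cutH7 1 0 1 1 0 0 0 0 a ≤ 0} ∧ cutH7 1 0 0 0 1 0 0 1 a ≤ 0} := by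
  refine TV_leaf7 t8s13 t8l13 t8h13 (by decide) (by decide) _ fun x => ?_
  simp only [Set.mem_ofPred_eq, ty8R, B7, t8l13, t8h13, tb, t8s13, mkQ, cutH7,
    AddMonoidHom.coe_mk, ZeroHom.coe_mk, Equiv.coe_fn_mk, List.getD_cons_zero,
    List.getD_cons_succ, Matrix.cons_val]
  constructor
  · intro h
    omega
  · intro h
    omega

/-- The cut tree. -/
theorem TV_ty8R (K : Type) [CommRing K] : TV K (dg 7) ty8R := by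
  refine TV_cut7 _ ty8R_add ty8R_pos (cutH7 1 0 1 1 0 1 0 0) ?_ ?_
  · refine TV_cut7 _ (piece7_add _ ty8R_add _) (fun a ha => ty8R_pos a ha.1) (cutH7 1 1 0 0 0 0 1 0) ?_ ?_
    · refine TV_cut7 _ (piece7_add _ (piece7_add _ ty8R_add _) _) (fun a ha => ty8R_pos a ha.1.1) (cutH7 1 0 0 1 0 0 0 1) ?_ ?_
      · exact t8leaf0 K
      · exact t8leaf1 K
    · exact t8leaf2 K
  · refine TV_cut7 _ (piece7_add' _ ty8R_add _) (fun a ha => ty8R_pos a ha.1) (cutH7 1 0 0 0 1 0 1 0) ?_ ?_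
    · refine TV_cut7 _ (piece7_add _ (piece7_add' _ ty8R_add _) _) (fun a ha => ty8R_pos a ha.1.1) (cutH7 1 1 0 0 0 1 0 0) ?_ ?_
      · refine TV_cut7 _ (piece7_add _ (piece7_add _ (piece7_add' _ ty8R_add _) _) _) (fun a ha => ty8R_pos a ha.1.1.1) (cutH7 1 0 1 0 0 1 0 0) ?_ ?_
        · refine TV_cut7 _ (piece7_add _ (piece7_add _ (piece7_add _ (piece7_add' _ ty8R_add _) _) _) _) (fun a ha => ty8R_pos a ha.1.1.1.1) (cutH7 1 0 0 0 1 0 0 1) ?_ ?_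
          · exact t8leaf3 K
          · exact t8leaf4 K
        · refine TV_cut7 _ (piece7_add' _ (piece7_add _ (piece7_add _ (piece7_add' _ ty8R_add _) _) _) _) (fun a ha => ty8R_pos a ha.1.1.1.1) (cutH7 1 0 0 1 0 0 1 0) ?_ ?_
          · exact t8leaf5 K
          · exact t8leaf6 K
      · refine TV_cut7 _ (piece7_add' _ (piece7_add _ (piece7_add' _ ty8R_add _) _) _) (fun a ha => ty8R_pos a ha.1.1.1) (cutH7 1 0 1 0 0 1 0 0) ?_ ?_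
        · refine TV_cut7 _ (piece7_add _ (piece7_add' _ (piece7_add _ (piece7_add' _ ty8R_add _) _) _) _) (fun a ha => ty8R_pos a ha.1.1.1.1) (cutH7 1 0 0 0 1 0 1 1) ?_ ?_
          · exact t8leaf7 K
          · exact t8leaf8 K
        · exact t8leaf9 K
    · refine TV_cut7 _ (piece7_add' _ (piece7_add' _ ty8R_add _) _) (fun a ha => ty8R_pos a ha.1.1) (cutH7 1 0 1 1 0 0 0 1) ?_ ?_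
      · exact t8leaf10 K
      · refine TV_cut7 _ (piece7_add' _ (piece7_add' _ (piece7_add' _ ty8R_add _) _) _) (fun a ha => ty8R_pos a ha.1.1.1) (cutH7 1 0 1 1 0 0 0 0) ?_ ?_
        · exact t8leaf11 K
        · refine TV_cut7 _ (piece7_add' _ (piece7_add' _ (piece7_add' _ (piece7_add' _ ty8R_add _) _) _) _) (fun a ha => ty8R_pos a ha.1.1.1.1) (cutH7 1 0 0 0 1 0 0 1) ?_ ?_
          · exact t8leaf12 K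
          · exact t8leaf13 K

/-- The family of the bases. -/
def ty8M : ℕ := 5214164162664691826612402909636736

theorem ty8_spec : ∀ m < 128, (ty8M.testBit m = true ↔ ((1 : ℕ), vec m) ∈ ty8R) := by
  unfold ty8R
  simp only [Set.mem_ofPred_eq]
  decide +kernel

/-- Families isomorphic to this one. -/
theorem TV_ty8 {K : Type} [CommRing K] [Nontrivial K] (C : Set (Fin 7 → ℤ))
    (h01 : ∀ u ∈ C, ∀ i, 0 ≤ u i ∧ u i ≤ 1)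
    (hC : ∀ m < 128, (vec m ∈ C ↔ ty8M.testBit m = true)) : TV K (dg 7) (Sg C) := by
  refine TV_Sg_of_cone ty8R (TV_ty8R K) ty8R_add ty8R_pos C fun u => ?_
  constructor
  · intro hu
    obtain ⟨m, hm, rfl⟩ := exists_vec (h01 u hu)
    exact (ty8_spec m hm).1 ((hC m hm).1 hu)
  · intro hu
    have h2 : ∀ i, 0 ≤ u i ∧ u i ≤ 1 := by
      have h3 := hu
      unfold ty8R at h3
      rw [Set.mem_ofPred_eq] at h3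
      simp only [Nat.cast_one] at h3
      have h4 : (0 ≤ u 0 ∧ u 0 ≤ 1) ∧ (0 ≤ u 1 ∧ u 1 ≤ 1) ∧ (0 ≤ u 2 ∧ u 2 ≤ 1) ∧
          (0 ≤ u 3 ∧ u 3 ≤ 1) ∧ (0 ≤ u 4 ∧ u 4 ≤ 1) ∧ (0 ≤ u 5 ∧ u 5 ≤ 1) ∧
          (0 ≤ u 6 ∧ u 6 ≤ 1) := by omega
      intro i
      fin_cases i
      · exact h4.1
      · exact h4.2.1
      · exact h4.2.2.1
      · exact h4.2.2.2.1
      · exact h4.2.2.2.2.1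
      · exact h4.2.2.2.2.2.1
      · exact h4.2.2.2.2.2.2
    obtain ⟨m, hm, rfl⟩ := exists_vec h2
    exact (hC m hm).2 ((ty8_spec m hm).2 hu)

end MP7ea278
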