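import Pool.Agent.Lib.MP_7ea278_ag.Sv.Run6
import Pool.Agent.Lib.MP_7ea278_ag.Sv.Run7
import Pool.Agent.Lib.MP_7ea278_ag.Sv.Ty0
import Pool.Agent.Lib.MP_7ea278_ag.Sv.Ty1
import Pool.Agent.Lib.MP_7ea278_ag.Sv.Ty2
import Pool.Agent.Lib.MP_7ea278_ag.Sv.Ty3
import Pool.Agent.Lib.MP_7ea278_ag.Sv.Ty4
import Pool.Agent.Lib.MP_7ea278_ag.Sv.Ty5
import Pool.Agent.Lib.MP_7ea278_ag.Sv.Ty6
import Pool.Agent.Lib.MP_7ea278_ag.Sv.Ty7
import Pool.Agent.Lib.MP_7ea278_ag.Sv.Ty8
import Pool.Agent.Lib.MP_7ea278_ag.Sv.Ty9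
import Pool.Agent.Lib.MP_7ea278_ag.Sv.Ty10

/-!
Matroids of rank three on seven elements: vanishing off-diagonal homology, except possibly for the
Fano matroid.
-/

namespace MP7ea278

theorem six_of : ∀ m ∈ T7m, m.testBit 6 = false → m ∈ T6m := by decide

theorem T6m_lt : ∀ m ∈ T6m, m < 64 ∧ m ∈ T7m := by decide

theorem x7_of : ∀ m ∈ T7m, (18446744073709551615 : ℕ).testBit m = true ∨ m ∈ X7m := by decide

theorem reps_bits : ∀ k < 39, (reps.getD k 0) ||| 78274679833913472 = 78274679833913472 := by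
  decide

theorem dm_bits : (18446744073709551615 : ℕ) = 2 ^ 64 - 1 := by norm_num

theorem mask6_bits : ∀ m < 64, (78274679833913472 : ℕ).testBit m = true → m ∈ T6m := by decide

theorem typs_bits : ∀ k < 13, ∀ m < 128, (typs.getD k 0).testBit m = true → m ∈ T7m := by
  decide +kernel

theorem typs_eq : typs.getD 1 0 = ty0M ∧ typs.getD 2 0 = ty1M ∧ typs.getD 3 0 = ty2M ∧
    typs.getD 4 0 = ty3M ∧ typs.getD 5 0 = ty4M ∧ typs.getD 6 0 = ty5M ∧ typs.getD 7 0 = ty6M ∧
    typs.getD 8 0 = ty7M ∧ typs.getD 9 0 = ty8M ∧ typs.getD 10 0 = ty9M ∧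
    typs.getD 11 0 = ty10M := by decide

theorem testBit_six_of_lt {m : ℕ} (hm : m < 64) : m.testBit 6 = false := by
  apply Nat.testBit_lt_two_pow
  simpa using hm

theorem lt_of_testBit_six {m : ℕ} (hm : m < 128) (h : m.testBit 6 = false) : m < 64 := by
  have : m < 2 ^ 6 := by
    apply Nat.lt_pow_two_of_testBit
    intro i hi
    by_cases h1 : i = 6
    · rw [h1]
      exact h
    · by_contra h2
      rw [Bool.not_eq_false] at h2
      have := testBit_lt_seven hm h2
      omega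
  simpa using this

theorem relab_relab (σ τ : Equiv.Perm (Fin 7)) (C : Set (Fin 7 → ℤ)) :
    relab τ (relab σ C) = relab (τ.trans σ) C := rfl

theorem relab_01 {C : Set (Fin 7 → ℤ)} (h01 : ∀ u ∈ C, ∀ i, 0 ≤ u i ∧ u i ≤ 1)
    (σ : Equiv.Perm (Fin 7)) : ∀ u ∈ relab σ C, ∀ i, 0 ≤ u i ∧ u i ≤ 1 := by
  intro u hu i
  have h1 := h01 _ hu (σ i)
  rw [Function.comp_apply, Equiv.symm_apply_apply] at h1
  exact h1

theorem relab_sum {C : Set (Fin 7 → ℤ)} {d : ℤ} (h3 : ∀ u ∈ C, ∑ i, u i = d)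
    (σ : Equiv.Perm (Fin 7)) : ∀ u ∈ relab σ C, ∑ i, u i = d := by
  intro u hu
  rw [← sum_comp_symm σ u]
  exact h3 _ hu

/-- The bases of the Fano matroid. -/
def FanoSet : Set (Fin 7 → ℤ) := {u | (∀ i, 0 ≤ u i ∧ u i ≤ 1) ∧ ∑ i, u i = 3 ∧
  ∀ a : Fin 7, u a + u (a + 1) + u (a + 3) ≤ 2}

theorem fano_bits : ∀ m < 128, ((typs.getD 12 0).testBit m = true ↔ (cnt7 m = 3 ∧
    ∀ a : Fin 7, vec m a + vec m (a + 1) + vec m (a + 3) ≤ 2)) := by decide +kernel

/-- The second step: the restriction to the first six elements is a representative. -/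
theorem seven_step {K : Type} [CommRing K] [Nontrivial K] {C : Set (Fin 7 → ℤ)} (hC : SymExch C)
    (h01 : ∀ u ∈ C, ∀ i, 0 ≤ u i ∧ u i ≤ 1) (h3 : ∀ u ∈ C, ∑ i, u i = 3) (hne : C.Nonempty)
    {k : ℕ} (hk : k < 38)
    (hrep : ∀ m ∈ T6m, (vec m ∈ C ↔ (reps.getD k 0).testBit m = true)) :
    TV K (dg 7) (Sg C) ∨ ∃ σ : Equiv.Perm (Fin 7), relab σ C = FanoSet := by
  obtain ⟨F, hF⟩ := exists_isMask C
  have hT : ∀ m, F.testBit m = true → m ∈ T7m := by
    intro m hm
    obtain ⟨h1, h2⟩ := (hF m).1 hm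
    exact mem_T7m h1 (h3 _ h2)
  have hlt : ∀ m ∈ T6m, m < 128 := fun m hm => T7m_lt m (T6m_lt m hm).2
  have hbits : ∀ m, (reps.getD k 0).testBit m = true → m ∈ T6m := by
    intro m hm
    have h1 : (78274679833913472 : ℕ).testBit m = true := by
      rw [← reps_bits k (by omega), Nat.testBit_or, hm, Bool.true_or]
    refine mask6_bits m ?_ h1
    by_contra hcon
    have h2 : (78274679833913472 : ℕ) < 2 ^ m := lt_of_lt_of_le (by norm_num)
      (Nat.pow_le_pow_right (by norm_num : 0 < 2) (by omega : 64 ≤ m))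
    rw [Nat.testBit_lt_two_pow h2] at h1
    exact Bool.false_ne_true h1
  obtain ⟨c, hc⟩ := chk_sound leaf7 (exch_of_symExch hC hF) (exts.getD k (.D 0)) X7m
    18446744073709551615 (reps.getD k 0) (run7 k hk)
    (by
      intro m hm
      have h1 := hbits m hm
      exact (hF m).2 ⟨hlt m h1, (hrep m h1).2 hm⟩)
    (by
      intro m hm hm2
      rw [dm_bits, Nat.testBit_two_pow_sub_one, decide_eq_true_eq] at hm
      have h1 := six_of m (hT m hm2) (testBit_six_of_lt hm)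
      exact (hrep m h1).1 ((hF m).1 hm2).2)
    (fun m hm => x7_of m (hT m hm))
  unfold leaf7 at hc
  by_cases h0 : Nat.beq (c % 16) 0 = true
  · rw [h0, cond_true] at hc
    exact Or.inl (TV_of_intv h01 h3 hne hF hc)
  · rw [Bool.not_eq_true] at h0
    rw [h0, cond_false] at hc
    rw [Bool.and_eq_true, Bool.and_eq_true] at hc
    obtain ⟨hc1, hc2, hc3⟩ := hc
    have hj13 : c % 16 < 13 := by
      simpa [Nat.blt_eq] using hc1
    have hj0 : c % 16 ≠ 0 := by
      intro h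
      rw [h] at h0
      exact absurd h0 (by decide)
    obtain ⟨σ, hσ⟩ := exists_perm hc2
    have hag := agree_sound (fun t ht => ht) hF hc3 hσ
    set C' := relab σ C with hC'
    have h01' : ∀ u ∈ C', ∀ i, 0 ≤ u i ∧ u i ≤ 1 := relab_01 h01 σ
    have h3' : ∀ u ∈ C', ∑ i, u i = 3 := relab_sum h3 σ
    have hall : ∀ m < 128, (vec m ∈ C' ↔ (typs.getD (c % 16) 0).testBit m = true) := by
      intro m hm
      by_cases hm7 : m ∈ T7m
      · obtain ⟨t, ht, rfl⟩ := tr7_all m hm7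
        exact hag t ht
      · constructor
        · intro h
          exact absurd (mem_T7m hm (h3' _ h)) hm7
        · intro h
          exact absurd (typs_bits _ hj13 m hm h) hm7
    obtain ⟨e1, e2, e3, e4, e5, e6, e7, e8, e9, e10, e11⟩ := typs_eq
    rw [← TV_relab σ C]
    generalize c % 16 = j at hj13 hj0 hall
    interval_cases j
    · exact absurd rfl hj0
    · exact Or.inl (TV_ty0 C' h01' (by rw [← e1]; exact hall))
    · exact Or.inl (TV_ty1 C' h01' (by rw [← e2]; exact hall))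
    · exact Or.inl (TV_ty2 C' h01' (by rw [← e3]; exact hall))
    · exact Or.inl (TV_ty3 C' h01' (by rw [← e4]; exact hall))
    · exact Or.inl (TV_ty4 C' h01' (by rw [← e5]; exact hall))
    · exact Or.inl (TV_ty5 C' h01' (by rw [← e6]; exact hall))
    · exact Or.inl (TV_ty6 C' h01' (by rw [← e7]; exact hall))
    · exact Or.inl (TV_ty7 C' h01' (by rw [← e8]; exact hall))
    · exact Or.inl (TV_ty8 C' h01' (by rw [← e9]; exact hall))
    · exact Or.inl (TV_ty9 C' h01' (by rw [← e10]; exact hall))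
    · exact Or.inl (TV_ty10 C' h01' (by rw [← e11]; exact hall))
    · refine Or.inr ⟨σ, ?_⟩
      rw [← hC']
      ext u
      constructor
      · intro hu
        obtain ⟨m, hm, rfl⟩ := exists_vec (h01' u hu)
        exact ⟨h01' _ hu, h3' _ hu, ((fano_bits m hm).1 ((hall m hm).1 hu)).2⟩
      · rintro ⟨hu1, hu2, hu3⟩
        obtain ⟨m, hm, rfl⟩ := exists_vec hu1
        exact (hall m hm).2 ((fano_bits m hm).2 ⟨by rw [← sum_vec]; exact hu2, hu3⟩)

/-- Matroids of rank three on seven elements. -/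
theorem TV_seven {K : Type} [CommRing K] [Nontrivial K] {C : Set (Fin 7 → ℤ)} (hC : SymExch C)
    (h01 : ∀ u ∈ C, ∀ i, 0 ≤ u i ∧ u i ≤ 1) (h3 : ∀ u ∈ C, ∑ i, u i = 3) :
    TV K (dg 7) (Sg C) ∨ ∃ σ : Equiv.Perm (Fin 7), relab σ C = FanoSet := by
  rcases C.eq_empty_or_nonempty with he | ⟨u0, hu0⟩
  · left
    rw [he] at hC h01 ⊢
    exact TV_small_rank hC h01 0 (Or.inl (by omega)) (by simp)
  -- an element outside some basis becomes the last one
  obtain ⟨e, he⟩ : ∃ e, u0 e = 0 := by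
    by_contra hcon
    push Not at hcon
    have h1 : ∀ i, u0 i = 1 := by
      intro i
      have h2 := h01 u0 hu0 i
      have h4 := hcon i
      omega
    have h2 := h3 u0 hu0
    rw [Finset.sum_congr rfl (fun i _ => h1 i)] at h2
    simp at h2
  set τ : Equiv.Perm (Fin 7) := Equiv.swap e 6 with hτ
  set C1 := relab τ C with hC1
  have hC1e : SymExch C1 := symExch_relab hC τ
  have h011 := relab_01 h01 τ
  have h31 := relab_sum h3 τ
  have hv : ∃ v ∈ C1, v 6 = 0 := by
    refine ⟨u0 ∘ τ, ?_, ?_⟩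
    · change (u0 ∘ τ) ∘ τ.symm ∈ C
      have : (u0 ∘ τ) ∘ τ.symm = u0 := by
        funext i
        simp
      rw [this]
      exact hu0
    · rw [Function.comp_apply, hτ, Equiv.swap_apply_right]
      exact he
  -- the restriction to the first six elements
  set C6 : Set (Fin 7 → ℤ) := {u | u ∈ C1 ∧ u 6 = 0} with hC6
  have hC6e : SymExch C6 := by
    rintro u ⟨hu, hu6⟩ v ⟨hv, hv6⟩ i hi
    obtain ⟨j, hj1, hj2, hj3⟩ := hC1e u hu v hv i hi
    have hi6 : (6 : Fin 7) ≠ i := by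
      intro h
      rw [← h, hu6, hv6] at hi
      exact lt_irrefl _ hi
    have hj6 : (6 : Fin 7) ≠ j := by
      intro h
      rw [← h, hu6, hv6] at hj1
      exact lt_irrefl _ hj1
    refine ⟨j, hj1, ⟨hj2, ?_⟩, ⟨hj3, ?_⟩⟩
    · rw [Pi.add_apply, Pi.sub_apply, Pi.single_eq_of_ne hi6, Pi.single_eq_of_ne hj6, hu6]
      norm_num
    · rw [Pi.sub_apply, Pi.add_apply, Pi.single_eq_of_ne hi6, Pi.single_eq_of_ne hj6, hv6]
      norm_num
  obtain ⟨F6, hF6⟩ := exists_isMask C6
  have hT6 : ∀ m, F6.testBit m = true → m ∈ T6m := by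
    intro m hm
    obtain ⟨h1, h2, h4⟩ := (hF6 m).1 hm
    refine six_of m (mem_T7m h1 (h31 _ h2)) ?_
    by_contra h5
    rw [Bool.not_eq_false] at h5
    have h6 : vec m 6 = 1 := by
      unfold vec
      exact if_pos h5
    rw [h6] at h4
    exact absurd h4 (by norm_num)
  obtain ⟨c, hc⟩ := chk_sound leaf6 (exch_of_symExch hC6e hF6) tree6 T6m 0 0 run6
    (by intro m hm; rw [Nat.zero_testBit] at hm; exact absurd hm Bool.false_ne_true)
    (by intro m hm; rw [Nat.zero_testBit] at hm; exact absurd hm Bool.false_ne_true)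
    (fun m hm => Or.inr (hT6 m hm))
  unfold leaf6 at hc
  rw [Bool.and_eq_true, Bool.and_eq_true, Bool.and_eq_true] at hc
  obtain ⟨hc1, hc2, hc4, hc3⟩ := hc
  have hk39 : c % 64 < 39 := by
    simpa [Nat.blt_eq] using hc1
  obtain ⟨σ, hσ⟩ := exists_perm hc2
  have hσ6 : σ 6 = 6 := Fin.ext (by rw [hσ 6]; exact Nat.eq_of_beq_eq_true hc4)
  have hσ6' : σ.symm 6 = 6 := by rw [Equiv.symm_apply_eq, hσ6]
  have hag := agree_sound tr6_sub hF6 hc3 hσ
  have hrel : ∀ m ∈ T6m, (vec m ∈ relab σ C1 ↔ (reps.getD (c % 64) 0).testBit m = true) := by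
    intro m hm
    obtain ⟨h1, h2⟩ := T6m_lt m hm
    obtain ⟨t, ht, rfl⟩ := tr6_all m h2 h1
    rw [← hag t ht]
    constructor
    · intro h
      refine ⟨h, ?_⟩
      rw [Function.comp_apply, hσ6']
      unfold vec
      exact if_neg (by rw [show ((6 : Fin 7).val) = 6 from rfl, testBit_six_of_lt h1]; simp)
    · exact fun h => h.1
  have hk38 : c % 64 ≠ 38 := by
    intro h38
    obtain ⟨v, hv1, hv6⟩ := hv
    have h1 : v ∘ σ ∈ relab σ C1 := by
      change (v ∘ σ) ∘ σ.symm ∈ C1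
      have : (v ∘ σ) ∘ σ.symm = v := by
        funext i
        simp
      rw [this]
      exact hv1
    obtain ⟨m, hm, hmv⟩ := exists_vec (relab_01 h011 σ _ h1)
    rw [← hmv] at h1
    have h2 : vec m 6 = 0 := by
      rw [hmv, Function.comp_apply, hσ6]
      exact hv6
    have h4 : m.testBit 6 = false := by
      by_contra h5
      rw [Bool.not_eq_false] at h5
      have h6 : vec m 6 = 1 := by
        unfold vec
        exact if_pos h5
      rw [h6] at h2
      exact absurd h2 (by norm_num)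
    have h5 := six_of m (mem_T7m hm (relab_sum h31 σ _ h1)) h4
    have h6 := (hrel m h5).1 h1
    rw [h38] at h6
    have h7 : reps.getD 38 0 = 0 := by decide
    rw [h7, Nat.zero_testBit] at h6
    exact Bool.false_ne_true h6
  have hne2 : (relab σ C1).Nonempty := by
    obtain ⟨v, hv1, -⟩ := hv
    refine ⟨v ∘ σ, ?_⟩
    change (v ∘ σ) ∘ σ.symm ∈ C1
    have : (v ∘ σ) ∘ σ.symm = v := by
      funext i
      simp
    rw [this]
    exact hv1
  rcases seven_step (K := K) (symExch_relab hC1e σ) (relab_01 h011 σ) (relab_sum h31 σ) hne2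
    (by omega : c % 64 < 38) hrel with h | ⟨ρ, hρ⟩
  · left
    rw [TV_relab, hC1, TV_relab] at h
    exact h
  · right
    rw [hC1, relab_relab, relab_relab] at hρ
    exact ⟨_, hρ⟩

end MP7ea278
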