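import Pool.Agent.Lib.MP_7ea278_ag.Main2
import Pool.Agent.Lib.MP_7ea278_ag.Sv.Class

/-!
Matroids on at most seven elements, and discrete polymatroids on at most seven elements.
-/

namespace MP7ea278

/-- A labelled copy of the Fano matroid (integer vectors). -/
def FanoZ {n : ℕ} (C : Set (Fin n → ℤ)) : Prop :=
  ∃ σ : Fin 7 ≃ Fin n, ∀ u : Fin n → ℤ, u ∈ C ↔ (∀ i, 0 ≤ u i ∧ u i ≤ 1) ∧ ∑ i, u i = 3 ∧
    ∀ a : Fin 7, u (σ a) + u (σ (a + 1)) + u (σ (a + 3)) ≤ 2

/-- A labelled copy of the dual of the Fano matroid (integer vectors). -/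
def FanoDualZ {n : ℕ} (C : Set (Fin n → ℤ)) : Prop :=
  ∃ σ : Fin 7 ≃ Fin n, ∀ u : Fin n → ℤ, u ∈ C ↔ (∀ i, 0 ≤ u i ∧ u i ≤ 1) ∧ ∑ i, u i = 4 ∧
    ∀ a : Fin 7, 1 ≤ u (σ a) + u (σ (a + 1)) + u (σ (a + 3))

theorem fanoZ_of_relab {C : Set (Fin 7 → ℤ)} {σ : Equiv.Perm (Fin 7)}
    (h : relab σ C = FanoSet) : FanoZ C := by
  refine ⟨σ, fun u => ?_⟩
  have h1 : u ∈ C ↔ (u ∘ σ) ∈ relab σ C := by
    change u ∈ C ↔ (u ∘ σ) ∘ σ.symm ∈ C
    have : (u ∘ σ) ∘ σ.symm = u := by
      funext i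
      simp
    rw [this]
  rw [h1, h]
  have h2 : ∑ i, (u ∘ σ) i = ∑ i, u i := Equiv.sum_comp σ u
  constructor
  · rintro ⟨a1, a2, a3⟩
    refine ⟨fun i => ?_, ?_, a3⟩
    · have := a1 (σ.symm i)
      rw [Function.comp_apply, Equiv.apply_symm_apply] at this
      exact this
    · rw [← h2]
      exact a2
  · rintro ⟨a1, a2, a3⟩
    exact ⟨fun i => a1 (σ i), by rw [h2]; exact a2, a3⟩

theorem symExch_compl {n : ℕ} {C : Set (Fin n → ℤ)} (hC : SymExch C) :
    SymExch ((fun u => 1 - u) '' C) := by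
  rintro _ ⟨u, hu, rfl⟩ _ ⟨v, hv, rfl⟩ i hi
  have hi' : u i < v i := by
    simp only [Pi.sub_apply, Pi.one_apply] at hi
    omega
  obtain ⟨j, hj, h1, h2⟩ := hC v hv u hu i hi'
  refine ⟨j, ?_, ⟨_, h2, ?_⟩, ⟨_, h1, ?_⟩⟩
  · simp only [Pi.sub_apply, Pi.one_apply]
    omega
  · simp only
    abel
  · simp only
    abel

/-- Matroids on seven elements. -/
theorem TV_seven_all {K : Type} [CommRing K] [Nontrivial K] {C : Set (Fin 7 → ℤ)}
    (hC : SymExch C) (h01 : ∀ u ∈ C, ∀ i, 0 ≤ u i ∧ u i ≤ 1) (d : ℤ)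
    (hd : ∀ u ∈ C, ∑ i, u i = d) : TV K (dg 7) (Sg C) ∨ FanoZ C ∨ FanoDualZ C := by
  rcases le_or_gt d 2 with h2 | h2
  · exact Or.inl (TV_small_rank hC h01 d (Or.inl h2) hd)
  rcases le_or_gt 5 d with h5 | h5
  · exact Or.inl (TV_small_rank hC h01 d (Or.inr (by norm_num; omega)) hd)
  have h34 : d = 3 ∨ d = 4 := by omega
  rcases h34 with rfl | rfl
  · rcases TV_seven (K := K) hC h01 hd with h | ⟨σ, hσ⟩
    · exact Or.inl h
    · exact Or.inr (Or.inl (fanoZ_of_relab hσ))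
  · have e1 : ∀ u ∈ (fun u : Fin 7 → ℤ => 1 - u) '' C, ∀ i, 0 ≤ u i ∧ u i ≤ 1 := by
      rintro _ ⟨u, hu, rfl⟩ i
      have := h01 u hu i
      simp only [Pi.sub_apply, Pi.one_apply]
      omega
    have e2 : ∀ u ∈ (fun u : Fin 7 → ℤ => 1 - u) '' C, ∑ i, u i = 3 := by
      rintro _ ⟨u, hu, rfl⟩
      have := hd u hu
      simp only [Pi.sub_apply, Pi.one_apply, Finset.sum_sub_distrib, this, Finset.sum_const,
        Finset.card_univ, Fintype.card_fin, nsmul_eq_mul, mul_one]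
      norm_num
    rcases TV_seven (K := K) (symExch_compl hC) e1 e2 with h | ⟨σ, hσ⟩
    · rw [TV_dual] at h
      exact Or.inl h
    · obtain ⟨τ, hτ⟩ := fanoZ_of_relab hσ
      refine Or.inr (Or.inr ⟨τ, fun u => ?_⟩)
      have h1 : u ∈ C ↔ (1 - u) ∈ (fun u : Fin 7 → ℤ => 1 - u) '' C := by
        constructor
        · exact fun h => ⟨u, h, rfl⟩
        · rintro ⟨v, hv, hvu⟩
          have : v = u := by
            have h3 : (1 : Fin 7 → ℤ) - v = 1 - u := hvu
            exact sub_right_injective h3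
          rw [← this]
          exact hv
      rw [h1, hτ]
      have h2 : ∑ i, (1 - u) i = 7 - ∑ i, u i := by
        simp only [Pi.sub_apply, Pi.one_apply, Finset.sum_sub_distrib, Finset.sum_const,
          Finset.card_univ, Fintype.card_fin, nsmul_eq_mul, mul_one]
        norm_num
      rw [h2]
      simp only [Pi.sub_apply, Pi.one_apply]
      constructor
      · rintro ⟨a1, a2, a3⟩
        refine ⟨fun i => ?_, by omega, fun a => ?_⟩
        · have := a1 i
          omega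
        · have := a3 a
          omega
      · rintro ⟨a1, a2, a3⟩
        refine ⟨fun i => ?_, by omega, fun a => ?_⟩
        · have := a1 i
          omega
        · have := a3 a
          omega

/-- Padding by a loop. -/
private def pd (n : ℕ) : Amb n →+ Amb (n + 1) where
  toFun x := (x.1, Fin.snoc (α := fun _ => ℤ) x.2 0)
  map_zero' := by
    refine Prod.ext rfl ?_
    funext i
    refine Fin.lastCases ?_ (fun j => ?_) i
    · change Fin.snoc (α := fun _ => ℤ) (0 : Fin n → ℤ) 0 (Fin.last n) = 0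
      rw [Fin.snoc_last]
    · change Fin.snoc (α := fun _ => ℤ) (0 : Fin n → ℤ) 0 j.castSucc = 0
      rw [Fin.snoc_castSucc]
      rfl
  map_add' x y := by
    refine Prod.ext rfl ?_
    funext i
    refine Fin.lastCases ?_ (fun j => ?_) i
    · change Fin.snoc (α := fun _ => ℤ) (x.2 + y.2) 0 (Fin.last n) =
        Fin.snoc (α := fun _ => ℤ) x.2 0 (Fin.last n) + Fin.snoc (α := fun _ => ℤ) y.2 0 (Fin.last n)
      rw [Fin.snoc_last, Fin.snoc_last, Fin.snoc_last, add_zero]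
    · change Fin.snoc (α := fun _ => ℤ) (x.2 + y.2) 0 j.castSucc =
        Fin.snoc (α := fun _ => ℤ) x.2 0 j.castSucc + Fin.snoc (α := fun _ => ℤ) y.2 0 j.castSucc
      rw [Fin.snoc_castSucc, Fin.snoc_castSucc, Fin.snoc_castSucc, Pi.add_apply]

private theorem pd_inj (n : ℕ) : Function.Injective (pd n) := by
  intro x y hxy
  have h1 : x.1 = y.1 := (Prod.ext_iff.1 hxy).1
  have h2 : Fin.snoc (α := fun _ => ℤ) x.2 0 = Fin.snoc (α := fun _ => ℤ) y.2 0 :=
    (Prod.ext_iff.1 hxy).2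
  refine Prod.ext h1 ?_
  funext i
  have h3 := congrFun h2 i.castSucc
  rw [Fin.snoc_castSucc, Fin.snoc_castSucc] at h3
  exact h3

private theorem pd_height {n : ℕ} {G : Set (Fin n → ℤ)} {x : Amb n}
    (hx : x ∈ AddSubmonoid.closure ((fun g => ((1 : ℕ), g)) '' G)) : x = 0 ∨ 1 ≤ x.1 := by
  induction hx using AddSubmonoid.closure_induction with
  | mem x hx =>
    obtain ⟨g, _, rfl⟩ := hx
    exact Or.inr le_rfl
  | zero => exact Or.inl rfl
  | add x y _ _ hx hy =>
    rcases hx with rfl | hx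
    · rw [zero_add]
      exact hy
    · right
      change 1 ≤ x.1 + y.1
      omega

private theorem pd_Sg_add {n : ℕ} {G : Set (Fin n → ℤ)} :
    ∀ a ∈ Sg G, ∀ b ∈ Sg G, a + b ∈ Sg G := by
  rintro a ⟨ha, ha0⟩ b ⟨hb, _⟩
  refine ⟨AddSubmonoid.add_mem _ ha hb, fun h => ?_⟩
  have h1 := (pd_height ha).resolve_left ha0
  have h2 : a.1 + b.1 = 0 := congrArg Prod.fst h
  omega

/-- Adding a loop does not change the vanishing property. -/
theorem TV_loop {K : Type} [CommRing K] {n : ℕ} (C : Set (Fin n → ℤ)) :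
    TV K (dg (n + 1)) (Sg ((fun u => (Fin.snoc (α := fun _ => ℤ) u 0 : Fin (n + 1) → ℤ)) '' C)) ↔
      TV K (dg n) (Sg C) := by
  set C' := (fun u => (Fin.snoc (α := fun _ => ℤ) u 0 : Fin (n + 1) → ℤ)) '' C with hC'
  have hcl : ∀ x : Amb (n + 1), x ∈ AddSubmonoid.closure ((fun g => ((1 : ℕ), g)) '' C') →
      ∃ y ∈ AddSubmonoid.closure ((fun g => ((1 : ℕ), g)) '' C), pd n y = x := by
    intro x hx
    induction hx using AddSubmonoid.closure_induction with
    | mem x hx =>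
      obtain ⟨_, ⟨g, hg, rfl⟩, rfl⟩ := hx
      exact ⟨(1, g), AddSubmonoid.subset_closure ⟨g, hg, rfl⟩, rfl⟩
    | zero => exact ⟨0, AddSubmonoid.zero_mem _, map_zero _⟩
    | add x y _ _ hx hy =>
      obtain ⟨x', hx', rfl⟩ := hx
      obtain ⟨y', hy', rfl⟩ := hy
      exact ⟨x' + y', AddSubmonoid.add_mem _ hx' hy', map_add _ _ _⟩
  have hcl2 : ∀ x : Amb n, x ∈ AddSubmonoid.closure ((fun g => ((1 : ℕ), g)) '' C) →
      pd n x ∈ AddSubmonoid.closure ((fun g => ((1 : ℕ), g)) '' C') := by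
    intro x hx
    induction hx using AddSubmonoid.closure_induction with
    | mem x hx =>
      obtain ⟨g, hg, rfl⟩ := hx
      exact AddSubmonoid.subset_closure ⟨_, ⟨g, hg, rfl⟩, rfl⟩
    | zero =>
      rw [map_zero]
      exact AddSubmonoid.zero_mem _
    | add x y _ _ hx hy =>
      rw [map_add]
      exact AddSubmonoid.add_mem _ hx hy
  have himg : pd n '' Sg C = Sg C' := by
    apply Set.Subset.antisymm
    · rintro _ ⟨x, ⟨hx, hx0⟩, rfl⟩
      refine ⟨hcl2 x hx, fun h => hx0 (pd_inj n ?_)⟩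
      rw [h, map_zero]
    · rintro x ⟨hx, hx0⟩
      obtain ⟨y, hy, rfl⟩ := hcl x hx
      refine ⟨y, ⟨hy, fun h => hx0 ?_⟩, rfl⟩
      rw [h, map_zero]
  rw [← himg]
  exact TV_image (dg n) (dg (n + 1)) (pd n) pd_Sg_add (fun x _ y _ h => pd_inj n h)
    fun x _ => rfl

/-- Three consecutive labels form a basis of the Fano matroid. -/
private def tri (a : Fin 7) : Fin 7 → ℤ := fun b => if b = a ∨ b = a + 1 ∨ b = a + 2 then 1 else 0

private theorem tri_fano (a : Fin 7) : tri a ∈ FanoSet ∧ tri a a = 1 := by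
  have h : ∀ a : Fin 7, ((∀ i, 0 ≤ tri a i ∧ tri a i ≤ 1) ∧ ∑ i, tri a i = 3 ∧
      ∀ b : Fin 7, tri a b + tri a (b + 1) + tri a (b + 3) ≤ 2) ∧ tri a a = 1 := by
    decide +kernel
  exact h a

/-- Matroids of rank three on six elements. -/
theorem TV_six {K : Type} [CommRing K] [Nontrivial K] {C : Set (Fin 6 → ℤ)} (hC : SymExch C)
    (h01 : ∀ u ∈ C, ∀ i, 0 ≤ u i ∧ u i ≤ 1) (h3 : ∀ u ∈ C, ∑ i, u i = 3) :
    TV K (dg 6) (Sg C) := by
  rw [← TV_loop]
  set C' := (fun u => (Fin.snoc (α := fun _ => ℤ) u 0 : Fin (6 + 1) → ℤ)) '' C with hC'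
  have e6 : ∀ u ∈ C', u (Fin.last 6) = 0 := by
    rintro _ ⟨u, _, rfl⟩
    exact Fin.snoc_last _ _
  have hS : ∀ (u : Fin 6 → ℤ) (i j : Fin 6),
      (Fin.snoc (α := fun _ => ℤ) (u - Pi.single i 1 + Pi.single j 1) 0 : Fin 7 → ℤ) =
        (Fin.snoc (α := fun _ => ℤ) u 0 : Fin 7 → ℤ) - Pi.single i.castSucc 1 +
          Pi.single j.castSucc 1 := by
    intro u i j
    funext k
    rw [Pi.add_apply, Pi.sub_apply]
    refine Fin.lastCases ?_ (fun l => ?_) k
    · rw [Fin.snoc_last, Fin.snoc_last, Pi.single_eq_of_ne (Fin.castSucc_ne_last i).symm,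
        Pi.single_eq_of_ne (Fin.castSucc_ne_last j).symm]
      norm_num
    · rw [Fin.snoc_castSucc, Fin.snoc_castSucc, Pi.add_apply, Pi.sub_apply]
      have hs : ∀ m : Fin 6, (Pi.single m.castSucc (1 : ℤ) : Fin 7 → ℤ) l.castSucc =
          (Pi.single m (1 : ℤ) : Fin 6 → ℤ) l := by
        intro m
        by_cases h : l = m
        · rw [h, Pi.single_eq_same, Pi.single_eq_same]
        · rw [Pi.single_eq_of_ne h, Pi.single_eq_of_ne]
          intro h5
          exact h (Fin.castSucc_injective _ h5)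
      rw [hs, hs]
  have hex : SymExch C' := by
    rintro _ ⟨u, hu, rfl⟩ _ ⟨v, hv, rfl⟩ i hi
    revert hi
    refine Fin.lastCases (fun hi => ?_) (fun i hi => ?_) i
    · simp only [Fin.snoc_last] at hi
      exact absurd hi (lt_irrefl _)
    · simp only [Fin.snoc_castSucc] at hi
      obtain ⟨j, hj, h1, h2⟩ := hC u hu v hv i hi
      refine ⟨j.castSucc, ?_, ⟨_, h1, ?_⟩, ⟨_, h2, ?_⟩⟩
      · simp only [Fin.snoc_castSucc]
        exact hj
      · exact hS u i j
      · have e1 : v + Pi.single i 1 - Pi.single j 1 = v - Pi.single j 1 + Pi.single i 1 := by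
          abel
        rw [e1]
        refine (hS v j i).trans ?_
        abel
  have h01' : ∀ u ∈ C', ∀ i, 0 ≤ u i ∧ u i ≤ 1 := by
    rintro _ ⟨u, hu, rfl⟩ i
    refine Fin.lastCases ?_ (fun i => ?_) i
    · simp only [Fin.snoc_last]
      norm_num
    · simp only [Fin.snoc_castSucc]
      exact h01 u hu i
  have h3' : ∀ u ∈ C', ∑ i, u i = 3 := by
    rintro _ ⟨u, hu, rfl⟩
    rw [Fin.sum_univ_castSucc]
    simp only [Fin.snoc_castSucc, Fin.snoc_last, add_zero]
    exact h3 u hu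
  rcases TV_seven (K := K) hex h01' h3' with h | ⟨σ, hσ⟩
  · exact h
  · exfalso
    obtain ⟨h1, h2⟩ := tri_fano (σ.symm (Fin.last 6))
    rw [← hσ] at h1
    have h3 := e6 _ h1
    rw [Function.comp_apply, h2] at h3
    exact absurd h3 (by norm_num)

/-- Matroids on at most seven elements. -/
theorem TV_le_seven {K : Type} [CommRing K] [Nontrivial K] {n : ℕ} (hn : n ≤ 7)
    {C : Set (Fin n → ℤ)} (hC : SymExch C) (h01 : ∀ u ∈ C, ∀ i, 0 ≤ u i ∧ u i ≤ 1) (d : ℤ)
    (hd : ∀ u ∈ C, ∑ i, u i = d) : TV K (dg n) (Sg C) ∨ FanoZ C ∨ FanoDualZ C := by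
  by_cases hs : d ≤ 2 ∨ (n : ℤ) - 2 ≤ d
  · exact Or.inl (TV_small_rank hC h01 d hs hd)
  · push Not at hs
    have h67 : n = 6 ∨ n = 7 := by omega
    rcases h67 with rfl | rfl
    · have h3 : d = 3 := by
        have := hs.2
        push_cast at this
        omega
      subst h3
      exact Or.inl (TV_six hC h01 hd)
    · exact TV_seven_all hC h01 d hd

/-- The `0/1` vectors `b` such that `b + q` is a base. -/
def cubeSec {n : ℕ} (P : Finset (Fin n → ℕ)) (q : Fin n → ℕ) : Set (Fin n → ℕ) :=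
  {b | (∀ i, b i ≤ 1) ∧ b + q ∈ bases P}

/-- A labelled copy of the set of bases of the Fano matroid. -/
def FanoN {n : ℕ} (B : Set (Fin n → ℕ)) : Prop :=
  ∃ σ : Fin 7 ≃ Fin n, B = {b | (∀ i, b i ≤ 1) ∧ ∑ i, b i = 3 ∧
    ∀ a : Fin 7, b (σ a) + b (σ (a + 1)) + b (σ (a + 3)) ≤ 2}

/-- A labelled copy of the set of bases of the dual of the Fano matroid. -/
def FanoDualN {n : ℕ} (B : Set (Fin n → ℕ)) : Prop :=
  ∃ σ : Fin 7 ≃ Fin n, B = {b | (∀ i, b i ≤ 1) ∧ ∑ i, b i = 4 ∧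
    ∀ a : Fin 7, 1 ≤ b (σ a) + b (σ (a + 1)) + b (σ (a + 3))}

theorem mem_cubeSec {n : ℕ} {P : Finset (Fin n → ℕ)} {q : Fin n → ℤ} (hq : ∀ i, 0 ≤ q i)
    (b : Fin n → ℕ) : b ∈ cubeSec P (fun i => (q i).toNat) ↔
      castZ b ∈ (fun c => c - q) '' cell (basesZ P) q := by
  have hcast : ∀ i, ((q i).toNat : ℤ) = q i := fun i => Int.toNat_of_nonneg (hq i)
  constructor
  · rintro ⟨h1, h2⟩
    refine ⟨castZ (b + fun i => (q i).toNat), ⟨⟨_, h2, rfl⟩, fun i => ?_⟩, ?_⟩
    · have h3 := hcast i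
      have h4 := h1 i
      simp only [castZ, Pi.add_apply]
      push_cast
      rw [h3]
      omega
    · funext i
      have h3 := hcast i
      simp only [castZ, Pi.sub_apply, Pi.add_apply]
      push_cast
      rw [h3]
      ring
  · intro hb
    have h1 := cell01 (B := basesZ P) q _ hb
    obtain ⟨_, ⟨⟨c, hc, rfl⟩, hc2⟩, hcb⟩ := hb
    refine ⟨fun i => ?_, ?_⟩
    · have := (h1 i).2
      simp only [castZ] at this
      exact_mod_cast this
    · have e2 : b + (fun i => (q i).toNat) = c := by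
        funext i
        have h2 := congrFun hcb i
        simp only [Pi.sub_apply, castZ] at h2
        have h3 := hcast i
        have h4 : ((b i + (q i).toNat : ℕ) : ℤ) = (c i : ℤ) := by
          push_cast
          rw [h3]
          omega
        simp only [Pi.add_apply]
        exact_mod_cast h4
      rw [e2]
      exact hc

theorem castZ_01 {n : ℕ} (b : Fin n → ℕ) : (∀ i, 0 ≤ castZ b i ∧ castZ b i ≤ 1) ↔ ∀ i, b i ≤ 1 := by
  constructor
  · intro h i
    have := (h i).2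
    simp only [castZ] at this
    exact_mod_cast this
  · intro h i
    have := h i
    simp only [castZ]
    constructor
    · exact_mod_cast Nat.zero_le _
    · exact_mod_cast this

theorem castZ_sum {n : ℕ} (b : Fin n → ℕ) (k : ℕ) : (∑ i, castZ b i = (k : ℤ)) ↔ ∑ i, b i = k := by
  simp only [castZ]
  norm_cast

/-- Discrete polymatroids on at most seven elements none of whose unit cube sections is the Fano
matroid or its dual. -/
theorem koszul_le_seven (K : Type) [Field K] (n : ℕ) (hn : n ≤ 7) (P : Finset (Fin n → ℕ))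
    (hP : IsDPM P) (h0 : P ≠ {0})
    (hF : ∀ q : Fin n → ℕ, ¬ FanoN (cubeSec P q) ∧ ¬ FanoDualN (cubeSec P q)) :
    KoszulBaseRing K P := by
  obtain ⟨_, d, hd⟩ := exists_modulus hP
  refine koszul_of_cells_nonneg K hP h0 fun q hq => ?_
  rcases TV_le_seven (K := K) hn (symExch_cell (symExch_bases hP) q) (cell01 (B := basesZ P) q) _
    (cell_sum (P := P) q hd) with h | ⟨σ, hσ⟩ | ⟨σ, hσ⟩
  · exact h
  · exfalso
    refine (hF fun i => (q i).toNat).1 ⟨σ, ?_⟩
    ext b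
    rw [mem_cubeSec hq, hσ, castZ_01]
    have h3 := castZ_sum b 3
    push_cast at h3
    rw [h3]
    simp only [castZ, Set.mem_ofPred_eq]
    norm_cast
  · exfalso
    refine (hF fun i => (q i).toNat).2 ⟨σ, ?_⟩
    ext b
    rw [mem_cubeSec hq, hσ, castZ_01]
    have h3 := castZ_sum b 4
    push_cast at h3
    rw [h3]
    simp only [castZ, Set.mem_ofPred_eq]
    norm_cast

end MP7ea278
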