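import Pool.Agent.Lib.MP_7ea278_ag.Sv.Srch
import Pool.Agent.Lib.MP_7ea278_ag.SmallRank

/-!
Families of subsets of a set of seven elements as natural numbers, relabelling.
-/

namespace MP7ea278

/-- Characteristic vector. -/
def vec (m : ℕ) : Fin 7 → ℤ := fun i => if m.testBit i.val then 1 else 0

/-- The natural number of a family. -/
def IsMask (C : Set (Fin 7 → ℤ)) (F : ℕ) : Prop := ∀ m, F.testBit m = true ↔ m < 128 ∧ vec m ∈ C

theorem exists_bits (N : ℕ) (p : ℕ → Prop) :
    ∃ F : ℕ, ∀ m, F.testBit m = true ↔ m < N ∧ p m := by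
  classical
  induction N with
  | zero => exact ⟨0, fun m => by simp⟩
  | succ N ih =>
    obtain ⟨F, hF⟩ := ih
    by_cases hp : p N
    · refine ⟨F ||| 2 ^ N, fun m => ?_⟩
      rw [Nat.testBit_or, Nat.testBit_two_pow, Bool.or_eq_true, decide_eq_true_eq, hF]
      constructor
      · rintro (⟨h1, h2⟩ | h1)
        · exact ⟨by omega, h2⟩
        · exact ⟨by omega, h1 ▸ hp⟩
      · rintro ⟨h1, h2⟩
        by_cases h3 : m = N
        · exact Or.inr h3.symm
        · exact Or.inl ⟨by omega, h2⟩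
    · refine ⟨F, fun m => ?_⟩
      rw [hF]
      constructor
      · rintro ⟨h1, h2⟩
        exact ⟨by omega, h2⟩
      · rintro ⟨h1, h2⟩
        refine ⟨?_, h2⟩
        by_contra h3
        have h4 : m = N := by omega
        exact hp (h4 ▸ h2)

theorem exists_isMask (C : Set (Fin 7 → ℤ)) : ∃ F, IsMask C F := by
  obtain ⟨F, hF⟩ := exists_bits 128 (fun m => vec m ∈ C)
  exact ⟨F, hF⟩

theorem testBit_lt_seven {m i : ℕ} (hm : m < 128) (h : m.testBit i = true) : i < 7 := by
  by_contra hcon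
  have h3 : m < 2 ^ i := lt_of_lt_of_le hm
    (by calc (128 : ℕ) = 2 ^ 7 := by norm_num
          _ ≤ 2 ^ i := Nat.pow_le_pow_right (by norm_num) (by omega))
  rw [Nat.testBit_lt_two_pow h3] at h
  exact Bool.false_ne_true h

theorem vec_inj {m m' : ℕ} (hm : m < 128) (hm' : m' < 128) (h : vec m = vec m') : m = m' := by
  apply Nat.eq_of_testBit_eq
  intro i
  by_cases hi : i < 7
  · have h1 := congrFun h ⟨i, hi⟩
    unfold vec at h1
    dsimp only at h1
    by_cases h2 : m.testBit i = true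
    · by_cases h3 : m'.testBit i = true
      · rw [h2, h3]
      · rw [if_pos h2, if_neg h3] at h1
        exact absurd h1 (by norm_num)
    · by_cases h3 : m'.testBit i = true
      · rw [if_neg h2, if_pos h3] at h1
        exact absurd h1 (by norm_num)
      · rw [Bool.not_eq_true] at h2 h3
        rw [h2, h3]
  · have h2 : m.testBit i = false := by
      by_contra h
      rw [Bool.not_eq_false] at h
      exact hi (testBit_lt_seven hm h)
    have h3 : m'.testBit i = false := by
      by_contra h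
      rw [Bool.not_eq_false] at h
      exact hi (testBit_lt_seven hm' h)
    rw [h2, h3]

theorem exists_vec {u : Fin 7 → ℤ} (h : ∀ i, 0 ≤ u i ∧ u i ≤ 1) : ∃ m, m < 128 ∧ vec m = u := by
  obtain ⟨m, hm⟩ := exists_bits 7 (fun i => ∃ hi : i < 7, u ⟨i, hi⟩ = 1)
  refine ⟨m, ?_, ?_⟩
  · have : m < 2 ^ 7 := by
      apply Nat.lt_pow_two_of_testBit
      intro i hi
      by_contra h2
      rw [Bool.not_eq_false, hm] at h2
      omega
    simpa using this
  · funext i
    unfold vec
    by_cases h2 : m.testBit i.val = true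
    · rw [if_pos h2]
      obtain ⟨_, h3, h4⟩ := (hm _).1 h2
      exact h4.symm
    · rw [if_neg h2]
      have h3 : u i ≠ 1 := by
        intro h4
        exact h2 ((hm _).2 ⟨i.isLt, i.isLt, h4⟩)
      have h4 := h i
      omega

theorem vec_exch {A : ℕ} {i j : Fin 7} (hi : A.testBit i.val = true)
    (hj : A.testBit j.val = false) :
    vec (A ^^^ 2 ^ i.val ^^^ 2 ^ j.val) = vec A - Pi.single i 1 + Pi.single j 1 := by
  have hij : i ≠ j := by
    intro h
    rw [h, hj] at hi
    exact Bool.false_ne_true hi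
  funext k
  rw [Pi.add_apply, Pi.sub_apply]
  unfold vec
  rw [Nat.testBit_xor, Nat.testBit_xor, Nat.testBit_two_pow, Nat.testBit_two_pow]
  by_cases h1 : k = i
  · rw [h1, hi, Pi.single_eq_same, Pi.single_eq_of_ne hij]
    have h2 : ¬ (j.val = i.val) := fun h => hij (Fin.ext h.symm)
    simp [h2]
  · by_cases h2 : k = j
    · rw [h2, hj, Pi.single_eq_same, Pi.single_eq_of_ne (Ne.symm hij)]
      have h3 : ¬ (i.val = j.val) := fun h => hij (Fin.ext h)
      simp [h3]
    · rw [Pi.single_eq_of_ne h1, Pi.single_eq_of_ne h2]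
      have h3 : ¬ (i.val = k.val) := fun h => h1 (Fin.ext h.symm)
      have h4 : ¬ (j.val = k.val) := fun h => h2 (Fin.ext h.symm)
      simp [h3, h4]

theorem exch_of_symExch {C : Set (Fin 7 → ℤ)} (hC : SymExch C) {F : ℕ} (hF : IsMask C F) :
    Exch F := by
  intro A B i hA hB hFA hFB
  obtain ⟨hA1, hA2⟩ := (hF A).1 hFA
  obtain ⟨hB1, hB2⟩ := (hF B).1 hFB
  have hi : i < 7 := testBit_lt_seven hA1 hA
  have h1 : vec B ⟨i, hi⟩ < vec A ⟨i, hi⟩ := by
    unfold vec
    dsimp only
    rw [hA, hB]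
    norm_num
  obtain ⟨j, hj1, hj2, -⟩ := hC _ hA2 _ hB2 _ h1
  have hj3 : B.testBit j.val = true := by
    by_contra h
    unfold vec at hj1
    rw [if_neg h] at hj1
    split_ifs at hj1
    · exact absurd hj1 (by norm_num)
    · exact absurd hj1 (by norm_num)
  have hj4 : A.testBit j.val = false := by
    by_contra h
    rw [Bool.not_eq_false] at h
    unfold vec at hj1
    rw [if_pos h] at hj1
    split_ifs at hj1
    exact absurd hj1 (by norm_num)
  refine ⟨j.val, hj3, hj4, (hF _).2 ⟨?_, ?_⟩⟩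
  · have e1 : (2 : ℕ) ^ i < 2 ^ 7 := Nat.pow_lt_pow_right (by norm_num) hi
    have e2 : (2 : ℕ) ^ j.val < 2 ^ 7 := Nat.pow_lt_pow_right (by norm_num) j.isLt
    have e3 : A < 2 ^ 7 := by simpa using hA1
    have := Nat.xor_lt_two_pow (Nat.xor_lt_two_pow e3 e1) e2
    simpa using this
  · have h5 := vec_exch (A := A) (i := ⟨i, hi⟩) (j := j) hA hj4
    rw [h5]
    exact hj2

/-- Relabelling. -/
def relab (σ : Equiv.Perm (Fin 7)) (C : Set (Fin 7 → ℤ)) : Set (Fin 7 → ℤ) := {u | u ∘ σ.symm ∈ C}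

theorem symExch_relab {C : Set (Fin 7 → ℤ)} (hC : SymExch C) (σ : Equiv.Perm (Fin 7)) :
    SymExch (relab σ C) := by
  intro u hu v hv i hi
  have h1 : (v ∘ σ.symm) (σ i) < (u ∘ σ.symm) (σ i) := by
    rw [Function.comp_apply, Function.comp_apply, Equiv.symm_apply_apply]
    exact hi
  obtain ⟨j, h2, h3, h4⟩ := hC _ hu _ hv _ h1
  have e : ∀ k l : Fin 7, (Pi.single k (1 : ℤ) : Fin 7 → ℤ) (σ.symm l) =
      (Pi.single (σ k) (1 : ℤ) : Fin 7 → ℤ) l := by
    intro k l
    by_cases h : l = σ k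
    · rw [h, Equiv.symm_apply_apply, Pi.single_eq_same, Pi.single_eq_same]
    · rw [Pi.single_eq_of_ne h, Pi.single_eq_of_ne]
      intro h5
      rw [← h5, Equiv.apply_symm_apply] at h
      exact h rfl
  refine ⟨σ.symm j, h2, ?_, ?_⟩
  · change (u - Pi.single i 1 + Pi.single (σ.symm j) 1) ∘ σ.symm ∈ C
    have : (u - Pi.single i 1 + Pi.single (σ.symm j) 1) ∘ σ.symm =
        u ∘ σ.symm - Pi.single (σ i) 1 + Pi.single j 1 := by
      funext l
      simp only [Function.comp_apply, Pi.add_apply, Pi.sub_apply, e, Equiv.apply_symm_apply]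
    rw [this]
    exact h3
  · change (v + Pi.single i 1 - Pi.single (σ.symm j) 1) ∘ σ.symm ∈ C
    have : (v + Pi.single i 1 - Pi.single (σ.symm j) 1) ∘ σ.symm =
        v ∘ σ.symm + Pi.single (σ i) 1 - Pi.single j 1 := by
      funext l
      simp only [Function.comp_apply, Pi.add_apply, Pi.sub_apply, e, Equiv.apply_symm_apply]
    rw [this]
    exact h4

theorem sum_comp_symm (σ : Equiv.Perm (Fin 7)) (u : Fin 7 → ℤ) :
    ∑ i, (u ∘ σ.symm) i = ∑ i, u i := Equiv.sum_comp σ.symm u

private def rl (σ : Equiv.Perm (Fin 7)) : Amb 7 →+ Amb 7 where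
  toFun x := (x.1, x.2 ∘ σ)
  map_zero' := rfl
  map_add' _ _ := rfl

private theorem rl_mem {C C' : Set (Fin 7 → ℤ)} (σ : Equiv.Perm (Fin 7))
    (h : ∀ u ∈ C, u ∘ σ ∈ C') {x : Amb 7} (hx : x ∈ Sg C) : rl σ x ∈ Sg C' := by
  obtain ⟨hx, hx0⟩ := hx
  refine ⟨?_, fun h0 => hx0 ?_⟩
  · clear hx0
    induction hx using AddSubmonoid.closure_induction with
    | mem x hx =>
      obtain ⟨g, hg, rfl⟩ := hx
      exact AddSubmonoid.subset_closure ⟨g ∘ σ, h g hg, rfl⟩
    | zero =>
      rw [map_zero]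
      exact AddSubmonoid.zero_mem _
    | add x y _ _ hx hy =>
      rw [map_add]
      exact AddSubmonoid.add_mem _ hx hy
  · have h1 : x.1 = 0 := congrArg Prod.fst h0
    have h2 : x.2 ∘ σ = 0 := congrArg Prod.snd h0
    refine Prod.ext h1 ?_
    funext i
    have h3 := congrFun h2 (σ.symm i)
    rw [Function.comp_apply, Equiv.apply_symm_apply] at h3
    exact h3

private theorem rl_Sg_add {n : ℕ} {G : Set (Fin n → ℤ)} :
    ∀ a ∈ Sg G, ∀ b ∈ Sg G, a + b ∈ Sg G := by
  have height : ∀ x : Amb n, x ∈ AddSubmonoid.closure ((fun g => ((1 : ℕ), g)) '' G) →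
      x = 0 ∨ 1 ≤ x.1 := by
    intro x hx
    induction hx using AddSubmonoid.closure_induction with
    | mem x hx =>
      obtain ⟨g, _, rfl⟩ := hx
      exact Or.inr le_rfl
    | zero => exact Or.inl rfl
    | add x y _ _ hx hy =>
      rcases hx with rfl | hx
      · rw [zero_add]
        exact hy
      · right
        change 1 ≤ x.1 + y.1
        omega
  rintro a ⟨ha, ha0⟩ b ⟨hb, _⟩
  refine ⟨AddSubmonoid.add_mem _ ha hb, fun h => ?_⟩
  have h1 := (height a ha).resolve_left ha0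
  have h2 : a.1 + b.1 = 0 := congrArg Prod.fst h
  omega

/-- The vanishing property does not depend on the labels. -/
theorem TV_relab {K : Type} [CommRing K] (σ : Equiv.Perm (Fin 7)) (C : Set (Fin 7 → ℤ)) :
    TV K (dg 7) (Sg (relab σ C)) ↔ TV K (dg 7) (Sg C) := by
  have himg : rl σ '' Sg C = Sg (relab σ C) := by
    apply Set.Subset.antisymm
    · rintro _ ⟨x, hx, rfl⟩
      refine rl_mem σ (C' := relab σ C) (fun u hu => ?_) hx
      change (u ∘ σ) ∘ σ.symm ∈ C
      have : (u ∘ σ) ∘ σ.symm = u := by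
        funext i
        simp
      rw [this]
      exact hu
    · intro x hx
      refine ⟨rl σ.symm x, rl_mem σ.symm (fun u hu => hu) hx, ?_⟩
      refine Prod.ext rfl ?_
      funext i
      change x.2 (σ.symm (σ i)) = x.2 i
      rw [Equiv.symm_apply_apply]
  rw [← himg]
  refine TV_image (dg 7) (dg 7) (rl σ) rl_Sg_add ?_ fun x _ => rfl
  intro x _ y _ hxy
  have hxy' : rl σ x = rl σ y := hxy
  have h1 : x.1 = y.1 := (Prod.ext_iff.1 hxy').1
  have h2 : x.2 ∘ σ = y.2 ∘ σ := (Prod.ext_iff.1 hxy').2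
  refine Prod.ext h1 ?_
  funext i
  have h3 := congrFun h2 (σ.symm i)
  rw [Function.comp_apply, Function.comp_apply, Equiv.apply_symm_apply] at h3
  exact h3

end MP7ea278
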