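import Pool.Agent.Lib.MP_7ea278_ag.Sv.Intv

/-!
The leaves of the search: interval families, and families given up to relabelling.
-/

namespace MP7ea278

/-- Number of elements. -/
def cnt7 (m : ℕ) : ℤ := (if m.testBit 0 then 1 else 0) + (if m.testBit 1 then 1 else 0) +
  (if m.testBit 2 then 1 else 0) + (if m.testBit 3 then 1 else 0) +
  (if m.testBit 4 then 1 else 0) + (if m.testBit 5 then 1 else 0) + (if m.testBit 6 then 1 else 0)

theorem sum_vec (m : ℕ) : ∑ i, vec m i = cnt7 m := by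
  rw [Fin.sum_univ_seven]
  rfl

theorem cnt7_spec : ∀ m < 128, cnt7 m = 3 → m ∈ T7m := by decide +kernel

theorem mem_T7m {m : ℕ} (hm : m < 128) (h : ∑ i, vec m i = 3) : m ∈ T7m :=
  cnt7_spec m hm (by rw [← sum_vec]; exact h)

theorem cnt7_T7m : ∀ m ∈ T7m, cnt7 m = 3 := by decide +kernel

theorem isum_all7 (σ : Equiv.Perm (Fin 7)) (u : Fin 7 → ℤ) : isum σ u 0 7 = ∑ i, u i := by
  unfold isum
  rw [← Equiv.sum_comp σ u]
  refine Finset.sum_congr ?_ fun _ _ => rfl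
  ext t
  simp only [Finset.mem_filter, Finset.mem_univ, true_and, iff_true]
  have := t.isLt
  omega

theorem isum_one7 (σ : Equiv.Perm (Fin 7)) (u : Fin 7 → ℤ) (t : Fin 7) :
    isum σ u t.val (t.val + 1) = u (σ t) := by
  rw [isum_succ7 σ u t.val t.val le_rfl t.isLt, isum_self7, zero_add]

theorem finite_of_01 {C : Set (Fin 7 → ℤ)} (h01 : ∀ u ∈ C, ∀ i, 0 ≤ u i ∧ u i ≤ 1) :
    C.Finite := by
  refine Set.Finite.subset ((Finset.range 128).image vec).finite_toSet ?_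
  intro u hu
  obtain ⟨m, hm, rfl⟩ := exists_vec (h01 u hu)
  simp only [Finset.coe_image, Set.mem_image, Finset.mem_coe, Finset.mem_range]
  exact ⟨m, hm, rfl⟩

/-- Families with the interval property. -/
theorem TV_of_intv {K : Type} [CommRing K] [Nontrivial K] {C : Set (Fin 7 → ℤ)}
    (h01 : ∀ u ∈ C, ∀ i, 0 ≤ u i ∧ u i ≤ 1) (h3 : ∀ u ∈ C, ∑ i, u i = 3) (hne : C.Nonempty)
    {F c : ℕ} (hF : IsMask C F) (h : intv F c = true) : TV K (dg 7) (Sg C) := by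
  obtain ⟨σ, hσ⟩ := intv_sound h
  have hfin := finite_of_01 h01
  have hlo : ∀ i j : ℕ, ∃ u0 ∈ C, ∀ u ∈ C, isum σ u0 i j ≤ isum σ u i j := fun i j =>
    Set.exists_min_image C (fun u => isum σ u i j) hfin hne
  have hhi : ∀ i j : ℕ, ∃ u0 ∈ C, ∀ u ∈ C, isum σ u i j ≤ isum σ u0 i j := fun i j =>
    Set.exists_max_image C (fun u => isum σ u i j) hfin hne
  choose lo hlo1 hlo2 using hlo
  choose hi hhi1 hhi2 using hhi
  refine TV_Sg_of_interval 7 σ (fun i j => isum σ (lo i j) i j) (fun i j => isum σ (hi i j) i j) C ?_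
  ext u
  constructor
  · intro hu i j _ _
    exact ⟨hlo2 i j u hu, hhi2 i j u hu⟩
  · intro hu
    have hu01 : ∀ i, 0 ≤ u i ∧ u i ≤ 1 := by
      intro i
      have h1 := hu (σ.symm i).val ((σ.symm i).val + 1) (by omega) (σ.symm i).isLt
      rw [isum_one7, isum_one7, isum_one7, Equiv.apply_symm_apply] at h1
      exact ⟨le_trans (h01 _ (hlo1 _ _) i).1 h1.1, le_trans h1.2 (h01 _ (hhi1 _ _) i).2⟩
    have hsum : ∑ i, u i = 3 := by
      have h1 := hu 0 7 (by norm_num) le_rfl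
      rw [isum_all7, isum_all7, isum_all7, h3 _ (hlo1 _ _), h3 _ (hhi1 _ _)] at h1
      omega
    obtain ⟨m, hm, rfl⟩ := exists_vec hu01
    have hmT := mem_T7m hm hsum
    rcases hσ m hmT with h1 | ⟨i, j, hij, hj, h1⟩
    · exact ((hF m).1 h1).2
    · exfalso
      have h2 := hu i j hij hj
      have key : ∀ v ∈ C, ∃ m' ∈ T7m, F.testBit m' = true ∧ vec m' = v := by
        intro v hv
        obtain ⟨m', hm', rfl⟩ := exists_vec (h01 v hv)
        exact ⟨m', mem_T7m hm' (h3 _ hv), (hF m').2 ⟨hm', hv⟩, rfl⟩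
      rcases h1 with h1 | h1
      · obtain ⟨m', hm', hF', he⟩ := key _ (hlo1 i j)
        have h4 := h1 m' hm' hF'
        rw [he] at h4
        omega
      · obtain ⟨m', hm', hF', he⟩ := key _ (hhi1 i j)
        have h4 := h1 m' hm' hF'
        rw [he] at h4
        omega

/-- The image of a triple under a relabelling code. -/
def img (c a b d : ℕ) : ℕ := 2 ^ dgt c a ||| 2 ^ dgt c b ||| 2 ^ dgt c d

/-- Agreement of the relabelled family `Y` with the family `R` on a list of triples. -/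
def agree (ts : List (ℕ × ℕ × ℕ)) (Y c R : ℕ) : Bool :=
  ts.all fun t => Y.testBit (img c t.1 t.2.1 t.2.2) ==
    R.testBit (2 ^ t.1 ||| 2 ^ t.2.1 ||| 2 ^ t.2.2)

/-- The triples of the first six elements. -/
def tr6 : List (ℕ × ℕ × ℕ) := [(0, 1, 2), (0, 1, 3), (0, 2, 3), (1, 2, 3), (0, 1, 4), (0, 2, 4),
  (1, 2, 4), (0, 3, 4), (1, 3, 4), (2, 3, 4), (0, 1, 5), (0, 2, 5), (1, 2, 5), (0, 3, 5),
  (1, 3, 5), (2, 3, 5), (0, 4, 5), (1, 4, 5), (2, 4, 5), (3, 4, 5)]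

/-- The triples of the seven elements. -/
def tr7 : List (ℕ × ℕ × ℕ) := tr6 ++ [(0, 1, 6), (0, 2, 6), (1, 2, 6), (0, 3, 6), (1, 3, 6),
  (2, 3, 6), (0, 4, 6), (1, 4, 6), (2, 4, 6), (3, 4, 6), (0, 5, 6), (1, 5, 6), (2, 5, 6),
  (3, 5, 6), (4, 5, 6)]

theorem tr7_lt : ∀ t ∈ tr7, t.1 < 7 ∧ t.2.1 < 7 ∧ t.2.2 < 7 := by decide

theorem tr6_sub : ∀ t ∈ tr6, t ∈ tr7 := by decide

theorem tr7_all : ∀ m ∈ T7m, ∃ t ∈ tr7, m = 2 ^ t.1 ||| 2 ^ t.2.1 ||| 2 ^ t.2.2 := by decide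

theorem tr6_all : ∀ m ∈ T7m, m < 64 → ∃ t ∈ tr6, m = 2 ^ t.1 ||| 2 ^ t.2.1 ||| 2 ^ t.2.2 := by
  decide

theorem vec_img {c : ℕ} {σ : Equiv.Perm (Fin 7)} (hσ : ∀ e : Fin 7, (σ e).val = dgt c e.val)
    {a b d : ℕ} (ha : a < 7) (hb : b < 7) (hd : d < 7) :
    vec (img c a b d) = vec (2 ^ a ||| 2 ^ b ||| 2 ^ d) ∘ σ.symm := by
  have ea : dgt c a = (σ ⟨a, ha⟩).val := (hσ ⟨a, ha⟩).symm
  have eb : dgt c b = (σ ⟨b, hb⟩).val := (hσ ⟨b, hb⟩).symm
  have ed : dgt c d = (σ ⟨d, hd⟩).val := (hσ ⟨d, hd⟩).symm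
  have key : ∀ (x : ℕ) (hx : x < 7) (i : Fin 7), ((σ ⟨x, hx⟩).val = i.val ↔
      x = (σ.symm i).val) := by
    intro x hx i
    rw [← Fin.ext_iff]
    constructor
    · intro h
      rw [← h, Equiv.symm_apply_apply]
    · intro h
      have : (⟨x, hx⟩ : Fin 7) = σ.symm i := Fin.ext h
      rw [this, Equiv.apply_symm_apply]
  funext i
  rw [Function.comp_apply]
  unfold vec img
  rw [ea, eb, ed]
  simp only [Nat.testBit_or, Nat.testBit_two_pow, Bool.or_eq_true, decide_eq_true_eq, key]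

theorem img_lt {c : ℕ} {σ : Equiv.Perm (Fin 7)} (hσ : ∀ e : Fin 7, (σ e).val = dgt c e.val)
    {a b d : ℕ} (ha : a < 7) (hb : b < 7) (hd : d < 7) : img c a b d < 128 := by
  have h1 : ∀ x, x < 7 → 2 ^ dgt c x < 2 ^ 7 := by
    intro x hx
    have h2 := hσ ⟨x, hx⟩
    have h3 := (σ ⟨x, hx⟩).isLt
    rw [h2] at h3
    exact Nat.pow_lt_pow_right (by norm_num) h3
  have := Nat.or_lt_two_pow (Nat.or_lt_two_pow (h1 a ha) (h1 b hb)) (h1 d hd)
  unfold img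
  simpa using this

/-- Meaning of agreement. -/
theorem agree_sound {ts : List (ℕ × ℕ × ℕ)} (hts : ∀ t ∈ ts, t ∈ tr7) {C : Set (Fin 7 → ℤ)}
    {F c R : ℕ} (hF : IsMask C F) (h : agree ts F c R = true) {σ : Equiv.Perm (Fin 7)}
    (hσ : ∀ e : Fin 7, (σ e).val = dgt c e.val) :
    ∀ t ∈ ts, (vec (2 ^ t.1 ||| 2 ^ t.2.1 ||| 2 ^ t.2.2) ∈ relab σ C ↔
      R.testBit (2 ^ t.1 ||| 2 ^ t.2.1 ||| 2 ^ t.2.2) = true) := by
  intro t ht
  obtain ⟨ha, hb, hd⟩ := tr7_lt t (hts t ht)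
  unfold agree at h
  rw [List.all_eq_true] at h
  have h1 := h t ht
  rw [beq_iff_eq] at h1
  rw [← h1, hF, relab, Set.mem_ofPred_eq, ← vec_img hσ ha hb hd]
  exact ⟨fun h2 => ⟨img_lt hσ ha hb hd, h2⟩, fun h2 => h2.2⟩

end MP7ea278
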