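import Pool.Agent.Lib.MP_7ea278_ag.KFour
import Pool.Agent.Lib.MP_7ea278_ag.Sv.Leaf

/-!
Pieces of cones in dimension seven which are given by interval sums.
-/

namespace MP7ea278

/-- The functional with value `k` times the height minus the sum of the coordinates with
coefficients `c`. -/
def cutH7 (k c0 c1 c2 c3 c4 c5 c6 : ℤ) : Amb 7 →+ ℤ where
  toFun x := k * (x.1 : ℤ) - (c0 * x.2 0 + c1 * x.2 1 + c2 * x.2 2 + c3 * x.2 3 + c4 * x.2 4 +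
    c5 * x.2 5 + c6 * x.2 6)
  map_zero' := by
    change k * ((0 : ℕ) : ℤ) - (c0 * 0 + c1 * 0 + c2 * 0 + c3 * 0 + c4 * 0 + c5 * 0 + c6 * 0) = 0
    simp
  map_add' x y := by
    change k * ((x.1 + y.1 : ℕ) : ℤ) - (c0 * (x.2 0 + y.2 0) + c1 * (x.2 1 + y.2 1) +
      c2 * (x.2 2 + y.2 2) + c3 * (x.2 3 + y.2 3) + c4 * (x.2 4 + y.2 4) +
      c5 * (x.2 5 + y.2 5) + c6 * (x.2 6 + y.2 6)) = _
    push_cast
    ring

/-- A permutation from a table and the table of its inverse. -/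
def mkQ (f g : Fin 7 → Fin 7) (h1 : ∀ x, g (f x) = x) (h2 : ∀ x, f (g x) = x) :
    Equiv.Perm (Fin 7) := ⟨f, g, h1, h2⟩

theorem isum_seven (σ : Equiv.Perm (Fin 7)) (u : Fin 7 → ℤ) (i j : ℕ) : isum σ u i j =
    (if i ≤ 0 ∧ 0 < j then u (σ 0) else 0) + (if i ≤ 1 ∧ 1 < j then u (σ 1) else 0) +
    (if i ≤ 2 ∧ 2 < j then u (σ 2) else 0) + (if i ≤ 3 ∧ 3 < j then u (σ 3) else 0) +
    (if i ≤ 4 ∧ 4 < j then u (σ 4) else 0) + (if i ≤ 5 ∧ 5 < j then u (σ 5) else 0) +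
    (if i ≤ 6 ∧ 6 < j then u (σ 6) else 0) := by
  unfold isum
  rw [Finset.sum_filter, Fin.sum_univ_seven]
  rfl

/-- The bounds of all interval sums of seven numbers. -/
def B7 (lo hi : ℕ → ℕ → ℤ) (h a b c d e f g : ℤ) : Prop :=
  (lo 0 1 * h ≤ a ∧ a ≤ hi 0 1 * h) ∧
  (lo 0 2 * h ≤ a + b ∧ a + b ≤ hi 0 2 * h) ∧
  (lo 0 3 * h ≤ a + b + c ∧ a + b + c ≤ hi 0 3 * h) ∧
  (lo 0 4 * h ≤ a + b + c + d ∧ a + b + c + d ≤ hi 0 4 * h) ∧
  (lo 0 5 * h ≤ a + b + c + d + e ∧ a + b + c + d + e ≤ hi 0 5 * h) ∧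
  (lo 0 6 * h ≤ a + b + c + d + e + f ∧ a + b + c + d + e + f ≤ hi 0 6 * h) ∧
  (lo 0 7 * h ≤ a + b + c + d + e + f + g ∧ a + b + c + d + e + f + g ≤ hi 0 7 * h) ∧
  (lo 1 2 * h ≤ b ∧ b ≤ hi 1 2 * h) ∧
  (lo 1 3 * h ≤ b + c ∧ b + c ≤ hi 1 3 * h) ∧
  (lo 1 4 * h ≤ b + c + d ∧ b + c + d ≤ hi 1 4 * h) ∧
  (lo 1 5 * h ≤ b + c + d + e ∧ b + c + d + e ≤ hi 1 5 * h) ∧
  (lo 1 6 * h ≤ b + c + d + e + f ∧ b + c + d + e + f ≤ hi 1 6 * h) ∧
  (lo 1 7 * h ≤ b + c + d + e + f + g ∧ b + c + d + e + f + g ≤ hi 1 7 * h) ∧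
  (lo 2 3 * h ≤ c ∧ c ≤ hi 2 3 * h) ∧
  (lo 2 4 * h ≤ c + d ∧ c + d ≤ hi 2 4 * h) ∧
  (lo 2 5 * h ≤ c + d + e ∧ c + d + e ≤ hi 2 5 * h) ∧
  (lo 2 6 * h ≤ c + d + e + f ∧ c + d + e + f ≤ hi 2 6 * h) ∧
  (lo 2 7 * h ≤ c + d + e + f + g ∧ c + d + e + f + g ≤ hi 2 7 * h) ∧
  (lo 3 4 * h ≤ d ∧ d ≤ hi 3 4 * h) ∧
  (lo 3 5 * h ≤ d + e ∧ d + e ≤ hi 3 5 * h) ∧
  (lo 3 6 * h ≤ d + e + f ∧ d + e + f ≤ hi 3 6 * h) ∧
  (lo 3 7 * h ≤ d + e + f + g ∧ d + e + f + g ≤ hi 3 7 * h) ∧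
  (lo 4 5 * h ≤ e ∧ e ≤ hi 4 5 * h) ∧
  (lo 4 6 * h ≤ e + f ∧ e + f ≤ hi 4 6 * h) ∧
  (lo 4 7 * h ≤ e + f + g ∧ e + f + g ≤ hi 4 7 * h) ∧
  (lo 5 6 * h ≤ f ∧ f ≤ hi 5 6 * h) ∧
  (lo 5 7 * h ≤ f + g ∧ f + g ≤ hi 5 7 * h) ∧
  (lo 6 7 * h ≤ g ∧ g ≤ hi 6 7 * h)

theorem int7_iff (σ : Equiv.Perm (Fin 7)) (lo hi : ℕ → ℕ → ℤ) (h0 : ∀ i, i ≤ 7 → lo i i = 0)
    (h1 : ∀ i, i ≤ 7 → hi i i = 0) (h : ℤ) (u : Fin 7 → ℤ) :
    (∀ i j : ℕ, i ≤ j → j ≤ 7 → lo i j * h ≤ isum σ u i j ∧ isum σ u i j ≤ hi i j * h) ↔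
    B7 lo hi h (u (σ 0)) (u (σ 1)) (u (σ 2)) (u (σ 3)) (u (σ 4)) (u (σ 5)) (u (σ 6)) := by
  constructor
  · intro H
    unfold B7
    refine ⟨?_, ?_, ?_, ?_, ?_, ?_, ?_, ?_, ?_, ?_, ?_, ?_, ?_, ?_, ?_, ?_, ?_, ?_, ?_, ?_, ?_, ?_, ?_, ?_, ?_, ?_, ?_, ?_⟩
    · have h2 := H 0 1 (by norm_num) (by norm_num)
      simpa [isum_seven] using h2
    · have h2 := H 0 2 (by norm_num) (by norm_num)
      simpa [isum_seven] using h2
    · have h2 := H 0 3 (by norm_num) (by norm_num)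
      simpa [isum_seven] using h2
    · have h2 := H 0 4 (by norm_num) (by norm_num)
      simpa [isum_seven] using h2
    · have h2 := H 0 5 (by norm_num) (by norm_num)
      simpa [isum_seven] using h2
    · have h2 := H 0 6 (by norm_num) (by norm_num)
      simpa [isum_seven] using h2
    · have h2 := H 0 7 (by norm_num) (by norm_num)
      simpa [isum_seven] using h2
    · have h2 := H 1 2 (by norm_num) (by norm_num)
      simpa [isum_seven] using h2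
    · have h2 := H 1 3 (by norm_num) (by norm_num)
      simpa [isum_seven] using h2
    · have h2 := H 1 4 (by norm_num) (by norm_num)
      simpa [isum_seven] using h2
    · have h2 := H 1 5 (by norm_num) (by norm_num)
      simpa [isum_seven] using h2
    · have h2 := H 1 6 (by norm_num) (by norm_num)
      simpa [isum_seven] using h2
    · have h2 := H 1 7 (by norm_num) (by norm_num)
      simpa [isum_seven] using h2
    · have h2 := H 2 3 (by norm_num) (by norm_num)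
      simpa [isum_seven] using h2
    · have h2 := H 2 4 (by norm_num) (by norm_num)
      simpa [isum_seven] using h2
    · have h2 := H 2 5 (by norm_num) (by norm_num)
      simpa [isum_seven] using h2
    · have h2 := H 2 6 (by norm_num) (by norm_num)
      simpa [isum_seven] using h2
    · have h2 := H 2 7 (by norm_num) (by norm_num)
      simpa [isum_seven] using h2
    · have h2 := H 3 4 (by norm_num) (by norm_num)
      simpa [isum_seven] using h2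
    · have h2 := H 3 5 (by norm_num) (by norm_num)
      simpa [isum_seven] using h2
    · have h2 := H 3 6 (by norm_num) (by norm_num)
      simpa [isum_seven] using h2
    · have h2 := H 3 7 (by norm_num) (by norm_num)
      simpa [isum_seven] using h2
    · have h2 := H 4 5 (by norm_num) (by norm_num)
      simpa [isum_seven] using h2
    · have h2 := H 4 6 (by norm_num) (by norm_num)
      simpa [isum_seven] using h2
    · have h2 := H 4 7 (by norm_num) (by norm_num)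
      simpa [isum_seven] using h2
    · have h2 := H 5 6 (by norm_num) (by norm_num)
      simpa [isum_seven] using h2
    · have h2 := H 5 7 (by norm_num) (by norm_num)
      simpa [isum_seven] using h2
    · have h2 := H 6 7 (by norm_num) (by norm_num)
      simpa [isum_seven] using h2
  · intro H i j hij hj
    obtain ⟨g01, g02, g03, g04, g05, g06, g07, g12, g13, g14, g15, g16, g17, g23, g24, g25, g26, g27, g34, g35, g36, g37, g45, g46, g47, g56, g57, g67⟩ := H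
    rcases Nat.eq_or_lt_of_le hij with rfl | hlt
    · rw [h0 i hj, h1 i hj, isum_seven]
      have e : ∀ k : ℕ, ¬ (i ≤ k ∧ k < i) := by
        intro k
        omega
      rw [if_neg (e 0), if_neg (e 1), if_neg (e 2), if_neg (e 3), if_neg (e 4), if_neg (e 5),
        if_neg (e 6)]
      simp
    · have hi : i ≤ 6 := by omega
      rw [isum_seven]
      interval_cases i <;> interval_cases j <;> omega

/-- A piece given by interval sums. -/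
theorem TV_leaf7 {K : Type} [CommRing K] (σ : Equiv.Perm (Fin 7)) (lo hi : ℕ → ℕ → ℤ)
    (h0 : ∀ i, i ≤ 7 → lo i i = 0) (h1 : ∀ i, i ≤ 7 → hi i i = 0) (S : Set (Amb 7))
    (hS : ∀ x : Amb 7, x ∈ S ↔ 1 ≤ x.1 ∧
      B7 lo hi (x.1 : ℤ) (x.2 (σ 0)) (x.2 (σ 1)) (x.2 (σ 2)) (x.2 (σ 3)) (x.2 (σ 4)) (x.2 (σ 5))
        (x.2 (σ 6))) :
    TV K (dg 7) S := by
  have hT := TV_interval (K := K) 7 σ lo hi
  have he : {x : Amb 7 | 1 ≤ x.1 ∧ ∀ i j : ℕ, i ≤ j → j ≤ 7 →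
      lo i j * (x.1 : ℤ) ≤ isum σ x.2 i j ∧ isum σ x.2 i j ≤ hi i j * (x.1 : ℤ)} = S := by
    ext x
    rw [hS, ← int7_iff σ lo hi h0 h1]
    rfl
  rw [he] at hT
  exact hT

theorem piece7_add (S : Set (Amb 7)) (hS : ∀ a ∈ S, ∀ b ∈ S, a + b ∈ S) (h : Amb 7 →+ ℤ) :
    ∀ a ∈ {a : Amb 7 | a ∈ S ∧ 0 ≤ h a}, ∀ b ∈ {a : Amb 7 | a ∈ S ∧ 0 ≤ h a},
      a + b ∈ {a : Amb 7 | a ∈ S ∧ 0 ≤ h a} := by
  rintro a ⟨ha, ha2⟩ b ⟨hb, hb2⟩
  refine ⟨hS a ha b hb, ?_⟩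
  rw [map_add]
  omega

theorem piece7_add' (S : Set (Amb 7)) (hS : ∀ a ∈ S, ∀ b ∈ S, a + b ∈ S) (h : Amb 7 →+ ℤ) :
    ∀ a ∈ {a : Amb 7 | a ∈ S ∧ h a ≤ 0}, ∀ b ∈ {a : Amb 7 | a ∈ S ∧ h a ≤ 0},
      a + b ∈ {a : Amb 7 | a ∈ S ∧ h a ≤ 0} := by
  rintro a ⟨ha, ha2⟩ b ⟨hb, hb2⟩
  refine ⟨hS a ha b hb, ?_⟩
  rw [map_add]
  omega

/-- A cut; closure under addition and the height are carried along. -/
theorem TV_cut7 {K : Type} [CommRing K] (S : Set (Amb 7)) (hS : ∀ a ∈ S, ∀ b ∈ S, a + b ∈ S)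
    (hd : ∀ a ∈ S, 1 ≤ a.1) (h : Amb 7 →+ ℤ) (hp : TV K (dg 7) {a : Amb 7 | a ∈ S ∧ 0 ≤ h a})
    (hn : TV K (dg 7) {a : Amb 7 | a ∈ S ∧ h a ≤ 0}) : TV K (dg 7) S :=
  TV_cut (dg 7) S hS hd h hp hn

end MP7ea278
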