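import Pool.Agent.Lib.MP_7ea278_ag.Sv.Bits

/-!
Relabelling codes and the test of the interval property for families of triples.
-/

namespace MP7ea278

/-- The triples of seven elements. -/
def T7m : List ℕ := [7, 11, 13, 14, 19, 21, 22, 25, 26, 28, 35, 37, 38, 41, 42, 44, 49, 50, 52, 56, 67, 69,
  70, 73, 74, 76, 81, 82, 84, 88, 97, 98, 100, 104, 112]

/-- The families of triples which contain a given element. -/
def El : List ℕ := [158458753062771198453921360000, 316917505977968444283806042240,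
  1267670020370098914158343905408, 20282719192553626473931833632768,
  5192297194616205559647450799013888, 5214322287713793192656181005385728,
  5214322623900981491255210103799808]

/-- All triples. -/
def FU : ℕ := 5214322623900981569529889937713280

/-- Digits of a relabelling code. -/
def dgt (c e : ℕ) : ℕ := c / 8 ^ e % 8

/-- Validity of a relabelling code. -/
def vld (c : ℕ) : Bool :=
  Nat.beq (2 ^ dgt c 0 ||| 2 ^ dgt c 1 ||| 2 ^ dgt c 2 ||| 2 ^ dgt c 3 ||| 2 ^ dgt c 4 |||
    2 ^ dgt c 5 ||| 2 ^ dgt c 6) 127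

theorem exists_perm {c : ℕ} (h : vld c = true) :
    ∃ σ : Equiv.Perm (Fin 7), ∀ e : Fin 7, (σ e).val = dgt c e.val := by
  unfold vld at h
  have h1 := Nat.eq_of_beq_eq_true h
  have hb : ∀ k, (2 ^ dgt c 0 ||| 2 ^ dgt c 1 ||| 2 ^ dgt c 2 ||| 2 ^ dgt c 3 ||| 2 ^ dgt c 4 |||
    2 ^ dgt c 5 ||| 2 ^ dgt c 6).testBit k = (127 : ℕ).testBit k := fun k => by rw [h1]
  simp only [Nat.testBit_or, Nat.testBit_two_pow] at hb
  have hlt8 : ∀ e, dgt c e < 8 := fun e => Nat.mod_lt _ (by norm_num)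
  have hlt : ∀ e : Fin 7, dgt c e.val < 7 := by
    have h7 := hb 7
    have h8 : (127 : ℕ).testBit 7 = false := by decide
    rw [h8] at h7
    simp only [Bool.or_eq_false_iff, decide_eq_false_iff_not] at h7
    intro e
    have h9 := hlt8 e.val
    fin_cases e <;> simp only at h9 ⊢ <;> omega
  have hsurj : Function.Surjective (fun e : Fin 7 => (⟨dgt c e.val, hlt e⟩ : Fin 7)) := by
    intro v
    have hv := hb v.val
    have h8 : (127 : ℕ).testBit v.val = true := by
      fin_cases v <;> decide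
    rw [h8] at hv
    simp only [Bool.or_eq_true, decide_eq_true_eq] at hv
    rcases hv with (((((hv | hv) | hv) | hv) | hv) | hv) | hv
    · exact ⟨0, Fin.ext hv⟩
    · exact ⟨1, Fin.ext hv⟩
    · exact ⟨2, Fin.ext hv⟩
    · exact ⟨3, Fin.ext hv⟩
    · exact ⟨4, Fin.ext hv⟩
    · exact ⟨5, Fin.ext hv⟩
    · exact ⟨6, Fin.ext hv⟩
  refine ⟨Equiv.ofBijective _ ⟨Finite.injective_iff_surjective.2 hsurj, hsurj⟩, fun e => rfl⟩

/-- Removal of the family `h`, if it does not meet `Y`. -/
def rul (Y h R : ℕ) : ℕ := cond (Nat.beq (Y &&& h) 0) (R ||| h) R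

/-- The bounds of one interval. -/
def rule (Y h R : ℕ) : ℕ := rul Y (FU ^^^ h) (rul Y h R)

/-- All intervals with a given first element. -/
def inner (Y : ℕ) : List ℕ → ℕ → ℕ → ℕ → ℕ → ℕ
  | [], _, _, _, R => R
  | d :: ds, g1, g2, g3, R =>
    inner Y ds (g1 ||| El.getD d 0) (g2 ||| (g1 &&& El.getD d 0)) (g3 ||| (g2 &&& El.getD d 0))
      (rule Y (g1 ||| El.getD d 0) (rule Y (g2 ||| (g1 &&& El.getD d 0))
        (rule Y (g3 ||| (g2 &&& El.getD d 0)) R)))

/-- All intervals. -/
def outer (Y : ℕ) : List ℕ → ℕ → ℕ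
  | [], R => R
  | d :: ds, R => outer Y ds (inner Y (d :: ds) 0 0 0 R)

/-- The test of the interval property for the order with code `c`. -/
def intv (Y c : ℕ) : Bool :=
  vld c && Nat.beq ((outer Y [dgt c 0, dgt c 1, dgt c 2, dgt c 3, dgt c 4, dgt c 5, dgt c 6] 0 |||
    Y) &&& FU) FU

theorem El_spec : ∀ e ∈ [0, 1, 2, 3, 4, 5, 6], ∀ m ∈ T7m,
    (El.getD e 0).testBit m = m.testBit e := by decide

theorem FU_spec : ∀ m ∈ T7m, FU.testBit m = true := by decide

theorem T7m_lt : ∀ m ∈ T7m, m < 128 := by decide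

/-- Separation of `m` from the family by an interval sum. -/
def Sep (σ : Equiv.Perm (Fin 7)) (Y m : ℕ) : Prop := ∃ i j : ℕ, i ≤ j ∧ j ≤ 7 ∧
  ((∀ m' ∈ T7m, Y.testBit m' = true → isum σ (vec m) i j < isum σ (vec m') i j) ∨
    ∀ m' ∈ T7m, Y.testBit m' = true → isum σ (vec m') i j < isum σ (vec m) i j)

theorem isum_self7 (σ : Equiv.Perm (Fin 7)) (u : Fin 7 → ℤ) (i : ℕ) : isum σ u i i = 0 := by
  unfold isum
  refine Finset.sum_eq_zero fun t ht => ?_
  rw [Finset.mem_filter] at ht
  omega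

theorem isum_succ7 (σ : Equiv.Perm (Fin 7)) (u : Fin 7 → ℤ) (i j : ℕ) (hij : i ≤ j)
    (hj : j < 7) : isum σ u i (j + 1) = isum σ u i j + u (σ ⟨j, hj⟩) := by
  unfold isum
  have h1 : Finset.univ.filter (fun t : Fin 7 => i ≤ t.val ∧ t.val < j + 1) =
      insert ⟨j, hj⟩ (Finset.univ.filter (fun t : Fin 7 => i ≤ t.val ∧ t.val < j)) := by
    ext t
    simp only [Finset.mem_filter, Finset.mem_univ, true_and, Finset.mem_insert, Fin.ext_iff]
    omega
  rw [h1, Finset.sum_insert (by simp), add_comm]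

theorem vec_nonneg (m : ℕ) (i : Fin 7) : 0 ≤ vec m i := by
  unfold vec
  split_ifs <;> norm_num

theorem isum_vec_nonneg (σ : Equiv.Perm (Fin 7)) (m i j : ℕ) : 0 ≤ isum σ (vec m) i j :=
  Finset.sum_nonneg fun _ _ => vec_nonneg _ _

theorem rul_sound {σ : Equiv.Perm (Fin 7)} {Y h R : ℕ}
    (hR : ∀ m ∈ T7m, R.testBit m = true → Sep σ Y m)
    (hh : (∀ m ∈ T7m, Y.testBit m = true → h.testBit m = false) →
      ∀ m ∈ T7m, h.testBit m = true → Sep σ Y m) :
    ∀ m ∈ T7m, (rul Y h R).testBit m = true → Sep σ Y m := by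
  intro m hm hr
  unfold rul at hr
  by_cases hb : Nat.beq (Y &&& h) 0 = true
  · rw [hb, cond_true, Nat.testBit_or, Bool.or_eq_true] at hr
    rcases hr with hr | hr
    · exact hR m hm hr
    · refine hh ?_ m hm hr
      intro m' _ hY
      have h1 := Nat.eq_of_beq_eq_true hb
      have h2 : (Y &&& h).testBit m' = false := by
        rw [h1, Nat.zero_testBit]
      rw [Nat.testBit_and, hY, Bool.true_and] at h2
      exact h2
  · rw [Bool.not_eq_true] at hb
    rw [hb, cond_false] at hr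
    exact hR m hm hr

theorem rule_sound {σ : Equiv.Perm (Fin 7)} {Y h R i j : ℕ} {k : ℤ} (hij : i ≤ j) (hj : j ≤ 7)
    (hg : ∀ m ∈ T7m, h.testBit m = true ↔ k ≤ isum σ (vec m) i j)
    (hR : ∀ m ∈ T7m, R.testBit m = true → Sep σ Y m) :
    ∀ m ∈ T7m, (rule Y h R).testBit m = true → Sep σ Y m := by
  refine rul_sound (rul_sound hR ?_) ?_
  · intro h1 m hm h2
    refine ⟨i, j, hij, hj, Or.inr fun m' hm' hY => ?_⟩
    have h3 := h1 m' hm' hY
    have h4 := (hg m hm).1 h2
    have h5 : ¬ k ≤ isum σ (vec m') i j := by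
      rw [← hg m' hm', h3]
      exact Bool.false_ne_true
    omega
  · intro h1 m hm h2
    refine ⟨i, j, hij, hj, Or.inl fun m' hm' hY => ?_⟩
    have h3 := h1 m' hm' hY
    rw [Nat.testBit_xor, FU_spec m' hm', Bool.true_xor, Bool.not_eq_false'] at h3
    have h4 := (hg m' hm').1 h3
    rw [Nat.testBit_xor, FU_spec m hm, Bool.true_xor, Bool.not_eq_true'] at h2
    have h5 : ¬ k ≤ isum σ (vec m) i j := by
      rw [← hg m hm, h2]
      exact Bool.false_ne_true
    omega

theorem inner_sound {σ : Equiv.Perm (Fin 7)} {Y : ℕ} : ∀ (ds : List ℕ) (i j g1 g2 g3 R : ℕ),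
    i ≤ j → j + ds.length = 7 →
    (∀ t : ℕ, ∀ h : j + t < 7, ds.getD t 0 = (σ ⟨j + t, h⟩).val) →
    (∀ m ∈ T7m, g1.testBit m = true ↔ 1 ≤ isum σ (vec m) i j) →
    (∀ m ∈ T7m, g2.testBit m = true ↔ 2 ≤ isum σ (vec m) i j) →
    (∀ m ∈ T7m, g3.testBit m = true ↔ 3 ≤ isum σ (vec m) i j) →
    (∀ m ∈ T7m, R.testBit m = true → Sep σ Y m) →
    ∀ m ∈ T7m, (inner Y ds g1 g2 g3 R).testBit m = true → Sep σ Y m := by
  intro ds
  induction ds with
  | nil =>
    intro i j g1 g2 g3 R _ _ _ _ _ _ hR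
    exact hR
  | cons d ds ih =>
    intro i j g1 g2 g3 R hij hlen hd h1 h2 h3 hR
    rw [List.length_cons] at hlen
    have hj : j < 7 := by omega
    have hd0 : d = (σ ⟨j, hj⟩).val := hd 0 hj
    have hE : ∀ m ∈ T7m, (El.getD d 0).testBit m = true ↔ vec m (σ ⟨j, hj⟩) = 1 := by
      intro m hm
      have h4 : d ∈ [0, 1, 2, 3, 4, 5, 6] := by
        have := (σ ⟨j, hj⟩).isLt
        simp only [List.mem_cons, List.not_mem_nil, or_false]
        omega
      rw [El_spec d h4 m hm, hd0]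
      unfold vec
      split_ifs with h5
      · simp [h5]
      · simp [h5]
    have hE0 : ∀ m, vec m (σ ⟨j, hj⟩) = 0 ∨ vec m (σ ⟨j, hj⟩) = 1 := by
      intro m
      unfold vec
      split_ifs
      · exact Or.inr rfl
      · exact Or.inl rfl
    have hs : ∀ m, isum σ (vec m) i (j + 1) = isum σ (vec m) i j + vec m (σ ⟨j, hj⟩) :=
      fun m => isum_succ7 σ (vec m) i j hij hj
    have h1' : ∀ m ∈ T7m, (g1 ||| El.getD d 0).testBit m = true ↔
        1 ≤ isum σ (vec m) i (j + 1) := by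
      intro m hm
      have h4 := isum_vec_nonneg σ m i j
      rw [Nat.testBit_or, Bool.or_eq_true, h1 m hm, hE m hm, hs]
      rcases hE0 m with h5 | h5 <;> omega
    have h2' : ∀ m ∈ T7m, (g2 ||| (g1 &&& El.getD d 0)).testBit m = true ↔
        2 ≤ isum σ (vec m) i (j + 1) := by
      intro m hm
      rw [Nat.testBit_or, Bool.or_eq_true, Nat.testBit_and, Bool.and_eq_true, h1 m hm, h2 m hm,
        hE m hm, hs]
      rcases hE0 m with h5 | h5 <;> omega
    have h3' : ∀ m ∈ T7m, (g3 ||| (g2 &&& El.getD d 0)).testBit m = true ↔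
        3 ≤ isum σ (vec m) i (j + 1) := by
      intro m hm
      rw [Nat.testBit_or, Bool.or_eq_true, Nat.testBit_and, Bool.and_eq_true, h2 m hm, h3 m hm,
        hE m hm, hs]
      rcases hE0 m with h5 | h5 <;> omega
    refine ih i (j + 1) _ _ _ _ (by omega) (by omega) ?_ h1' h2' h3' ?_
    · intro t ht
      have h4 := hd (t + 1) (by omega)
      rw [List.getD_cons_succ] at h4
      rw [h4]
      congr 2
      apply Fin.ext
      change j + (t + 1) = j + 1 + t
      omega
    · exact rule_sound (k := 1) (by omega) (by omega) h1' (rule_sound (k := 2) (by omega) (by omega)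
        h2' (rule_sound (k := 3) (by omega) (by omega) h3' hR))

theorem outer_sound {σ : Equiv.Perm (Fin 7)} {Y : ℕ} : ∀ (ds : List ℕ) (i R : ℕ),
    i + ds.length = 7 →
    (∀ t : ℕ, ∀ h : i + t < 7, ds.getD t 0 = (σ ⟨i + t, h⟩).val) →
    (∀ m ∈ T7m, R.testBit m = true → Sep σ Y m) →
    ∀ m ∈ T7m, (outer Y ds R).testBit m = true → Sep σ Y m := by
  intro ds
  induction ds with
  | nil =>
    intro i R _ _ hR
    exact hR
  | cons d ds ih =>
    intro i R hlen hd hR
    refine ih (i + 1) _ (by rw [List.length_cons] at hlen; omega) ?_ ?_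
    · intro t ht
      have h4 := hd (t + 1) (by omega)
      rw [List.getD_cons_succ] at h4
      rw [h4]
      congr 2
      apply Fin.ext
      change i + (t + 1) = i + 1 + t
      omega
    · refine inner_sound (d :: ds) i i 0 0 0 R le_rfl hlen hd ?_ ?_ ?_ hR
      · intro m _
        rw [Nat.zero_testBit, isum_self7]
        simp
      · intro m _
        rw [Nat.zero_testBit, isum_self7]
        simp
      · intro m _
        rw [Nat.zero_testBit, isum_self7]
        simp

theorem intv_sound {Y c : ℕ} (h : intv Y c = true) : ∃ σ : Equiv.Perm (Fin 7),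
    ∀ m ∈ T7m, Y.testBit m = true ∨ Sep σ Y m := by
  unfold intv at h
  rw [Bool.and_eq_true] at h
  obtain ⟨σ, hσ⟩ := exists_perm h.1
  refine ⟨σ, fun m hm => ?_⟩
  have h1 := Nat.eq_of_beq_eq_true h.2
  have h2 := congrArg (fun x : ℕ => x.testBit m) h1
  simp only [Nat.testBit_and, Nat.testBit_or, FU_spec m hm, Bool.and_true, Bool.or_eq_true] at h2
  rcases h2 with h2 | h2
  · right
    refine outer_sound _ 0 0 rfl ?_ ?_ m hm h2
    · intro t ht
      have ht7 : t < 7 := by omega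
      have h3 : ∀ t : Fin 7, [dgt c 0, dgt c 1, dgt c 2, dgt c 3, dgt c 4, dgt c 5,
          dgt c 6].getD t.val 0 = (σ t).val := by
        intro t
        fin_cases t
        · exact (hσ 0).symm
        · exact (hσ 1).symm
        · exact (hσ 2).symm
        · exact (hσ 3).symm
        · exact (hσ 4).symm
        · exact (hσ 5).symm
        · exact (hσ 6).symm
      have h4 := h3 ⟨t, ht7⟩
      have h5 : (⟨0 + t, ht⟩ : Fin 7) = ⟨t, ht7⟩ := Fin.ext (by simp)
      rw [h5]
      exact h4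
    · intro m' _ h4
      rw [Nat.zero_testBit] at h4
      exact absurd h4 Bool.false_ne_true
  · exact Or.inl h2

end MP7ea278
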