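import Pool.Agent.Lib.MP_7ea278_ag.Sv.Leaf

/-!
The search tree for the families of triples of six elements.
-/

namespace MP7ea278

def sx0 : CT :=
  .N (.N (.N (.N (.N (.N (.N (.N (.N (.L 112304678) (.L 105142501)) (.N (.L 107239589) (.L
  102869796))) (.N (.N (.L 107501669) (.L 104962852)) (.N (.L 107027236) (.L 101522211)))) (.N (.N
  (.N (.L 107534373) (.L 105220900)) (.N (.L 107285284) (.L 103615267))) (.N (.N (.L 107514660)
  (.L 105679651)) (.N (.L 107514659) (.L 107514657))))) (.N (.N (.N (.N (.L 109336229) (.L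
  102902500)) (.N (.L 102906532) (.L 102905186))) (.D 71218)) (.D 71217))) (.N (.N (.N (.N (.N (.L
  109598309) (.L 104995556)) (.D 55850)) (.N (.N (.L 105003620) (.L 105001826)) (.D 70964))) (.D
  70961)) (.N (.N (.N (.N (.L 109124324) (.L 101784291)) (.D 55850)) (.N (.D 55596) (.N (.L
  101819232) (.L 101238622)))) (.D 70961)))) (.N (.N (.N (.N (.N (.N (.L 109631013) (.L
  105253604)) (.D 55849)) (.D 55593)) (.N (.N (.N (.L 105265700) (.L 105263458)) (.D 70836)) (.D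
  70834))) (.N (.N (.N (.N (.L 109382372) (.L 103877347)) (.D 55849)) (.D 55593)) (.N (.N (.D
  55468) (.N (.L 103915872) (.L 103303006))) (.D 70834)))) (.N (.N (.N (.N (.N (.L 109611748) (.L
  105941731)) (.D 55849)) (.D 55593)) (.N (.D 55466) (.N (.N (.L 106008928) (.L 105138014)) (.D
  70836)))) (.N (.N (.N (.N (.L 109611747) (.L 109611745)) (.D 55849)) (.D 55593)) (.N (.D 55466)
  (.N (.D 55468) (.N (.L 105138013) (.L 105138010)))))))) (.N (.N (.N (.N (.N (.N (.N (.L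
  109859941) (.D 23590)) (.N (.L 107092644) (.D 39974))) (.N (.N (.L 107096676) (.D 23590)) (.N
  (.L 107094882) (.D 70456)))) (.D 70449)) (.N (.N (.N (.N (.L 109157028) (.D 39974)) (.N (.L
  101816995) (.D 39974))) (.N (.N (.D 39212) (.L 101790560)) (.N (.D 39212) (.L 101500254)))) (.D
  70449))) (.N (.N (.N (.N (.N (.L 109161060) (.D 23590)) (.N (.D 23082) (.L 101532512))) (.N (.N
  (.L 101821027) (.D 23590)) (.N (.D 23082) (.L 101532510)))) (.D 70449)) (.N (.N (.N (.N (.L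
  109159266) (.D 54072)) (.N (.D 38196) (.L 101758302))) (.N (.N (.D 22066) (.L 101790558)) (.N
  (.L 101819230) (.L 101819228)))) (.D 70449)))) (.D 54057))) (.N (.N (.N (.N (.N (.N (.N (.N (.L
  109892645) (.D 7205)) (.N (.L 107350692) (.D 39973))) (.D 39205)) (.N (.N (.N (.L 107358756) (.D
  7205)) (.N (.L 107356514) (.D 70328))) (.D 70322))) (.N (.N (.N (.N (.L 109415076) (.D 39973))
  (.N (.L 103910051) (.D 39973))) (.D 39205)) (.N (.N (.N (.D 39084) (.L 103887200)) (.N (.D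
  39084) (.L 103564638))) (.D 70322)))) (.D 38181)) (.N (.N (.N (.N (.N (.N (.L 109423140) (.D
  7205)) (.N (.D 6697) (.L 103629152))) (.D 39205)) (.N (.N (.N (.L 103918115) (.D 7205)) (.N (.D
  6697) (.L 103629150))) (.D 70322))) (.N (.N (.N (.N (.L 109420898) (.D 53944)) (.N (.D 38068)
  (.L 103822686))) (.D 39205)) (.N (.N (.N (.D 5681) (.L 103887198)) (.N (.L 103915870) (.L
  103915868))) (.D 70322)))) (.D 53930))) (.N (.N (.N (.N (.N (.N (.N (.L 109873828) (.D 7205))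
  (.N (.L 108038819) (.D 39973))) (.D 39205)) (.N (.D 39078) (.N (.N (.L 108073312) (.D 7205)) (.N
  (.L 107234654) (.D 70328))))) (.N (.N (.N (.N (.L 109873827) (.D 39973)) (.N (.L 109873825) (.D
  39973))) (.D 39205)) (.N (.D 39078) (.N (.N (.D 39084) (.L 107234653)) (.N (.D 39084) (.L
  107234650)))))) (.D 38181)) (.N (.D 38054) (.N (.N (.N (.N (.N (.L 109908320) (.D 7205)) (.N (.D
  6697) (.L 109327709))) (.D 39205)) (.N (.D 39078) (.N (.N (.L 109908317) (.D 7205)) (.N (.D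
  6697) (.L 107514199))))) (.N (.N (.N (.N (.L 109327710) (.D 53944)) (.N (.D 38068) (.L
  109327706))) (.D 39205)) (.N (.D 39078) (.N (.N (.D 5681) (.L 109610839)) (.N (.L 109872471) (.L
  102905173)))))))))

def sx1 : CT :=
  .N (.N (.N (.N (.N (.N (.N (.N (.N (.L 109924901) (.D 7203)) (.D 6691)) (.N (.N (.L 107612772)
  (.D 23587)) (.D 23075))) (.N (.N (.N (.L 107616804) (.D 7203)) (.D 6691)) (.N (.N (.L 107614562)
  (.D 70072)) (.D 70068)))) (.D 5667)) (.N (.N (.N (.N (.N (.L 109677156) (.D 23587)) (.D 6691))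
  (.N (.N (.L 106007139) (.D 23587)) (.D 23075))) (.N (.N (.N (.D 22698) (.L 105951584)) (.D
  6691)) (.N (.N (.D 22698) (.L 105661278)) (.D 70068)))) (.D 22051))) (.N (.N (.N (.N (.N (.N (.L
  109681188) (.D 7203)) (.D 6691)) (.N (.N (.D 6441) (.L 105693536)) (.D 23075))) (.N (.N (.N (.L
  106011171) (.D 7203)) (.D 6691)) (.N (.N (.D 6441) (.L 105693534)) (.D 70068)))) (.D 5667)) (.N
  (.N (.N (.N (.N (.L 109678946) (.D 53688)) (.D 6691)) (.N (.N (.D 21682) (.L 105919326)) (.D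
  23075))) (.N (.N (.N (.D 5425) (.L 105951582)) (.D 6691)) (.N (.N (.L 106008926) (.L 106008924))
  (.D 70068)))) (.D 53676)))) (.N (.N (.N (.N (.N (.N (.N (.L 109906532) (.D 7203)) (.D 23075))
  (.N (.N (.L 108071523) (.D 23587)) (.D 23075))) (.N (.N (.D 22694) (.N (.L 108044640) (.D
  7203))) (.N (.D 22694) (.N (.L 107496286) (.D 70072))))) (.D 22051)) (.N (.N (.N (.N (.N (.L
  109906531) (.D 23587)) (.D 23075)) (.N (.N (.L 109906529) (.D 23587)) (.D 23075))) (.N (.N (.D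
  22694) (.N (.D 22698) (.L 107496285))) (.N (.D 22694) (.N (.D 22698) (.L 107496282))))) (.D
  22051))) (.N (.N (.D 21670) (.N (.N (.N (.N (.L 109879648) (.D 7203)) (.D 23075)) (.N (.N (.D
  6441) (.L 109589341)) (.D 23075))) (.N (.N (.D 22694) (.N (.L 109879645) (.D 7203))) (.N (.D
  22694) (.N (.D 6441) (.L 107284823)))))) (.N (.D 21670) (.N (.N (.N (.N (.L 109589342) (.D
  53688)) (.D 23075)) (.N (.N (.D 21682) (.L 109589338)) (.D 23075))) (.N (.N (.D 22694) (.N (.D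
  5425) (.L 109381463))) (.N (.D 22694) (.N (.L 109904727) (.L 105001813))))))))) (.N (.N (.N (.N
  (.N (.N (.N (.N (.L 109910564) (.D 7203)) (.D 6691)) (.N (.D 6437) (.N (.L 107528544) (.D
  23587)))) (.N (.N (.N (.L 108075555) (.D 7203)) (.D 6691)) (.N (.D 6437) (.N (.L 107528542) (.D
  70072))))) (.D 5667)) (.N (.D 5413) (.N (.N (.N (.N (.L 109621600) (.D 23587)) (.D 6691)) (.N
  (.D 6437) (.N (.L 109847389) (.D 23587)))) (.N (.N (.N (.D 22698) (.L 109621597)) (.D 6691)) (.N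
  (.D 6437) (.N (.D 22698) (.L 105220439))))))) (.N (.N (.N (.N (.N (.N (.L 109910563) (.D 7203))
  (.D 6691)) (.N (.D 6437) (.N (.D 6441) (.L 107528541)))) (.N (.N (.N (.L 109910561) (.D 7203))
  (.D 6691)) (.N (.D 6437) (.N (.D 6441) (.L 107528538))))) (.D 5667)) (.N (.D 5413) (.N (.N (.N
  (.N (.L 109621598) (.D 53688)) (.D 6691)) (.N (.D 6437) (.N (.D 21682) (.L 105252695)))) (.N (.N
  (.N (.D 5425) (.L 109621594)) (.D 6691)) (.N (.D 6437) (.N (.L 109908311) (.L 105263445))))))))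
  (.N (.N (.N (.N (.N (.N (.N (.L 109908322) (.D 7203)) (.D 37300)) (.N (.D 21170) (.N (.L
  108012382) (.D 23587)))) (.N (.N (.D 4913) (.N (.L 108044638) (.D 7203))) (.N (.N (.L 108073310)
  (.D 7205)) (.N (.L 108073308) (.D 70072))))) (.D 37292)) (.N (.D 21162) (.N (.N (.N (.N (.L
  109847390) (.D 23587)) (.D 37300)) (.N (.D 21170) (.N (.L 109847386) (.D 23587)))) (.N (.N (.D
  4913) (.N (.D 22698) (.L 109413719))) (.N (.N (.D 22698) (.L 109675351)) (.N (.D 22698) (.L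
  107094869))))))) (.N (.N (.D 4905) (.N (.N (.N (.N (.L 109879646) (.D 7203)) (.D 37300)) (.N (.D
  21170) (.N (.D 6441) (.L 107349335)))) (.N (.N (.D 4913) (.N (.L 109879642) (.D 7203))) (.N (.N
  (.D 6441) (.L 109678935)) (.N (.D 6441) (.L 107356501)))))) (.N (.N (.N (.N (.N (.L 109908318)
  (.D 7205)) (.D 37300)) (.N (.D 21170) (.N (.D 6697) (.L 107610967)))) (.N (.N (.D 4913) (.N (.D
  6697) (.L 107614551))) (.N (.N (.L 109908314) (.D 7205)) (.N (.D 6697) (.L 107614549))))) (.N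
  (.N (.N (.N (.L 109908316) (.D 53688)) (.D 37300)) (.N (.D 21170) (.N (.D 21682) (.L
  109159253)))) (.N (.N (.D 4913) (.N (.D 5425) (.L 109420885))) (.N (.N (.D 5681) (.L 109678933))
  (.N (.L 109908309) (.L 109908306)))))))))

def sx2 : CT :=
  .N (.N (.N (.N sx0 sx1) (.N (.N (.N (.N (.N (.N (.N (.N (.N (.N (.L 111429285) (.L 102934756))
  (.N (.L 102938788) (.L 102937890))) (.D 85554)) (.D 85553)) (.N (.N (.N (.N (.L 102942372) (.L
  102941922)) (.N (.L 102942370) (.L 102942367))) (.D 85554)) (.D 85553))) (.D 85546)) (.D 85545))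
  (.D 85542)) (.D 85541)) (.D 85539))) (.N (.N (.N (.N (.N (.N (.N (.N (.N (.N (.N (.L 111691365)
  (.L 105027812)) (.D 55834)) (.N (.N (.L 105035876) (.L 105034530)) (.D 85300))) (.D 85297)) (.D
  71194)) (.N (.N (.N (.N (.N (.L 105039460) (.L 105038562)) (.D 55834)) (.N (.N (.L 105039458)
  (.L 105039455)) (.D 85300))) (.D 85297)) (.D 85292))) (.D 85289)) (.D 85286)) (.D 85285)) (.D
  85283)) (.N (.N (.N (.N (.N (.N (.N (.N (.N (.N (.L 111220964) (.L 102045923)) (.D 55834)) (.N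
  (.D 55580) (.N (.L 102081312) (.L 101242654)))) (.D 85297)) (.D 71194)) (.N (.D 70940) (.N (.N
  (.N (.N (.L 102114016) (.L 101243102)) (.D 55834)) (.N (.D 55580) (.N (.L 101243099) (.L
  101243097)))) (.D 85297)))) (.D 85289)) (.D 85286)) (.D 85285)) (.D 85283)))) (.N (.N (.N (.N
  (.N (.N (.N (.N (.N (.N (.N (.N (.L 111724069) (.L 105285860)) (.D 55833)) (.D 55577)) (.N (.N
  (.N (.L 105297956) (.L 105296162)) (.D 85172)) (.D 85170))) (.D 71193)) (.D 70937)) (.N (.N (.N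
  (.N (.N (.N (.L 105301540) (.L 105300194)) (.D 55833)) (.D 55577)) (.N (.N (.N (.L 105301538)
  (.L 105301535)) (.D 85172)) (.D 85170))) (.D 85164)) (.D 85162))) (.D 85158)) (.D 85157)) (.D
  85155)) (.N (.N (.N (.N (.N (.N (.N (.N (.N (.N (.L 111479012) (.L 104138979)) (.D 55833)) (.D
  55577)) (.N (.N (.D 55452) (.N (.L 104177952) (.L 103307038))) (.D 85170))) (.D 71193)) (.D
  70937)) (.N (.N (.D 70812) (.N (.N (.N (.N (.L 104210656) (.L 103307486)) (.D 55833)) (.D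
  55577)) (.N (.N (.D 55452) (.N (.L 103307483) (.L 103307481))) (.D 85170)))) (.D 85162))) (.D
  85158)) (.D 85157)) (.D 85155))) (.N (.N (.N (.N (.N (.N (.N (.N (.N (.N (.N (.L 111708388) (.L
  106203363)) (.D 55833)) (.D 55577)) (.N (.D 55450) (.N (.N (.L 106271008) (.L 105142046)) (.D
  85172)))) (.D 71193)) (.D 70937)) (.N (.D 70810) (.N (.N (.N (.N (.N (.L 106303712) (.L
  105142494)) (.D 55833)) (.D 55577)) (.N (.D 55450) (.N (.N (.L 105142491) (.L 105142489)) (.D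
  85172)))) (.D 85164)))) (.D 85158)) (.D 85157)) (.D 85155)) (.N (.N (.N (.N (.N (.N (.N (.N (.N
  (.N (.L 111708387) (.L 111708385)) (.D 55833)) (.D 55577)) (.N (.D 55450) (.N (.D 55452) (.N (.L
  105142045) (.L 105142042))))) (.D 71193)) (.D 70937)) (.N (.D 70810) (.N (.D 70812) (.N (.N (.N
  (.N (.L 105142493) (.L 105142490)) (.D 55833)) (.D 55577)) (.N (.D 55450) (.N (.D 55452) (.N (.L
  105142484) (.L 105142480)))))))) (.D 85158)) (.D 85157)) (.D 85155))))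

def sx3 : CT :=
  .N (.N (.N (.N (.N (.N (.N (.N (.N (.N (.N (.N (.N (.N (.L 111985701) (.D 7189)) (.N (.L
  107382948) (.D 39957))) (.D 39189)) (.N (.N (.N (.L 107391012) (.D 7189)) (.N (.L 107389218) (.D
  84664))) (.D 84658))) (.D 71189)) (.D 70933)) (.D 70805)) (.D 70421)) (.N (.N (.N (.N (.N (.N
  (.N (.N (.L 107398180) (.D 7189)) (.N (.L 107397282) (.D 39957))) (.D 39189)) (.N (.N (.N (.L
  107398178) (.D 7189)) (.N (.L 107398175) (.D 84664))) (.D 84658))) (.D 84652)) (.D 38181)) (.D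
  84649)) (.D 84646))) (.D 84643)) (.N (.N (.N (.N (.N (.N (.N (.N (.N (.N (.L 111511716) (.D
  39957)) (.N (.L 104171683) (.D 39957))) (.D 39189)) (.N (.N (.N (.D 39068) (.L 104149280)) (.N
  (.D 39068) (.L 103568670))) (.D 84658))) (.D 71189)) (.D 70933)) (.D 70805)) (.D 70421)) (.N (.N
  (.N (.N (.D 70300) (.N (.N (.N (.N (.L 104214688) (.D 39957)) (.N (.L 103569566) (.D 39957)))
  (.D 39189)) (.N (.N (.N (.D 39068) (.L 103569563)) (.N (.D 39068) (.L 103569561))) (.D 84658))))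
  (.D 38181)) (.D 84649)) (.D 84646))) (.D 84643))) (.D 36117)) (.N (.N (.N (.N (.N (.N (.N (.N
  (.N (.N (.N (.N (.L 111519780) (.D 7189)) (.N (.D 6681) (.L 103633184))) (.D 39189)) (.N (.N (.N
  (.L 104179747) (.D 7189)) (.N (.D 6681) (.L 103633182))) (.D 84658))) (.D 71189)) (.D 70933))
  (.D 70805)) (.D 70421)) (.N (.N (.D 70297) (.N (.N (.N (.N (.N (.N (.L 104215584) (.D 7189)) (.N
  (.D 6681) (.L 103634971))) (.D 39189)) (.N (.N (.N (.L 103634974) (.D 7189)) (.N (.D 6681) (.L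
  103634969))) (.D 84658))) (.D 84652)) (.D 84650))) (.D 84646))) (.D 84643)) (.N (.N (.N (.N (.N
  (.N (.N (.N (.N (.N (.L 111517986) (.D 51896)) (.N (.D 36020) (.L 104084766))) (.D 39189)) (.N
  (.N (.N (.D 3633) (.L 104149278)) (.N (.L 104177950) (.L 104177948))) (.D 84658))) (.D 71189))
  (.D 70933)) (.D 70805)) (.D 70421)) (.N (.N (.D 70297) (.N (.N (.D 70300) (.N (.N (.N (.N (.L
  104215579) (.D 51896)) (.N (.D 36020) (.L 102942358))) (.D 39189)) (.N (.N (.N (.D 3633) (.L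
  103466518)) (.N (.L 103728150) (.L 103615251))) (.D 84658)))) (.D 84650))) (.D 84646))) (.D
  84643))) (.D 51866))) (.N (.N (.N (.N (.N (.N (.N (.N (.N (.N (.N (.N (.N (.L 111970468) (.D
  7189)) (.N (.L 108300451) (.D 39957))) (.D 39189)) (.N (.D 39062) (.N (.N (.L 108335392) (.D
  7189)) (.N (.L 107238686) (.D 84664))))) (.D 71189)) (.D 70933)) (.D 70805)) (.D 70421)) (.N (.D
  70294) (.N (.N (.N (.N (.N (.N (.N (.L 108400800) (.D 7189)) (.N (.L 107239582) (.D 39957))) (.D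
  39189)) (.N (.D 39062) (.N (.N (.L 107239579) (.D 7189)) (.N (.L 107239577) (.D 84664))))) (.D
  84652)) (.D 38181)) (.D 84649)))) (.D 84643)) (.N (.N (.N (.N (.N (.N (.N (.N (.N (.N (.L
  111970467) (.D 39957)) (.N (.L 111970465) (.D 39957))) (.D 39189)) (.N (.D 39062) (.N (.N (.D
  39068) (.L 107238685)) (.N (.D 39068) (.L 107238682))))) (.D 71189)) (.D 70933)) (.D 70805)) (.D
  70421)) (.N (.D 70294) (.N (.N (.N (.D 70300) (.N (.N (.N (.N (.L 107239581) (.D 39957)) (.N (.L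
  107239578) (.D 39957))) (.D 39189)) (.N (.D 39062) (.N (.N (.D 39068) (.L 107239572)) (.N (.D
  39068) (.L 107239568)))))) (.D 38181)) (.D 84649)))) (.D 84643))) (.D 36117)) (.N (.D 35990) (.N
  (.N (.N (.N (.N (.N (.N (.N (.N (.N (.N (.L 112005408) (.D 7189)) (.N (.D 6681) (.L 111424797)))
  (.D 39189)) (.N (.D 39062) (.N (.N (.L 112005405) (.D 7189)) (.N (.D 6681) (.L 107514647)))))
  (.D 71189)) (.D 70933)) (.D 70805)) (.D 70421)) (.N (.D 70294) (.N (.D 70297) (.N (.D 70298) (.N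
  (.N (.N (.N (.N (.L 112304664) (.D 7189)) (.N (.D 6681) (.L 102869777))) (.D 39189)) (.N (.D
  39062) (.N (.N (.L 107514641) (.D 7189)) (.N (.D 6681) (.L 107514637))))) (.D 84652)))))) (.D
  84643)) (.N (.N (.N (.N (.N (.N (.N (.N (.N (.N (.L 111424798) (.D 51896)) (.N (.D 36020) (.L
  111424794))) (.D 39189)) (.N (.D 39062) (.N (.N (.D 3633) (.L 111707927)) (.N (.L 111969559) (.L
  102937877))))) (.D 71189)) (.D 70933)) (.D 70805)) (.D 70421)) (.N (.D 70294) (.N (.D 70297) (.N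
  (.D 70298) (.N (.D 70300) (.N (.N (.N (.N (.L 102942353) (.D 51896)) (.N (.D 36020) (.L
  102942348))) (.D 39189)) (.N (.D 39062) (.N (.N (.D 3633) (.L 102841099)) (.N (.L 102869771) (.L
  102869770)))))))))) (.D 84643)))))

def sx4 : CT :=
  .N (.N (.N (.N (.N (.N (.N (.N (.N (.N (.N (.N (.N (.N (.L 112017957) (.D 7187)) (.D 6675)) (.N
  (.N (.L 107645028) (.D 23571)) (.D 23059))) (.N (.N (.N (.L 107649060) (.D 7187)) (.D 6675)) (.N
  (.N (.L 107647266) (.D 84408)) (.D 84404)))) (.D 71187)) (.D 70931)) (.D 70803)) (.D 70419)) (.D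
  70291)) (.N (.N (.N (.N (.N (.N (.N (.N (.N (.L 107659812) (.D 7187)) (.D 6675)) (.N (.N (.L
  107659362) (.D 23571)) (.D 23059))) (.N (.N (.N (.L 107659810) (.D 7187)) (.D 6675)) (.N (.N (.L
  107659807) (.D 84408)) (.D 84404)))) (.D 5667)) (.D 84394)) (.D 84393)) (.D 84390)) (.D 84389)))
  (.D 3603)) (.N (.N (.N (.N (.N (.N (.N (.N (.N (.N (.N (.L 111773796) (.D 23571)) (.D 6675)) (.N
  (.N (.L 106268771) (.D 23571)) (.D 23059))) (.N (.N (.N (.D 22682) (.L 106213664)) (.D 6675))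
  (.N (.N (.D 22682) (.L 105665310)) (.D 84404)))) (.D 71187)) (.D 70931)) (.D 70803)) (.D 70419))
  (.D 70291)) (.N (.N (.N (.N (.D 70042) (.N (.N (.N (.N (.N (.L 106311776) (.D 23571)) (.D 6675))
  (.N (.N (.L 105666654) (.D 23571)) (.D 23059))) (.N (.N (.N (.D 22682) (.L 105666651)) (.D
  6675)) (.N (.N (.D 22682) (.L 105666649)) (.D 84404)))) (.D 22051))) (.D 84393)) (.D 84390)) (.D
  84389))) (.D 19987))) (.N (.N (.N (.N (.N (.N (.N (.N (.N (.N (.N (.N (.L 111777828) (.D 7187))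
  (.D 6675)) (.N (.N (.D 6425) (.L 105697568)) (.D 23059))) (.N (.N (.N (.L 106272803) (.D 7187))
  (.D 6675)) (.N (.N (.D 6425) (.L 105697566)) (.D 84404)))) (.D 71187)) (.D 70931)) (.D 70803))
  (.D 70419)) (.D 70291)) (.N (.N (.N (.D 70041) (.N (.N (.N (.N (.N (.N (.L 106312224) (.D 7187))
  (.D 6675)) (.N (.N (.D 6425) (.L 105699355)) (.D 23059))) (.N (.N (.N (.L 105699358) (.D 7187))
  (.D 6675)) (.N (.N (.D 6425) (.L 105699353)) (.D 84404)))) (.D 5667)) (.D 84394))) (.D 84390))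
  (.D 84389))) (.D 3603)) (.N (.N (.N (.N (.N (.N (.N (.N (.N (.N (.N (.L 111776034) (.D 51640))
  (.D 6675)) (.N (.N (.D 19634) (.L 106181406)) (.D 23059))) (.N (.N (.N (.D 3377) (.L 106213662))
  (.D 6675)) (.N (.N (.L 106271006) (.L 106271004)) (.D 84404)))) (.D 71187)) (.D 70931)) (.D
  70803)) (.D 70419)) (.D 70291)) (.N (.N (.N (.D 70041) (.N (.D 70042) (.N (.N (.N (.N (.N (.L
  106312219) (.D 51640)) (.D 6675)) (.N (.N (.D 19634) (.L 105039446)) (.D 23059))) (.N (.N (.N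
  (.D 3377) (.L 105301526)) (.D 6675)) (.N (.N (.L 105824790) (.L 105679635)) (.D 84404)))) (.D
  84396)))) (.D 84390)) (.D 84389))) (.D 51612)))) (.N (.N (.N (.N (.N (.N (.N (.N (.N (.N (.N (.N
  (.N (.L 112003172) (.D 7187)) (.D 23059)) (.N (.N (.L 108333155) (.D 23571)) (.D 23059))) (.N
  (.N (.D 22678) (.N (.L 108306720) (.D 7187))) (.N (.D 22678) (.N (.L 107500318) (.D 84408)))))
  (.D 71187)) (.D 70931)) (.D 70803)) (.D 70419)) (.D 70291)) (.N (.N (.D 70038) (.N (.N (.N (.N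
  (.N (.N (.N (.L 108404832) (.D 7187)) (.D 23059)) (.N (.N (.L 107501662) (.D 23571)) (.D
  23059))) (.N (.N (.D 22678) (.N (.L 107501659) (.D 7187))) (.N (.D 22678) (.N (.L 107501657) (.D
  84408))))) (.D 22051)) (.D 84394)) (.D 84393))) (.D 84389))) (.D 19987)) (.N (.N (.N (.N (.N (.N
  (.N (.N (.N (.N (.N (.L 112003171) (.D 23571)) (.D 23059)) (.N (.N (.L 112003169) (.D 23571))
  (.D 23059))) (.N (.N (.D 22678) (.N (.D 22682) (.L 107500317))) (.N (.D 22678) (.N (.D 22682)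
  (.L 107500314))))) (.D 71187)) (.D 70931)) (.D 70803)) (.D 70419)) (.D 70291)) (.N (.N (.D
  70038) (.N (.N (.D 70042) (.N (.N (.N (.N (.N (.L 107501661) (.D 23571)) (.D 23059)) (.N (.N (.L
  107501658) (.D 23571)) (.D 23059))) (.N (.N (.D 22678) (.N (.D 22682) (.L 107501652))) (.N (.D
  22678) (.N (.D 22682) (.L 107501648))))) (.D 22051))) (.D 84393))) (.D 84389))) (.D 19987))) (.N
  (.N (.D 19606) (.N (.N (.N (.N (.N (.N (.N (.N (.N (.N (.L 111976736) (.D 7187)) (.D 23059)) (.N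
  (.N (.D 6425) (.L 111686429)) (.D 23059))) (.N (.N (.D 22678) (.N (.L 111976733) (.D 7187))) (.N
  (.D 22678) (.N (.D 6425) (.L 107285271))))) (.D 71187)) (.D 70931)) (.D 70803)) (.D 70419)) (.D
  70291)) (.N (.N (.D 70038) (.N (.D 70041) (.N (.N (.D 70044) (.N (.N (.N (.N (.L 112301080) (.D
  7187)) (.D 23059)) (.N (.N (.D 6425) (.L 104962833)) (.D 23059))) (.N (.N (.D 22678) (.N (.L
  107285265) (.D 7187))) (.N (.D 22678) (.N (.D 6425) (.L 107285261)))))) (.D 84394)))) (.D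
  84389)))) (.N (.D 19606) (.N (.N (.N (.N (.N (.N (.N (.N (.N (.N (.L 111686430) (.D 51640)) (.D
  23059)) (.N (.N (.D 19634) (.L 111686426)) (.D 23059))) (.N (.N (.D 22678) (.N (.D 3377) (.L
  111478551))) (.N (.D 22678) (.N (.L 112001815) (.L 105034517))))) (.D 71187)) (.D 70931)) (.D
  70803)) (.D 70419)) (.D 70291)) (.N (.N (.D 70038) (.N (.D 70041) (.N (.D 70042) (.N (.D 70044)
  (.N (.N (.N (.N (.L 105039441) (.D 51640)) (.D 23059)) (.N (.N (.D 19634) (.L 105039436)) (.D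
  23059))) (.N (.N (.D 22678) (.N (.D 3377) (.L 104905483))) (.N (.D 22678) (.N (.L 104962827) (.L
  104962826))))))))) (.D 84389))))))

def sx5 : CT :=
  .N (.N (.N (.N (.N (.N (.N (.N (.N (.N (.N (.N (.N (.L 112005410) (.D 7187)) (.D 35252)) (.N (.D
  19122) (.N (.L 108274462) (.D 23571)))) (.N (.N (.D 2865) (.N (.L 108306718) (.D 7187))) (.N (.N
  (.L 108335390) (.D 7189)) (.N (.L 108335388) (.D 84408))))) (.D 71187)) (.D 70931)) (.D 70803))
  (.D 70419)) (.D 70291)) (.N (.D 70037) (.N (.D 70038) (.N (.N (.N (.N (.N (.N (.N (.L 108405275)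
  (.D 7187)) (.D 35252)) (.N (.D 19122) (.N (.L 107136086) (.D 23571)))) (.N (.N (.D 2865) (.N (.L
  107398166) (.D 7187))) (.N (.N (.L 107659798) (.D 7189)) (.N (.L 107514643) (.D 84408))))) (.D
  84396)) (.D 84394)) (.D 84393))))) (.D 35228)) (.N (.D 19098) (.N (.N (.N (.N (.N (.N (.N (.N
  (.N (.N (.L 111944478) (.D 23571)) (.D 35252)) (.N (.D 19122) (.N (.L 111944474) (.D 23571))))
  (.N (.N (.D 2865) (.N (.D 22682) (.L 111510807))) (.N (.N (.D 22682) (.L 111772439)) (.N (.D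
  22682) (.L 107127573))))) (.D 71187)) (.D 70931)) (.D 70803)) (.D 70419)) (.D 70291)) (.N (.D
  70037) (.N (.D 70038) (.N (.N (.D 70042) (.N (.D 70044) (.N (.N (.N (.N (.L 107136081) (.D
  23571)) (.D 35252)) (.N (.D 19122) (.N (.L 107136076) (.D 23571)))) (.N (.N (.D 2865) (.N (.D
  22682) (.L 106998539))) (.N (.N (.D 22682) (.L 107027211)) (.N (.D 22682) (.L 107027210)))))))
  (.D 84393))))))) (.N (.N (.D 2841) (.N (.N (.N (.N (.N (.N (.N (.N (.N (.N (.L 111976734) (.D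
  7187)) (.D 35252)) (.N (.D 19122) (.N (.D 6425) (.L 107382039)))) (.N (.N (.D 2865) (.N (.L
  111976730) (.D 7187))) (.N (.N (.D 6425) (.L 111776023)) (.N (.D 6425) (.L 107389205))))) (.D
  71187)) (.D 70931)) (.D 70803)) (.D 70419)) (.D 70291)) (.N (.D 70037) (.N (.D 70038) (.N (.D
  70041) (.N (.N (.D 70044) (.N (.N (.N (.N (.L 107398161) (.D 7187)) (.D 35252)) (.N (.D 19122)
  (.N (.D 6425) (.L 107227915)))) (.N (.N (.D 2865) (.N (.L 107398156) (.D 7187))) (.N (.N (.D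
  6425) (.L 107285259)) (.N (.D 6425) (.L 107285258)))))) (.D 84394))))))) (.N (.N (.N (.N (.N (.N
  (.N (.N (.N (.N (.N (.L 112005406) (.D 7189)) (.D 35252)) (.N (.D 19122) (.N (.D 6681) (.L
  107643671)))) (.N (.N (.D 2865) (.N (.D 6681) (.L 107647255))) (.N (.N (.L 112005402) (.D 7189))
  (.N (.D 6681) (.L 107647253))))) (.D 71187)) (.D 70931)) (.D 70803)) (.D 70419)) (.D 70291)) (.N
  (.D 70037) (.N (.D 70038) (.N (.D 70041) (.N (.D 70042) (.N (.N (.N (.N (.N (.L 107659793) (.D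
  7189)) (.D 35252)) (.N (.D 19122) (.N (.D 6681) (.L 107485963)))) (.N (.N (.D 2865) (.N (.D
  6681) (.L 107514635))) (.N (.N (.L 107659788) (.D 7189)) (.N (.D 6681) (.L 107514634))))) (.D
  84396))))))) (.N (.N (.N (.N (.N (.N (.N (.N (.N (.N (.L 112005404) (.D 51640)) (.D 35252)) (.N
  (.D 19122) (.N (.D 19634) (.L 111256341)))) (.N (.N (.D 2865) (.N (.D 3377) (.L 111517973))) (.N
  (.N (.D 3633) (.L 111776021)) (.N (.L 112005397) (.L 112005394))))) (.D 71187)) (.D 70931)) (.D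
  70803)) (.D 70419)) (.D 70291)) (.N (.D 70037) (.N (.D 70038) (.N (.D 70041) (.N (.D 70042) (.N
  (.D 70044) (.N (.N (.N (.N (.L 112304654) (.D 51640)) (.D 35252)) (.N (.D 19122) (.N (.D 19634)
  (.L 101522185)))) (.N (.N (.D 2865) (.N (.D 3377) (.L 103615241))) (.N (.N (.D 3633) (.L
  105679625)) (.N (.L 107514633) (.L 107514630)))))))))))))

def sx6 : CT :=
  .N (.N (.N sx2 (.N (.N (.N (.N (.N (.N (.N (.N (.N (.N (.N (.N (.N (.L 111952997) (.D 23574))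
  (.N (.L 107124900) (.D 39958))) (.N (.N (.L 107128932) (.D 23574)) (.N (.L 107127586) (.D
  84792)))) (.D 84785)) (.D 71190)) (.D 70934)) (.D 70806)) (.N (.N (.N (.N (.N (.N (.N (.L
  107136100) (.D 23574)) (.N (.L 107135650) (.D 39958))) (.N (.N (.L 107136098) (.D 23574)) (.N
  (.L 107136095) (.D 84792)))) (.D 84785)) (.D 84780)) (.D 84778)) (.D 84777))) (.D 84773)) (.D
  84771)) (.N (.N (.N (.N (.N (.N (.N (.N (.N (.N (.L 111253668) (.D 39958)) (.N (.L 102078627)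
  (.D 39958))) (.N (.N (.D 39196) (.L 102052640)) (.N (.D 39196) (.L 101504286)))) (.D 84785)) (.D
  71190)) (.D 70934)) (.D 70806)) (.N (.N (.N (.D 70428) (.N (.N (.N (.N (.L 102118048) (.D
  39958)) (.N (.L 101505182) (.D 39958))) (.N (.N (.D 39196) (.L 101505179)) (.N (.D 39196) (.L
  101505177)))) (.D 84785))) (.D 84778)) (.D 84777))) (.D 84773)) (.D 84771))) (.N (.N (.N (.N (.N
  (.N (.N (.N (.N (.N (.N (.L 111257700) (.D 23574)) (.N (.D 23066) (.L 101536544))) (.N (.N (.L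
  102082659) (.D 23574)) (.N (.D 23066) (.L 101536542)))) (.D 84785)) (.D 71190)) (.D 70934)) (.D
  70806)) (.N (.N (.D 70426) (.N (.N (.N (.N (.N (.L 102118496) (.D 23574)) (.N (.D 23066) (.L
  101537883))) (.N (.N (.L 101537886) (.D 23574)) (.N (.D 23066) (.L 101537881)))) (.D 84785)) (.D
  84780))) (.D 84777))) (.D 84773)) (.D 84771)) (.N (.N (.N (.N (.N (.N (.N (.N (.N (.N (.L
  111256354) (.D 52024)) (.N (.D 36148) (.L 102020382))) (.N (.N (.D 20018) (.L 102052638)) (.N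
  (.L 102081310) (.L 102081308)))) (.D 84785)) (.D 71190)) (.D 70934)) (.D 70806)) (.N (.N (.D
  70426) (.N (.D 70428) (.N (.N (.N (.N (.L 102118491) (.D 52024)) (.N (.D 36148) (.L 101107350)))
  (.N (.N (.D 20018) (.L 101369430)) (.N (.L 101631062) (.L 101522195)))) (.D 84785)))) (.D
  84777))) (.D 84773)) (.D 84771)))) (.D 51993))) sx3) (.N sx4 (.N (.N (.N (.N (.N (.N (.N (.N (.N
  (.N (.N (.N (.N (.N (.L 112007204) (.D 7187)) (.D 6675)) (.N (.D 6421) (.N (.L 107532576) (.D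
  23571)))) (.N (.N (.N (.L 108337187) (.D 7187)) (.D 6675)) (.N (.D 6421) (.N (.L 107532574) (.D
  84408))))) (.D 71187)) (.D 70931)) (.D 70803)) (.D 70419)) (.D 70291)) (.N (.D 70037) (.N (.N
  (.N (.N (.N (.N (.N (.N (.L 108405280) (.D 7187)) (.D 6675)) (.N (.D 6421) (.N (.L 107534363)
  (.D 23571)))) (.N (.N (.N (.L 107534366) (.D 7187)) (.D 6675)) (.N (.D 6421) (.N (.L 107534361)
  (.D 84408))))) (.D 5667)) (.D 84394)) (.D 84393)) (.D 84390)))) (.D 3603)) (.N (.D 3349) (.N (.N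
  (.N (.N (.N (.N (.N (.N (.N (.N (.L 111718688) (.D 23571)) (.D 6675)) (.N (.D 6421) (.N (.L
  111944477) (.D 23571)))) (.N (.N (.N (.D 22682) (.L 111718685)) (.D 6675)) (.N (.D 6421) (.N (.D
  22682) (.L 105220887))))) (.D 71187)) (.D 70931)) (.D 70803)) (.D 70419)) (.D 70291)) (.N (.D
  70037) (.N (.N (.N (.D 70042) (.N (.D 70044) (.N (.N (.N (.N (.L 112268824) (.D 23571)) (.D
  6675)) (.N (.D 6421) (.N (.L 107027217) (.D 23571)))) (.N (.N (.N (.D 22682) (.L 105220881)) (.D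
  6675)) (.N (.D 6421) (.N (.D 22682) (.L 105220877))))))) (.D 84393)) (.D 84390)))))) (.N (.N (.N
  (.N (.N (.N (.N (.N (.N (.N (.N (.N (.L 112007203) (.D 7187)) (.D 6675)) (.N (.D 6421) (.N (.D
  6425) (.L 107532573)))) (.N (.N (.N (.L 112007201) (.D 7187)) (.D 6675)) (.N (.D 6421) (.N (.D
  6425) (.L 107532570))))) (.D 71187)) (.D 70931)) (.D 70803)) (.D 70419)) (.D 70291)) (.N (.D
  70037) (.N (.N (.D 70041) (.N (.N (.N (.N (.N (.N (.L 107534365) (.D 7187)) (.D 6675)) (.N (.D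
  6421) (.N (.D 6425) (.L 107534356)))) (.N (.N (.N (.L 107534362) (.D 7187)) (.D 6675)) (.N (.D
  6421) (.N (.D 6425) (.L 107534352))))) (.D 5667)) (.D 84394))) (.D 84390)))) (.D 3603)) (.N (.D
  3349) (.N (.N (.N (.N (.N (.N (.N (.N (.N (.N (.L 111718686) (.D 51640)) (.D 6675)) (.N (.D
  6421) (.N (.D 19634) (.L 105285399)))) (.N (.N (.N (.D 3377) (.L 111718682)) (.D 6675)) (.N (.D
  6421) (.N (.L 112005399) (.L 105296149))))) (.D 71187)) (.D 70931)) (.D 70803)) (.D 70419)) (.D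
  70291)) (.N (.D 70037) (.N (.N (.D 70041) (.N (.D 70042) (.N (.D 70044) (.N (.N (.N (.N (.L
  105301521) (.D 51640)) (.D 6675)) (.N (.D 6421) (.N (.D 19634) (.L 105134859)))) (.N (.N (.N (.D
  3377) (.L 105301516)) (.D 6675)) (.N (.D 6421) (.N (.L 105220875) (.L 105220874)))))))) (.D
  84390))))))) sx5))

def sx7 : CT :=
  .N (.N (.N (.N (.N (.N (.N (.N (.N (.N (.N (.N (.L 112211045) (.D 23566)) (.D 23054)) (.D
  39182)) (.D 22670)) (.N (.N (.N (.N (.L 109221540) (.D 39950)) (.D 55822)) (.D 39182)) (.D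
  39054))) (.N (.N (.N (.N (.N (.L 109225572) (.D 23566)) (.D 23054)) (.D 55566)) (.D 22670)) (.N
  (.N (.N (.N (.L 109224674) (.D 83768)) (.D 55822)) (.D 55566)) (.D 55438)))) (.D 83753)) (.N (.N
  (.N (.N (.N (.N (.N (.L 109229156) (.D 23566)) (.D 23054)) (.D 39182)) (.D 22670)) (.N (.N (.N
  (.N (.L 109228706) (.D 39950)) (.D 83764)) (.D 39182)) (.D 39054))) (.N (.N (.N (.N (.N (.L
  109229154) (.D 23566)) (.D 23054)) (.D 83762)) (.D 22670)) (.N (.N (.N (.N (.L 109229151) (.D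
  83768)) (.D 83764)) (.D 83762)) (.D 67377)))) (.D 83753))) (.D 83749)) (.D 83747)) (.N (.N (.N
  (.N (.N (.N (.N (.N (.N (.N (.L 111285924) (.D 39950)) (.D 55822)) (.D 39182)) (.D 39054)) (.N
  (.N (.N (.N (.L 102110883) (.D 39950)) (.D 55822)) (.D 39182)) (.D 39054))) (.N (.N (.N (.N (.N
  (.D 38172) (.L 102056672)) (.D 55822)) (.D 55566)) (.D 55438)) (.N (.N (.N (.N (.D 38172) (.L
  101766366)) (.D 55822)) (.D 55566)) (.D 55438)))) (.D 83753)) (.N (.N (.N (.N (.N (.N (.D 54044)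
  (.N (.L 102089376) (.D 39950))) (.D 39182)) (.D 39054)) (.N (.N (.N (.D 54044) (.N (.L
  101766814) (.D 39950))) (.D 39182)) (.D 39054))) (.N (.N (.N (.N (.D 54044) (.N (.D 38172) (.L
  101766811))) (.D 83762)) (.D 67377)) (.N (.N (.N (.D 54044) (.N (.D 38172) (.L 101766809))) (.D
  83762)) (.D 67377)))) (.D 83753))) (.D 83749)) (.D 83747))) (.N (.N (.N (.N (.N (.N (.N (.N (.N
  (.N (.N (.L 111289956) (.D 23566)) (.D 23054)) (.D 55566)) (.D 22670)) (.N (.N (.N (.N (.D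
  22042) (.L 101798624)) (.D 55822)) (.D 55566)) (.D 55438))) (.N (.N (.N (.N (.N (.L 102114915)
  (.D 23566)) (.D 23054)) (.D 55566)) (.D 22670)) (.N (.N (.N (.N (.D 22042) (.L 101798622)) (.D
  55822)) (.D 55566)) (.D 55438)))) (.D 83753)) (.N (.N (.N (.N (.N (.D 54042) (.N (.N (.L
  102089824) (.D 23566)) (.D 23054))) (.D 22670)) (.N (.N (.D 54042) (.N (.N (.D 22042) (.L
  101799515)) (.D 83764))) (.D 67377))) (.N (.N (.N (.D 54042) (.N (.N (.L 101799518) (.D 23566))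
  (.D 23054))) (.D 22670)) (.N (.N (.D 54042) (.N (.N (.D 22042) (.L 101799513)) (.D 83764))) (.D
  67377)))) (.D 83753))) (.D 83749)) (.D 83747)) (.N (.N (.N (.N (.N (.N (.N (.N (.N (.N (.L
  111289058) (.D 67384)) (.D 55822)) (.D 55566)) (.D 55438)) (.N (.N (.N (.N (.D 36140) (.L
  102024414)) (.D 55822)) (.D 55566)) (.D 55438))) (.N (.N (.N (.N (.N (.D 20010) (.L 102056670))
  (.D 55822)) (.D 55566)) (.D 55438)) (.N (.N (.N (.N (.L 102114014) (.L 102114012)) (.D 55822))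
  (.D 55566)) (.D 55438)))) (.D 83753)) (.N (.N (.N (.N (.N (.D 54042) (.N (.D 54044) (.N (.L
  102089819) (.D 67384)))) (.D 67377)) (.N (.N (.D 54042) (.N (.D 54044) (.N (.D 36140) (.L
  101103766)))) (.D 67377))) (.N (.N (.N (.D 54042) (.N (.D 54044) (.N (.D 20010) (.L
  101365846)))) (.D 67377)) (.N (.N (.D 54042) (.N (.D 54044) (.N (.L 101889110) (.L 101784275))))
  (.D 67377)))) (.D 83753))) (.D 83749)) (.D 83747)))

def sx8 : CT :=
  .N (.N (.N (.N (.N (.N (.N (.N (.N (.N (.N (.N (.L 111293540) (.D 23566)) (.D 23054)) (.D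
  39182)) (.D 22670)) (.N (.N (.N (.D 22038) (.N (.L 101831328) (.D 39950))) (.D 39182)) (.D
  39054))) (.N (.N (.N (.D 38166) (.N (.N (.L 101831776) (.D 23566)) (.D 23054))) (.D 22670)) (.N
  (.N (.D 38166) (.N (.D 22038) (.N (.L 101831771) (.D 83768)))) (.D 67377)))) (.D 83753)) (.N (.N
  (.N (.N (.N (.N (.N (.L 102118499) (.D 23566)) (.D 23054)) (.D 39182)) (.D 22670)) (.N (.N (.N
  (.D 22038) (.N (.L 101831326) (.D 39950))) (.D 39182)) (.D 39054))) (.N (.N (.N (.D 38166) (.N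
  (.N (.L 101831774) (.D 23566)) (.D 23054))) (.D 22670)) (.N (.N (.D 38166) (.N (.D 22038) (.N
  (.L 101831769) (.D 83768)))) (.D 67377)))) (.D 83753))) (.D 83749)) (.D 83747)) (.N (.N (.N (.N
  (.N (.N (.N (.N (.N (.N (.L 111293090) (.D 39950)) (.D 67380)) (.D 39182)) (.D 39054)) (.N (.N
  (.N (.D 52012) (.N (.L 102024862) (.D 39950))) (.D 39182)) (.D 39054))) (.N (.N (.N (.D 38166)
  (.N (.N (.D 38172) (.L 102057563)) (.D 67380))) (.D 67377)) (.N (.N (.D 38166) (.N (.D 52012)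
  (.N (.D 38172) (.L 101071510)))) (.D 67377)))) (.D 83753)) (.N (.N (.N (.N (.N (.N (.D 20006)
  (.N (.L 102089374) (.D 39950))) (.D 39182)) (.D 39054)) (.N (.N (.N (.N (.L 102118046) (.D
  39950)) (.N (.L 102118044) (.D 39950))) (.D 39182)) (.D 39054))) (.N (.N (.N (.D 38166) (.N (.D
  20006) (.N (.D 38172) (.L 101623894)))) (.D 67377)) (.N (.N (.D 38166) (.N (.N (.D 38172) (.L
  101885526)) (.N (.D 38172) (.L 101816979)))) (.D 67377)))) (.D 83753))) (.D 83749)) (.D 83747)))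
  (.N (.N (.N (.N (.N (.N (.N (.N (.N (.N (.N (.L 111293538) (.D 23566)) (.D 23054)) (.D 67378))
  (.D 22670)) (.N (.N (.N (.D 22038) (.N (.D 22042) (.L 102024859))) (.D 67378)) (.D 67377))) (.N
  (.N (.N (.D 52010) (.N (.N (.L 102057566) (.D 23566)) (.D 23054))) (.D 22670)) (.N (.N (.D
  52010) (.N (.D 22038) (.N (.D 22042) (.L 101333590)))) (.D 67377)))) (.D 83753)) (.N (.N (.N (.N
  (.N (.D 36134) (.N (.N (.L 102089822) (.D 23566)) (.D 23054))) (.D 22670)) (.N (.N (.D 36134)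
  (.N (.D 22038) (.N (.D 22042) (.L 101591638)))) (.D 67377))) (.N (.N (.N (.N (.N (.L 102118494)
  (.D 23566)) (.D 23054)) (.N (.N (.L 102118492) (.D 23566)) (.D 23054))) (.D 22670)) (.N (.N (.N
  (.D 22038) (.N (.D 22042) (.L 101821014))) (.N (.D 22038) (.N (.D 22042) (.L 101821011)))) (.D
  67377)))) (.D 83753))) (.D 83749)) (.D 83747)) (.N (.N (.N (.N (.N (.N (.N (.N (.N (.N (.L
  111293535) (.D 67384)) (.D 67380)) (.D 67378)) (.D 67377)) (.N (.N (.N (.D 52012) (.N (.D 36140)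
  (.L 102024857))) (.D 67378)) (.D 67377))) (.N (.N (.N (.D 52010) (.N (.N (.D 20010) (.L
  102057561)) (.D 67380))) (.D 67377)) (.N (.N (.D 52010) (.N (.D 52012) (.N (.L 102118486) (.L
  102045907)))) (.D 67377)))) (.D 83753)) (.N (.N (.N (.N (.N (.D 36134) (.N (.D 20006) (.N (.L
  102089817) (.D 67384)))) (.D 67377)) (.N (.N (.D 36134) (.N (.N (.D 36140) (.L 102114902)) (.N
  (.D 36140) (.L 102078611)))) (.D 67377))) (.N (.N (.N (.N (.D 20006) (.N (.D 20010) (.L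
  102082646))) (.N (.D 20006) (.N (.D 20010) (.L 102082643)))) (.D 67377)) (.N (.N (.N (.N (.L
  102118489) (.D 52024)) (.N (.D 36148) (.L 102110867))) (.N (.N (.D 20018) (.L 102114899)) (.N
  (.L 102118483) (.L 102118479)))) (.D 67377)))) (.D 83753))) (.D 83749)) (.D 83747)))

def sx9 : CT :=
  .N (.N (.N (.N (.N (.N (.N (.N (.N (.N (.N (.N (.N (.L 112243749) (.D 7181)) (.D 6669)) (.D
  6413)) (.D 39053)) (.N (.N (.N (.N (.L 109479588) (.D 39949)) (.D 55821)) (.D 39181)) (.D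
  39053))) (.D 38157)) (.N (.N (.N (.N (.N (.N (.L 109487652) (.D 7181)) (.D 6669)) (.D 6413)) (.D
  55437)) (.N (.N (.N (.N (.L 109486306) (.D 83640)) (.D 55821)) (.D 55565)) (.D 55437))) (.D
  83626))) (.D 54029)) (.N (.N (.N (.N (.N (.N (.N (.N (.L 109491236) (.D 7181)) (.D 6669)) (.D
  6413)) (.D 39053)) (.N (.N (.N (.N (.L 109490338) (.D 39949)) (.D 83636)) (.D 39181)) (.D
  39053))) (.D 38157)) (.N (.N (.N (.N (.N (.N (.L 109491234) (.D 7181)) (.D 6669)) (.D 6413)) (.D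
  83633)) (.N (.N (.N (.N (.L 109491231) (.D 83640)) (.D 83636)) (.D 39205)) (.D 83633))) (.D
  83626))) (.D 83622))) (.D 83619)) (.N (.N (.N (.N (.N (.N (.N (.N (.N (.N (.L 111543972) (.D
  39949)) (.D 55821)) (.D 39181)) (.D 39053)) (.N (.N (.N (.N (.L 104203939) (.D 39949)) (.D
  55821)) (.D 39181)) (.D 39053))) (.D 38157)) (.N (.N (.N (.N (.N (.N (.D 38044) (.L 104153312))
  (.D 55821)) (.D 55565)) (.D 55437)) (.N (.N (.N (.N (.D 38044) (.L 103830750)) (.D 55821)) (.D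
  55565)) (.D 55437))) (.D 83626))) (.D 54029)) (.N (.N (.N (.N (.N (.N (.N (.D 53916) (.N (.L
  104186016) (.D 39949))) (.D 39181)) (.D 39053)) (.N (.N (.N (.D 53916) (.N (.L 103831198) (.D
  39949))) (.D 39181)) (.D 39053))) (.D 38157)) (.N (.N (.N (.N (.N (.D 53916) (.N (.D 38044) (.L
  103831195))) (.D 39205)) (.D 83633)) (.N (.N (.N (.D 53916) (.N (.D 38044) (.L 103831193))) (.D
  39205)) (.D 83633))) (.D 83626))) (.D 83622))) (.D 83619))) (.D 36109)) (.N (.N (.N (.N (.N (.N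
  (.N (.N (.N (.N (.N (.N (.L 111552036) (.D 7181)) (.D 6669)) (.D 6413)) (.D 55437)) (.N (.N (.N
  (.N (.D 5657) (.L 103895264)) (.D 55821)) (.D 55565)) (.D 55437))) (.D 38157)) (.N (.N (.N (.N
  (.N (.N (.L 104212003) (.D 7181)) (.D 6669)) (.D 6413)) (.D 55437)) (.N (.N (.N (.N (.D 5657)
  (.L 103895262)) (.D 55821)) (.D 55565)) (.D 55437))) (.D 83626))) (.D 54029)) (.N (.N (.N (.N
  (.N (.D 53913) (.N (.N (.N (.L 104186912) (.D 7181)) (.D 6669)) (.D 6413))) (.N (.D 53913) (.N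
  (.N (.N (.D 5657) (.L 103896603)) (.D 83636)) (.D 67250)))) (.D 38157)) (.N (.N (.N (.D 53913)
  (.N (.N (.N (.L 103896606) (.D 7181)) (.D 6669)) (.D 6413))) (.N (.D 53913) (.N (.N (.N (.D
  5657) (.L 103896601)) (.D 83636)) (.D 67250)))) (.D 83626))) (.D 83622))) (.D 83619)) (.N (.N
  (.N (.N (.N (.N (.N (.N (.N (.N (.L 111550690) (.D 67256)) (.D 55821)) (.D 55565)) (.D 55437))
  (.N (.N (.N (.N (.D 36012) (.L 104088798)) (.D 55821)) (.D 55565)) (.D 55437))) (.D 38157)) (.N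
  (.N (.N (.N (.N (.N (.D 3625) (.L 104153310)) (.D 55821)) (.D 55565)) (.D 55437)) (.N (.N (.N
  (.N (.L 104210654) (.L 104210652)) (.D 55821)) (.D 55565)) (.D 55437))) (.D 83626))) (.D 54029))
  (.N (.N (.N (.N (.N (.D 53913) (.N (.N (.D 53916) (.N (.L 104186907) (.D 67256))) (.D 67250)))
  (.N (.D 53913) (.N (.N (.D 53916) (.N (.D 36012) (.L 102938774))) (.D 67250)))) (.D 38157)) (.N
  (.N (.N (.D 53913) (.N (.N (.D 53916) (.N (.D 3625) (.L 103462934))) (.D 67250))) (.N (.D 53913)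
  (.N (.N (.D 53916) (.N (.L 103986198) (.L 103877331))) (.D 67250)))) (.D 83626))) (.D 83622)))
  (.D 83619))) (.D 67226))

def sx10 : CT :=
  .N (.N (.N (.N (.N (.N (.N (.N (.N (.N (.N (.N (.N (.L 111555620) (.D 7181)) (.D 6669)) (.D
  6413)) (.D 39053)) (.N (.N (.N (.D 5653) (.N (.L 103927968) (.D 39949))) (.D 39181)) (.D
  39053))) (.D 38157)) (.N (.N (.N (.D 38037) (.N (.N (.N (.L 103928864) (.D 7181)) (.D 6669)) (.D
  6413))) (.N (.D 38037) (.N (.N (.D 5653) (.N (.L 103928859) (.D 83640))) (.D 67250)))) (.D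
  83626))) (.D 54029)) (.N (.N (.N (.N (.N (.N (.N (.N (.L 104215587) (.D 7181)) (.D 6669)) (.D
  6413)) (.D 39053)) (.N (.N (.N (.D 5653) (.N (.L 103927966) (.D 39949))) (.D 39181)) (.D
  39053))) (.D 38157)) (.N (.N (.N (.D 38037) (.N (.N (.N (.L 103928862) (.D 7181)) (.D 6669)) (.D
  6413))) (.N (.D 38037) (.N (.N (.D 5653) (.N (.L 103928857) (.D 83640))) (.D 67250)))) (.D
  83626))) (.D 83622))) (.D 83619)) (.N (.N (.N (.N (.N (.N (.N (.N (.N (.N (.L 111554722) (.D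
  39949)) (.D 67252)) (.D 39181)) (.D 39053)) (.N (.N (.N (.D 51884) (.N (.L 104089246) (.D
  39949))) (.D 39181)) (.D 39053))) (.D 38157)) (.N (.N (.N (.D 38037) (.N (.N (.N (.D 38044) (.L
  104154651)) (.D 67252)) (.D 67250))) (.N (.D 38037) (.N (.N (.D 51884) (.N (.D 38044) (.L
  102906518))) (.D 67250)))) (.D 83626))) (.D 54029)) (.N (.N (.N (.N (.N (.N (.N (.D 3621) (.N
  (.L 104186014) (.D 39949))) (.D 39181)) (.D 39053)) (.N (.N (.N (.N (.L 104214686) (.D 39949))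
  (.N (.L 104214684) (.D 39949))) (.D 39181)) (.D 39053))) (.D 38157)) (.N (.N (.N (.D 38037) (.N
  (.N (.D 3621) (.N (.D 38044) (.L 103720982))) (.D 67250))) (.N (.D 38037) (.N (.N (.N (.D 38044)
  (.L 103982614)) (.N (.D 38044) (.L 103910035))) (.D 67250)))) (.D 83626))) (.D 83622))) (.D
  83619))) (.D 36109)) (.N (.N (.N (.N (.N (.N (.N (.N (.N (.N (.N (.N (.L 111555618) (.D 7181))
  (.D 6669)) (.D 6413)) (.D 67249)) (.N (.N (.N (.D 5653) (.N (.D 5657) (.L 104089243))) (.D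
  39189)) (.D 67249))) (.D 38157)) (.N (.N (.N (.D 51881) (.N (.N (.N (.L 104154654) (.D 7181))
  (.D 6669)) (.D 6413))) (.N (.D 51881) (.N (.N (.D 5653) (.N (.D 5657) (.L 103430678))) (.D
  67250)))) (.D 83626))) (.D 54029)) (.N (.N (.N (.N (.N (.D 36005) (.N (.N (.N (.L 104186910) (.D
  7181)) (.D 6669)) (.D 6413))) (.N (.D 36005) (.N (.N (.D 5653) (.N (.D 5657) (.L 103688726)))
  (.D 67250)))) (.D 38157)) (.N (.N (.N (.N (.N (.N (.L 104215582) (.D 7181)) (.D 6669)) (.D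
  6413)) (.N (.N (.N (.L 104215580) (.D 7181)) (.D 6669)) (.D 6413))) (.N (.N (.N (.D 5653) (.N
  (.D 5657) (.L 103918102))) (.D 39189)) (.N (.N (.D 5653) (.N (.D 5657) (.L 103918099))) (.D
  67250)))) (.D 83626))) (.D 83622))) (.D 83619)) (.N (.N (.N (.N (.N (.N (.N (.N (.N (.N (.L
  111555615) (.D 67256)) (.D 67252)) (.D 39189)) (.D 67249)) (.N (.N (.N (.D 51884) (.N (.D 36012)
  (.L 104089241))) (.D 39189)) (.D 67249))) (.D 38157)) (.N (.N (.N (.D 51881) (.N (.N (.N (.D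
  3625) (.L 104154649)) (.D 67252)) (.D 67250))) (.N (.D 51881) (.N (.N (.D 51884) (.N (.L
  104215574) (.L 104138963))) (.D 67250)))) (.D 83626))) (.D 54029)) (.N (.N (.N (.N (.N (.D
  36005) (.N (.N (.D 3621) (.N (.L 104186905) (.D 67256))) (.D 67250))) (.N (.D 36005) (.N (.N (.N
  (.D 36012) (.L 104211990)) (.N (.D 36012) (.L 104171667))) (.D 67250)))) (.D 38157)) (.N (.N (.N
  (.N (.N (.D 3621) (.N (.D 3625) (.L 104179734))) (.D 39189)) (.N (.N (.D 3621) (.N (.D 3625) (.L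
  104179731))) (.D 67250))) (.N (.N (.N (.N (.L 104215577) (.D 51896)) (.N (.D 36020) (.L
  104203923))) (.D 39189)) (.N (.N (.N (.D 3633) (.L 104211987)) (.N (.L 104215571) (.L
  104215567))) (.D 67250)))) (.D 83626))) (.D 83622))) (.D 83619))) (.D 67226))

def sx11 : CT :=
  .N (.N (.N (.N (.N (.N (.N (.N (.N (.N (.N (.N (.N (.L 112232100) (.D 7181)) (.D 6669)) (.D
  39181)) (.D 39053)) (.N (.N (.N (.N (.L 110397091) (.D 39949)) (.D 55821)) (.D 39181)) (.D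
  39053))) (.D 38157)) (.N (.D 38030) (.N (.N (.N (.N (.N (.L 110432480) (.D 7181)) (.D 6669)) (.D
  55565)) (.D 55437)) (.N (.N (.N (.N (.L 109335774) (.D 83640)) (.D 55821)) (.D 55565)) (.D
  55437))))) (.D 54029)) (.N (.D 53902) (.N (.N (.N (.N (.N (.N (.N (.L 110465184) (.D 7181)) (.D
  6669)) (.D 39181)) (.D 39053)) (.N (.N (.N (.N (.L 109336222) (.D 39949)) (.D 83636)) (.D
  39181)) (.D 39053))) (.D 38157)) (.N (.D 38030) (.N (.N (.N (.N (.N (.L 109336219) (.D 7181))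
  (.D 6669)) (.D 39205)) (.D 83633)) (.N (.N (.N (.N (.L 109336217) (.D 83640)) (.D 83636)) (.D
  39205)) (.D 83633))))))) (.D 83619)) (.N (.N (.N (.N (.N (.N (.N (.N (.N (.N (.L 112232099) (.D
  39949)) (.D 55821)) (.D 39181)) (.D 39053)) (.N (.N (.N (.N (.L 112232097) (.D 39949)) (.D
  55821)) (.D 39181)) (.D 39053))) (.D 38157)) (.N (.D 38030) (.N (.N (.N (.N (.N (.D 38044) (.L
  109335773)) (.D 55821)) (.D 55565)) (.D 55437)) (.N (.N (.N (.N (.D 38044) (.L 109335770)) (.D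
  55821)) (.D 55565)) (.D 55437))))) (.D 54029)) (.N (.D 53902) (.N (.N (.N (.N (.N (.N (.D 53916)
  (.N (.L 109336221) (.D 39949))) (.D 39181)) (.D 39053)) (.N (.N (.N (.D 53916) (.N (.L
  109336218) (.D 39949))) (.D 39181)) (.D 39053))) (.D 38157)) (.N (.D 38030) (.N (.N (.N (.N (.D
  53916) (.N (.D 38044) (.L 109336212))) (.D 39205)) (.D 83633)) (.N (.N (.N (.D 53916) (.N (.D
  38044) (.L 109336208))) (.D 39205)) (.D 83633))))))) (.D 83619))) (.D 36109)) (.N (.D 35982) (.N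
  (.N (.N (.N (.N (.N (.N (.N (.N (.N (.N (.L 112267488) (.D 7181)) (.D 6669)) (.D 55565)) (.D
  55437)) (.N (.N (.N (.N (.D 5657) (.L 111428829)) (.D 55821)) (.D 55565)) (.D 55437))) (.D
  38157)) (.N (.D 38030) (.N (.N (.N (.N (.N (.L 112267485) (.D 7181)) (.D 6669)) (.D 55565)) (.D
  55437)) (.N (.N (.N (.N (.D 5657) (.L 109611735)) (.D 55821)) (.D 55565)) (.D 55437))))) (.D
  54029)) (.N (.D 53902) (.N (.N (.N (.N (.D 53913) (.N (.D 53914) (.N (.N (.L 112075288) (.D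
  7181)) (.D 6669)))) (.N (.D 53913) (.N (.D 53914) (.N (.N (.D 5657) (.L 102902481)) (.D
  83636))))) (.D 38157)) (.N (.D 38030) (.N (.N (.D 53913) (.N (.D 53914) (.N (.N (.L 109611729)
  (.D 7181)) (.D 6669)))) (.N (.D 53913) (.N (.D 53914) (.N (.N (.D 5657) (.L 109611725)) (.D
  83636))))))))) (.D 83619)) (.N (.N (.N (.N (.N (.N (.N (.N (.N (.N (.L 111428830) (.D 67256))
  (.D 55821)) (.D 55565)) (.D 55437)) (.N (.N (.N (.N (.D 36012) (.L 111428826)) (.D 55821)) (.D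
  55565)) (.D 55437))) (.D 38157)) (.N (.D 38030) (.N (.N (.N (.N (.N (.D 3625) (.L 111708375))
  (.D 55821)) (.D 55565)) (.D 55437)) (.N (.N (.N (.N (.L 112231639) (.L 102941909)) (.D 55821))
  (.D 55565)) (.D 55437))))) (.D 54029)) (.N (.D 53902) (.N (.N (.N (.N (.D 53913) (.N (.D 53914)
  (.N (.D 53916) (.N (.L 102938769) (.D 67256))))) (.N (.D 53913) (.N (.D 53914) (.N (.D 53916)
  (.N (.D 36012) (.L 102938764)))))) (.D 38157)) (.N (.D 38030) (.N (.N (.D 53913) (.N (.D 53914)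
  (.N (.D 53916) (.N (.D 3625) (.L 102845131))))) (.N (.D 53913) (.N (.D 53914) (.N (.D 53916) (.N
  (.L 102902475) (.L 102902474)))))))))) (.D 83619))))

def sx12 : CT :=
  .N (.N (.N (.N (.N (.N (.N (.N (.N (.N (.N (.N (.N (.L 112300192) (.D 7181)) (.D 6669)) (.D
  39181)) (.D 39053)) (.N (.N (.N (.D 5653) (.N (.L 111429277) (.D 39949))) (.D 39181)) (.D
  39053))) (.D 38157)) (.N (.D 38030) (.N (.N (.D 38037) (.N (.D 38038) (.N (.N (.L 110010904) (.D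
  7181)) (.D 6669)))) (.N (.D 38037) (.N (.D 38038) (.N (.D 5653) (.N (.L 102906513) (.D
  83640)))))))) (.D 54029)) (.N (.D 53902) (.N (.N (.N (.N (.N (.N (.N (.L 112300189) (.D 7181))
  (.D 6669)) (.D 39181)) (.D 39053)) (.N (.N (.N (.D 5653) (.N (.L 109873815) (.D 39949))) (.D
  39181)) (.D 39053))) (.D 38157)) (.N (.D 38030) (.N (.N (.D 38037) (.N (.D 38038) (.N (.N (.L
  109873809) (.D 7181)) (.D 6669)))) (.N (.D 38037) (.N (.D 38038) (.N (.D 5653) (.N (.L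
  109873805) (.D 83640)))))))))) (.D 83619)) (.N (.N (.N (.N (.N (.N (.N (.N (.N (.N (.L
  111429278) (.D 39949)) (.D 67252)) (.D 39181)) (.D 39053)) (.N (.N (.N (.D 51884) (.N (.L
  111429274) (.D 39949))) (.D 39181)) (.D 39053))) (.D 38157)) (.N (.D 38030) (.N (.N (.D 38037)
  (.N (.D 38038) (.N (.N (.D 38044) (.L 102934737)) (.D 67252)))) (.N (.D 38037) (.N (.D 38038)
  (.N (.D 51884) (.N (.D 38044) (.L 102906508)))))))) (.D 54029)) (.N (.D 53902) (.N (.N (.N (.N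
  (.N (.N (.D 3621) (.N (.L 111970455) (.D 39949))) (.D 39181)) (.D 39053)) (.N (.N (.N (.N (.L
  112232087) (.D 39949)) (.N (.L 102942357) (.D 39949))) (.D 39181)) (.D 39053))) (.D 38157)) (.N
  (.D 38030) (.N (.N (.D 38037) (.N (.D 38038) (.N (.D 3621) (.N (.D 38044) (.L 102877835))))) (.N
  (.D 38037) (.N (.D 38038) (.N (.N (.D 38044) (.L 102906507)) (.N (.D 38044) (.L
  102906506)))))))))) (.D 83619))) (.D 36109)) (.N (.D 35982) (.N (.N (.N (.N (.N (.N (.N (.N (.N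
  (.N (.N (.L 111429275) (.D 7181)) (.D 6669)) (.D 39189)) (.D 67249)) (.N (.N (.N (.D 5653) (.N
  (.D 5657) (.L 111429268))) (.D 39189)) (.D 67249))) (.D 38157)) (.N (.D 38030) (.N (.N (.D
  51881) (.N (.D 39062) (.N (.N (.L 111708369) (.D 7181)) (.D 6669)))) (.N (.D 51881) (.N (.D
  39062) (.N (.D 5653) (.N (.D 5657) (.L 102848715)))))))) (.D 54029)) (.N (.D 53902) (.N (.N (.N
  (.N (.D 36005) (.N (.D 39062) (.N (.N (.L 111970449) (.D 7181)) (.D 6669)))) (.N (.D 36005) (.N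
  (.D 39062) (.N (.D 5653) (.N (.D 5657) (.L 102881419)))))) (.D 38157)) (.N (.D 38030) (.N (.N
  (.N (.N (.N (.L 112232081) (.D 7181)) (.D 6669)) (.D 39189)) (.N (.D 39062) (.N (.N (.L
  102942350) (.D 7181)) (.D 6669)))) (.N (.N (.N (.D 5653) (.N (.D 5657) (.L 102913675))) (.D
  39189)) (.N (.D 39062) (.N (.D 5653) (.N (.D 5657) (.L 102905160)))))))))) (.D 83619)) (.N (.N
  (.N (.N (.N (.N (.N (.N (.N (.N (.L 111429273) (.D 67256)) (.D 67252)) (.D 39189)) (.D 67249))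
  (.N (.N (.N (.D 51884) (.N (.D 36012) (.L 111429264))) (.D 39189)) (.D 67249))) (.D 38157)) (.N
  (.D 38030) (.N (.N (.D 51881) (.N (.D 39062) (.N (.N (.D 3625) (.L 111708365)) (.D 67252)))) (.N
  (.D 51881) (.N (.D 39062) (.N (.D 51884) (.N (.L 102934731) (.L 102934730)))))))) (.D 54029))
  (.N (.D 53902) (.N (.N (.N (.N (.D 36005) (.N (.D 39062) (.N (.D 3621) (.N (.L 111970445) (.D
  67256))))) (.N (.D 36005) (.N (.D 39062) (.N (.N (.D 36012) (.L 102938763)) (.N (.D 36012) (.L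
  102938762)))))) (.D 38157)) (.N (.D 38030) (.N (.N (.N (.N (.D 3621) (.N (.D 3625) (.L
  102942347))) (.D 39189)) (.N (.D 39062) (.N (.D 3621) (.N (.D 3625) (.L 102937864))))) (.N (.N
  (.N (.N (.L 112232077) (.D 51896)) (.N (.D 36020) (.L 102942346))) (.D 39189)) (.N (.D 39062)
  (.N (.N (.D 3633) (.L 102941896)) (.N (.L 102942344) (.L 102942341)))))))))) (.D 83619))))

def sx13 : CT :=
  .N (.N (.N (.N (.N (.N (.N (.N (.N (.N (.N (.N (.N (.L 112276005) (.D 7179)) (.D 6667)) (.D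
  6411)) (.D 22667)) (.D 5643)) (.N (.N (.N (.N (.N (.L 109741668) (.D 23563)) (.D 23051)) (.D
  55563)) (.D 22667)) (.D 22027))) (.N (.N (.N (.N (.N (.N (.L 109745700) (.D 7179)) (.D 6667))
  (.D 6411)) (.D 55435)) (.D 5643)) (.N (.N (.N (.N (.N (.L 109744354) (.D 83384)) (.D 55819)) (.D
  55563)) (.D 55435)) (.D 83372)))) (.D 54027)) (.D 53899)) (.N (.N (.N (.N (.N (.N (.N (.N (.N
  (.L 109752868) (.D 7179)) (.D 6667)) (.D 6411)) (.D 22667)) (.D 5643)) (.N (.N (.N (.N (.N (.L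
  109752418) (.D 23563)) (.D 23051)) (.D 83378)) (.D 22667)) (.D 22027))) (.N (.N (.N (.N (.N (.N
  (.L 109752866) (.D 7179)) (.D 6667)) (.D 6411)) (.D 83377)) (.D 5643)) (.N (.N (.N (.N (.N (.L
  109752863) (.D 83384)) (.D 6691)) (.D 83378)) (.D 83377)) (.D 83372)))) (.D 83366)) (.D 83365)))
  (.D 3595)) (.N (.N (.N (.N (.N (.N (.N (.N (.N (.N (.N (.L 111806052) (.D 23563)) (.D 23051))
  (.D 55563)) (.D 22667)) (.D 5643)) (.N (.N (.N (.N (.N (.L 106301027) (.D 23563)) (.D 23051))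
  (.D 55563)) (.D 22667)) (.D 22027))) (.N (.N (.N (.N (.N (.N (.D 21658) (.L 106217696)) (.D
  55819)) (.D 55563)) (.D 55435)) (.D 5643)) (.N (.N (.N (.N (.N (.D 21658) (.L 105927390)) (.D
  55819)) (.D 55563)) (.D 55435)) (.D 83372)))) (.D 54027)) (.D 53899)) (.N (.N (.N (.N (.N (.N
  (.N (.D 53658) (.N (.N (.L 106283104) (.D 23563)) (.D 23051))) (.D 22667)) (.D 5643)) (.N (.N
  (.N (.D 53658) (.N (.N (.L 105928286) (.D 23563)) (.D 23051))) (.D 22667)) (.D 22027))) (.N (.N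
  (.N (.N (.D 53658) (.N (.N (.D 21658) (.L 105928283)) (.D 23075))) (.D 83377)) (.D 5643)) (.N
  (.N (.N (.D 53658) (.N (.N (.D 21658) (.L 105928281)) (.D 23075))) (.D 83377)) (.D 83372)))) (.D
  83366)) (.D 83365))) (.D 19979))) (.N (.N (.N (.N (.N (.N (.N (.N (.N (.N (.N (.N (.L 111810084)
  (.D 7179)) (.D 6667)) (.D 6411)) (.D 55435)) (.D 5643)) (.N (.N (.N (.N (.N (.D 5401) (.L
  105959648)) (.D 55819)) (.D 55563)) (.D 55435)) (.D 22027))) (.N (.N (.N (.N (.N (.N (.L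
  106305059) (.D 7179)) (.D 6667)) (.D 6411)) (.D 55435)) (.D 5643)) (.N (.N (.N (.N (.N (.D 5401)
  (.L 105959646)) (.D 55819)) (.D 55563)) (.D 55435)) (.D 83372)))) (.D 54027)) (.D 53899)) (.N
  (.N (.N (.N (.N (.N (.D 53657) (.N (.N (.N (.L 106283552) (.D 7179)) (.D 6667)) (.D 6411))) (.D
  5643)) (.N (.N (.D 53657) (.N (.N (.N (.D 5401) (.L 105960987)) (.D 6691)) (.D 83378))) (.D
  22027))) (.N (.N (.N (.D 53657) (.N (.N (.N (.L 105960990) (.D 7179)) (.D 6667)) (.D 6411))) (.D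
  5643)) (.N (.N (.D 53657) (.N (.N (.N (.D 5401) (.L 105960985)) (.D 6691)) (.D 83378))) (.D
  83372)))) (.D 83366)) (.D 83365))) (.D 3595)) (.N (.N (.N (.N (.N (.N (.N (.N (.N (.N (.N (.L
  111808738) (.D 67000)) (.D 55819)) (.D 55563)) (.D 55435)) (.D 5643)) (.N (.N (.N (.N (.N (.D
  19626) (.L 106185438)) (.D 55819)) (.D 55563)) (.D 55435)) (.D 22027))) (.N (.N (.N (.N (.N (.N
  (.D 3369) (.L 106217694)) (.D 55819)) (.D 55563)) (.D 55435)) (.D 5643)) (.N (.N (.N (.N (.N (.L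
  106303710) (.L 106303708)) (.D 55819)) (.D 55563)) (.D 55435)) (.D 83372)))) (.D 54027)) (.D
  53899)) (.N (.N (.N (.N (.N (.N (.D 53657) (.N (.D 53658) (.N (.N (.L 106283547) (.D 67000)) (.D
  66996)))) (.D 5643)) (.N (.N (.D 53657) (.N (.D 53658) (.N (.N (.D 19626) (.L 105035862)) (.D
  66996)))) (.D 22027))) (.N (.N (.N (.D 53657) (.N (.D 53658) (.N (.N (.D 3369) (.L 105297942))
  (.D 66996)))) (.D 5643)) (.N (.N (.D 53657) (.N (.D 53658) (.N (.N (.L 106082838) (.L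
  105941715)) (.D 66996)))) (.D 83372)))) (.D 83366)) (.D 83365))) (.D 66972)))

def sx14 : CT :=
  .N (.N (.N (.N (.N (.N (.N (.N (.N (.N (.N (.N (.N (.L 111817252) (.D 7179)) (.D 6667)) (.D
  6411)) (.D 22667)) (.D 5643)) (.N (.N (.N (.D 5395) (.N (.N (.L 106025056) (.D 23563)) (.D
  23051))) (.D 22667)) (.D 22027))) (.N (.N (.N (.D 21651) (.N (.N (.N (.L 106025504) (.D 7179))
  (.D 6667)) (.D 6411))) (.D 5643)) (.N (.N (.D 21651) (.N (.D 5395) (.N (.N (.L 106025499) (.D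
  83384)) (.D 66996)))) (.D 83372)))) (.D 54027)) (.D 53899)) (.N (.N (.N (.N (.N (.N (.N (.N (.N
  (.L 106312227) (.D 7179)) (.D 6667)) (.D 6411)) (.D 22667)) (.D 5643)) (.N (.N (.N (.D 5395) (.N
  (.N (.L 106025054) (.D 23563)) (.D 23051))) (.D 22667)) (.D 22027))) (.N (.N (.N (.D 21651) (.N
  (.N (.N (.L 106025502) (.D 7179)) (.D 6667)) (.D 6411))) (.D 5643)) (.N (.N (.D 21651) (.N (.D
  5395) (.N (.N (.L 106025497) (.D 83384)) (.D 66996)))) (.D 83372)))) (.D 83366)) (.D 83365)))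
  (.D 3595)) (.N (.N (.N (.N (.N (.N (.N (.N (.N (.N (.N (.L 111816802) (.D 23563)) (.D 23051))
  (.D 66994)) (.D 22667)) (.D 5643)) (.N (.N (.N (.D 51626) (.N (.N (.L 106186334) (.D 23563)) (.D
  23051))) (.D 22667)) (.D 22027))) (.N (.N (.N (.D 21651) (.N (.N (.N (.D 21658) (.L 106219035))
  (.D 6675)) (.D 66994))) (.D 5643)) (.N (.N (.D 21651) (.N (.D 51626) (.N (.N (.D 21658) (.L
  105003606)) (.D 66996)))) (.D 83372)))) (.D 54027)) (.D 53899)) (.N (.N (.N (.N (.N (.N (.N (.D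
  3363) (.N (.N (.L 106283102) (.D 23563)) (.D 23051))) (.D 22667)) (.D 5643)) (.N (.N (.N (.N (.N
  (.L 106311774) (.D 23563)) (.D 23051)) (.N (.N (.L 106311772) (.D 23563)) (.D 23051))) (.D
  22667)) (.D 22027))) (.N (.N (.N (.D 21651) (.N (.D 3363) (.N (.N (.D 21658) (.L 105814038)) (.D
  66996)))) (.D 5643)) (.N (.N (.D 21651) (.N (.N (.N (.D 21658) (.L 106075670)) (.D 6675)) (.N
  (.N (.D 21658) (.L 106007123)) (.D 66996)))) (.D 83372)))) (.D 83366)) (.D 83365))) (.D 19979)))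
  (.N (.N (.N (.N (.N (.N (.N (.N (.N (.N (.N (.N (.L 111817250) (.D 7179)) (.D 6667)) (.D 6411))
  (.D 66993)) (.D 5643)) (.N (.N (.N (.D 5395) (.N (.N (.D 5401) (.L 106186331)) (.D 23059))) (.D
  66993)) (.D 22027))) (.N (.N (.N (.D 51625) (.N (.N (.N (.L 106219038) (.D 7179)) (.D 6667)) (.D
  6411))) (.D 5643)) (.N (.N (.D 51625) (.N (.D 5395) (.N (.N (.D 5401) (.L 105265686)) (.D
  66996)))) (.D 83372)))) (.D 54027)) (.D 53899)) (.N (.N (.N (.N (.N (.N (.D 19619) (.N (.N (.N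
  (.L 106283550) (.D 7179)) (.D 6667)) (.D 6411))) (.D 5643)) (.N (.N (.D 19619) (.N (.D 5395) (.N
  (.N (.D 5401) (.L 105781782)) (.D 66996)))) (.D 22027))) (.N (.N (.N (.N (.N (.N (.L 106312222)
  (.D 7179)) (.D 6667)) (.D 6411)) (.N (.N (.N (.L 106312220) (.D 7179)) (.D 6667)) (.D 6411)))
  (.D 5643)) (.N (.N (.N (.D 5395) (.N (.N (.D 5401) (.L 106011158)) (.D 23059))) (.N (.D 5395)
  (.N (.N (.D 5401) (.L 106011155)) (.D 66996)))) (.D 83372)))) (.D 83366)) (.D 83365))) (.D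
  3595)) (.N (.N (.N (.N (.N (.N (.N (.N (.N (.N (.N (.L 111817247) (.D 67000)) (.D 6675)) (.D
  66994)) (.D 66993)) (.D 5643)) (.N (.N (.N (.D 51626) (.N (.N (.D 19626) (.L 106186329)) (.D
  23059))) (.D 66993)) (.D 22027))) (.N (.N (.N (.D 51625) (.N (.N (.N (.D 3369) (.L 106219033))
  (.D 6675)) (.D 66994))) (.D 5643)) (.N (.N (.D 51625) (.N (.D 51626) (.N (.N (.L 106312214) (.L
  106203347)) (.D 66996)))) (.D 83372)))) (.D 54027)) (.D 53899)) (.N (.N (.N (.N (.N (.N (.D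
  19619) (.N (.D 3363) (.N (.N (.L 106283545) (.D 67000)) (.D 66996)))) (.D 5643)) (.N (.N (.D
  19619) (.N (.N (.N (.D 19626) (.L 106305046)) (.D 6675)) (.N (.N (.D 19626) (.L 106268755)) (.D
  66996)))) (.D 22027))) (.N (.N (.N (.N (.D 3363) (.N (.N (.D 3369) (.L 106272790)) (.D 23059)))
  (.N (.D 3363) (.N (.N (.D 3369) (.L 106272787)) (.D 66996)))) (.D 5643)) (.N (.N (.N (.N (.N (.L
  106312217) (.D 51640)) (.D 6675)) (.N (.N (.D 19634) (.L 106301011)) (.D 23059))) (.N (.N (.N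
  (.D 3377) (.L 106305043)) (.D 6675)) (.N (.N (.L 106312211) (.L 106312207)) (.D 66996)))) (.D
  83372)))) (.D 83366)) (.D 83365))) (.D 66972)))

def sx15 : CT :=
  .N (.N (.N (.N (.N (.N (.N (.N (.N (.N (.N (.N (.N (.L 112264804) (.D 7179)) (.D 23051)) (.D
  6411)) (.D 22667)) (.D 22027)) (.N (.N (.N (.N (.N (.L 110429795) (.D 23563)) (.D 23051)) (.D
  55563)) (.D 22667)) (.D 22027))) (.N (.N (.D 21646) (.N (.N (.N (.N (.L 110403808) (.D 7179))
  (.D 55819)) (.D 6411)) (.D 55435))) (.N (.D 21646) (.N (.N (.N (.N (.L 109597406) (.D 83384))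
  (.D 55819)) (.D 55563)) (.D 55435))))) (.D 54027)) (.D 53899)) (.N (.N (.D 53646) (.N (.N (.N
  (.N (.N (.N (.N (.L 110469216) (.D 7179)) (.D 23051)) (.D 6411)) (.D 22667)) (.D 22027)) (.N (.N
  (.N (.N (.N (.L 109598302) (.D 23563)) (.D 23051)) (.D 83378)) (.D 22667)) (.D 22027))) (.N (.N
  (.D 21646) (.N (.N (.N (.N (.L 109598299) (.D 7179)) (.D 23075)) (.D 6411)) (.D 83377))) (.N (.D
  21646) (.N (.N (.N (.N (.L 109598297) (.D 83384)) (.D 23075)) (.D 83378)) (.D 83377)))))) (.D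
  83365))) (.D 19979)) (.N (.N (.N (.N (.N (.N (.N (.N (.N (.N (.N (.L 112264803) (.D 23563)) (.D
  23051)) (.D 55563)) (.D 22667)) (.D 22027)) (.N (.N (.N (.N (.N (.L 112264801) (.D 23563)) (.D
  23051)) (.D 55563)) (.D 22667)) (.D 22027))) (.N (.N (.D 21646) (.N (.N (.N (.N (.D 21658) (.L
  109597405)) (.D 55819)) (.D 55563)) (.D 55435))) (.N (.D 21646) (.N (.N (.N (.N (.D 21658) (.L
  109597402)) (.D 55819)) (.D 55563)) (.D 55435))))) (.D 54027)) (.D 53899)) (.N (.N (.D 53646)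
  (.N (.N (.N (.N (.N (.D 53658) (.N (.N (.L 109598301) (.D 23563)) (.D 23051))) (.D 22667)) (.D
  22027)) (.N (.N (.N (.D 53658) (.N (.N (.L 109598298) (.D 23563)) (.D 23051))) (.D 22667)) (.D
  22027))) (.N (.N (.D 21646) (.N (.N (.D 53658) (.N (.N (.D 21658) (.L 109598292)) (.D 23075)))
  (.D 83377))) (.N (.D 21646) (.N (.N (.D 53658) (.N (.N (.D 21658) (.L 109598288)) (.D 23075)))
  (.D 83377)))))) (.D 83365))) (.D 19979))) (.N (.N (.D 19598) (.N (.N (.N (.N (.N (.N (.N (.N (.N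
  (.N (.L 112238816) (.D 7179)) (.D 55819)) (.D 6411)) (.D 55435)) (.D 22027)) (.N (.N (.N (.N (.N
  (.D 5401) (.L 111690461)) (.D 55819)) (.D 55563)) (.D 55435)) (.D 22027))) (.N (.N (.D 21646)
  (.N (.N (.N (.N (.L 112238813) (.D 7179)) (.D 55819)) (.D 6411)) (.D 55435))) (.N (.D 21646) (.N
  (.N (.N (.N (.D 5401) (.L 109382359)) (.D 55819)) (.D 55563)) (.D 55435))))) (.D 54027)) (.D
  53899)) (.N (.N (.D 53646) (.N (.N (.N (.N (.D 53657) (.N (.N (.D 53660) (.N (.L 112071704) (.D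
  7179))) (.D 6411))) (.D 22027)) (.N (.N (.D 53657) (.N (.N (.D 53660) (.N (.D 5401) (.L
  104995537))) (.D 83378))) (.D 22027))) (.N (.N (.D 21646) (.N (.D 53657) (.N (.N (.D 53660) (.N
  (.L 109382353) (.D 7179))) (.D 6411)))) (.N (.D 21646) (.N (.D 53657) (.N (.N (.D 53660) (.N (.D
  5401) (.L 109382349))) (.D 83378))))))) (.D 83365)))) (.N (.D 19598) (.N (.N (.N (.N (.N (.N (.N
  (.N (.N (.N (.L 111690462) (.D 67000)) (.D 55819)) (.D 55563)) (.D 55435)) (.D 22027)) (.N (.N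
  (.N (.N (.N (.D 19626) (.L 111690458)) (.D 55819)) (.D 55563)) (.D 55435)) (.D 22027))) (.N (.N
  (.D 21646) (.N (.N (.N (.N (.D 3369) (.L 111478999)) (.D 55819)) (.D 55563)) (.D 55435))) (.N
  (.D 21646) (.N (.N (.N (.N (.L 112263895) (.L 105038549)) (.D 55819)) (.D 55563)) (.D 55435)))))
  (.D 54027)) (.D 53899)) (.N (.N (.D 53646) (.N (.N (.N (.N (.D 53657) (.N (.D 53658) (.N (.D
  53660) (.N (.L 105035857) (.D 67000))))) (.D 22027)) (.N (.N (.D 53657) (.N (.D 53658) (.N (.D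
  53660) (.N (.D 19626) (.L 105035852))))) (.D 22027))) (.N (.N (.D 21646) (.N (.D 53657) (.N (.D
  53658) (.N (.D 53660) (.N (.D 3369) (.L 104909515)))))) (.N (.D 21646) (.N (.D 53657) (.N (.D
  53658) (.N (.D 53660) (.N (.L 104995531) (.L 104995530))))))))) (.D 83365)))))

def sx16 : CT :=
  .N (.N (.N (.N (.N (.N (.N (.N (.N (.N (.N (.N (.N (.L 112304224) (.D 7179)) (.D 23051)) (.D
  6411)) (.D 22667)) (.D 22027)) (.N (.N (.N (.D 5395) (.N (.N (.L 111691357) (.D 23563)) (.D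
  23051))) (.D 22667)) (.D 22027))) (.N (.N (.D 21646) (.N (.D 21651) (.N (.N (.D 21654) (.N (.L
  110007320) (.D 7179))) (.D 6411)))) (.N (.D 21646) (.N (.D 21651) (.N (.D 5395) (.N (.D 21654)
  (.N (.L 105003601) (.D 83384)))))))) (.D 54027)) (.D 53899)) (.N (.N (.D 53646) (.N (.N (.N (.N
  (.N (.N (.N (.L 112304221) (.D 7179)) (.D 23051)) (.D 6411)) (.D 22667)) (.D 22027)) (.N (.N (.N
  (.D 5395) (.N (.N (.L 109906519) (.D 23563)) (.D 23051))) (.D 22667)) (.D 22027))) (.N (.N (.D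
  21646) (.N (.D 21651) (.N (.N (.D 21654) (.N (.L 109906513) (.D 7179))) (.D 6411)))) (.N (.D
  21646) (.N (.D 21651) (.N (.D 5395) (.N (.D 21654) (.N (.L 109906509) (.D 83384))))))))) (.D
  83365))) (.D 19979)) (.N (.N (.N (.N (.N (.N (.N (.N (.N (.N (.N (.L 111691358) (.D 23563)) (.D
  23051)) (.D 66994)) (.D 22667)) (.D 22027)) (.N (.N (.N (.D 51626) (.N (.N (.L 111691354) (.D
  23563)) (.D 23051))) (.D 22667)) (.D 22027))) (.N (.N (.D 21646) (.N (.D 21651) (.N (.N (.D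
  21654) (.N (.D 21658) (.L 105027793))) (.D 66994)))) (.N (.D 21646) (.N (.D 21651) (.N (.D
  51626) (.N (.D 21654) (.N (.D 21658) (.L 105003596)))))))) (.D 54027)) (.D 53899)) (.N (.N (.D
  53646) (.N (.N (.N (.N (.N (.D 3363) (.N (.N (.L 112003159) (.D 23563)) (.D 23051))) (.D 22667))
  (.D 22027)) (.N (.N (.N (.N (.N (.L 112264791) (.D 23563)) (.D 23051)) (.N (.N (.L 105039445)
  (.D 23563)) (.D 23051))) (.D 22667)) (.D 22027))) (.N (.N (.D 21646) (.N (.D 21651) (.N (.D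
  3363) (.N (.D 21654) (.N (.D 21658) (.L 104974923)))))) (.N (.D 21646) (.N (.D 21651) (.N (.N
  (.D 21654) (.N (.D 21658) (.L 105003595))) (.N (.D 21654) (.N (.D 21658) (.L 105003594)))))))))
  (.D 83365))) (.D 19979))) (.N (.N (.D 19598) (.N (.N (.N (.N (.N (.N (.N (.N (.N (.N (.L
  111691355) (.D 7179)) (.D 23059)) (.D 6411)) (.D 66993)) (.D 22027)) (.N (.N (.N (.D 5395) (.N
  (.N (.D 5401) (.L 111691348)) (.D 23059))) (.D 66993)) (.D 22027))) (.N (.N (.D 21646) (.N (.D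
  51625) (.N (.N (.D 22678) (.N (.L 111478993) (.D 7179))) (.D 6411)))) (.N (.D 21646) (.N (.D
  51625) (.N (.D 5395) (.N (.D 22678) (.N (.D 5401) (.L 104913099)))))))) (.D 54027)) (.D 53899))
  (.N (.N (.D 53646) (.N (.N (.N (.N (.D 19619) (.N (.N (.D 22678) (.N (.L 112003153) (.D 7179)))
  (.D 6411))) (.D 22027)) (.N (.N (.D 19619) (.N (.D 5395) (.N (.D 22678) (.N (.D 5401) (.L
  104978507))))) (.D 22027))) (.N (.N (.D 21646) (.N (.N (.N (.N (.L 112264785) (.D 7179)) (.D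
  23059)) (.D 6411)) (.N (.N (.D 22678) (.N (.L 105039438) (.D 7179))) (.D 6411)))) (.N (.D 21646)
  (.N (.N (.D 5395) (.N (.N (.D 5401) (.L 105010763)) (.D 23059))) (.N (.D 5395) (.N (.D 22678)
  (.N (.D 5401) (.L 105001800))))))))) (.D 83365)))) (.N (.D 19598) (.N (.N (.N (.N (.N (.N (.N
  (.N (.N (.N (.L 111691353) (.D 67000)) (.D 23059)) (.D 66994)) (.D 66993)) (.D 22027)) (.N (.N
  (.N (.D 51626) (.N (.N (.D 19626) (.L 111691344)) (.D 23059))) (.D 66993)) (.D 22027))) (.N (.N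
  (.D 21646) (.N (.D 51625) (.N (.N (.D 22678) (.N (.D 3369) (.L 111478989))) (.D 66994)))) (.N
  (.D 21646) (.N (.D 51625) (.N (.D 51626) (.N (.D 22678) (.N (.L 105027787) (.L 105027786))))))))
  (.D 54027)) (.D 53899)) (.N (.N (.D 53646) (.N (.N (.N (.N (.D 19619) (.N (.D 3363) (.N (.D
  22678) (.N (.L 112003149) (.D 67000))))) (.D 22027)) (.N (.N (.D 19619) (.N (.N (.D 22678) (.N
  (.D 19626) (.L 105035851))) (.N (.D 22678) (.N (.D 19626) (.L 105035850))))) (.D 22027))) (.N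
  (.N (.D 21646) (.N (.N (.D 3363) (.N (.N (.D 3369) (.L 105039435)) (.D 23059))) (.N (.D 3363)
  (.N (.D 22678) (.N (.D 3369) (.L 105034504)))))) (.N (.D 21646) (.N (.N (.N (.N (.L 112264781)
  (.D 51640)) (.D 23059)) (.N (.N (.D 19634) (.L 105039434)) (.D 23059))) (.N (.N (.D 22678) (.N
  (.D 3377) (.L 105038536))) (.N (.D 22678) (.N (.L 105039432) (.L 105039429))))))))) (.D
  83365)))))

def sx17 : CT :=
  .N (.N (.N (.N (.N (.N (.N (.N (.N (.N (.N (.N (.N (.L 112268836) (.D 7179)) (.D 6667)) (.D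
  6411)) (.D 22667)) (.D 5643)) (.N (.D 5389) (.N (.N (.N (.N (.L 109629664) (.D 23563)) (.D
  55819)) (.D 55563)) (.D 22667)))) (.N (.N (.N (.N (.N (.N (.L 110433827) (.D 7179)) (.D 6667))
  (.D 6411)) (.D 55435)) (.D 5643)) (.N (.D 5389) (.N (.N (.N (.N (.L 109629662) (.D 83384)) (.D
  55819)) (.D 55563)) (.D 55435))))) (.D 54027)) (.D 53899)) (.N (.D 53645) (.N (.N (.N (.N (.N
  (.N (.N (.N (.L 110469664) (.D 7179)) (.D 6667)) (.D 6411)) (.D 22667)) (.D 5643)) (.N (.D 5389)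
  (.N (.N (.N (.N (.L 109631003) (.D 23563)) (.D 6691)) (.D 83378)) (.D 22667)))) (.N (.N (.N (.N
  (.N (.N (.L 109631006) (.D 7179)) (.D 6667)) (.D 6411)) (.D 83377)) (.D 5643)) (.N (.D 5389) (.N
  (.N (.N (.N (.L 109631001) (.D 83384)) (.D 6691)) (.D 83378)) (.D 83377))))) (.D 83366)))) (.D
  3595)) (.N (.D 3341) (.N (.N (.N (.N (.N (.N (.N (.N (.N (.N (.L 111722720) (.D 23563)) (.D
  55819)) (.D 55563)) (.D 22667)) (.D 5643)) (.N (.D 5389) (.N (.N (.N (.N (.L 112206557) (.D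
  23563)) (.D 55819)) (.D 55563)) (.D 22667)))) (.N (.N (.N (.N (.N (.N (.D 21658) (.L 111722717))
  (.D 55819)) (.D 55563)) (.D 55435)) (.D 5643)) (.N (.D 5389) (.N (.N (.N (.N (.D 21658) (.L
  105253591)) (.D 55819)) (.D 55563)) (.D 55435))))) (.D 54027)) (.D 53899)) (.N (.D 53645) (.N
  (.N (.N (.N (.N (.N (.D 53658) (.N (.D 53660) (.N (.L 112007192) (.D 23563)))) (.D 22667)) (.D
  5643)) (.N (.D 5389) (.N (.N (.D 53658) (.N (.D 53660) (.N (.L 109124305) (.D 23563)))) (.D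
  22667)))) (.N (.N (.N (.N (.D 53658) (.N (.D 53660) (.N (.D 21658) (.L 105253585)))) (.D 83377))
  (.D 5643)) (.N (.D 5389) (.N (.N (.D 53658) (.N (.D 53660) (.N (.D 21658) (.L 105253581)))) (.D
  83377))))) (.D 83366)))))) (.N (.N (.N (.N (.N (.N (.N (.N (.N (.N (.N (.N (.L 112268835) (.D
  7179)) (.D 6667)) (.D 6411)) (.D 55435)) (.D 5643)) (.N (.D 5389) (.N (.N (.N (.N (.D 5401) (.L
  109629661)) (.D 55819)) (.D 55563)) (.D 55435)))) (.N (.N (.N (.N (.N (.N (.L 112268833) (.D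
  7179)) (.D 6667)) (.D 6411)) (.D 55435)) (.D 5643)) (.N (.D 5389) (.N (.N (.N (.N (.D 5401) (.L
  109629658)) (.D 55819)) (.D 55563)) (.D 55435))))) (.D 54027)) (.D 53899)) (.N (.D 53645) (.N
  (.N (.N (.N (.N (.D 53657) (.N (.N (.N (.L 109631005) (.D 7179)) (.D 6667)) (.D 6411))) (.D
  5643)) (.N (.D 5389) (.N (.D 53657) (.N (.N (.N (.D 5401) (.L 109630996)) (.D 6691)) (.D
  83378))))) (.N (.N (.N (.D 53657) (.N (.N (.N (.L 109631002) (.D 7179)) (.D 6667)) (.D 6411)))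
  (.D 5643)) (.N (.D 5389) (.N (.D 53657) (.N (.N (.N (.D 5401) (.L 109630992)) (.D 6691)) (.D
  83378)))))) (.D 83366)))) (.D 3595)) (.N (.D 3341) (.N (.N (.N (.N (.N (.N (.N (.N (.N (.N (.L
  111722718) (.D 67000)) (.D 55819)) (.D 55563)) (.D 55435)) (.D 5643)) (.N (.D 5389) (.N (.N (.N
  (.N (.D 19626) (.L 105285847)) (.D 55819)) (.D 55563)) (.D 55435)))) (.N (.N (.N (.N (.N (.N (.D
  3369) (.L 111722714)) (.D 55819)) (.D 55563)) (.D 55435)) (.D 5643)) (.N (.D 5389) (.N (.N (.N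
  (.N (.L 112267479) (.L 105300181)) (.D 55819)) (.D 55563)) (.D 55435))))) (.D 54027)) (.D
  53899)) (.N (.D 53645) (.N (.N (.N (.N (.N (.D 53657) (.N (.D 53658) (.N (.D 53660) (.N (.L
  105297937) (.D 67000))))) (.D 5643)) (.N (.D 5389) (.N (.D 53657) (.N (.D 53658) (.N (.D 53660)
  (.N (.D 19626) (.L 105138891))))))) (.N (.N (.N (.D 53657) (.N (.D 53658) (.N (.D 53660) (.N (.D
  3369) (.L 105297932))))) (.D 5643)) (.N (.D 5389) (.N (.D 53657) (.N (.D 53658) (.N (.D 53660)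
  (.N (.L 105253579) (.L 105253578)))))))) (.D 83366))))))

def sx18 : CT :=
  .N (.N (.N (.N (.N (.N (.N (.N (.N (.N (.N (.N (.N (.L 112304672) (.D 7179)) (.D 6667)) (.D
  6411)) (.D 22667)) (.D 5643)) (.N (.D 5389) (.N (.N (.D 5395) (.N (.D 5397) (.N (.L 109910552)
  (.D 23563)))) (.D 22667)))) (.N (.N (.N (.D 21651) (.N (.N (.N (.L 111724061) (.D 7179)) (.D
  6667)) (.D 6411))) (.D 5643)) (.N (.D 5389) (.N (.D 21651) (.N (.D 5395) (.N (.D 5397) (.N (.L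
  105265681) (.D 83384)))))))) (.D 54027)) (.D 53899)) (.N (.D 53645) (.N (.N (.N (.N (.N (.N (.N
  (.N (.L 112304669) (.D 7179)) (.D 6667)) (.D 6411)) (.D 22667)) (.D 5643)) (.N (.D 5389) (.N (.N
  (.D 5395) (.N (.D 5397) (.N (.L 109910545) (.D 23563)))) (.D 22667)))) (.N (.N (.N (.D 21651)
  (.N (.N (.N (.L 109910551) (.D 7179)) (.D 6667)) (.D 6411))) (.D 5643)) (.N (.D 5389) (.N (.D
  21651) (.N (.D 5395) (.N (.D 5397) (.N (.L 109910541) (.D 83384)))))))) (.D 83366)))) (.D 3595))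
  (.N (.D 3341) (.N (.N (.N (.N (.N (.N (.N (.N (.N (.N (.L 111724059) (.D 23563)) (.D 6675)) (.D
  66994)) (.D 22667)) (.D 5643)) (.N (.D 5389) (.N (.N (.D 51626) (.N (.D 6421) (.N (.L 111220945)
  (.D 23563)))) (.D 22667)))) (.N (.N (.N (.D 21651) (.N (.N (.N (.D 21658) (.L 111724052)) (.D
  6675)) (.D 66994))) (.D 5643)) (.N (.D 5389) (.N (.D 21651) (.N (.D 51626) (.N (.D 6421) (.N (.D
  21658) (.L 105142475)))))))) (.D 54027)) (.D 53899)) (.N (.D 53645) (.N (.N (.N (.N (.N (.N (.D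
  3363) (.N (.D 6421) (.N (.L 112007185) (.D 23563)))) (.D 22667)) (.D 5643)) (.N (.D 5389) (.N
  (.N (.N (.N (.L 112268817) (.D 23563)) (.D 6675)) (.N (.D 6421) (.N (.L 105301518) (.D 23563))))
  (.D 22667)))) (.N (.N (.N (.D 21651) (.N (.D 3363) (.N (.D 6421) (.N (.D 21658) (.L
  105240587))))) (.D 5643)) (.N (.D 5389) (.N (.D 21651) (.N (.N (.N (.D 21658) (.L 105272843))
  (.D 6675)) (.N (.D 6421) (.N (.D 21658) (.L 105263432)))))))) (.D 83366)))))) (.N (.N (.N (.N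
  (.N (.N (.N (.N (.N (.N (.N (.N (.L 111724062) (.D 7179)) (.D 6667)) (.D 6411)) (.D 66993)) (.D
  5643)) (.N (.D 5389) (.N (.N (.D 5395) (.N (.D 5397) (.N (.D 5401) (.L 105285841)))) (.D
  66993)))) (.N (.N (.N (.D 51625) (.N (.N (.N (.L 111724058) (.D 7179)) (.D 6667)) (.D 6411)))
  (.D 5643)) (.N (.D 5389) (.N (.D 51625) (.N (.D 5395) (.N (.D 5397) (.N (.D 5401) (.L
  105265676)))))))) (.D 54027)) (.D 53899)) (.N (.D 53645) (.N (.N (.N (.N (.N (.D 19619) (.N (.N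
  (.N (.L 112007191) (.D 7179)) (.D 6667)) (.D 6411))) (.D 5643)) (.N (.D 5389) (.N (.D 19619) (.N
  (.D 5395) (.N (.D 5397) (.N (.D 5401) (.L 105237003))))))) (.N (.N (.N (.N (.N (.N (.L
  112268823) (.D 7179)) (.D 6667)) (.D 6411)) (.N (.N (.N (.L 105301525) (.D 7179)) (.D 6667)) (.D
  6411))) (.D 5643)) (.N (.D 5389) (.N (.N (.D 5395) (.N (.D 5397) (.N (.D 5401) (.L 105265675))))
  (.N (.D 5395) (.N (.D 5397) (.N (.D 5401) (.L 105265674)))))))) (.D 83366)))) (.D 3595)) (.N (.D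
  3341) (.N (.N (.N (.N (.N (.N (.N (.N (.N (.N (.L 111724057) (.D 67000)) (.D 6675)) (.D 66994))
  (.D 66993)) (.D 5643)) (.N (.D 5389) (.N (.N (.D 51626) (.N (.D 6421) (.N (.D 19626) (.L
  105285837)))) (.D 66993)))) (.N (.N (.N (.D 51625) (.N (.N (.N (.D 3369) (.L 111724048)) (.D
  6675)) (.D 66994))) (.D 5643)) (.N (.D 5389) (.N (.D 51625) (.N (.D 51626) (.N (.D 6421) (.N (.L
  105285835) (.L 105285834)))))))) (.D 54027)) (.D 53899)) (.N (.D 53645) (.N (.N (.N (.N (.N (.D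
  19619) (.N (.D 3363) (.N (.D 6421) (.N (.L 112007181) (.D 67000))))) (.D 5643)) (.N (.D 5389)
  (.N (.D 19619) (.N (.N (.N (.D 19626) (.L 105301515)) (.D 6675)) (.N (.D 6421) (.N (.D 19626)
  (.L 105296136))))))) (.N (.N (.N (.N (.D 3363) (.N (.D 6421) (.N (.D 3369) (.L 105297931)))) (.N
  (.D 3363) (.N (.D 6421) (.N (.D 3369) (.L 105297930))))) (.D 5643)) (.N (.D 5389) (.N (.N (.N
  (.N (.L 112268813) (.D 51640)) (.D 6675)) (.N (.D 6421) (.N (.D 19634) (.L 105300168)))) (.N (.N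
  (.N (.D 3377) (.L 105301514)) (.D 6675)) (.N (.D 6421) (.N (.L 105301512) (.L 105301509))))))))
  (.D 83366))))))

def sx19 : CT :=
  .N (.N (.D 1817) (.N (.N (.N (.N (.N (.N (.N (.N (.N (.N (.L 112238814) (.D 7179)) (.D 55819))
  (.D 6411)) (.D 55435)) (.D 34220)) (.N (.D 18090) (.N (.N (.N (.N (.D 5401) (.L 109479127)) (.D
  55819)) (.D 55563)) (.D 55435)))) (.N (.N (.D 1833) (.N (.N (.N (.N (.L 112238810) (.D 7179))
  (.D 55819)) (.D 6411)) (.D 55435))) (.N (.N (.N (.N (.N (.D 5401) (.L 111808727)) (.D 55819))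
  (.D 55563)) (.D 55435)) (.N (.N (.N (.N (.D 5401) (.L 109486293)) (.D 55819)) (.D 55563)) (.D
  55435))))) (.D 54027)) (.D 53899)) (.N (.D 53645) (.N (.D 53646) (.N (.N (.N (.N (.D 53657) (.N
  (.N (.D 53660) (.N (.L 109491217) (.D 7179))) (.D 6411))) (.D 34220)) (.N (.D 18090) (.N (.D
  53657) (.N (.N (.D 53660) (.N (.D 5401) (.L 109325003))) (.D 83378))))) (.N (.N (.D 1833) (.N
  (.D 53657) (.N (.N (.D 53660) (.N (.L 109491212) (.D 7179))) (.D 6411)))) (.N (.N (.D 53657) (.N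
  (.N (.D 53660) (.N (.D 5401) (.L 109382347))) (.D 83378))) (.N (.D 53657) (.N (.N (.D 53660) (.N
  (.D 5401) (.L 109382346))) (.D 83378)))))))))) (.N (.N (.N (.N (.N (.N (.N (.N (.N (.N (.N (.L
  112267486) (.D 7181)) (.D 55819)) (.D 55563)) (.D 55435)) (.D 34220)) (.N (.D 18090) (.N (.N (.N
  (.N (.D 5657) (.L 109740759)) (.D 55819)) (.D 55563)) (.D 55435)))) (.N (.N (.D 1833) (.N (.N
  (.N (.N (.D 5657) (.L 109744343)) (.D 55819)) (.D 55563)) (.D 55435))) (.N (.N (.N (.N (.N (.L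
  112267482) (.D 7181)) (.D 55819)) (.D 55563)) (.D 55435)) (.N (.N (.N (.N (.D 5657) (.L
  109744341)) (.D 55819)) (.D 55563)) (.D 55435))))) (.D 54027)) (.D 53899)) (.N (.D 53645) (.N
  (.D 53646) (.N (.N (.N (.N (.D 53657) (.N (.D 53658) (.N (.N (.L 109752849) (.D 7181)) (.D
  6669)))) (.D 34220)) (.N (.D 18090) (.N (.D 53657) (.N (.D 53658) (.N (.N (.D 5657) (.L
  109583051)) (.D 83380)))))) (.N (.N (.D 1833) (.N (.D 53657) (.N (.D 53658) (.N (.N (.D 5657)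
  (.L 109611723)) (.D 83380))))) (.N (.N (.D 53657) (.N (.D 53658) (.N (.N (.L 109752844) (.D
  7181)) (.D 6669)))) (.N (.D 53657) (.N (.D 53658) (.N (.N (.D 5657) (.L 109611722)) (.D
  83380)))))))))) (.N (.N (.N (.N (.N (.N (.N (.N (.N (.N (.L 112267484) (.D 67000)) (.D 55819))
  (.D 55563)) (.D 55435)) (.D 34220)) (.N (.D 18090) (.N (.N (.N (.N (.D 19626) (.L 111289045))
  (.D 55819)) (.D 55563)) (.D 55435)))) (.N (.N (.D 1833) (.N (.N (.N (.N (.D 3369) (.L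
  111550677)) (.D 55819)) (.D 55563)) (.D 55435))) (.N (.N (.N (.N (.N (.D 3625) (.L 111808725))
  (.D 55819)) (.D 55563)) (.D 55435)) (.N (.N (.N (.N (.L 112267477) (.L 112267474)) (.D 55819))
  (.D 55563)) (.D 55435))))) (.D 54027)) (.D 53899)) (.N (.D 53645) (.N (.D 53646) (.N (.N (.N (.N
  (.D 53657) (.N (.D 53658) (.N (.D 53660) (.N (.L 112075278) (.D 67000))))) (.D 34220)) (.N (.D
  18090) (.N (.D 53657) (.N (.D 53658) (.N (.D 53660) (.N (.D 19626) (.L 101784265))))))) (.N (.N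
  (.D 1833) (.N (.D 53657) (.N (.D 53658) (.N (.D 53660) (.N (.D 3369) (.L 103877321)))))) (.N (.N
  (.D 53657) (.N (.D 53658) (.N (.D 53660) (.N (.D 3625) (.L 105941705))))) (.N (.D 53657) (.N (.D
  53658) (.N (.D 53660) (.N (.L 109611721) (.L 109611718))))))))))))

def sx20 : CT :=
  .N (.N (.N (.N (.N (.N (.N (.N (.N (.N (.N (.L 111817238) (.D 7181)) (.D 6669)) (.D 66994)) (.D
  66993)) (.D 34220)) (.N (.D 18090) (.N (.N (.D 51626) (.N (.D 5653) (.N (.D 5657) (.L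
  111220939)))) (.D 66993)))) (.N (.N (.D 1833) (.N (.D 51625) (.N (.N (.D 5653) (.N (.D 5657) (.L
  111478987))) (.D 66994)))) (.N (.N (.D 51625) (.N (.D 51626) (.N (.N (.L 111817228) (.D 7181))
  (.D 6669)))) (.N (.D 51625) (.N (.D 51626) (.N (.D 5653) (.N (.D 5657) (.L 106203337)))))))) (.D
  54027)) (.D 53899)) (.N (.D 53645) (.N (.D 53646) (.N (.N (.N (.N (.D 19619) (.N (.D 3363) (.N
  (.N (.L 112017931) (.D 7181)) (.D 6669)))) (.D 34220)) (.N (.D 18090) (.N (.D 19619) (.N (.N (.D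
  5653) (.N (.D 5657) (.L 109924871))) (.N (.D 5653) (.N (.D 5657) (.L 107128900))))))) (.N (.N
  (.D 1833) (.N (.N (.D 3363) (.N (.D 5653) (.N (.D 5657) (.L 108089863)))) (.N (.D 3363) (.N (.D
  5653) (.N (.D 5657) (.L 107390980)))))) (.N (.N (.N (.N (.N (.L 112275979) (.D 7181)) (.D 6669))
  (.N (.D 19122) (.D 6669))) (.N (.N (.D 2865) (.D 6669)) (.N (.N (.L 106312201) (.D 7181)) (.D
  6669)))) (.N (.N (.N (.D 5653) (.D 35252)) (.N (.D 5653) (.N (.D 5657) (.L 109225540)))) (.N (.N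
  (.D 5653) (.N (.D 5657) (.L 109487620))) (.N (.D 5653) (.N (.D 5657) (.L 106008898)))))))))))
  (.N (.N (.N (.N (.N (.N (.N (.N (.N (.N (.L 111708371) (.D 67000)) (.D 66996)) (.D 66994)) (.D
  66993)) (.D 34220)) (.N (.D 18090) (.N (.N (.D 51626) (.N (.D 51628) (.N (.D 19626) (.L
  111220938)))) (.D 66993)))) (.N (.N (.D 1833) (.N (.D 51625) (.N (.N (.D 51628) (.N (.D 3369)
  (.L 111478986))) (.D 66994)))) (.N (.N (.D 51625) (.N (.D 51626) (.N (.N (.D 3625) (.L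
  111708362)) (.D 66996)))) (.N (.D 51625) (.N (.D 51626) (.N (.D 51628) (.N (.L 111708361) (.L
  111708358)))))))) (.D 54027)) (.D 53899)) (.N (.D 53645) (.N (.D 53646) (.N (.N (.N (.N (.D
  19619) (.N (.D 3363) (.N (.D 3621) (.N (.L 112005384) (.D 67000))))) (.D 34220)) (.N (.D 18090)
  (.N (.D 19619) (.N (.N (.D 2865) (.N (.D 19626) (.L 111543940))) (.N (.N (.D 19626) (.L
  111806020)) (.N (.D 19626) (.L 102081282))))))) (.N (.N (.D 1833) (.N (.N (.D 3363) (.N (.D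
  19122) (.N (.D 3369) (.L 111285892)))) (.N (.D 3363) (.N (.N (.D 3369) (.L 111810052)) (.N (.D
  3369) (.L 104177922)))))) (.N (.N (.N (.N (.D 3621) (.D 35252)) (.N (.D 3621) (.N (.D 3625) (.L
  111289924)))) (.N (.N (.D 3621) (.N (.D 3625) (.L 111552004))) (.N (.D 3621) (.N (.D 3625) (.L
  106270978))))) (.N (.N (.N (.N (.L 112267464) (.D 51640)) (.D 35252)) (.N (.D 19122) (.N (.D
  19634) (.L 102113986)))) (.N (.N (.D 2865) (.N (.D 3377) (.L 104210626))) (.N (.N (.D 3633) (.L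
  106303682)) (.N (.L 112304643) (.L 105142465)))))))))))

def sx21 : CT :=
  .N (.N (.N (.N (.N (.N (.N (.N (.N (.N (.N (.N (.N (.L 112304667) (.D 7179)) (.D 6669)) (.D
  6411)) (.D 22667)) (.D 34220)) (.N (.D 18090) (.N (.N (.D 5395) (.N (.D 5653) (.N (.L 111293521)
  (.D 23563)))) (.D 22667)))) (.N (.N (.D 1833) (.N (.D 21651) (.N (.N (.D 5653) (.N (.L
  111555601) (.D 7179))) (.D 6411)))) (.N (.N (.D 21651) (.N (.D 5395) (.N (.N (.L 111817233) (.D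
  7181)) (.D 6669)))) (.N (.D 21651) (.N (.D 5395) (.N (.D 5653) (.N (.L 110010894) (.D
  83384)))))))) (.D 54027)) (.D 53899)) (.N (.D 53645) (.N (.D 53646) (.N (.N (.N (.N (.N (.N (.N
  (.L 112304660) (.D 7179)) (.D 6669)) (.D 6411)) (.D 22667)) (.D 34220)) (.N (.D 18090) (.N (.N
  (.D 5395) (.N (.D 5653) (.N (.L 109859915) (.D 23563)))) (.D 22667)))) (.N (.N (.D 1833) (.N (.D
  21651) (.N (.N (.D 5653) (.N (.L 109892619) (.D 7179))) (.D 6411)))) (.N (.N (.D 21651) (.N (.D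
  5395) (.N (.N (.L 109924875) (.D 7181)) (.D 6669)))) (.N (.D 21651) (.N (.D 5395) (.N (.D 5653)
  (.N (.L 109908296) (.D 83384))))))))))) (.D 34204)) (.N (.D 18074) (.N (.N (.N (.N (.N (.N (.N
  (.N (.N (.N (.L 111293526) (.D 23563)) (.D 66996)) (.D 66994)) (.D 22667)) (.D 34220)) (.N (.D
  18090) (.N (.N (.D 51626) (.N (.D 51628) (.N (.L 111293516) (.D 23563)))) (.D 22667)))) (.N (.N
  (.D 1833) (.N (.D 21651) (.N (.N (.D 51628) (.N (.D 21658) (.L 111421643))) (.D 66994)))) (.N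
  (.N (.D 21651) (.N (.D 51626) (.N (.N (.D 21658) (.L 111679691)) (.D 66996)))) (.N (.D 21651)
  (.N (.D 51626) (.N (.D 51628) (.N (.D 21658) (.L 102045897)))))))) (.D 54027)) (.D 53899)) (.N
  (.D 53645) (.N (.D 53646) (.N (.N (.N (.N (.N (.D 3363) (.N (.D 3621) (.N (.L 111952971) (.D
  23563)))) (.D 22667)) (.D 34220)) (.N (.D 18090) (.N (.N (.N (.N (.L 112211019) (.D 23563)) (.D
  35252)) (.N (.D 19122) (.N (.L 102118473) (.D 23563)))) (.D 22667)))) (.N (.N (.D 1833) (.N (.D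
  21651) (.N (.D 3363) (.N (.N (.D 21658) (.L 112275975)) (.N (.D 21658) (.L 107382916)))))) (.N
  (.N (.D 21651) (.N (.N (.D 3621) (.N (.D 21658) (.L 112017927))) (.N (.D 3621) (.N (.D 21658)
  (.L 107644996))))) (.N (.D 21651) (.N (.N (.D 2865) (.N (.D 21658) (.L 109479556))) (.N (.N (.D
  21658) (.L 109741636)) (.N (.D 21658) (.L 101819202))))))))))))) (.N (.N (.D 1817) (.N (.N (.N
  (.N (.N (.N (.N (.N (.N (.N (.L 111555606) (.D 7179)) (.D 66996)) (.D 6411)) (.D 66993)) (.D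
  34220)) (.N (.D 18090) (.N (.N (.D 5395) (.N (.D 51628) (.N (.D 5401) (.L 111192267)))) (.D
  66993)))) (.N (.N (.D 1833) (.N (.D 51625) (.N (.N (.D 51628) (.N (.L 111555596) (.D 7179))) (.D
  6411)))) (.N (.N (.D 51625) (.N (.D 5395) (.N (.N (.D 5401) (.L 111708363)) (.D 66996)))) (.N
  (.D 51625) (.N (.D 5395) (.N (.D 51628) (.N (.D 5401) (.L 104138953)))))))) (.D 54027)) (.D
  53899)) (.N (.D 53645) (.N (.D 53646) (.N (.N (.N (.N (.D 19619) (.N (.N (.D 3621) (.N (.L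
  111985675) (.D 7179))) (.D 6411))) (.D 34220)) (.N (.D 18090) (.N (.D 19619) (.N (.D 5395) (.N
  (.N (.D 5401) (.L 110440967)) (.N (.D 5401) (.L 107124868))))))) (.N (.N (.D 1833) (.N (.N (.N
  (.N (.L 112243723) (.D 7179)) (.D 35252)) (.D 6411)) (.N (.N (.D 2865) (.N (.L 104215561) (.D
  7179))) (.D 6411)))) (.N (.N (.N (.D 5395) (.N (.D 3621) (.N (.D 5401) (.L 108347911)))) (.N (.D
  5395) (.N (.D 3621) (.N (.D 5401) (.L 107649028))))) (.N (.N (.D 5395) (.N (.D 19122) (.N (.D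
  5401) (.L 109221508)))) (.N (.D 5395) (.N (.N (.D 5401) (.L 109745668)) (.N (.D 5401) (.L
  103915842)))))))))))) sx20)

def sx22 : CT :=
  .N (.N (.N sx6 (.N (.N (.N (.N sx7 (.D 67353)) (.N sx8 (.D 67353))) (.D 67349)) (.D 67347))) (.N
  (.N (.N (.N sx9 (.D 51981)) (.N sx10 (.D 67222))) (.D 67219)) (.N (.N (.N sx11 (.D 51981)) (.N
  (.D 51854) sx12)) (.D 67219)))) (.N (.N (.N (.N (.N sx13 (.D 51979)) (.D 51851)) (.N (.N sx14
  (.D 66966)) (.D 66965))) (.N (.N (.N sx15 (.D 51979)) (.D 51851)) (.N (.N (.D 51598) sx16) (.D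
  66965)))) (.N (.N (.N (.N sx17 (.D 51979)) (.D 51851)) (.N (.D 51597) (.N sx18 (.D 66966)))) (.N
  (.N (.N (.N (.N (.N (.N (.N (.N (.N (.N (.N (.N (.N (.N (.N (.L 112267490) (.D 7179)) (.D
  55819)) (.D 6411)) (.D 22667)) (.D 34220)) (.N (.D 18090) (.N (.N (.N (.N (.L 110371550) (.D
  23563)) (.D 55819)) (.D 55563)) (.D 22667)))) (.N (.N (.D 1833) (.N (.N (.N (.N (.L 110403806)
  (.D 7179)) (.D 55819)) (.D 6411)) (.D 55435))) (.N (.N (.N (.N (.N (.L 110432478) (.D 7181)) (.D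
  55819)) (.D 55563)) (.D 55435)) (.N (.N (.N (.N (.L 110432476) (.D 83384)) (.D 55819)) (.D
  55563)) (.D 55435))))) (.D 54027)) (.D 53899)) (.N (.D 53645) (.N (.D 53646) (.N (.N (.N (.N (.N
  (.N (.N (.L 110469659) (.D 7179)) (.D 6669)) (.D 6411)) (.D 22667)) (.D 34220)) (.N (.D 18090)
  (.N (.N (.N (.N (.L 109229142) (.D 23563)) (.D 83380)) (.D 83378)) (.D 22667)))) (.N (.N (.D
  1833) (.N (.N (.N (.N (.L 109491222) (.D 7179)) (.D 83380)) (.D 6411)) (.D 83377))) (.N (.N (.N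
  (.N (.N (.L 109752854) (.D 7181)) (.D 6669)) (.D 83378)) (.D 83377)) (.N (.N (.N (.N (.L
  109611731) (.D 83384)) (.D 83380)) (.D 83378)) (.D 83377)))))))) (.D 34204)) (.N (.D 18074) (.N
  (.N (.N (.N (.N (.N (.N (.N (.N (.N (.L 112206558) (.D 23563)) (.D 55819)) (.D 55563)) (.D
  22667)) (.D 34220)) (.N (.D 18090) (.N (.N (.N (.N (.L 112206554) (.D 23563)) (.D 55819)) (.D
  55563)) (.D 22667)))) (.N (.N (.D 1833) (.N (.N (.N (.N (.D 21658) (.L 111543511)) (.D 55819))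
  (.D 55563)) (.D 55435))) (.N (.N (.N (.N (.N (.D 21658) (.L 111805143)) (.D 55819)) (.D 55563))
  (.D 55435)) (.N (.N (.N (.N (.D 21658) (.L 109224661)) (.D 55819)) (.D 55563)) (.D 55435)))))
  (.D 54027)) (.D 53899)) (.N (.D 53645) (.N (.D 53646) (.N (.N (.N (.N (.N (.D 53658) (.N (.D
  53660) (.N (.L 109229137) (.D 23563)))) (.D 22667)) (.D 34220)) (.N (.D 18090) (.N (.N (.D
  53658) (.N (.D 53660) (.N (.L 109229132) (.D 23563)))) (.D 22667)))) (.N (.N (.D 1833) (.N (.N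
  (.D 53658) (.N (.D 53660) (.N (.D 21658) (.L 109095627)))) (.D 83377))) (.N (.N (.N (.D 53658)
  (.N (.D 53660) (.N (.D 21658) (.L 109124299)))) (.D 83377)) (.N (.N (.D 53658) (.N (.D 53660)
  (.N (.D 21658) (.L 109124298)))) (.D 83377)))))))))) sx19) (.D 51979)) (.D 51851)) (.N (.D
  51597) (.N (.D 51598) sx21)))))

def sx23 : CT :=
  .N (.N (.N (.N (.N (.N (.N (.N (.N (.N (.N (.N (.N (.N (.N (.L 112304677) (.D 7175)) (.D 6663))
  (.D 6407)) (.D 22663)) (.D 5639)) (.D 5383)) (.D 21639)) (.N (.N (.N (.N (.N (.N (.N (.L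
  110003300) (.D 23559)) (.D 23047)) (.D 39175)) (.D 22663)) (.D 22023)) (.D 38151)) (.D 21639)))
  (.N (.N (.N (.N (.N (.N (.N (.N (.L 110007332) (.D 7175)) (.D 6663)) (.D 6407)) (.D 39047)) (.D
  5639)) (.D 5383)) (.D 38023)) (.N (.N (.N (.N (.N (.N (.N (.L 110006434) (.D 39943)) (.D 82868))
  (.D 39175)) (.D 39047)) (.D 82860)) (.D 38151)) (.D 38023)))) (.N (.N (.N (.N (.N (.N (.N (.N
  (.N (.L 110010916) (.D 7175)) (.D 6663)) (.D 6407)) (.D 22663)) (.D 5639)) (.D 5383)) (.D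
  21639)) (.N (.N (.N (.N (.N (.N (.N (.L 110010466) (.D 23559)) (.D 23047)) (.D 82866)) (.D
  22663)) (.D 22023)) (.D 82858)) (.D 21639))) (.N (.N (.N (.N (.N (.N (.N (.N (.L 110010914) (.D
  7175)) (.D 6663)) (.D 6407)) (.D 82865)) (.D 5639)) (.D 5383)) (.D 82857)) (.N (.N (.N (.N (.N
  (.N (.N (.L 110010911) (.D 7203)) (.D 82868)) (.D 82866)) (.D 82865)) (.D 82860)) (.D 82858))
  (.D 82857))))) (.D 3591)) (.D 3335)) (.D 19591)) (.N (.N (.N (.N (.N (.N (.N (.N (.N (.N (.N (.N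
  (.N (.L 112067684) (.D 23559)) (.D 23047)) (.D 39175)) (.D 22663)) (.D 5639)) (.D 5383)) (.D
  21639)) (.N (.N (.N (.N (.N (.N (.N (.L 108397667) (.D 23559)) (.D 23047)) (.D 39175)) (.D
  22663)) (.D 22023)) (.D 38151)) (.D 21639))) (.N (.N (.N (.N (.N (.N (.N (.D 21142) (.N (.L
  108314784) (.D 39943))) (.D 39175)) (.D 39047)) (.D 5639)) (.D 5383)) (.D 38023)) (.N (.N (.N
  (.N (.N (.N (.D 21142) (.N (.L 108024478) (.D 39943))) (.D 39175)) (.D 39047)) (.D 82860)) (.D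
  38151)) (.D 38023)))) (.N (.N (.N (.N (.N (.N (.N (.D 37270) (.N (.N (.L 108347488) (.D 23559))
  (.D 23047))) (.D 22663)) (.D 5639)) (.D 5383)) (.D 21639)) (.N (.N (.N (.N (.N (.D 37270) (.N
  (.N (.L 108024926) (.D 23559)) (.D 23047))) (.D 22663)) (.D 22023)) (.D 82858)) (.D 21639))) (.N
  (.N (.N (.N (.N (.N (.D 37270) (.N (.D 21142) (.N (.L 108024923) (.D 23587)))) (.D 82865)) (.D
  5639)) (.D 5383)) (.D 82857)) (.N (.N (.N (.N (.N (.D 37270) (.N (.D 21142) (.N (.L 108024921)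
  (.D 23587)))) (.D 82865)) (.D 82860)) (.D 82858)) (.D 82857))))) (.D 19975)) (.D 36103)) (.D
  19591))) (.N (.N (.N (.N (.N (.N (.N (.N (.N (.N (.N (.N (.N (.N (.L 112071716) (.D 7175)) (.D
  6663)) (.D 6407)) (.D 39047)) (.D 5639)) (.D 5383)) (.D 21639)) (.N (.N (.N (.N (.N (.N (.D
  4885) (.N (.L 108056736) (.D 39943))) (.D 39175)) (.D 39047)) (.D 22023)) (.D 38151)) (.D
  21639))) (.N (.N (.N (.N (.N (.N (.N (.N (.L 108401699) (.D 7175)) (.D 6663)) (.D 6407)) (.D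
  39047)) (.D 5639)) (.D 5383)) (.D 38023)) (.N (.N (.N (.N (.N (.N (.D 4885) (.N (.L 108056734)
  (.D 39943))) (.D 39175)) (.D 39047)) (.D 82860)) (.D 38151)) (.D 38023)))) (.N (.N (.N (.N (.N
  (.N (.D 37269) (.N (.N (.N (.L 108347936) (.D 7175)) (.D 6663)) (.D 6407))) (.D 5639)) (.D
  5383)) (.D 21639)) (.N (.N (.N (.N (.D 37269) (.N (.N (.D 4885) (.N (.L 108057627) (.D 7203)))
  (.D 82866))) (.D 22023)) (.D 82858)) (.D 21639))) (.N (.N (.N (.N (.N (.D 37269) (.N (.N (.N (.L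
  108057630) (.D 7175)) (.D 6663)) (.D 6407))) (.D 5639)) (.D 5383)) (.D 82857)) (.N (.N (.N (.N
  (.D 37269) (.N (.N (.D 4885) (.N (.L 108057625) (.D 7203))) (.D 82866))) (.D 82860)) (.D 82858))
  (.D 82857))))) (.D 3591)) (.D 3335)) (.D 35975)) (.N (.N (.N (.N (.N (.N (.N (.N (.N (.N (.N (.N
  (.N (.L 112070818) (.D 39943)) (.D 66484)) (.D 39175)) (.D 39047)) (.D 5639)) (.D 5383)) (.D
  21639)) (.N (.N (.N (.N (.N (.N (.D 19110) (.N (.L 108282526) (.D 39943))) (.D 39175)) (.D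
  39047)) (.D 22023)) (.D 38151)) (.D 21639))) (.N (.N (.N (.N (.N (.N (.N (.D 2853) (.N (.L
  108314782) (.D 39943))) (.D 39175)) (.D 39047)) (.D 5639)) (.D 5383)) (.D 38023)) (.N (.N (.N
  (.N (.N (.N (.N (.L 108400798) (.D 39943)) (.N (.L 108400796) (.D 39943))) (.D 39175)) (.D
  39047)) (.D 82860)) (.D 38151)) (.D 38023)))) (.N (.N (.N (.N (.N (.N (.D 37269) (.N (.D 37270)
  (.N (.N (.L 108347931) (.D 7189)) (.D 66484)))) (.D 5639)) (.D 5383)) (.D 21639)) (.N (.N (.N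
  (.N (.D 37269) (.N (.D 37270) (.N (.D 19110) (.N (.L 107128918) (.D 66488))))) (.D 22023)) (.D
  82858)) (.D 21639))) (.N (.N (.N (.N (.N (.D 37269) (.N (.D 37270) (.N (.D 2853) (.N (.L
  107390998) (.D 66488))))) (.D 5639)) (.D 5383)) (.D 82857)) (.N (.N (.N (.N (.D 37269) (.N (.D
  37270) (.N (.N (.L 108175894) (.D 7189)) (.N (.L 108038803) (.D 66488))))) (.D 82860)) (.D
  82858)) (.D 82857))))) (.D 66460)) (.D 36103)) (.D 35975)))

def sx24 : CT :=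
  .N (.N (.N (.N (.N (.N (.N (.N (.N (.N (.N (.N (.N (.N (.L 112075298) (.D 7175)) (.D 6663)) (.D
  6407)) (.D 66481)) (.D 5639)) (.D 5383)) (.D 21639)) (.N (.N (.N (.N (.N (.D 4883) (.N (.D 4885)
  (.N (.L 108282971) (.D 23571)))) (.D 66481)) (.D 22023)) (.D 38151)) (.D 21639))) (.N (.N (.N
  (.N (.N (.D 35237) (.N (.N (.N (.L 108315678) (.D 7175)) (.D 6663)) (.D 6407))) (.D 5639)) (.D
  5383)) (.D 38023)) (.N (.N (.N (.N (.D 35237) (.N (.D 4883) (.N (.D 4885) (.N (.L 107358742) (.D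
  66488))))) (.D 82860)) (.D 38151)) (.D 38023)))) (.N (.N (.N (.N (.N (.N (.D 19107) (.N (.N (.N
  (.L 108347934) (.D 7175)) (.D 6663)) (.D 6407))) (.D 5639)) (.D 5383)) (.D 21639)) (.N (.N (.N
  (.N (.D 19107) (.N (.D 4883) (.N (.D 4885) (.N (.L 107616790) (.D 66488))))) (.D 22023)) (.D
  82858)) (.D 21639))) (.N (.N (.N (.N (.N (.N (.N (.N (.L 108405278) (.D 7175)) (.D 6663)) (.D
  6407)) (.N (.N (.N (.L 108405276) (.D 7175)) (.D 6663)) (.D 6407))) (.D 5639)) (.D 5383)) (.D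
  82857)) (.N (.N (.N (.N (.N (.D 4883) (.N (.D 4885) (.N (.L 108075542) (.D 23571)))) (.N (.D
  4883) (.N (.D 4885) (.N (.L 108075539) (.D 66488))))) (.D 82860)) (.D 82858)) (.D 82857))))) (.D
  3591)) (.D 3335)) (.D 66457)) (.N (.N (.N (.N (.N (.N (.N (.N (.N (.N (.N (.N (.N (.L 112075295)
  (.D 7187)) (.D 66484)) (.D 66482)) (.D 66481)) (.D 5639)) (.D 5383)) (.D 21639)) (.N (.N (.N (.N
  (.N (.D 35238) (.N (.D 19110) (.N (.L 108282969) (.D 23571)))) (.D 66481)) (.D 22023)) (.D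
  38151)) (.D 21639))) (.N (.N (.N (.N (.N (.D 35237) (.N (.N (.D 2853) (.N (.L 108315673) (.D
  7187))) (.D 66482))) (.D 5639)) (.D 5383)) (.D 38023)) (.N (.N (.N (.N (.D 35237) (.N (.D 35238)
  (.N (.N (.L 108405270) (.D 7189)) (.N (.L 108300435) (.D 66488))))) (.D 82860)) (.D 38151)) (.D
  38023)))) (.N (.N (.N (.N (.N (.N (.D 19107) (.N (.D 2851) (.N (.N (.L 108347929) (.D 7189)) (.D
  66484)))) (.D 5639)) (.D 5383)) (.D 21639)) (.N (.N (.N (.N (.D 19107) (.N (.N (.D 19110) (.N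
  (.L 108401686) (.D 7187))) (.N (.D 19110) (.N (.L 108333139) (.D 66488))))) (.D 22023)) (.D
  82858)) (.D 21639))) (.N (.N (.N (.N (.N (.N (.D 2851) (.N (.D 2853) (.N (.L 108337174) (.D
  23571)))) (.N (.D 2851) (.N (.D 2853) (.N (.L 108337171) (.D 66488))))) (.D 5639)) (.D 5383))
  (.D 82857)) (.N (.N (.N (.N (.N (.N (.N (.L 108405273) (.D 7187)) (.D 35252)) (.N (.D 19122) (.N
  (.L 108397651) (.D 23571)))) (.N (.N (.D 2865) (.N (.L 108401683) (.D 7187))) (.N (.N (.L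
  108405267) (.D 7189)) (.N (.L 108405263) (.D 66488))))) (.D 82860)) (.D 82858)) (.D 82857)))))
  (.D 66460)) (.D 66458)) (.D 66457))

def sx25 : CT :=
  .N (.N (.N (.N (.N (.N (.N (.N (.N (.N (.N (.N (.N (.N (.N (.L 112297060) (.D 23559)) (.D 6663))
  (.D 6407)) (.D 22663)) (.D 22023)) (.D 38151)) (.D 21639)) (.N (.N (.N (.N (.N (.N (.N (.L
  110462051) (.D 23559)) (.D 23047)) (.D 39175)) (.D 22663)) (.D 22023)) (.D 38151)) (.D 21639)))
  (.N (.N (.N (.N (.D 21134) (.N (.N (.N (.N (.L 110407840) (.D 39943)) (.D 6663)) (.D 6407)) (.D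
  39047))) (.D 38151)) (.D 38023)) (.N (.N (.N (.D 21134) (.N (.N (.N (.N (.L 109859486) (.D
  39943)) (.D 82868)) (.D 39175)) (.D 39047))) (.D 38151)) (.D 38023)))) (.N (.N (.N (.N (.D
  37262) (.N (.N (.N (.N (.N (.L 110440544) (.D 23559)) (.D 6663)) (.D 6407)) (.D 22663)) (.D
  22023))) (.D 21639)) (.N (.N (.D 37262) (.N (.N (.N (.N (.N (.L 109859934) (.D 23559)) (.D
  23047)) (.D 82866)) (.D 22663)) (.D 22023))) (.D 21639))) (.N (.N (.N (.D 37262) (.N (.D 21134)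
  (.N (.N (.N (.N (.L 109859931) (.D 23587)) (.D 6663)) (.D 6407)) (.D 82865)))) (.D 82857)) (.N
  (.N (.D 37262) (.N (.D 21134) (.N (.N (.N (.N (.L 109859929) (.D 23587)) (.D 82868)) (.D 82866))
  (.D 82865)))) (.D 82857))))) (.D 19975)) (.D 36103)) (.D 19591)) (.N (.N (.N (.N (.N (.N (.N (.N
  (.N (.N (.N (.N (.N (.L 112297059) (.D 23559)) (.D 23047)) (.D 39175)) (.D 22663)) (.D 22023))
  (.D 38151)) (.D 21639)) (.N (.N (.N (.N (.N (.N (.N (.L 112297057) (.D 23559)) (.D 23047)) (.D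
  39175)) (.D 22663)) (.D 22023)) (.D 38151)) (.D 21639))) (.N (.N (.N (.N (.D 21134) (.N (.N (.N
  (.D 21142) (.N (.L 109859485) (.D 39943))) (.D 39175)) (.D 39047))) (.D 38151)) (.D 38023)) (.N
  (.N (.N (.D 21134) (.N (.N (.N (.D 21142) (.N (.L 109859482) (.D 39943))) (.D 39175)) (.D
  39047))) (.D 38151)) (.D 38023)))) (.N (.N (.N (.N (.D 37262) (.N (.N (.N (.D 37270) (.N (.N (.L
  109859933) (.D 23559)) (.D 23047))) (.D 22663)) (.D 22023))) (.D 21639)) (.N (.N (.D 37262) (.N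
  (.N (.N (.D 37270) (.N (.N (.L 109859930) (.D 23559)) (.D 23047))) (.D 22663)) (.D 22023))) (.D
  21639))) (.N (.N (.N (.D 37262) (.N (.D 21134) (.N (.N (.D 37270) (.N (.D 21142) (.N (.L
  109859924) (.D 23587)))) (.D 82865)))) (.D 82857)) (.N (.N (.D 37262) (.N (.D 21134) (.N (.N (.D
  37270) (.N (.D 21142) (.N (.L 109859920) (.D 23587)))) (.D 82865)))) (.D 82857))))) (.D 19975))
  (.D 36103)) (.D 19591))) (.N (.N (.N (.N (.D 19086) (.N (.N (.N (.N (.N (.N (.N (.N (.N (.N (.L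
  112242848) (.D 39943)) (.D 6663)) (.D 6407)) (.D 39047)) (.D 22023)) (.D 38151)) (.D 21639)) (.N
  (.N (.N (.N (.N (.N (.D 4885) (.N (.L 111952541) (.D 39943))) (.D 39175)) (.D 39047)) (.D
  22023)) (.D 38151)) (.D 21639))) (.N (.N (.N (.N (.D 21134) (.N (.N (.N (.N (.L 112242845) (.D
  39943)) (.D 6663)) (.D 6407)) (.D 39047))) (.D 38151)) (.D 38023)) (.N (.N (.N (.D 21134) (.N
  (.N (.N (.D 4885) (.N (.L 109415063) (.D 39943))) (.D 39175)) (.D 39047))) (.D 38151)) (.D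
  38023)))) (.N (.N (.N (.N (.D 37262) (.N (.N (.D 37269) (.N (.N (.N (.D 37276) (.L 111810072))
  (.D 6663)) (.D 6407))) (.D 22023))) (.D 21639)) (.N (.N (.D 37262) (.N (.N (.D 37269) (.N (.N
  (.D 4885) (.N (.D 37276) (.L 107092625))) (.D 82866))) (.D 22023))) (.D 21639))) (.N (.N (.N (.D
  37262) (.N (.D 21134) (.N (.D 37269) (.N (.N (.N (.D 37276) (.L 109415057)) (.D 6663)) (.D
  6407))))) (.D 82857)) (.N (.N (.D 37262) (.N (.D 21134) (.N (.D 37269) (.N (.N (.D 4885) (.N (.D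
  37276) (.L 109415053))) (.D 82866))))) (.D 82857)))))) (.D 36103)) (.D 35975)) (.N (.N (.N (.D
  19086) (.N (.N (.N (.N (.N (.N (.N (.N (.N (.N (.L 111952542) (.D 39943)) (.D 66484)) (.D
  39175)) (.D 39047)) (.D 22023)) (.D 38151)) (.D 21639)) (.N (.N (.N (.N (.N (.N (.D 19110) (.N
  (.L 111952538) (.D 39943))) (.D 39175)) (.D 39047)) (.D 22023)) (.D 38151)) (.D 21639))) (.N (.N
  (.N (.N (.D 21134) (.N (.N (.N (.D 2853) (.N (.L 111511703) (.D 39943))) (.D 39175)) (.D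
  39047))) (.D 38151)) (.D 38023)) (.N (.N (.N (.D 21134) (.N (.N (.N (.N (.L 112296599) (.D
  39943)) (.N (.L 107135637) (.D 39943))) (.D 39175)) (.D 39047))) (.D 38151)) (.D 38023)))) (.N
  (.N (.N (.N (.D 37262) (.N (.N (.D 37269) (.N (.D 37270) (.N (.N (.D 37276) (.L 107128913)) (.D
  66484)))) (.D 22023))) (.D 21639)) (.N (.N (.D 37262) (.N (.N (.D 37269) (.N (.D 37270) (.N (.D
  19110) (.N (.D 37276) (.L 107128908))))) (.D 22023))) (.D 21639))) (.N (.N (.N (.D 37262) (.N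
  (.D 21134) (.N (.D 37269) (.N (.D 37270) (.N (.D 2853) (.N (.D 37276) (.L 107006603))))))) (.D
  82857)) (.N (.N (.D 37262) (.N (.D 21134) (.N (.D 37269) (.N (.D 37270) (.N (.N (.D 37276) (.L
  107092619)) (.N (.D 37276) (.L 107092618))))))) (.D 82857)))))) (.D 36103)) (.D 35975)))

def sx26 : CT :=
  .N (.N (.N (.D 35214) (.N (.D 19086) (.N (.N (.N (.N (.N (.N (.N (.N (.N (.N (.L 111952987) (.D
  23571)) (.D 6663)) (.D 6407)) (.D 66481)) (.D 22023)) (.D 38151)) (.D 21639)) (.N (.N (.N (.N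
  (.N (.D 4883) (.N (.D 4885) (.N (.L 111952980) (.D 23571)))) (.D 66481)) (.D 22023)) (.D 38151))
  (.D 21639))) (.N (.N (.N (.N (.D 21134) (.N (.D 35237) (.N (.N (.N (.D 22682) (.L 111511697))
  (.D 6663)) (.D 6407)))) (.D 38151)) (.D 38023)) (.N (.N (.N (.D 21134) (.N (.D 35237) (.N (.D
  4883) (.N (.D 4885) (.N (.D 22682) (.L 107010187)))))) (.D 38151)) (.D 38023)))) (.N (.N (.N (.N
  (.D 37262) (.N (.N (.D 19107) (.N (.N (.N (.D 22682) (.L 111773777)) (.D 6663)) (.D 6407))) (.D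
  22023))) (.D 21639)) (.N (.N (.D 37262) (.N (.N (.D 19107) (.N (.D 4883) (.N (.D 4885) (.N (.D
  22682) (.L 107042891))))) (.D 22023))) (.D 21639))) (.N (.N (.N (.D 37262) (.N (.D 21134) (.N
  (.N (.N (.N (.L 112297041) (.D 23571)) (.D 6663)) (.D 6407)) (.N (.N (.N (.D 22682) (.L
  107136078)) (.D 6663)) (.D 6407))))) (.D 82857)) (.N (.N (.D 37262) (.N (.D 21134) (.N (.N (.D
  4883) (.N (.D 4885) (.N (.L 107107403) (.D 23571)))) (.N (.D 4883) (.N (.D 4885) (.N (.D 22682)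
  (.L 107094856))))))) (.D 82857))))))) (.D 66457)) (.N (.N (.D 35214) (.N (.D 19086) (.N (.N (.N
  (.N (.N (.N (.N (.N (.N (.N (.L 111952985) (.D 23571)) (.D 66484)) (.D 66482)) (.D 66481)) (.D
  22023)) (.D 38151)) (.D 21639)) (.N (.N (.N (.N (.N (.D 35238) (.N (.D 19110) (.N (.L 111952976)
  (.D 23571)))) (.D 66481)) (.D 22023)) (.D 38151)) (.D 21639))) (.N (.N (.N (.N (.D 21134) (.N
  (.D 35237) (.N (.N (.D 2853) (.N (.D 22682) (.L 111511693))) (.D 66482)))) (.D 38151)) (.D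
  38023)) (.N (.N (.N (.D 21134) (.N (.D 35237) (.N (.D 35238) (.N (.N (.D 22682) (.L 107124875))
  (.N (.D 22682) (.L 107124874)))))) (.D 38151)) (.D 38023)))) (.N (.N (.N (.N (.D 37262) (.N (.N
  (.D 19107) (.N (.D 2851) (.N (.N (.D 22682) (.L 111773773)) (.D 66484)))) (.D 22023))) (.D
  21639)) (.N (.N (.D 37262) (.N (.N (.D 19107) (.N (.N (.D 19110) (.N (.D 22682) (.L 107128907)))
  (.N (.D 19110) (.N (.D 22682) (.L 107128906))))) (.D 22023))) (.D 21639))) (.N (.N (.N (.D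
  37262) (.N (.D 21134) (.N (.N (.D 2851) (.N (.D 2853) (.N (.L 107136075) (.D 23571)))) (.N (.D
  2851) (.N (.D 2853) (.N (.D 22682) (.L 107127560))))))) (.D 82857)) (.N (.N (.D 37262) (.N (.D
  21134) (.N (.N (.N (.N (.L 112297037) (.D 23571)) (.D 35252)) (.N (.D 19122) (.N (.L 107136074)
  (.D 23571)))) (.N (.N (.D 2865) (.N (.D 22682) (.L 107135624))) (.N (.N (.D 22682) (.L
  107136072)) (.N (.D 22682) (.L 107136069))))))) (.D 82857))))))) (.D 66457))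

def sx27 : CT :=
  .N (.N sx23 (.N (.N (.N (.N (.N (.N (.N (.N (.N (.N (.N (.N (.N (.N (.N (.L 112075300) (.D
  7175)) (.D 6663)) (.D 6407)) (.D 22663)) (.D 5639)) (.D 5383)) (.D 21639)) (.N (.N (.N (.N (.N
  (.D 4883) (.N (.N (.L 108089440) (.D 23559)) (.D 23047))) (.D 22663)) (.D 22023)) (.D 38151))
  (.D 21639))) (.N (.N (.N (.N (.N (.D 21139) (.N (.N (.N (.L 108089888) (.D 7175)) (.D 6663)) (.D
  6407))) (.D 5639)) (.D 5383)) (.D 38023)) (.N (.N (.N (.N (.D 21139) (.N (.D 4883) (.N (.N (.L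
  108089883) (.D 7205)) (.D 82868)))) (.D 82860)) (.D 38151)) (.D 38023)))) (.N (.N (.N (.N (.N
  (.N (.N (.N (.N (.L 108405283) (.D 7175)) (.D 6663)) (.D 6407)) (.D 22663)) (.D 5639)) (.D
  5383)) (.D 21639)) (.N (.N (.N (.N (.N (.D 4883) (.N (.N (.L 108089438) (.D 23559)) (.D 23047)))
  (.D 22663)) (.D 22023)) (.D 82858)) (.D 21639))) (.N (.N (.N (.N (.N (.D 21139) (.N (.N (.N (.L
  108089886) (.D 7175)) (.D 6663)) (.D 6407))) (.D 5639)) (.D 5383)) (.D 82857)) (.N (.N (.N (.N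
  (.D 21139) (.N (.D 4883) (.N (.N (.L 108089881) (.D 7205)) (.D 82868)))) (.D 82860)) (.D 82858))
  (.D 82857))))) (.D 3591)) (.D 3335)) (.D 19591)) (.N (.N (.N (.N (.N (.N (.N (.N (.N (.N (.N (.N
  (.N (.L 112074850) (.D 23559)) (.D 23047)) (.D 66482)) (.D 22663)) (.D 5639)) (.D 5383)) (.D
  21639)) (.N (.N (.N (.N (.N (.D 35238) (.N (.N (.L 108282974) (.D 23559)) (.D 23047))) (.D
  22663)) (.D 22023)) (.D 38151)) (.D 21639))) (.N (.N (.N (.N (.N (.D 21139) (.N (.N (.D 21142)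
  (.N (.L 108315675) (.D 7187))) (.D 66482))) (.D 5639)) (.D 5383)) (.D 38023)) (.N (.N (.N (.N
  (.D 21139) (.N (.D 35238) (.N (.D 21142) (.N (.L 107096662) (.D 66488))))) (.D 82860)) (.D
  38151)) (.D 38023)))) (.N (.N (.N (.N (.N (.N (.N (.D 2851) (.N (.N (.L 108347486) (.D 23559))
  (.D 23047))) (.D 22663)) (.D 5639)) (.D 5383)) (.D 21639)) (.N (.N (.N (.N (.N (.N (.N (.L
  108404830) (.D 23559)) (.D 23047)) (.N (.N (.L 108404828) (.D 23559)) (.D 23047))) (.D 22663))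
  (.D 22023)) (.D 82858)) (.D 21639))) (.N (.N (.N (.N (.N (.D 21139) (.N (.D 2851) (.N (.D 21142)
  (.N (.L 107649046) (.D 66488))))) (.D 5639)) (.D 5383)) (.D 82857)) (.N (.N (.N (.N (.D 21139)
  (.N (.N (.D 21142) (.N (.L 108172310) (.D 7187))) (.N (.D 21142) (.N (.L 108071507) (.D
  66488))))) (.D 82860)) (.D 82858)) (.D 82857))))) (.D 19975)) (.D 66458)) (.D 19591))) sx24))
  (.N sx25 (.N (.N (.N (.N (.D 35214) (.N (.N (.N (.N (.N (.N (.N (.N (.N (.N (.N (.L 112275552)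
  (.D 23559)) (.D 6663)) (.D 6407)) (.D 22663)) (.D 22023)) (.D 38151)) (.D 21639)) (.N (.N (.N
  (.N (.N (.D 4883) (.N (.N (.L 111952989) (.D 23559)) (.D 23047))) (.D 22663)) (.D 22023)) (.D
  38151)) (.D 21639))) (.N (.N (.N (.N (.D 21134) (.N (.D 21139) (.N (.N (.N (.D 21146) (.L
  109745688)) (.D 6663)) (.D 6407)))) (.D 38151)) (.D 38023)) (.N (.N (.N (.D 21134) (.N (.D
  21139) (.N (.D 4883) (.N (.N (.D 21146) (.L 107096657)) (.D 82868))))) (.D 38151)) (.D 38023))))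
  (.N (.N (.N (.N (.D 37262) (.N (.N (.N (.N (.N (.L 112275549) (.D 23559)) (.D 6663)) (.D 6407))
  (.D 22663)) (.D 22023))) (.D 21639)) (.N (.N (.D 37262) (.N (.N (.N (.D 4883) (.N (.N (.L
  109677143) (.D 23559)) (.D 23047))) (.D 22663)) (.D 22023))) (.D 21639))) (.N (.N (.N (.D 37262)
  (.N (.D 21134) (.N (.D 21139) (.N (.N (.N (.D 21146) (.L 109677137)) (.D 6663)) (.D 6407)))))
  (.D 82857)) (.N (.N (.D 37262) (.N (.D 21134) (.N (.D 21139) (.N (.D 4883) (.N (.N (.D 21146)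
  (.L 109677133)) (.D 82868)))))) (.D 82857))))) (.D 19975))) (.D 19591)) (.N (.N (.D 35214) (.N
  (.N (.N (.N (.N (.N (.N (.N (.N (.N (.N (.L 111952990) (.D 23559)) (.D 23047)) (.D 66482)) (.D
  22663)) (.D 22023)) (.D 38151)) (.D 21639)) (.N (.N (.N (.N (.N (.D 35238) (.N (.N (.L
  111952986) (.D 23559)) (.D 23047))) (.D 22663)) (.D 22023)) (.D 38151)) (.D 21639))) (.N (.N (.N
  (.N (.D 21134) (.N (.D 21139) (.N (.N (.D 21142) (.N (.D 21146) (.L 107124881))) (.D 66482))))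
  (.D 38151)) (.D 38023)) (.N (.N (.N (.D 21134) (.N (.D 21139) (.N (.D 35238) (.N (.D 21142) (.N
  (.D 21146) (.L 107096652)))))) (.D 38151)) (.D 38023)))) (.N (.N (.N (.N (.D 37262) (.N (.N (.N
  (.D 2851) (.N (.N (.L 111773783) (.D 23559)) (.D 23047))) (.D 22663)) (.D 22023))) (.D 21639))
  (.N (.N (.D 37262) (.N (.N (.N (.N (.N (.L 112297047) (.D 23559)) (.D 23047)) (.N (.N (.L
  107136085) (.D 23559)) (.D 23047))) (.D 22663)) (.D 22023))) (.D 21639))) (.N (.N (.N (.D 37262)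
  (.N (.D 21134) (.N (.D 21139) (.N (.D 2851) (.N (.D 21142) (.N (.D 21146) (.L 107039307)))))))
  (.D 82857)) (.N (.N (.D 37262) (.N (.D 21134) (.N (.D 21139) (.N (.N (.D 21142) (.N (.D 21146)
  (.L 107096651))) (.N (.D 21142) (.N (.D 21146) (.L 107096650))))))) (.D 82857))))) (.D 19975)))
  (.D 19591))) sx26))

def sx28 : CT :=
  .N (.N (.N (.N (.N (.N (.N (.N (.N (.N (.N (.N (.N (.N (.N (.L 112301092) (.D 7175)) (.D 6663))
  (.D 6407)) (.D 22663)) (.D 5639)) (.D 5383)) (.D 38023)) (.N (.N (.N (.D 4877) (.N (.N (.N (.N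
  (.L 109891744) (.D 39943)) (.D 23047)) (.D 39175)) (.D 22663))) (.D 38151)) (.D 38023))) (.N (.N
  (.N (.N (.N (.N (.N (.N (.L 110466083) (.D 7175)) (.D 6663)) (.D 6407)) (.D 39047)) (.D 5639))
  (.D 5383)) (.D 38023)) (.N (.N (.N (.D 4877) (.N (.N (.N (.N (.L 109891742) (.D 39943)) (.D
  82868)) (.D 39175)) (.D 39047))) (.D 38151)) (.D 38023)))) (.N (.N (.N (.D 37261) (.N (.N (.N
  (.N (.N (.N (.L 110440992) (.D 7175)) (.D 6663)) (.D 6407)) (.D 22663)) (.D 5639)) (.D 5383)))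
  (.N (.D 37261) (.N (.N (.D 4877) (.N (.N (.N (.N (.L 109892635) (.D 7203)) (.D 23047)) (.D
  82866)) (.D 22663))) (.D 82858)))) (.N (.N (.D 37261) (.N (.N (.N (.N (.N (.N (.L 109892638) (.D
  7175)) (.D 6663)) (.D 6407)) (.D 82865)) (.D 5639)) (.D 5383))) (.N (.D 37261) (.N (.N (.D 4877)
  (.N (.N (.N (.N (.L 109892633) (.D 7203)) (.D 82868)) (.D 82866)) (.D 82865))) (.D 82858))))))
  (.D 3591)) (.D 3335)) (.D 35975)) (.N (.N (.N (.D 2829) (.N (.N (.N (.N (.N (.N (.N (.N (.N (.N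
  (.L 111984800) (.D 39943)) (.D 23047)) (.D 39175)) (.D 22663)) (.D 5639)) (.D 5383)) (.D 38023))
  (.N (.N (.N (.D 4877) (.N (.N (.N (.N (.L 112210589) (.D 39943)) (.D 23047)) (.D 39175)) (.D
  22663))) (.D 38151)) (.D 38023))) (.N (.N (.N (.N (.N (.N (.N (.D 21142) (.N (.L 111984797) (.D
  39943))) (.D 39175)) (.D 39047)) (.D 5639)) (.D 5383)) (.D 38023)) (.N (.N (.N (.D 4877) (.N (.N
  (.N (.D 21142) (.N (.L 107350679) (.D 39943))) (.D 39175)) (.D 39047))) (.D 38151)) (.D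
  38023)))) (.N (.N (.N (.D 37261) (.N (.N (.N (.N (.D 37270) (.N (.N (.D 37276) (.L 111777816))
  (.D 23047))) (.D 22663)) (.D 5639)) (.D 5383))) (.N (.D 37261) (.N (.N (.D 4877) (.N (.N (.D
  37270) (.N (.N (.D 37276) (.L 109157009)) (.D 23047))) (.D 22663))) (.D 82858)))) (.N (.N (.D
  37261) (.N (.N (.N (.N (.D 37270) (.N (.D 21142) (.N (.D 37276) (.L 107350673)))) (.D 82865))
  (.D 5639)) (.D 5383))) (.N (.D 37261) (.N (.N (.D 4877) (.N (.N (.D 37270) (.N (.D 21142) (.N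
  (.D 37276) (.L 107350669)))) (.D 82865))) (.D 82858))))))) (.D 36103)) (.D 35975))) (.N (.N (.N
  (.N (.N (.N (.N (.N (.N (.N (.N (.N (.N (.N (.L 112301091) (.D 7175)) (.D 6663)) (.D 6407)) (.D
  39047)) (.D 5639)) (.D 5383)) (.D 38023)) (.N (.N (.N (.D 4877) (.N (.N (.N (.D 4885) (.N (.L
  109891741) (.D 39943))) (.D 39175)) (.D 39047))) (.D 38151)) (.D 38023))) (.N (.N (.N (.N (.N
  (.N (.N (.N (.L 112301089) (.D 7175)) (.D 6663)) (.D 6407)) (.D 39047)) (.D 5639)) (.D 5383))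
  (.D 38023)) (.N (.N (.N (.D 4877) (.N (.N (.N (.D 4885) (.N (.L 109891738) (.D 39943))) (.D
  39175)) (.D 39047))) (.D 38151)) (.D 38023)))) (.N (.N (.N (.D 37261) (.N (.N (.N (.D 37269) (.N
  (.N (.N (.L 109892637) (.D 7175)) (.D 6663)) (.D 6407))) (.D 5639)) (.D 5383))) (.N (.D 37261)
  (.N (.N (.D 4877) (.N (.D 37269) (.N (.N (.D 4885) (.N (.L 109892628) (.D 7203))) (.D 82866))))
  (.D 82858)))) (.N (.N (.D 37261) (.N (.N (.N (.D 37269) (.N (.N (.N (.L 109892634) (.D 7175))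
  (.D 6663)) (.D 6407))) (.D 5639)) (.D 5383))) (.N (.D 37261) (.N (.N (.D 4877) (.N (.D 37269)
  (.N (.N (.D 4885) (.N (.L 109892624) (.D 7203))) (.D 82866)))) (.D 82858)))))) (.D 3591)) (.D
  3335)) (.D 35975)) (.N (.N (.N (.D 2829) (.N (.N (.N (.N (.N (.N (.N (.N (.N (.N (.L 111984798)
  (.D 39943)) (.D 66484)) (.D 39175)) (.D 39047)) (.D 5639)) (.D 5383)) (.D 38023)) (.N (.N (.N
  (.D 4877) (.N (.N (.N (.D 19110) (.N (.L 107382935) (.D 39943))) (.D 39175)) (.D 39047))) (.D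
  38151)) (.D 38023))) (.N (.N (.N (.N (.N (.N (.N (.D 2853) (.N (.L 111984794) (.D 39943))) (.D
  39175)) (.D 39047)) (.D 5639)) (.D 5383)) (.D 38023)) (.N (.N (.N (.D 4877) (.N (.N (.N (.N (.L
  112300183) (.D 39943)) (.N (.L 107397269) (.D 39943))) (.D 39175)) (.D 39047))) (.D 38151)) (.D
  38023)))) (.N (.N (.N (.D 37261) (.N (.N (.N (.D 37269) (.N (.D 37270) (.N (.N (.D 37276) (.L
  107390993)) (.D 66484)))) (.D 5639)) (.D 5383))) (.N (.D 37261) (.N (.N (.D 4877) (.N (.D 37269)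
  (.N (.D 37270) (.N (.D 19110) (.N (.D 37276) (.L 107235979)))))) (.D 82858)))) (.N (.N (.D
  37261) (.N (.N (.N (.D 37269) (.N (.D 37270) (.N (.D 2853) (.N (.D 37276) (.L 107390988))))) (.D
  5639)) (.D 5383))) (.N (.D 37261) (.N (.N (.D 4877) (.N (.D 37269) (.N (.D 37270) (.N (.N (.D
  37276) (.L 107350667)) (.N (.D 37276) (.L 107350666)))))) (.D 82858))))))) (.D 36103)) (.D
  35975)))

def sx29 : CT :=
  .N (.N (.D 35213) (.N (.N (.N (.N (.N (.N (.N (.N (.N (.N (.N (.N (.L 111985694) (.D 7175)) (.D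
  6663)) (.D 6407)) (.D 66481)) (.D 5639)) (.D 5383)) (.D 38023)) (.N (.N (.N (.D 4877) (.N (.N
  (.D 4883) (.N (.D 4885) (.N (.D 4889) (.L 107382929)))) (.D 66481))) (.D 38151)) (.D 38023)))
  (.N (.N (.N (.N (.N (.D 35237) (.N (.N (.N (.L 111985690) (.D 7175)) (.D 6663)) (.D 6407))) (.D
  5639)) (.D 5383)) (.D 38023)) (.N (.N (.N (.D 4877) (.N (.D 35237) (.N (.D 4883) (.N (.D 4885)
  (.N (.D 4889) (.L 107358732)))))) (.D 38151)) (.D 38023)))) (.N (.N (.N (.D 37261) (.N (.N (.N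
  (.D 19107) (.N (.N (.N (.L 111777815) (.D 7175)) (.D 6663)) (.D 6407))) (.D 5639)) (.D 5383)))
  (.N (.D 37261) (.N (.N (.D 4877) (.N (.D 19107) (.N (.D 4883) (.N (.D 4885) (.N (.D 4889) (.L
  107301387)))))) (.D 82858)))) (.N (.N (.D 37261) (.N (.N (.N (.N (.N (.N (.L 112301079) (.D
  7175)) (.D 6663)) (.D 6407)) (.N (.N (.N (.L 107398165) (.D 7175)) (.D 6663)) (.D 6407))) (.D
  5639)) (.D 5383))) (.N (.D 37261) (.N (.N (.D 4877) (.N (.N (.D 4883) (.N (.D 4885) (.N (.D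
  4889) (.L 107358731)))) (.N (.D 4883) (.N (.D 4885) (.N (.D 4889) (.L 107358730)))))) (.D
  82858)))))) (.D 3591)) (.D 3335))) (.N (.D 35213) (.N (.N (.D 2829) (.N (.N (.N (.N (.N (.N (.N
  (.N (.N (.N (.L 111985689) (.D 7187)) (.D 66484)) (.D 66482)) (.D 66481)) (.D 5639)) (.D 5383))
  (.D 38023)) (.N (.N (.N (.D 4877) (.N (.N (.D 35238) (.N (.D 19110) (.N (.D 6425) (.L
  107382925)))) (.D 66481))) (.D 38151)) (.D 38023))) (.N (.N (.N (.N (.N (.D 35237) (.N (.N (.D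
  2853) (.N (.L 111985680) (.D 7187))) (.D 66482))) (.D 5639)) (.D 5383)) (.D 38023)) (.N (.N (.N
  (.D 4877) (.N (.D 35237) (.N (.D 35238) (.N (.N (.D 6425) (.L 107382923)) (.N (.D 6425) (.L
  107382922)))))) (.D 38151)) (.D 38023)))) (.N (.N (.N (.D 37261) (.N (.N (.N (.D 19107) (.N (.D
  2851) (.N (.N (.D 6425) (.L 111777805)) (.D 66484)))) (.D 5639)) (.D 5383))) (.N (.D 37261) (.N
  (.N (.D 4877) (.N (.D 19107) (.N (.N (.D 19110) (.N (.L 107398155) (.D 7187))) (.N (.D 19110)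
  (.N (.D 6425) (.L 107389192)))))) (.D 82858)))) (.N (.N (.D 37261) (.N (.N (.N (.N (.D 2851) (.N
  (.D 2853) (.N (.D 6425) (.L 107390987)))) (.N (.D 2851) (.N (.D 2853) (.N (.D 6425) (.L
  107390986))))) (.D 5639)) (.D 5383))) (.N (.D 37261) (.N (.N (.D 4877) (.N (.N (.N (.N (.L
  112301069) (.D 7187)) (.D 35252)) (.N (.D 19122) (.N (.D 6425) (.L 107397256)))) (.N (.N (.D
  2865) (.N (.L 107398154) (.D 7187))) (.N (.N (.D 6425) (.L 107398152)) (.N (.D 6425) (.L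
  107398149)))))) (.D 82858))))))) (.D 66458)))

def sx30 : CT :=
  .N (.N (.N (.N (.D 1813) (.N (.N (.N (.N (.N (.N (.N (.N (.N (.N (.L 112242846) (.D 39943)) (.D
  6663)) (.D 6407)) (.D 39047)) (.D 50092)) (.D 38151)) (.D 38023)) (.N (.N (.N (.D 18086) (.N (.N
  (.N (.D 4885) (.N (.L 109479575) (.D 39943))) (.D 39175)) (.D 39047))) (.D 38151)) (.D 38023)))
  (.N (.N (.N (.N (.D 1829) (.N (.N (.N (.N (.L 112242842) (.D 39943)) (.D 6663)) (.D 6407)) (.D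
  39047))) (.D 38151)) (.D 38023)) (.N (.N (.N (.N (.N (.N (.D 4885) (.N (.L 112070807) (.D
  39943))) (.D 39175)) (.D 39047)) (.N (.N (.N (.D 4885) (.N (.L 109490325) (.D 39943))) (.D
  39175)) (.D 39047))) (.D 38151)) (.D 38023)))) (.N (.N (.N (.D 37261) (.N (.D 37262) (.N (.N (.D
  37269) (.N (.N (.N (.D 37276) (.L 109487633)) (.D 6663)) (.D 6407))) (.D 50092)))) (.N (.D
  37261) (.N (.D 37262) (.N (.D 18086) (.N (.D 37269) (.N (.N (.D 4885) (.N (.D 37276) (.L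
  109329035))) (.D 82866))))))) (.N (.N (.D 37261) (.N (.D 37262) (.N (.D 1829) (.N (.D 37269) (.N
  (.N (.N (.D 37276) (.L 109487628)) (.D 6663)) (.D 6407)))))) (.N (.D 37261) (.N (.D 37262) (.N
  (.N (.D 37269) (.N (.N (.D 4885) (.N (.D 37276) (.L 109415051))) (.D 82866))) (.N (.D 37269) (.N
  (.N (.D 4885) (.N (.D 37276) (.L 109415050))) (.D 82866)))))))))) (.D 36103)) (.D 35975)) (.N
  (.N (.N (.N (.N (.N (.N (.N (.N (.N (.N (.N (.N (.L 112300190) (.D 39943)) (.D 6669)) (.D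
  39175)) (.D 39047)) (.D 50092)) (.D 38151)) (.D 38023)) (.N (.N (.N (.D 18086) (.N (.N (.N (.D
  5653) (.N (.L 110002839) (.D 39943))) (.D 39175)) (.D 39047))) (.D 38151)) (.D 38023))) (.N (.N
  (.N (.N (.D 1829) (.N (.N (.N (.D 5653) (.N (.L 110006423) (.D 39943))) (.D 39175)) (.D 39047)))
  (.D 38151)) (.D 38023)) (.N (.N (.N (.N (.N (.N (.N (.L 112300186) (.D 39943)) (.D 6669)) (.D
  39175)) (.D 39047)) (.N (.N (.N (.D 5653) (.N (.L 110006421) (.D 39943))) (.D 39175)) (.D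
  39047))) (.D 38151)) (.D 38023)))) (.N (.N (.N (.D 37261) (.N (.D 37262) (.N (.N (.D 37269) (.N
  (.D 37270) (.N (.N (.L 110010897) (.D 7181)) (.D 6669)))) (.D 50092)))) (.N (.D 37261) (.N (.D
  37262) (.N (.D 18086) (.N (.D 37269) (.N (.D 37270) (.N (.D 5653) (.N (.L 109845131) (.D
  82872))))))))) (.N (.N (.D 37261) (.N (.D 37262) (.N (.D 1829) (.N (.D 37269) (.N (.D 37270) (.N
  (.D 5653) (.N (.L 109873803) (.D 82872)))))))) (.N (.D 37261) (.N (.D 37262) (.N (.N (.D 37269)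
  (.N (.D 37270) (.N (.N (.L 110010892) (.D 7181)) (.D 6669)))) (.N (.D 37269) (.N (.D 37270) (.N
  (.D 5653) (.N (.L 109873802) (.D 82872))))))))))) (.N (.N (.N (.N (.N (.N (.N (.N (.N (.N (.L
  112300188) (.D 39943)) (.D 66484)) (.D 39175)) (.D 39047)) (.D 50092)) (.D 38151)) (.D 38023))
  (.N (.N (.N (.D 18086) (.N (.N (.N (.D 19110) (.N (.L 111293077) (.D 39943))) (.D 39175)) (.D
  39047))) (.D 38151)) (.D 38023))) (.N (.N (.N (.N (.D 1829) (.N (.N (.N (.D 2853) (.N (.L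
  111554709) (.D 39943))) (.D 39175)) (.D 39047))) (.D 38151)) (.D 38023)) (.N (.N (.N (.N (.N (.N
  (.D 3621) (.N (.L 112070805) (.D 39943))) (.D 39175)) (.D 39047)) (.N (.N (.N (.N (.L 112300181)
  (.D 39943)) (.N (.L 112300178) (.D 39943))) (.D 39175)) (.D 39047))) (.D 38151)) (.D 38023))))
  (.N (.N (.N (.D 37261) (.N (.D 37262) (.N (.N (.D 37269) (.N (.D 37270) (.N (.N (.D 37276) (.L
  111817230)) (.D 66484)))) (.D 50092)))) (.N (.D 37261) (.N (.D 37262) (.N (.D 18086) (.N (.D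
  37269) (.N (.D 37270) (.N (.D 19110) (.N (.D 37276) (.L 101816969))))))))) (.N (.N (.D 37261)
  (.N (.D 37262) (.N (.D 1829) (.N (.D 37269) (.N (.D 37270) (.N (.D 2853) (.N (.D 37276) (.L
  103910025)))))))) (.N (.D 37261) (.N (.D 37262) (.N (.N (.D 37269) (.N (.D 37270) (.N (.D 3621)
  (.N (.D 37276) (.L 108038793))))) (.N (.D 37269) (.N (.D 37270) (.N (.N (.D 37276) (.L
  109873801)) (.N (.D 37276) (.L 109873798)))))))))))) (.D 36103)) (.D 35975))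

def sx31 : CT :=
  .N (.N (.N (.N (.N (.N (.N (.N (.N (.N (.N (.N (.N (.N (.N (.L 112300194) (.D 39943)) (.D 6663))
  (.D 6407)) (.D 22663)) (.D 50092)) (.D 38151)) (.D 38023)) (.N (.N (.N (.D 18086) (.N (.N (.N
  (.N (.L 110375582) (.D 39943)) (.D 23047)) (.D 39175)) (.D 22663))) (.D 38151)) (.D 38023))) (.N
  (.N (.N (.N (.D 1829) (.N (.N (.N (.N (.L 110407838) (.D 39943)) (.D 6663)) (.D 6407)) (.D
  39047))) (.D 38151)) (.D 38023)) (.N (.N (.N (.N (.N (.N (.N (.L 110465182) (.D 39943)) (.D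
  6669)) (.D 39175)) (.D 39047)) (.N (.N (.N (.N (.L 110465180) (.D 39943)) (.D 82868)) (.D
  39175)) (.D 39047))) (.D 38151)) (.D 38023)))) (.N (.N (.N (.D 37261) (.N (.D 37262) (.N (.N (.N
  (.N (.N (.L 110440987) (.D 7181)) (.D 6663)) (.D 6407)) (.D 22663)) (.D 50092)))) (.N (.D 37261)
  (.N (.D 37262) (.N (.D 18086) (.N (.N (.N (.N (.L 109225558) (.D 50104)) (.D 23047)) (.D 82866))
  (.D 22663)))))) (.N (.N (.D 37261) (.N (.D 37262) (.N (.D 1829) (.N (.N (.N (.N (.L 109487638)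
  (.D 50104)) (.D 6663)) (.D 6407)) (.D 82865))))) (.N (.D 37261) (.N (.D 37262) (.N (.N (.N (.N
  (.N (.L 110010902) (.D 7181)) (.D 6669)) (.D 82866)) (.D 82865)) (.N (.N (.N (.N (.L 109873811)
  (.D 50104)) (.D 82868)) (.D 82866)) (.D 82865)))))))) (.D 50076)) (.D 36103)) (.D 35975)) (.N
  (.N (.N (.D 18070) (.N (.N (.N (.N (.N (.N (.N (.N (.N (.N (.L 112210590) (.D 39943)) (.D
  23047)) (.D 39175)) (.D 22663)) (.D 50092)) (.D 38151)) (.D 38023)) (.N (.N (.N (.D 18086) (.N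
  (.N (.N (.N (.L 112210586) (.D 39943)) (.D 23047)) (.D 39175)) (.D 22663))) (.D 38151)) (.D
  38023))) (.N (.N (.N (.N (.D 1829) (.N (.N (.N (.D 21142) (.N (.L 111543959) (.D 39943))) (.D
  39175)) (.D 39047))) (.D 38151)) (.D 38023)) (.N (.N (.N (.N (.N (.N (.D 21142) (.N (.L
  112067223) (.D 39943))) (.D 39175)) (.D 39047)) (.N (.N (.N (.D 21142) (.N (.L 109228693) (.D
  39943))) (.D 39175)) (.D 39047))) (.D 38151)) (.D 38023)))) (.N (.N (.N (.D 37261) (.N (.D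
  37262) (.N (.N (.N (.D 37270) (.N (.N (.D 37276) (.L 109225553)) (.D 23047))) (.D 22663)) (.D
  50092)))) (.N (.D 37261) (.N (.D 37262) (.N (.D 18086) (.N (.N (.D 37270) (.N (.N (.D 37276) (.L
  109225548)) (.D 23047))) (.D 22663)))))) (.N (.N (.D 37261) (.N (.D 37262) (.N (.D 1829) (.N (.N
  (.D 37270) (.N (.D 21142) (.N (.D 37276) (.L 109099659)))) (.D 82865))))) (.N (.D 37261) (.N (.D
  37262) (.N (.N (.N (.D 37270) (.N (.D 21142) (.N (.D 37276) (.L 109157003)))) (.D 82865)) (.N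
  (.N (.D 37270) (.N (.D 21142) (.N (.D 37276) (.L 109157002)))) (.D 82865))))))))) (.D 36103))
  (.D 35975))) sx30

def sx32 : CT :=
  .N (.N (.D 35213) (.N (.D 35214) (.N (.N (.N (.N (.N (.N (.N (.N (.N (.N (.N (.L 112275995) (.D
  7181)) (.D 6663)) (.D 6407)) (.D 22663)) (.D 50092)) (.D 38151)) (.D 38023)) (.N (.N (.N (.D
  18086) (.N (.N (.D 4883) (.N (.N (.D 5657) (.L 111289937)) (.D 23047))) (.D 22663))) (.D 38151))
  (.D 38023))) (.N (.N (.N (.N (.D 1829) (.N (.D 21139) (.N (.N (.N (.D 5657) (.L 111552017)) (.D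
  6663)) (.D 6407)))) (.D 38151)) (.D 38023)) (.N (.N (.N (.N (.D 21139) (.N (.D 4883) (.N (.N (.L
  112075281) (.D 7181)) (.D 6669)))) (.N (.D 21139) (.N (.D 4883) (.N (.N (.D 5657) (.L
  109752846)) (.D 82868))))) (.D 38151)) (.D 38023)))) (.N (.N (.N (.D 37261) (.N (.D 37262) (.N
  (.N (.N (.N (.N (.L 112275988) (.D 7181)) (.D 6663)) (.D 6407)) (.D 22663)) (.D 50092)))) (.N
  (.D 37261) (.N (.D 37262) (.N (.D 18086) (.N (.N (.D 4883) (.N (.N (.D 5657) (.L 109598283)) (.D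
  23047))) (.D 22663)))))) (.N (.N (.D 37261) (.N (.D 37262) (.N (.D 1829) (.N (.D 21139) (.N (.N
  (.N (.D 5657) (.L 109630987)) (.D 6663)) (.D 6407)))))) (.N (.D 37261) (.N (.D 37262) (.N (.N
  (.D 21139) (.N (.D 4883) (.N (.N (.L 109695499) (.D 7181)) (.D 6669)))) (.N (.D 21139) (.N (.D
  4883) (.N (.N (.D 5657) (.L 109678920)) (.D 82868)))))))))) (.D 50076)))) (.N (.D 35213) (.N (.D
  35214) (.N (.D 18070) (.N (.N (.N (.N (.N (.N (.N (.N (.N (.N (.L 111289942) (.D 50104)) (.D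
  23047)) (.D 66482)) (.D 22663)) (.D 50092)) (.D 38151)) (.D 38023)) (.N (.N (.N (.D 18086) (.N
  (.N (.D 35238) (.N (.N (.D 35244) (.L 111289932)) (.D 23047))) (.D 22663))) (.D 38151)) (.D
  38023))) (.N (.N (.N (.N (.D 1829) (.N (.D 21139) (.N (.N (.D 21142) (.N (.D 35244) (.L
  111425675))) (.D 66482)))) (.D 38151)) (.D 38023)) (.N (.N (.N (.N (.D 21139) (.N (.D 35238) (.N
  (.D 21142) (.N (.L 111941771) (.D 66488))))) (.N (.D 21139) (.N (.D 35238) (.N (.D 21142) (.N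
  (.D 35244) (.L 102078601)))))) (.D 38151)) (.D 38023)))) (.N (.N (.N (.D 37261) (.N (.D 37262)
  (.N (.N (.N (.D 2851) (.N (.N (.D 3625) (.L 111691339)) (.D 23047))) (.D 22663)) (.D 50092))))
  (.N (.D 37261) (.N (.D 37262) (.N (.D 18086) (.N (.N (.N (.N (.L 112207435) (.D 50104)) (.D
  23047)) (.N (.N (.D 18098) (.L 102114889)) (.D 23047))) (.D 22663)))))) (.N (.N (.D 37261) (.N
  (.D 37262) (.N (.D 1829) (.N (.D 21139) (.N (.D 2851) (.N (.D 21142) (.N (.L 112304647) (.L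
  105285828)))))))) (.N (.D 37261) (.N (.D 37262) (.N (.N (.D 21139) (.N (.N (.D 21142) (.N (.D
  3625) (.L 111788551))) (.N (.D 21142) (.N (.D 3625) (.L 105809988))))) (.N (.D 21139) (.N (.N
  (.D 21142) (.N (.D 3377) (.L 103974532))) (.N (.D 21142) (.N (.L 110003268) (.L
  101790530))))))))))))))

def sx33 : CT :=
  .N (.N (.N (.N (.N (.N (.N (.N (.N (.N (.N (.L 112075286) (.D 7181)) (.D 6669)) (.D 66482)) (.D
  66481)) (.D 50092)) (.D 38151)) (.D 38023)) (.N (.N (.N (.D 18086) (.N (.N (.D 35238) (.N (.D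
  5653) (.N (.D 5657) (.L 111253643)))) (.D 66481))) (.D 38151)) (.D 38023))) (.N (.N (.N (.N (.D
  1829) (.N (.D 35237) (.N (.N (.D 5653) (.N (.D 5657) (.L 111511691))) (.D 66482)))) (.D 38151))
  (.D 38023)) (.N (.N (.N (.N (.D 35237) (.N (.D 35238) (.N (.N (.L 112075276) (.D 7181)) (.D
  6669)))) (.N (.D 35237) (.N (.D 35238) (.N (.D 5653) (.N (.D 5657) (.L 108300425)))))) (.D
  38151)) (.D 38023)))) (.N (.N (.N (.D 37261) (.N (.D 37262) (.N (.N (.D 19107) (.N (.D 2851) (.N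
  (.N (.L 111788555) (.D 7181)) (.D 6669)))) (.D 50092)))) (.N (.D 37261) (.N (.D 37262) (.N (.D
  18086) (.N (.D 19107) (.N (.N (.D 5653) (.N (.D 5657) (.L 109695495))) (.N (.D 5653) (.N (.D
  5657) (.L 105035844))))))))) (.N (.N (.D 37261) (.N (.D 37262) (.N (.D 1829) (.N (.N (.D 2851)
  (.N (.D 5653) (.N (.D 5657) (.L 106025479)))) (.N (.D 2851) (.N (.D 5653) (.N (.D 5657) (.L
  105297924)))))))) (.N (.D 37261) (.N (.D 37262) (.N (.N (.N (.N (.N (.L 112304651) (.D 7181))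
  (.D 6669)) (.N (.D 19122) (.D 6669))) (.N (.N (.D 2865) (.D 6669)) (.N (.N (.L 108405257) (.D
  7181)) (.D 6669)))) (.N (.N (.N (.D 5653) (.D 35252)) (.N (.D 5653) (.N (.D 5657) (.L
  109229124)))) (.N (.N (.D 5653) (.N (.D 5657) (.L 109491204))) (.N (.D 5653) (.N (.D 5657) (.L
  108073282))))))))))) (.N (.N (.N (.N (.N (.N (.N (.N (.N (.N (.L 111970451) (.D 50104)) (.D
  66484)) (.D 66482)) (.D 66481)) (.D 50092)) (.D 38151)) (.D 38023)) (.N (.N (.N (.D 18086) (.N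
  (.N (.D 35238) (.N (.D 19110) (.N (.D 35244) (.L 111253642)))) (.D 66481))) (.D 38151)) (.D
  38023))) (.N (.N (.N (.N (.D 1829) (.N (.D 35237) (.N (.N (.D 2853) (.N (.D 35244) (.L
  111511690))) (.D 66482)))) (.D 38151)) (.D 38023)) (.N (.N (.N (.N (.D 35237) (.N (.D 35238) (.N
  (.D 3621) (.N (.L 111970442) (.D 66488))))) (.N (.D 35237) (.N (.D 35238) (.N (.N (.D 35244) (.L
  111970441)) (.N (.D 35244) (.L 111970438)))))) (.D 38151)) (.D 38023)))) (.N (.N (.N (.D 37261)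
  (.N (.D 37262) (.N (.N (.D 19107) (.N (.D 2851) (.N (.N (.D 3625) (.L 111776008)) (.D 66484))))
  (.D 50092)))) (.N (.D 37261) (.N (.D 37262) (.N (.D 18086) (.N (.D 19107) (.N (.N (.D 19110) (.N
  (.D 3377) (.L 104203908))) (.N (.D 19110) (.N (.L 112067652) (.L 102052610))))))))) (.N (.N (.D
  37261) (.N (.D 37262) (.N (.D 1829) (.N (.N (.D 2851) (.N (.D 2853) (.N (.D 19634) (.L
  102110852)))) (.N (.D 2851) (.N (.D 2853) (.N (.L 112071684) (.L 104149250)))))))) (.N (.D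
  37261) (.N (.D 37262) (.N (.N (.N (.N (.D 3621) (.D 35252)) (.N (.D 3621) (.N (.D 3625) (.L
  111293508)))) (.N (.N (.D 3621) (.N (.D 3625) (.L 111555588))) (.N (.D 3621) (.N (.D 3625) (.L
  108335362))))) (.N (.N (.N (.N (.L 112300168) (.D 50104)) (.D 35252)) (.N (.D 19122) (.N (.D
  19634) (.L 102118018)))) (.N (.N (.D 2865) (.N (.D 3377) (.L 104214658))) (.N (.N (.D 3633) (.L
  112275971)) (.N (.L 108400770) (.L 107239553)))))))))))

def sx34 : CT :=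
  .N (.N sx28 (.N (.N (.N (.D 35213) (.N (.N (.N (.N (.N (.N (.N (.N (.N (.N (.N (.N (.L
  112276000) (.D 7175)) (.D 6663)) (.D 6407)) (.D 22663)) (.D 5639)) (.D 5383)) (.D 38023)) (.N
  (.N (.N (.D 4877) (.N (.N (.D 4883) (.N (.N (.D 4889) (.L 109681176)) (.D 23047))) (.D 22663)))
  (.D 38151)) (.D 38023))) (.N (.N (.N (.N (.N (.D 21139) (.N (.N (.N (.L 111985693) (.D 7175))
  (.D 6663)) (.D 6407))) (.D 5639)) (.D 5383)) (.D 38023)) (.N (.N (.N (.D 4877) (.N (.D 21139)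
  (.N (.D 4883) (.N (.N (.D 4889) (.L 107358737)) (.D 82868))))) (.D 38151)) (.D 38023)))) (.N (.N
  (.N (.D 37261) (.N (.N (.N (.N (.N (.N (.L 112275997) (.D 7175)) (.D 6663)) (.D 6407)) (.D
  22663)) (.D 5639)) (.D 5383))) (.N (.D 37261) (.N (.N (.D 4877) (.N (.N (.D 4883) (.N (.N (.D
  4889) (.L 109681169)) (.D 23047))) (.D 22663))) (.D 82858)))) (.N (.N (.D 37261) (.N (.N (.N (.D
  21139) (.N (.N (.N (.L 109681175) (.D 7175)) (.D 6663)) (.D 6407))) (.D 5639)) (.D 5383))) (.N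
  (.D 37261) (.N (.N (.D 4877) (.N (.D 21139) (.N (.D 4883) (.N (.N (.D 4889) (.L 109681165)) (.D
  82868))))) (.D 82858)))))) (.D 3591)) (.D 3335))) (.N (.D 35213) (.N (.N (.D 2829) (.N (.N (.N
  (.N (.N (.N (.N (.N (.N (.N (.L 111985691) (.D 7187)) (.D 23047)) (.D 66482)) (.D 22663)) (.D
  5639)) (.D 5383)) (.D 38023)) (.N (.N (.N (.D 4877) (.N (.N (.D 35238) (.N (.N (.D 6425) (.L
  111253649)) (.D 23047))) (.D 22663))) (.D 38151)) (.D 38023))) (.N (.N (.N (.N (.N (.D 21139)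
  (.N (.N (.D 21142) (.N (.L 111985684) (.D 7187))) (.D 66482))) (.D 5639)) (.D 5383)) (.D 38023))
  (.N (.N (.N (.D 4877) (.N (.D 21139) (.N (.D 35238) (.N (.D 21142) (.N (.D 6425) (.L
  107239563)))))) (.D 38151)) (.D 38023)))) (.N (.N (.N (.D 37261) (.N (.N (.N (.N (.D 2851) (.N
  (.N (.D 6425) (.L 111777809)) (.D 23047))) (.D 22663)) (.D 5639)) (.D 5383))) (.N (.D 37261) (.N
  (.N (.D 4877) (.N (.N (.N (.N (.L 112301073) (.D 7187)) (.D 23047)) (.N (.N (.D 6425) (.L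
  107398158)) (.D 23047))) (.D 22663))) (.D 82858)))) (.N (.N (.D 37261) (.N (.N (.N (.D 21139)
  (.N (.D 2851) (.N (.D 21142) (.N (.D 6425) (.L 107304971))))) (.D 5639)) (.D 5383))) (.N (.D
  37261) (.N (.N (.D 4877) (.N (.D 21139) (.N (.N (.D 21142) (.N (.L 107369483) (.D 7187))) (.N
  (.D 21142) (.N (.D 6425) (.L 107356488)))))) (.D 82858))))))) (.D 66458)))) sx29)) (.N sx31 (.N
  sx32 (.N (.N (.D 35213) (.N (.D 35214) (.N (.D 1813) (.N (.N (.N (.N (.N (.N (.N (.N (.N (.N (.L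
  111552022) (.D 50104)) (.D 6663)) (.D 6407)) (.D 66481)) (.D 50092)) (.D 38151)) (.D 38023)) (.N
  (.N (.N (.D 18086) (.N (.N (.D 4883) (.N (.D 4885) (.N (.D 35244) (.L 111196299)))) (.D 66481)))
  (.D 38151)) (.D 38023))) (.N (.N (.N (.N (.D 1829) (.N (.D 35237) (.N (.N (.N (.D 35244) (.L
  111552012)) (.D 6663)) (.D 6407)))) (.D 38151)) (.D 38023)) (.N (.N (.N (.N (.D 35237) (.N (.D
  4883) (.N (.D 4885) (.N (.L 111970443) (.D 66488))))) (.N (.D 35237) (.N (.D 4883) (.N (.D 4885)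
  (.N (.D 35244) (.L 104171657)))))) (.D 38151)) (.D 38023)))) (.N (.N (.N (.D 37261) (.N (.D
  37262) (.N (.N (.D 19107) (.N (.N (.N (.D 3625) (.L 111724043)) (.D 6663)) (.D 6407))) (.D
  50092)))) (.N (.D 37261) (.N (.D 37262) (.N (.D 18086) (.N (.D 19107) (.N (.D 4883) (.N (.D
  4885) (.N (.L 110469639) (.L 105027780))))))))) (.N (.N (.D 37261) (.N (.D 37262) (.N (.D 1829)
  (.N (.N (.N (.N (.L 112240139) (.D 50104)) (.D 6663)) (.D 6407)) (.N (.N (.N (.D 1841) (.L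
  104211977)) (.D 6663)) (.D 6407)))))) (.N (.D 37261) (.N (.D 37262) (.N (.N (.N (.D 4883) (.N
  (.D 4885) (.N (.D 3625) (.L 106283527)))) (.N (.D 4883) (.N (.D 4885) (.N (.D 3625) (.L
  105814020))))) (.N (.N (.D 4883) (.N (.D 4885) (.N (.D 19634) (.L 101881476)))) (.N (.D 4883)
  (.N (.D 4885) (.N (.L 110007300) (.L 103887170)))))))))))))) (.N (.D 35213) (.N (.D 35214)
  sx33)))))

def sx35 : CT :=
  .N (.N (.N (.N (.N (.N (.N (.N (.N (.N (.N (.N (.N (.N (.N (.L 112304676) (.D 7175)) (.D 6663))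
  (.D 6407)) (.D 22663)) (.D 5639)) (.D 5383)) (.D 21639)) (.N (.N (.D 4875) (.N (.N (.N (.N (.N
  (.L 109924448) (.D 23559)) (.D 23047)) (.D 39175)) (.D 22663)) (.D 22023))) (.D 21639))) (.N (.N
  (.D 21131) (.N (.N (.N (.N (.N (.N (.L 109924896) (.D 7175)) (.D 6663)) (.D 6407)) (.D 39047))
  (.D 5639)) (.D 5383))) (.N (.D 21131) (.N (.D 4875) (.N (.N (.N (.N (.N (.L 109924891) (.D
  7205)) (.D 82868)) (.D 39175)) (.D 39047)) (.D 82860)))))) (.N (.N (.N (.N (.N (.N (.N (.N (.N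
  (.L 110469667) (.D 7175)) (.D 6663)) (.D 6407)) (.D 22663)) (.D 5639)) (.D 5383)) (.D 21639))
  (.N (.N (.D 4875) (.N (.N (.N (.N (.N (.L 109924446) (.D 23559)) (.D 23047)) (.D 82866)) (.D
  22663)) (.D 22023))) (.D 21639))) (.N (.N (.D 21131) (.N (.N (.N (.N (.N (.N (.L 109924894) (.D
  7175)) (.D 6663)) (.D 6407)) (.D 82865)) (.D 5639)) (.D 5383))) (.N (.D 21131) (.N (.D 4875) (.N
  (.N (.N (.N (.N (.L 109924889) (.D 7205)) (.D 82868)) (.D 82866)) (.D 82865)) (.D 82860)))))))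
  (.D 3591)) (.D 3335)) (.D 19591)) (.N (.N (.D 2827) (.N (.N (.N (.N (.N (.N (.N (.N (.N (.N (.N
  (.L 112017504) (.D 23559)) (.D 23047)) (.D 39175)) (.D 22663)) (.D 5639)) (.D 5383)) (.D 21639))
  (.N (.N (.D 4875) (.N (.N (.N (.N (.N (.L 112211037) (.D 23559)) (.D 23047)) (.D 39175)) (.D
  22663)) (.D 22023))) (.D 21639))) (.N (.N (.D 21131) (.N (.N (.N (.N (.N (.D 21142) (.N (.D
  21146) (.L 107649048))) (.D 39175)) (.D 39047)) (.D 5639)) (.D 5383))) (.N (.D 21131) (.N (.D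
  4875) (.N (.N (.N (.N (.D 21142) (.N (.D 21146) (.L 109161041))) (.D 39175)) (.D 39047)) (.D
  82860)))))) (.N (.N (.N (.N (.N (.N (.N (.D 37270) (.N (.N (.L 112017501) (.D 23559)) (.D
  23047))) (.D 22663)) (.D 5639)) (.D 5383)) (.D 21639)) (.N (.N (.D 4875) (.N (.N (.N (.D 37270)
  (.N (.N (.L 107612759) (.D 23559)) (.D 23047))) (.D 22663)) (.D 22023))) (.D 21639))) (.N (.N
  (.D 21131) (.N (.N (.N (.N (.D 37270) (.N (.D 21142) (.N (.D 21146) (.L 107612753)))) (.D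
  82865)) (.D 5639)) (.D 5383))) (.N (.D 21131) (.N (.D 4875) (.N (.N (.N (.D 37270) (.N (.D
  21142) (.N (.D 21146) (.L 107612749)))) (.D 82865)) (.D 82860))))))) (.D 19975))) (.D 19591)))
  (.N (.N (.D 19083) (.N (.N (.N (.N (.N (.N (.N (.N (.N (.N (.N (.N (.L 112017952) (.D 7175)) (.D
  6663)) (.D 6407)) (.D 39047)) (.D 5639)) (.D 5383)) (.D 21639)) (.N (.N (.D 4875) (.N (.N (.N
  (.N (.D 4885) (.N (.D 4889) (.L 107616792))) (.D 39175)) (.D 39047)) (.D 22023))) (.D 21639)))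
  (.N (.N (.D 21131) (.N (.N (.N (.N (.N (.N (.L 112243741) (.D 7175)) (.D 6663)) (.D 6407)) (.D
  39047)) (.D 5639)) (.D 5383))) (.N (.D 21131) (.N (.D 4875) (.N (.N (.N (.N (.D 4885) (.N (.D
  4889) (.L 109423121))) (.D 39175)) (.D 39047)) (.D 82860)))))) (.N (.N (.N (.N (.N (.N (.D
  37269) (.N (.N (.N (.L 112017949) (.D 7175)) (.D 6663)) (.D 6407))) (.D 5639)) (.D 5383)) (.D
  21639)) (.N (.N (.D 4875) (.N (.N (.D 37269) (.N (.N (.D 4885) (.N (.D 4889) (.L 107616785)))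
  (.D 82866))) (.D 22023))) (.D 21639))) (.N (.N (.D 21131) (.N (.N (.N (.D 37269) (.N (.N (.N (.L
  107616791) (.D 7175)) (.D 6663)) (.D 6407))) (.D 5639)) (.D 5383))) (.N (.D 21131) (.N (.D 4875)
  (.N (.N (.D 37269) (.N (.N (.D 4885) (.N (.D 4889) (.L 107616781))) (.D 82866))) (.D
  82860))))))) (.D 3591)) (.D 3335))) (.N (.D 19083) (.N (.D 2827) (.N (.N (.N (.N (.N (.N (.N (.N
  (.N (.N (.N (.L 112017947) (.D 7189)) (.D 66484)) (.D 39175)) (.D 39047)) (.D 5639)) (.D 5383))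
  (.D 21639)) (.N (.N (.D 4875) (.N (.N (.N (.N (.D 19110) (.N (.D 6681) (.L 111257681))) (.D
  39175)) (.D 39047)) (.D 22023))) (.D 21639))) (.N (.N (.D 21131) (.N (.N (.N (.N (.N (.D 2853)
  (.N (.D 6681) (.L 111519761))) (.D 39175)) (.D 39047)) (.D 5639)) (.D 5383))) (.N (.D 21131) (.N
  (.D 4875) (.N (.N (.N (.N (.N (.L 112304657) (.D 7189)) (.N (.D 6681) (.L 107659790))) (.D
  39175)) (.D 39047)) (.D 82860)))))) (.N (.N (.N (.N (.N (.N (.D 37269) (.N (.D 37270) (.N (.N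
  (.L 112017940) (.D 7189)) (.D 66484)))) (.D 5639)) (.D 5383)) (.D 21639)) (.N (.N (.D 4875) (.N
  (.N (.D 37269) (.N (.D 37270) (.N (.D 19110) (.N (.D 6681) (.L 107501643))))) (.D 22023))) (.D
  21639))) (.N (.N (.D 21131) (.N (.N (.N (.D 37269) (.N (.D 37270) (.N (.D 2853) (.N (.D 6681)
  (.L 107534347))))) (.D 5639)) (.D 5383))) (.N (.D 21131) (.N (.D 4875) (.N (.N (.D 37269) (.N
  (.D 37270) (.N (.N (.L 107631115) (.D 7189)) (.N (.D 6681) (.L 107614536))))) (.D 82860)))))))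
  (.D 66460)))))

def sx36 : CT :=
  .N (.N (.D 19083) (.N (.N (.N (.N (.N (.N (.N (.N (.N (.N (.N (.N (.L 112017950) (.D 7175)) (.D
  6663)) (.D 6407)) (.D 66481)) (.D 5639)) (.D 5383)) (.D 21639)) (.N (.N (.D 4875) (.N (.N (.N
  (.D 4883) (.N (.D 4885) (.N (.D 4889) (.L 107645009)))) (.D 66481)) (.D 22023))) (.D 21639)))
  (.N (.N (.D 21131) (.N (.N (.N (.D 35237) (.N (.N (.N (.L 107649047) (.D 7175)) (.D 6663)) (.D
  6407))) (.D 5639)) (.D 5383))) (.N (.D 21131) (.N (.D 4875) (.N (.N (.D 35237) (.N (.D 4883) (.N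
  (.D 4885) (.N (.D 4889) (.L 107530763))))) (.D 82860)))))) (.N (.N (.N (.N (.N (.N (.D 19107)
  (.N (.N (.N (.L 112017946) (.D 7175)) (.D 6663)) (.D 6407))) (.D 5639)) (.D 5383)) (.D 21639))
  (.N (.N (.D 4875) (.N (.N (.D 19107) (.N (.D 4883) (.N (.D 4885) (.N (.D 4889) (.L
  107616780))))) (.D 22023))) (.D 21639))) (.N (.N (.D 21131) (.N (.N (.N (.N (.N (.N (.L
  112304663) (.D 7175)) (.D 6663)) (.D 6407)) (.N (.N (.N (.L 107659797) (.D 7175)) (.D 6663)) (.D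
  6407))) (.D 5639)) (.D 5383))) (.N (.D 21131) (.N (.D 4875) (.N (.N (.N (.D 4883) (.N (.D 4885)
  (.N (.D 4889) (.L 107616779)))) (.N (.D 4883) (.N (.D 4885) (.N (.D 4889) (.L 107616778))))) (.D
  82860))))))) (.D 3591)) (.D 3335))) (.N (.D 19083) (.N (.D 2827) (.N (.N (.N (.N (.N (.N (.N (.N
  (.N (.N (.N (.L 112017945) (.D 7189)) (.D 66484)) (.D 66482)) (.D 66481)) (.D 5639)) (.D 5383))
  (.D 21639)) (.N (.N (.D 4875) (.N (.N (.N (.D 35238) (.N (.D 19110) (.N (.D 6681) (.L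
  107645005)))) (.D 66481)) (.D 22023))) (.D 21639))) (.N (.N (.D 21131) (.N (.N (.N (.D 35237)
  (.N (.N (.D 2853) (.N (.D 6681) (.L 107649037))) (.D 66482))) (.D 5639)) (.D 5383))) (.N (.D
  21131) (.N (.D 4875) (.N (.N (.D 35237) (.N (.D 35238) (.N (.N (.L 107659787) (.D 7189)) (.N (.D
  6681) (.L 107647240))))) (.D 82860)))))) (.N (.N (.N (.N (.N (.N (.D 19107) (.N (.D 2851) (.N
  (.N (.L 112017936) (.D 7189)) (.D 66484)))) (.D 5639)) (.D 5383)) (.D 21639)) (.N (.N (.D 4875)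
  (.N (.N (.D 19107) (.N (.N (.D 19110) (.N (.D 6681) (.L 107645003))) (.N (.D 19110) (.N (.D
  6681) (.L 107645002))))) (.D 22023))) (.D 21639))) (.N (.N (.D 21131) (.N (.N (.N (.N (.D 2851)
  (.N (.D 2853) (.N (.D 6681) (.L 107649035)))) (.N (.D 2851) (.N (.D 2853) (.N (.D 6681) (.L
  107649034))))) (.D 5639)) (.D 5383))) (.N (.D 21131) (.N (.D 4875) (.N (.N (.N (.N (.N (.L
  112304653) (.D 7189)) (.D 35252)) (.N (.D 19122) (.N (.D 6681) (.L 107659336)))) (.N (.N (.D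
  2865) (.N (.D 6681) (.L 107659784))) (.N (.N (.L 107659786) (.D 7189)) (.N (.D 6681) (.L
  107659781))))) (.D 82860))))))) (.D 66460))))

def sx37 : CT :=
  .N (.N (.N (.N (.N (.N (.N (.N (.N (.N (.N (.N (.N (.N (.L 112304226) (.D 23559)) (.D 6663)) (.D
  6407)) (.D 22663)) (.D 22023)) (.D 50090)) (.D 21639)) (.N (.N (.D 34214) (.N (.N (.N (.N (.N
  (.L 110376030) (.D 23559)) (.D 23047)) (.D 39175)) (.D 22663)) (.D 22023))) (.D 21639))) (.N (.N
  (.D 21131) (.N (.N (.D 21134) (.N (.N (.N (.N (.L 110408731) (.D 7179)) (.D 6663)) (.D 6407))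
  (.D 39047))) (.D 50090))) (.N (.D 21131) (.N (.D 34214) (.N (.D 21134) (.N (.N (.N (.N (.L
  109161046) (.D 50104)) (.D 82868)) (.D 39175)) (.D 39047))))))) (.N (.N (.N (.N (.D 1827) (.N
  (.N (.N (.N (.N (.L 110440542) (.D 23559)) (.D 6663)) (.D 6407)) (.D 22663)) (.D 22023))) (.D
  21639)) (.N (.N (.N (.N (.N (.N (.N (.L 110469214) (.D 23559)) (.D 23047)) (.D 6411)) (.D
  22663)) (.D 22023)) (.N (.N (.N (.N (.N (.L 110469212) (.D 23559)) (.D 23047)) (.D 82866)) (.D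
  22663)) (.D 22023))) (.D 21639))) (.N (.N (.D 21131) (.N (.D 1827) (.N (.D 21134) (.N (.N (.N
  (.N (.L 109745686) (.D 50104)) (.D 6663)) (.D 6407)) (.D 82865))))) (.N (.D 21131) (.N (.N (.D
  21134) (.N (.N (.N (.N (.L 110007318) (.D 7179)) (.D 82868)) (.D 6411)) (.D 82865))) (.N (.D
  21134) (.N (.N (.N (.N (.L 109906515) (.D 50104)) (.D 82868)) (.D 82866)) (.D 82865)))))))) (.D
  19975)) (.D 50074)) (.D 19591)) (.N (.N (.D 34198) (.N (.N (.N (.N (.N (.N (.N (.N (.N (.N (.N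
  (.L 112211038) (.D 23559)) (.D 23047)) (.D 39175)) (.D 22663)) (.D 22023)) (.D 50090)) (.D
  21639)) (.N (.N (.D 34214) (.N (.N (.N (.N (.N (.L 112211034) (.D 23559)) (.D 23047)) (.D
  39175)) (.D 22663)) (.D 22023))) (.D 21639))) (.N (.N (.D 21131) (.N (.N (.D 21134) (.N (.N (.N
  (.D 21142) (.N (.D 21146) (.L 109221521))) (.D 39175)) (.D 39047))) (.D 50090))) (.N (.D 21131)
  (.N (.D 34214) (.N (.D 21134) (.N (.N (.N (.D 21142) (.N (.D 21146) (.L 109161036))) (.D 39175))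
  (.D 39047))))))) (.N (.N (.N (.N (.D 1827) (.N (.N (.N (.D 37270) (.N (.N (.L 111806039) (.D
  23559)) (.D 23047))) (.D 22663)) (.D 22023))) (.D 21639)) (.N (.N (.N (.N (.N (.D 37270) (.N (.N
  (.L 112067671) (.D 23559)) (.D 23047))) (.D 22663)) (.D 22023)) (.N (.N (.N (.D 37270) (.N (.N
  (.L 109229141) (.D 23559)) (.D 23047))) (.D 22663)) (.D 22023))) (.D 21639))) (.N (.N (.D 21131)
  (.N (.D 1827) (.N (.D 21134) (.N (.N (.D 37270) (.N (.D 21142) (.N (.D 21146) (.L 109132363))))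
  (.D 82865))))) (.N (.D 21131) (.N (.N (.D 21134) (.N (.N (.D 37270) (.N (.D 21142) (.N (.D
  21146) (.L 109161035)))) (.D 82865))) (.N (.D 21134) (.N (.N (.D 37270) (.N (.D 21142) (.N (.D
  21146) (.L 109161034)))) (.D 82865)))))))) (.D 19975))) (.D 19591))

def sx38 : CT :=
  .N (.N (.D 19083) (.N (.N (.D 19086) (.N (.N (.N (.N (.N (.N (.N (.N (.N (.N (.L 112243739) (.D
  7179)) (.D 6663)) (.D 6407)) (.D 39047)) (.D 22023)) (.D 50090)) (.D 21639)) (.N (.N (.D 34214)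
  (.N (.N (.N (.N (.D 4885) (.N (.D 5401) (.L 111285905))) (.D 39175)) (.D 39047)) (.D 22023)))
  (.D 21639))) (.N (.N (.D 21131) (.N (.N (.D 21134) (.N (.N (.N (.N (.L 112243732) (.D 7179)) (.D
  6663)) (.D 6407)) (.D 39047))) (.D 50090))) (.N (.D 21131) (.N (.D 34214) (.N (.D 21134) (.N (.N
  (.N (.D 4885) (.N (.D 5401) (.L 109336203))) (.D 39175)) (.D 39047))))))) (.N (.N (.N (.N (.D
  1827) (.N (.N (.D 37269) (.N (.N (.N (.D 5401) (.L 111810065)) (.D 6663)) (.D 6407))) (.D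
  22023))) (.D 21639)) (.N (.N (.N (.N (.D 37269) (.N (.N (.D 4885) (.N (.L 112071697) (.D 7179)))
  (.D 6411))) (.D 22023)) (.N (.N (.D 37269) (.N (.N (.D 4885) (.N (.D 5401) (.L 109491214))) (.D
  82866))) (.D 22023))) (.D 21639))) (.N (.N (.D 21131) (.N (.D 1827) (.N (.D 21134) (.N (.D
  37269) (.N (.N (.N (.D 5401) (.L 109401611)) (.D 6663)) (.D 6407)))))) (.N (.D 21131) (.N (.N
  (.D 21134) (.N (.D 37269) (.N (.N (.D 4885) (.N (.L 109433867) (.D 7179))) (.D 6411)))) (.N (.D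
  21134) (.N (.D 37269) (.N (.N (.D 4885) (.N (.D 5401) (.L 109420872))) (.D 82866)))))))))) (.D
  50074))) (.N (.D 19083) (.N (.D 34198) (.N (.D 19086) (.N (.N (.N (.N (.N (.N (.N (.N (.N (.N
  (.L 111257686) (.D 50104)) (.D 66484)) (.D 39175)) (.D 39047)) (.D 22023)) (.D 50090)) (.D
  21639)) (.N (.N (.D 34214) (.N (.N (.N (.N (.D 19110) (.N (.D 19114) (.L 111257676))) (.D
  39175)) (.D 39047)) (.D 22023))) (.D 21639))) (.N (.N (.D 21131) (.N (.N (.D 21134) (.N (.N (.N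
  (.D 2853) (.N (.D 3369) (.L 111429259))) (.D 39175)) (.D 39047))) (.D 50090))) (.N (.D 21131)
  (.N (.D 34214) (.N (.D 21134) (.N (.N (.N (.N (.L 112203403) (.D 50104)) (.N (.D 34228) (.L
  102110857))) (.D 39175)) (.D 39047))))))) (.N (.N (.N (.N (.D 1827) (.N (.N (.D 37269) (.N (.D
  37270) (.N (.N (.D 19114) (.L 111687755)) (.D 66484)))) (.D 22023))) (.D 21639)) (.N (.N (.N (.N
  (.D 37269) (.N (.D 37270) (.N (.D 19110) (.N (.L 111945803) (.D 66488))))) (.D 22023)) (.N (.N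
  (.D 37269) (.N (.D 37270) (.N (.D 19110) (.N (.D 19114) (.L 102082633))))) (.D 22023))) (.D
  21639))) (.N (.N (.D 21131) (.N (.D 1827) (.N (.D 21134) (.N (.D 37269) (.N (.D 37270) (.N (.D
  2853) (.N (.L 112075271) (.L 103450820)))))))) (.N (.D 21131) (.N (.N (.D 21134) (.N (.D 37269)
  (.N (.D 37270) (.N (.N (.D 3369) (.L 111817223)) (.N (.D 3369) (.L 103712900)))))) (.N (.D
  21134) (.N (.D 37269) (.N (.D 37270) (.N (.N (.D 3633) (.L 106071620)) (.N (.L 108168260) (.L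
  101532482))))))))))))))

def sx39 : CT :=
  .N (.N (.N (.N (.N (.N (.N (.N (.N (.N (.N (.N (.L 112304222) (.D 23559)) (.D 23047)) (.D 6411))
  (.D 22663)) (.D 22023)) (.D 50090)) (.D 21639)) (.N (.N (.D 34214) (.N (.N (.N (.D 5395) (.N (.N
  (.L 110003287) (.D 23559)) (.D 23047))) (.D 22663)) (.D 22023))) (.D 21639))) (.N (.N (.D 21131)
  (.N (.N (.D 21134) (.N (.D 21139) (.N (.N (.D 21142) (.N (.L 110007313) (.D 7179))) (.D 6411))))
  (.D 50090))) (.N (.D 21131) (.N (.D 34214) (.N (.D 21134) (.N (.D 21139) (.N (.D 5395) (.N (.D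
  21142) (.N (.L 109849163) (.D 82872)))))))))) (.N (.N (.N (.N (.D 1827) (.N (.N (.N (.D 5395)
  (.N (.N (.L 110010455) (.D 23559)) (.D 23047))) (.D 22663)) (.D 22023))) (.D 21639)) (.N (.N (.N
  (.N (.N (.N (.N (.L 112304218) (.D 23559)) (.D 23047)) (.D 6411)) (.D 22663)) (.D 22023)) (.N
  (.N (.N (.D 5395) (.N (.N (.L 110010453) (.D 23559)) (.D 23047))) (.D 22663)) (.D 22023))) (.D
  21639))) (.N (.N (.D 21131) (.N (.D 1827) (.N (.D 21134) (.N (.D 21139) (.N (.D 5395) (.N (.D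
  21142) (.N (.L 109906507) (.D 82872)))))))) (.N (.D 21131) (.N (.N (.D 21134) (.N (.D 21139) (.N
  (.N (.D 21142) (.N (.L 110007308) (.D 7179))) (.D 6411)))) (.N (.D 21134) (.N (.D 21139) (.N (.D
  5395) (.N (.D 21142) (.N (.L 109906506) (.D 82872))))))))))) (.D 19975)) (.N (.N (.N (.N (.N (.N
  (.N (.N (.N (.N (.N (.L 112304220) (.D 23559)) (.D 23047)) (.D 66482)) (.D 22663)) (.D 22023))
  (.D 50090)) (.D 21639)) (.N (.N (.D 34214) (.N (.N (.N (.D 35238) (.N (.N (.L 111293525) (.D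
  23559)) (.D 23047))) (.D 22663)) (.D 22023))) (.D 21639))) (.N (.N (.D 21131) (.N (.N (.D 21134)
  (.N (.D 21139) (.N (.N (.D 21142) (.N (.D 21146) (.L 111555598))) (.D 66482)))) (.D 50090))) (.N
  (.D 21131) (.N (.D 34214) (.N (.D 21134) (.N (.D 21139) (.N (.D 35238) (.N (.D 21142) (.N (.D
  21146) (.L 101821001)))))))))) (.N (.N (.N (.N (.D 1827) (.N (.N (.N (.D 2851) (.N (.N (.L
  111816789) (.D 23559)) (.D 23047))) (.D 22663)) (.D 22023))) (.D 21639)) (.N (.N (.N (.N (.N (.D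
  3363) (.N (.N (.L 112074837) (.D 23559)) (.D 23047))) (.D 22663)) (.D 22023)) (.N (.N (.N (.N
  (.N (.L 112304213) (.D 23559)) (.D 23047)) (.N (.N (.L 112304210) (.D 23559)) (.D 23047))) (.D
  22663)) (.D 22023))) (.D 21639))) (.N (.N (.D 21131) (.N (.D 1827) (.N (.D 21134) (.N (.D 21139)
  (.N (.D 2851) (.N (.D 21142) (.N (.D 21146) (.L 106007113)))))))) (.N (.D 21131) (.N (.N (.D
  21134) (.N (.D 21139) (.N (.D 3363) (.N (.D 21142) (.N (.D 21146) (.L 108071497)))))) (.N (.D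
  21134) (.N (.D 21139) (.N (.N (.D 21142) (.N (.D 21146) (.L 109906505))) (.N (.D 21142) (.N (.D
  21146) (.L 109906502))))))))))) (.D 19975))

def sx40 : CT :=
  .N (.N (.D 19086) (.N (.N (.N (.N (.N (.N (.N (.N (.N (.N (.L 112071702) (.D 7179)) (.D 66484))
  (.D 6411)) (.D 66481)) (.D 22023)) (.D 50090)) (.D 21639)) (.N (.N (.D 34214) (.N (.N (.N (.D
  5395) (.N (.D 19110) (.N (.D 5401) (.L 111257675)))) (.D 66481)) (.D 22023))) (.D 21639))) (.N
  (.N (.D 21131) (.N (.N (.D 21134) (.N (.D 35237) (.N (.N (.D 2853) (.N (.L 111526923) (.D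
  7179))) (.D 6411)))) (.D 50090))) (.N (.D 21131) (.N (.D 34214) (.N (.D 21134) (.N (.D 35237)
  (.N (.D 5395) (.N (.N (.D 5401) (.L 109752839)) (.N (.D 5401) (.L 102938756)))))))))) (.N (.N
  (.N (.N (.D 1827) (.N (.N (.D 19107) (.N (.D 5395) (.N (.N (.D 5401) (.L 111773771)) (.D
  66484)))) (.D 22023))) (.D 21639)) (.N (.N (.N (.N (.D 19107) (.N (.N (.D 19110) (.N (.L
  112071692) (.D 7179))) (.D 6411))) (.D 22023)) (.N (.N (.D 19107) (.N (.D 5395) (.N (.D 19110)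
  (.N (.D 5401) (.L 108333129))))) (.D 22023))) (.D 21639))) (.N (.N (.D 21131) (.N (.D 1827) (.N
  (.D 21134) (.N (.N (.D 5395) (.N (.D 2853) (.N (.D 5401) (.L 103928839)))) (.N (.D 5395) (.N (.D
  2853) (.N (.D 5401) (.L 103462916)))))))) (.N (.D 21131) (.N (.N (.D 21134) (.N (.N (.N (.N (.L
  112301067) (.D 7179)) (.D 35252)) (.D 6411)) (.N (.N (.D 2865) (.N (.L 108401673) (.D 7179)))
  (.D 6411)))) (.N (.D 21134) (.N (.N (.D 5395) (.N (.D 19122) (.N (.D 5401) (.L 101889092)))) (.N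
  (.D 5395) (.N (.N (.D 5401) (.L 109752836)) (.N (.D 5401) (.L 108044610)))))))))))) (.N (.D
  19086) (.N (.N (.N (.N (.N (.N (.N (.N (.N (.N (.L 112003155) (.D 50104)) (.D 66484)) (.D
  66482)) (.D 66481)) (.D 22023)) (.D 50090)) (.D 21639)) (.N (.N (.D 34214) (.N (.N (.N (.D
  35238) (.N (.D 19110) (.N (.D 19114) (.L 111257674)))) (.D 66481)) (.D 22023))) (.D 21639))) (.N
  (.N (.D 21131) (.N (.N (.D 21134) (.N (.D 35237) (.N (.N (.D 2853) (.N (.D 3369) (.L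
  111517960))) (.D 66482)))) (.D 50090))) (.N (.D 21131) (.N (.D 34214) (.N (.D 21134) (.N (.D
  35237) (.N (.D 35238) (.N (.N (.D 3633) (.L 106300996)) (.N (.L 108397636) (.L
  101536514)))))))))) (.N (.N (.N (.N (.D 1827) (.N (.N (.D 19107) (.N (.D 2851) (.N (.N (.D
  19114) (.L 111773770)) (.D 66484)))) (.D 22023))) (.D 21639)) (.N (.N (.N (.N (.D 19107) (.N (.D
  3363) (.N (.D 19110) (.N (.L 112003146) (.D 66488))))) (.D 22023)) (.N (.N (.D 19107) (.N (.N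
  (.D 19110) (.N (.D 19114) (.L 112003145))) (.N (.D 19110) (.N (.D 19114) (.L 112003142))))) (.D
  22023))) (.D 21639))) (.N (.N (.D 21131) (.N (.D 1827) (.N (.D 21134) (.N (.N (.D 2851) (.N (.D
  2853) (.N (.D 19634) (.L 102114884)))) (.N (.D 2851) (.N (.D 2853) (.N (.L 112075268) (.L
  106213634)))))))) (.N (.D 21131) (.N (.N (.D 21134) (.N (.N (.D 3363) (.N (.D 19122) (.N (.D
  3369) (.L 102118468)))) (.N (.D 3363) (.N (.N (.D 3369) (.L 111817220)) (.N (.D 3369) (.L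
  108306690)))))) (.N (.D 21134) (.N (.N (.N (.N (.L 112304200) (.D 50104)) (.D 35252)) (.N (.D
  19122) (.N (.D 19634) (.L 102118466)))) (.N (.N (.D 2865) (.N (.D 3377) (.L 112243715))) (.N (.N
  (.D 3633) (.L 106311746)) (.N (.L 108404802) (.L 107501633))))))))))))

def sx41 : CT :=
  .N (.N (.N (.N (.D 1811) (.N (.N (.N (.N (.N (.N (.N (.N (.N (.N (.N (.L 112275550) (.D 23559))
  (.D 6663)) (.D 6407)) (.D 22663)) (.D 22023)) (.D 50090)) (.D 21639)) (.N (.N (.D 34214) (.N (.N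
  (.N (.D 4883) (.N (.N (.L 109741655) (.D 23559)) (.D 23047))) (.D 22663)) (.D 22023))) (.D
  21639))) (.N (.N (.D 21131) (.N (.N (.D 21134) (.N (.D 21139) (.N (.N (.N (.D 21146) (.L
  109745681)) (.D 6663)) (.D 6407)))) (.D 50090))) (.N (.D 21131) (.N (.D 34214) (.N (.D 21134)
  (.N (.D 21139) (.N (.D 4883) (.N (.N (.D 21146) (.L 109591115)) (.D 82868))))))))) (.N (.N (.N
  (.N (.D 1827) (.N (.N (.N (.N (.N (.L 112275546) (.D 23559)) (.D 6663)) (.D 6407)) (.D 22663))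
  (.D 22023))) (.D 21639)) (.N (.N (.N (.N (.N (.D 4883) (.N (.N (.L 112074839) (.D 23559)) (.D
  23047))) (.D 22663)) (.D 22023)) (.N (.N (.N (.D 4883) (.N (.N (.L 109752405) (.D 23559)) (.D
  23047))) (.D 22663)) (.D 22023))) (.D 21639))) (.N (.N (.D 21131) (.N (.D 1827) (.N (.D 21134)
  (.N (.D 21139) (.N (.N (.N (.D 21146) (.L 109745676)) (.D 6663)) (.D 6407)))))) (.N (.D 21131)
  (.N (.N (.D 21134) (.N (.D 21139) (.N (.D 4883) (.N (.N (.D 21146) (.L 109677131)) (.D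
  82868))))) (.N (.D 21134) (.N (.D 21139) (.N (.D 4883) (.N (.N (.D 21146) (.L 109677130)) (.D
  82868)))))))))) (.D 19975))) (.D 19591)) (.N sx39 (.D 19591))) (.N (.N (.D 19083) (.N (.D 1811)
  (.N (.D 19086) (.N (.N (.N (.N (.N (.N (.N (.N (.N (.N (.L 111810070) (.D 50104)) (.D 6663)) (.D
  6407)) (.D 66481)) (.D 22023)) (.D 50090)) (.D 21639)) (.N (.N (.D 34214) (.N (.N (.N (.D 4883)
  (.N (.D 4885) (.N (.D 19114) (.L 111229003)))) (.D 66481)) (.D 22023))) (.D 21639))) (.N (.N (.D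
  21131) (.N (.N (.D 21134) (.N (.D 35237) (.N (.N (.N (.D 3369) (.L 111494667)) (.D 6663)) (.D
  6407)))) (.D 50090))) (.N (.D 21131) (.N (.D 34214) (.N (.D 21134) (.N (.D 35237) (.N (.D 4883)
  (.N (.D 4885) (.N (.L 110010887) (.L 102934724)))))))))) (.N (.N (.N (.N (.D 1827) (.N (.N (.D
  19107) (.N (.N (.N (.D 19114) (.L 111810060)) (.D 6663)) (.D 6407))) (.D 22023))) (.D 21639))
  (.N (.N (.N (.N (.D 19107) (.N (.D 4883) (.N (.D 4885) (.N (.L 112003147) (.D 66488))))) (.D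
  22023)) (.N (.N (.D 19107) (.N (.D 4883) (.N (.D 4885) (.N (.D 19114) (.L 106268745))))) (.D
  22023))) (.D 21639))) (.N (.N (.D 21131) (.N (.D 1827) (.N (.D 21134) (.N (.N (.N (.N (.L
  112268811) (.D 50104)) (.D 6663)) (.D 6407)) (.N (.N (.N (.D 1841) (.L 106305033)) (.D 6663))
  (.D 6407)))))) (.N (.D 21131) (.N (.N (.D 21134) (.N (.N (.D 4883) (.N (.D 4885) (.N (.D 3369)
  (.L 104186887)))) (.N (.D 4883) (.N (.D 4885) (.N (.D 3369) (.L 103720964)))))) (.N (.D 21134)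
  (.N (.N (.D 4883) (.N (.D 4885) (.N (.D 19634) (.L 101885508)))) (.N (.D 4883) (.N (.D 4885) (.N
  (.L 110010884) (.L 105951554)))))))))))))) (.N (.D 19083) sx40))

def sx42 : CT :=
  .N (.N (.N (.N (.N (.N (.N (.N (.N (.N (.N (.N (.N (.N (.L 112304674) (.D 7175)) (.D 6663)) (.D
  6407)) (.D 22663)) (.D 5639)) (.D 5383)) (.D 50089)) (.N (.N (.D 4875) (.N (.D 4877) (.N (.N (.N
  (.N (.L 110376027) (.D 23563)) (.D 23047)) (.D 39175)) (.D 22663)))) (.D 50089))) (.N (.N (.D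
  34213) (.N (.N (.N (.N (.N (.N (.L 110408734) (.D 7175)) (.D 6663)) (.D 6407)) (.D 39047)) (.D
  5639)) (.D 5383))) (.N (.D 34213) (.N (.D 4875) (.N (.D 4877) (.N (.N (.N (.N (.L 109423126) (.D
  50104)) (.D 82868)) (.D 39175)) (.D 39047))))))) (.N (.N (.N (.D 18083) (.N (.N (.N (.N (.N (.N
  (.L 110440990) (.D 7175)) (.D 6663)) (.D 6407)) (.D 22663)) (.D 5639)) (.D 5383))) (.N (.D
  18083) (.N (.D 4875) (.N (.D 4877) (.N (.N (.N (.N (.L 109681174) (.D 50104)) (.D 23047)) (.D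
  82866)) (.D 22663)))))) (.N (.N (.N (.N (.N (.N (.N (.N (.L 110469662) (.D 7175)) (.D 6663)) (.D
  6407)) (.D 22667)) (.D 5639)) (.D 5383)) (.N (.N (.N (.N (.N (.N (.L 110469660) (.D 7175)) (.D
  6663)) (.D 6407)) (.D 82865)) (.D 5639)) (.D 5383))) (.N (.N (.D 4875) (.N (.D 4877) (.N (.N (.N
  (.N (.L 109910550) (.D 23563)) (.D 82868)) (.D 82866)) (.D 22667)))) (.N (.D 4875) (.N (.D 4877)
  (.N (.N (.N (.N (.L 109910547) (.D 50104)) (.D 82868)) (.D 82866)) (.D 82865)))))))) (.D 3591))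
  (.D 3335)) (.D 50073)) (.N (.N (.D 2827) (.N (.D 2829) (.N (.N (.N (.N (.N (.N (.N (.N (.N (.N
  (.L 112211035) (.D 23563)) (.D 23047)) (.D 39175)) (.D 22663)) (.D 5639)) (.D 5383)) (.D 50089))
  (.N (.N (.D 4875) (.N (.D 4877) (.N (.N (.N (.N (.L 112211028) (.D 23563)) (.D 23047)) (.D
  39175)) (.D 22663)))) (.D 50089))) (.N (.N (.D 34213) (.N (.N (.N (.N (.N (.D 21142) (.N (.D
  21658) (.L 111543953))) (.D 39175)) (.D 39047)) (.D 5639)) (.D 5383))) (.N (.D 34213) (.N (.D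
  4875) (.N (.D 4877) (.N (.N (.N (.D 21142) (.N (.D 21658) (.L 109106827))) (.D 39175)) (.D
  39047))))))) (.N (.N (.N (.D 18083) (.N (.N (.N (.N (.D 37270) (.N (.N (.D 21658) (.L
  111806033)) (.D 23047))) (.D 22663)) (.D 5639)) (.D 5383))) (.N (.D 18083) (.N (.D 4875) (.N (.D
  4877) (.N (.N (.D 37270) (.N (.N (.D 21658) (.L 109139531)) (.D 23047))) (.D 22663)))))) (.N (.N
  (.N (.N (.N (.N (.D 37270) (.N (.D 21142) (.N (.L 112067665) (.D 23563)))) (.D 22667)) (.D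
  5639)) (.D 5383)) (.N (.N (.N (.N (.D 37270) (.N (.D 21142) (.N (.D 21658) (.L 109229134)))) (.D
  82865)) (.D 5639)) (.D 5383))) (.N (.N (.D 4875) (.N (.D 4877) (.N (.N (.D 37270) (.N (.D 21142)
  (.N (.L 109171787) (.D 23563)))) (.D 22667)))) (.N (.D 4875) (.N (.D 4877) (.N (.N (.D 37270)
  (.N (.D 21142) (.N (.D 21658) (.L 109159240)))) (.D 82865)))))))))) (.D 50073))

def sx43 : CT :=
  .N (.N (.D 34197) (.N (.N (.N (.N (.N (.N (.N (.N (.N (.N (.N (.N (.L 112243742) (.D 7175)) (.D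
  6663)) (.D 6407)) (.D 39047)) (.D 5639)) (.D 5383)) (.D 50089)) (.N (.N (.D 4875) (.N (.D 4877)
  (.N (.N (.N (.D 4885) (.N (.D 4889) (.L 109479569))) (.D 39175)) (.D 39047)))) (.D 50089))) (.N
  (.N (.D 34213) (.N (.N (.N (.N (.N (.N (.L 112243738) (.D 7175)) (.D 6663)) (.D 6407)) (.D
  39047)) (.D 5639)) (.D 5383))) (.N (.D 34213) (.N (.D 4875) (.N (.D 4877) (.N (.N (.N (.D 4885)
  (.N (.D 4889) (.L 109423116))) (.D 39175)) (.D 39047))))))) (.N (.N (.N (.D 18083) (.N (.N (.N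
  (.D 37269) (.N (.N (.N (.L 111810071) (.D 7175)) (.D 6663)) (.D 6407))) (.D 5639)) (.D 5383)))
  (.N (.D 18083) (.N (.D 4875) (.N (.D 4877) (.N (.D 37269) (.N (.N (.D 4885) (.N (.D 4889) (.L
  109394443))) (.D 82866))))))) (.N (.N (.N (.N (.N (.D 37269) (.N (.N (.N (.L 112071703) (.D
  7175)) (.D 6663)) (.D 6407))) (.D 5639)) (.D 5383)) (.N (.N (.N (.D 37269) (.N (.N (.N (.L
  109491221) (.D 7175)) (.D 6663)) (.D 6407))) (.D 5639)) (.D 5383))) (.N (.N (.D 4875) (.N (.D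
  4877) (.N (.D 37269) (.N (.N (.D 4885) (.N (.D 4889) (.L 109423115))) (.D 82866))))) (.N (.D
  4875) (.N (.D 4877) (.N (.D 37269) (.N (.N (.D 4885) (.N (.D 4889) (.L 109423114))) (.D
  82866))))))))) (.D 3591)) (.D 3335))) (.N (.D 34197) (.N (.D 2827) (.N (.D 2829) (.N (.N (.N (.N
  (.N (.N (.N (.N (.N (.N (.L 111519766) (.D 50104)) (.D 66484)) (.D 39175)) (.D 39047)) (.D
  5639)) (.D 5383)) (.D 50089)) (.N (.N (.D 4875) (.N (.D 4877) (.N (.N (.N (.D 19110) (.N (.D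
  19626) (.L 111199883))) (.D 39175)) (.D 39047)))) (.D 50089))) (.N (.N (.D 34213) (.N (.N (.N
  (.N (.N (.D 2853) (.N (.D 2857) (.L 111519756))) (.D 39175)) (.D 39047)) (.D 5639)) (.D 5383)))
  (.N (.D 34213) (.N (.D 4875) (.N (.D 4877) (.N (.N (.N (.N (.L 112232075) (.D 50104)) (.N (.D
  34228) (.L 104203913))) (.D 39175)) (.D 39047))))))) (.N (.N (.N (.D 18083) (.N (.N (.N (.D
  37269) (.N (.D 37270) (.N (.N (.D 2857) (.L 111720459)) (.D 66484)))) (.D 5639)) (.D 5383))) (.N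
  (.D 18083) (.N (.D 4875) (.N (.D 4877) (.N (.D 37269) (.N (.D 37270) (.N (.D 19110) (.N (.L
  108405255) (.L 101357764))))))))) (.N (.N (.N (.N (.N (.D 37269) (.N (.D 37270) (.N (.D 2853)
  (.N (.L 111978507) (.D 66488))))) (.D 5639)) (.D 5383)) (.N (.N (.N (.D 37269) (.N (.D 37270)
  (.N (.D 2853) (.N (.D 2857) (.L 104179721))))) (.D 5639)) (.D 5383))) (.N (.N (.D 4875) (.N (.D
  4877) (.N (.D 37269) (.N (.D 37270) (.N (.N (.D 19626) (.L 106312199)) (.N (.D 19626) (.L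
  101619844))))))) (.N (.D 4875) (.N (.D 4877) (.N (.D 37269) (.N (.D 37270) (.N (.N (.D 3633) (.L
  106075652)) (.N (.L 108172292) (.L 103629122))))))))))))))

def sx44 : CT :=
  .N (.N (.D 18067) (.N (.N (.N (.N (.N (.N (.N (.N (.N (.N (.N (.N (.L 112275998) (.D 7175)) (.D
  6663)) (.D 6407)) (.D 22663)) (.D 5639)) (.D 5383)) (.D 50089)) (.N (.N (.D 4875) (.N (.D 4877)
  (.N (.N (.D 4883) (.N (.N (.D 4889) (.L 109741649)) (.D 23047))) (.D 22663)))) (.D 50089))) (.N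
  (.N (.D 34213) (.N (.N (.N (.D 21139) (.N (.N (.N (.L 109745687) (.D 7175)) (.D 6663)) (.D
  6407))) (.D 5639)) (.D 5383))) (.N (.D 34213) (.N (.D 4875) (.N (.D 4877) (.N (.D 21139) (.N (.D
  4883) (.N (.N (.D 4889) (.L 109623819)) (.D 82868))))))))) (.N (.N (.N (.D 18083) (.N (.N (.N
  (.N (.N (.N (.L 112275994) (.D 7175)) (.D 6663)) (.D 6407)) (.D 22663)) (.D 5639)) (.D 5383)))
  (.N (.D 18083) (.N (.D 4875) (.N (.D 4877) (.N (.N (.D 4883) (.N (.N (.D 4889) (.L 109681164))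
  (.D 23047))) (.D 22663)))))) (.N (.N (.N (.N (.N (.D 21139) (.N (.N (.N (.L 112075287) (.D
  7175)) (.D 6663)) (.D 6407))) (.D 5639)) (.D 5383)) (.N (.N (.N (.D 21139) (.N (.N (.N (.L
  109752853) (.D 7175)) (.D 6663)) (.D 6407))) (.D 5639)) (.D 5383))) (.N (.N (.D 4875) (.N (.D
  4877) (.N (.D 21139) (.N (.D 4883) (.N (.N (.D 4889) (.L 109681163)) (.D 82868)))))) (.N (.D
  4875) (.N (.D 4877) (.N (.D 21139) (.N (.D 4883) (.N (.N (.D 4889) (.L 109681162)) (.D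
  82868)))))))))) (.D 3591)) (.D 3335))) (.N (.D 18067) (.N (.D 2827) (.N (.D 2829) (.N (.N (.N
  (.N (.N (.N (.N (.N (.N (.N (.L 111777814) (.D 50104)) (.D 23047)) (.D 66482)) (.D 22663)) (.D
  5639)) (.D 5383)) (.D 50089)) (.N (.N (.D 4875) (.N (.D 4877) (.N (.N (.D 35238) (.N (.N (.D
  19626) (.L 111232587)) (.D 23047))) (.D 22663)))) (.D 50089))) (.N (.N (.D 34213) (.N (.N (.N
  (.D 21139) (.N (.N (.D 21142) (.N (.D 2857) (.L 111491083))) (.D 66482))) (.D 5639)) (.D 5383)))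
  (.N (.D 34213) (.N (.D 4875) (.N (.D 4877) (.N (.D 21139) (.N (.D 35238) (.N (.D 21142) (.N (.L
  108175879) (.L 101099716)))))))))) (.N (.N (.N (.D 18083) (.N (.N (.N (.N (.D 2851) (.N (.N (.D
  2857) (.L 111777804)) (.D 23047))) (.D 22663)) (.D 5639)) (.D 5383))) (.N (.D 18083) (.N (.D
  4875) (.N (.D 4877) (.N (.N (.N (.N (.L 112264779) (.D 50104)) (.D 23047)) (.N (.N (.D 18098)
  (.L 106301001)) (.D 23047))) (.D 22663)))))) (.N (.N (.N (.N (.N (.D 21139) (.N (.D 2851) (.N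
  (.D 21142) (.N (.L 112007179) (.D 66488))))) (.D 5639)) (.D 5383)) (.N (.N (.N (.D 21139) (.N
  (.D 2851) (.N (.D 21142) (.N (.D 2857) (.L 106272777))))) (.D 5639)) (.D 5383))) (.N (.N (.D
  4875) (.N (.D 4877) (.N (.D 21139) (.N (.N (.D 21142) (.N (.D 19626) (.L 104215559))) (.N (.D
  21142) (.N (.D 19626) (.L 101623876))))))) (.N (.D 4875) (.N (.D 4877) (.N (.D 21139) (.N (.N
  (.D 21142) (.N (.D 3377) (.L 103982596))) (.N (.D 21142) (.N (.L 108175876) (.L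
  105693506))))))))))))))

def sx45 : CT :=
  .N (.N (.N (.N (.N (.N (.N (.N (.N (.N (.N (.N (.N (.L 112304670) (.D 7175)) (.D 6663)) (.D
  6407)) (.D 22667)) (.D 5639)) (.D 5383)) (.D 50089)) (.N (.N (.D 4875) (.N (.D 4877) (.N (.N (.D
  4883) (.N (.D 4885) (.N (.L 110003281) (.D 23563)))) (.D 22667)))) (.D 50089))) (.N (.N (.D
  34213) (.N (.N (.N (.D 21651) (.N (.N (.N (.L 110007319) (.D 7175)) (.D 6663)) (.D 6407))) (.D
  5639)) (.D 5383))) (.N (.D 34213) (.N (.D 4875) (.N (.D 4877) (.N (.D 21651) (.N (.D 4883) (.N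
  (.D 4885) (.N (.L 109881867) (.D 82872)))))))))) (.N (.N (.N (.D 18083) (.N (.N (.N (.D 21651)
  (.N (.N (.N (.L 110010903) (.D 7175)) (.D 6663)) (.D 6407))) (.D 5639)) (.D 5383))) (.N (.D
  18083) (.N (.D 4875) (.N (.D 4877) (.N (.D 21651) (.N (.D 4883) (.N (.D 4885) (.N (.L 109910539)
  (.D 82872))))))))) (.N (.N (.N (.N (.N (.N (.N (.N (.L 112304666) (.D 7175)) (.D 6663)) (.D
  6407)) (.D 22667)) (.D 5639)) (.D 5383)) (.N (.N (.N (.D 21651) (.N (.N (.N (.L 110010901) (.D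
  7175)) (.D 6663)) (.D 6407))) (.D 5639)) (.D 5383))) (.N (.N (.D 4875) (.N (.D 4877) (.N (.N (.D
  4883) (.N (.D 4885) (.N (.L 109910540) (.D 23563)))) (.D 22667)))) (.N (.D 4875) (.N (.D 4877)
  (.N (.D 21651) (.N (.D 4883) (.N (.D 4885) (.N (.L 109910538) (.D 82872))))))))))) (.D 3591))
  (.D 3335)) (.N (.N (.N (.N (.N (.N (.N (.N (.N (.N (.N (.N (.L 112304668) (.D 7175)) (.D 6663))
  (.D 6407)) (.D 66481)) (.D 5639)) (.D 5383)) (.D 50089)) (.N (.N (.D 4875) (.N (.D 4877) (.N (.N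
  (.D 4883) (.N (.D 4885) (.N (.D 4889) (.L 111293518)))) (.D 66481)))) (.D 50089))) (.N (.N (.D
  34213) (.N (.N (.N (.D 35237) (.N (.N (.N (.L 111555605) (.D 7175)) (.D 6663)) (.D 6407))) (.D
  5639)) (.D 5383))) (.N (.D 34213) (.N (.D 4875) (.N (.D 4877) (.N (.D 35237) (.N (.D 4883) (.N
  (.D 4885) (.N (.D 4889) (.L 103918089)))))))))) (.N (.N (.N (.D 18083) (.N (.N (.N (.D 19107)
  (.N (.N (.N (.L 111817237) (.D 7175)) (.D 6663)) (.D 6407))) (.D 5639)) (.D 5383))) (.N (.D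
  18083) (.N (.D 4875) (.N (.D 4877) (.N (.D 19107) (.N (.D 4883) (.N (.D 4885) (.N (.D 4889) (.L
  106011145))))))))) (.N (.N (.N (.N (.N (.D 19619) (.N (.N (.N (.L 112075285) (.D 7175)) (.D
  6663)) (.D 6407))) (.D 5639)) (.D 5383)) (.N (.N (.N (.N (.N (.N (.L 112304661) (.D 7175)) (.D
  6663)) (.D 6407)) (.N (.N (.N (.L 112304658) (.D 7175)) (.D 6663)) (.D 6407))) (.D 5639)) (.D
  5383))) (.N (.N (.D 4875) (.N (.D 4877) (.N (.D 19619) (.N (.D 4883) (.N (.D 4885) (.N (.D 4889)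
  (.L 108075529))))))) (.N (.D 4875) (.N (.D 4877) (.N (.N (.D 4883) (.N (.D 4885) (.N (.D 4889)
  (.L 109910537)))) (.N (.D 4883) (.N (.D 4885) (.N (.D 4889) (.L 109910534))))))))))) (.D 3591))
  (.D 3335))

def sx46 : CT :=
  .N (.N (.D 2827) (.N (.D 2829) (.N (.N (.N (.N (.N (.N (.N (.N (.N (.N (.L 112007190) (.D
  23563)) (.D 66484)) (.D 66482)) (.D 22667)) (.D 5639)) (.D 5383)) (.D 50089)) (.N (.N (.D 4875)
  (.N (.D 4877) (.N (.N (.D 35238) (.N (.D 19110) (.N (.L 111264843) (.D 23563)))) (.D 22667))))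
  (.D 50089))) (.N (.N (.D 34213) (.N (.N (.N (.D 21651) (.N (.N (.D 2853) (.N (.D 21658) (.L
  111519755))) (.D 66482))) (.D 5639)) (.D 5383))) (.N (.D 34213) (.N (.D 4875) (.N (.D 4877) (.N
  (.D 21651) (.N (.D 35238) (.N (.N (.D 21658) (.L 106082823)) (.N (.D 21658) (.L
  101103748)))))))))) (.N (.N (.N (.D 18083) (.N (.N (.N (.D 21651) (.N (.D 2851) (.N (.N (.D
  21658) (.L 111777803)) (.D 66484)))) (.D 5639)) (.D 5383))) (.N (.D 18083) (.N (.D 4875) (.N (.D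
  4877) (.N (.D 21651) (.N (.N (.D 19110) (.N (.D 21658) (.L 103986183))) (.N (.D 19110) (.N (.D
  21658) (.L 101365828))))))))) (.N (.N (.N (.N (.N (.N (.D 2851) (.N (.D 2853) (.N (.L 112007180)
  (.D 23563)))) (.D 22667)) (.D 5639)) (.D 5383)) (.N (.N (.N (.D 21651) (.N (.D 2851) (.N (.D
  2853) (.N (.D 21658) (.L 108337161))))) (.D 5639)) (.D 5383))) (.N (.N (.D 4875) (.N (.D 4877)
  (.N (.N (.N (.N (.L 112297035) (.D 23563)) (.D 35252)) (.N (.D 19122) (.N (.L 108397641) (.D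
  23563)))) (.D 22667)))) (.N (.D 4875) (.N (.D 4877) (.N (.D 21651) (.N (.N (.D 2865) (.N (.D
  21658) (.L 103986180))) (.N (.N (.D 21658) (.L 106082820)) (.N (.D 21658) (.L
  107528514))))))))))))) (.N (.D 2827) (.N (.D 2829) (.N (.N (.N (.N (.N (.N (.N (.N (.N (.N (.L
  112007187) (.D 50104)) (.D 66484)) (.D 66482)) (.D 66481)) (.D 5639)) (.D 5383)) (.D 50089)) (.N
  (.N (.D 4875) (.N (.D 4877) (.N (.N (.D 35238) (.N (.D 19110) (.N (.D 19626) (.L 111256328))))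
  (.D 66481)))) (.D 50089))) (.N (.N (.D 34213) (.N (.N (.N (.D 35237) (.N (.N (.D 2853) (.N (.D
  2857) (.L 111519754))) (.D 66482))) (.D 5639)) (.D 5383))) (.N (.D 34213) (.N (.D 4875) (.N (.D
  4877) (.N (.D 35237) (.N (.D 35238) (.N (.N (.D 3633) (.L 106305028)) (.N (.L 108401668) (.L
  103633154)))))))))) (.N (.N (.N (.D 18083) (.N (.N (.N (.D 19107) (.N (.D 2851) (.N (.N (.D
  2857) (.L 111777802)) (.D 66484)))) (.D 5639)) (.D 5383))) (.N (.D 18083) (.N (.D 4875) (.N (.D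
  4877) (.N (.D 19107) (.N (.N (.D 19110) (.N (.D 3377) (.L 104211972))) (.N (.D 19110) (.N (.L
  108405252) (.L 105697538))))))))) (.N (.N (.N (.N (.N (.D 19619) (.N (.D 2851) (.N (.D 2853) (.N
  (.L 112007178) (.D 66488))))) (.D 5639)) (.D 5383)) (.N (.N (.N (.N (.D 2851) (.N (.D 2853) (.N
  (.D 2857) (.L 112007177)))) (.N (.D 2851) (.N (.D 2853) (.N (.D 2857) (.L 112007174))))) (.D
  5639)) (.D 5383))) (.N (.N (.D 4875) (.N (.D 4877) (.N (.D 19619) (.N (.N (.D 2865) (.N (.D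
  19626) (.L 104215556))) (.N (.N (.D 19626) (.L 106312196)) (.N (.D 19626) (.L 107532546)))))))
  (.N (.D 4875) (.N (.D 4877) (.N (.N (.N (.N (.L 112304648) (.D 50104)) (.D 35252)) (.N (.D
  19122) (.N (.D 19634) (.L 107534339)))) (.N (.N (.D 2865) (.N (.D 3377) (.L 104215554))) (.N (.N
  (.D 3633) (.L 106312194)) (.N (.L 108405250) (.L 107534337)))))))))))))

def sx47 : CT :=
  .N (.N (.N (.N (.N (.N (.N (.N (.N (.N (.N (.N (.N (.N (.L 112304671) (.D 7179)) (.D 6663)) (.D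
  6407)) (.D 22663)) (.D 50092)) (.D 50090)) (.D 50089)) (.N (.N (.D 34214) (.N (.D 18086) (.N (.N
  (.N (.N (.L 110376025) (.D 23563)) (.D 23047)) (.D 39175)) (.D 22663)))) (.D 50089))) (.N (.N
  (.D 34213) (.N (.N (.D 1829) (.N (.N (.N (.N (.L 110408729) (.D 7179)) (.D 6663)) (.D 6407)) (.D
  39047))) (.D 50090))) (.N (.D 34213) (.N (.D 34214) (.N (.N (.N (.N (.N (.L 110469654) (.D
  7181)) (.D 6669)) (.D 39175)) (.D 39047)) (.N (.N (.N (.N (.L 110397075) (.D 50104)) (.D 82868))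
  (.D 39175)) (.D 39047))))))) (.N (.N (.N (.D 18083) (.N (.D 1827) (.N (.N (.N (.N (.N (.L
  110440985) (.D 7181)) (.D 6663)) (.D 6407)) (.D 22663)) (.D 50092)))) (.N (.D 18083) (.N (.N (.D
  18086) (.N (.N (.N (.N (.L 110466070) (.D 7179)) (.D 23047)) (.D 6411)) (.D 22663))) (.N (.D
  18086) (.N (.N (.N (.N (.L 110429779) (.D 50104)) (.D 23047)) (.D 82866)) (.D 22663)))))) (.N
  (.N (.N (.D 1827) (.N (.D 1829) (.N (.N (.N (.N (.L 110433814) (.D 23563)) (.D 6663)) (.D 6407))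
  (.D 22667)))) (.N (.D 1827) (.N (.D 1829) (.N (.N (.N (.N (.L 110433811) (.D 50104)) (.D 6663))
  (.D 6407)) (.D 82865))))) (.N (.N (.N (.N (.N (.N (.N (.L 110469657) (.D 7179)) (.D 6669)) (.D
  6411)) (.D 22667)) (.D 34220)) (.N (.D 18090) (.N (.N (.N (.N (.L 110462035) (.D 23563)) (.D
  82868)) (.D 82866)) (.D 22667)))) (.N (.N (.D 1833) (.N (.N (.N (.N (.L 110466067) (.D 7179))
  (.D 82868)) (.D 6411)) (.D 82865))) (.N (.N (.N (.N (.N (.L 110469651) (.D 7181)) (.D 6669)) (.D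
  82866)) (.D 82865)) (.N (.N (.N (.N (.L 110469647) (.D 50104)) (.D 82868)) (.D 82866)) (.D
  82865)))))))) (.D 50076)) (.D 50074)) (.D 50073)) (.N (.N (.D 34198) (.N (.D 18070) (.N (.N (.N
  (.N (.N (.N (.N (.N (.N (.N (.L 112211033) (.D 23563)) (.D 23047)) (.D 39175)) (.D 22663)) (.D
  50092)) (.D 50090)) (.D 50089)) (.N (.N (.D 34214) (.N (.D 18086) (.N (.N (.N (.N (.L 112211024)
  (.D 23563)) (.D 23047)) (.D 39175)) (.D 22663)))) (.D 50089))) (.N (.N (.D 34213) (.N (.N (.D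
  1829) (.N (.N (.N (.D 21142) (.N (.D 21658) (.L 111543949))) (.D 39175)) (.D 39047))) (.D
  50090))) (.N (.D 34213) (.N (.D 34214) (.N (.N (.N (.N (.D 21142) (.N (.D 21658) (.L
  109221515))) (.D 39175)) (.D 39047)) (.N (.N (.N (.D 21142) (.N (.D 21658) (.L 109221514))) (.D
  39175)) (.D 39047))))))) (.N (.N (.N (.D 18083) (.N (.D 1827) (.N (.N (.N (.D 37270) (.N (.N (.D
  21658) (.L 111806029)) (.D 23047))) (.D 22663)) (.D 50092)))) (.N (.D 18083) (.N (.N (.D 18086)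
  (.N (.N (.D 37270) (.N (.N (.D 21658) (.L 109225547)) (.D 23047))) (.D 22663))) (.N (.D 18086)
  (.N (.N (.D 37270) (.N (.N (.D 21658) (.L 109225546)) (.D 23047))) (.D 22663)))))) (.N (.N (.N
  (.D 1827) (.N (.D 1829) (.N (.N (.D 37270) (.N (.D 21142) (.N (.L 109229131) (.D 23563)))) (.D
  22667)))) (.N (.D 1827) (.N (.D 1829) (.N (.N (.D 37270) (.N (.D 21142) (.N (.D 21658) (.L
  109224648)))) (.D 82865))))) (.N (.N (.N (.N (.N (.D 37270) (.N (.D 21142) (.N (.L 112067661)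
  (.D 23563)))) (.D 22667)) (.D 34220)) (.N (.D 18090) (.N (.N (.D 37270) (.N (.D 21142) (.N (.L
  109229130) (.D 23563)))) (.D 22667)))) (.N (.N (.D 1833) (.N (.N (.D 37270) (.N (.D 21142) (.N
  (.D 21658) (.L 109228680)))) (.D 82865))) (.N (.N (.N (.D 37270) (.N (.D 21142) (.N (.D 21658)
  (.L 109229128)))) (.D 82865)) (.N (.N (.D 37270) (.N (.D 21142) (.N (.D 21658) (.L 109229125))))
  (.D 82865)))))))))) (.D 50073))

def sx48 : CT :=
  .N (.N (.N (.N (.N (.N (.N (.N (.N (.N (.N (.L 112304662) (.D 7181)) (.D 6669)) (.D 39175)) (.D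
  39047)) (.D 50092)) (.D 50090)) (.D 50089)) (.N (.N (.D 34214) (.N (.D 18086) (.N (.N (.N (.D
  5653) (.N (.D 5657) (.L 111285899))) (.D 39175)) (.D 39047)))) (.D 50089))) (.N (.N (.D 34213)
  (.N (.N (.D 1829) (.N (.N (.N (.D 5653) (.N (.D 5657) (.L 111543947))) (.D 39175)) (.D 39047)))
  (.D 50090))) (.N (.D 34213) (.N (.D 34214) (.N (.N (.N (.N (.N (.L 112304652) (.D 7181)) (.D
  6669)) (.D 39175)) (.D 39047)) (.N (.N (.N (.D 5653) (.N (.D 5657) (.L 110397065))) (.D 39175))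
  (.D 39047))))))) (.N (.N (.N (.D 18083) (.N (.D 1827) (.N (.N (.D 37269) (.N (.D 37270) (.N (.N
  (.L 111817227) (.D 7181)) (.D 6669)))) (.D 50092)))) (.N (.D 18083) (.N (.N (.D 18086) (.N (.D
  37269) (.N (.D 37270) (.N (.D 5653) (.N (.D 5657) (.L 107631111)))))) (.N (.D 18086) (.N (.D
  37269) (.N (.D 37270) (.N (.D 5653) (.N (.D 5657) (.L 105039428))))))))) (.N (.N (.N (.D 1827)
  (.N (.D 1829) (.N (.D 37269) (.N (.D 37270) (.N (.D 5653) (.N (.D 5657) (.L 105796103))))))) (.N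
  (.D 1827) (.N (.D 1829) (.N (.D 37269) (.N (.D 37270) (.N (.D 5653) (.N (.D 5657) (.L
  105301508)))))))) (.N (.N (.N (.N (.D 37269) (.N (.D 37270) (.N (.N (.L 112075275) (.D 7181))
  (.D 6669)))) (.D 34220)) (.N (.D 18090) (.N (.D 37269) (.N (.D 37270) (.N (.D 5653) (.N (.D
  5657) (.L 107136068))))))) (.N (.N (.D 1833) (.N (.D 37269) (.N (.D 37270) (.N (.D 5653) (.N (.D
  5657) (.L 107398148)))))) (.N (.N (.D 37269) (.N (.D 37270) (.N (.N (.L 110469641) (.D 7181))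
  (.D 6669)))) (.N (.D 37269) (.N (.D 37270) (.N (.D 5653) (.N (.D 5657) (.L 109908290)))))))))))
  (.N (.N (.N (.N (.N (.N (.N (.N (.N (.N (.L 112232083) (.D 50104)) (.D 66484)) (.D 39175)) (.D
  39047)) (.D 50092)) (.D 50090)) (.D 50089)) (.N (.N (.D 34214) (.N (.D 18086) (.N (.N (.N (.D
  19110) (.N (.D 19626) (.L 111285898))) (.D 39175)) (.D 39047)))) (.D 50089))) (.N (.N (.D 34213)
  (.N (.N (.D 1829) (.N (.N (.N (.D 2853) (.N (.D 3369) (.L 111543946))) (.D 39175)) (.D 39047)))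
  (.D 50090))) (.N (.D 34213) (.N (.D 34214) (.N (.N (.N (.N (.D 3621) (.N (.D 3625) (.L
  112232073))) (.D 39175)) (.D 39047)) (.N (.N (.N (.N (.L 112232074) (.D 50104)) (.N (.D 34228)
  (.L 112232070))) (.D 39175)) (.D 39047))))))) (.N (.N (.N (.D 18083) (.N (.D 1827) (.N (.N (.D
  37269) (.N (.D 37270) (.N (.N (.D 3625) (.L 111808712)) (.D 66484)))) (.D 50092)))) (.N (.D
  18083) (.N (.N (.D 18086) (.N (.D 37269) (.N (.D 37270) (.N (.D 19110) (.N (.D 3369) (.L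
  102913668)))))) (.N (.D 18086) (.N (.D 37269) (.N (.D 37270) (.N (.D 19110) (.N (.L 112297028)
  (.L 102056642))))))))) (.N (.N (.N (.D 1827) (.N (.D 1829) (.N (.D 37269) (.N (.D 37270) (.N (.D
  2853) (.N (.D 19626) (.L 101078660))))))) (.N (.D 1827) (.N (.D 1829) (.N (.D 37269) (.N (.D
  37270) (.N (.D 2853) (.N (.L 112301060) (.L 104153282)))))))) (.N (.N (.N (.N (.D 37269) (.N (.D
  37270) (.N (.D 3621) (.N (.L 112070792) (.D 66488))))) (.D 34220)) (.N (.D 18090) (.N (.D 37269)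
  (.N (.D 37270) (.N (.N (.D 19626) (.L 111264836)) (.N (.D 19626) (.L 102089346))))))) (.N (.N
  (.D 1833) (.N (.D 37269) (.N (.D 37270) (.N (.N (.D 3369) (.L 111526916)) (.N (.D 3369) (.L
  104185986)))))) (.N (.N (.D 37269) (.N (.D 37270) (.N (.D 3621) (.N (.D 3625) (.L 112017923)))))
  (.N (.D 37269) (.N (.D 37270) (.N (.N (.D 3633) (.L 110432450)) (.N (.L 110465154) (.L
  109336193)))))))))))

def sx49 : CT :=
  .N (.N (.D 18070) (.N (.N (.N (.N (.N (.N (.N (.N (.N (.N (.L 112301078) (.D 7179)) (.D 23047))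
  (.D 6411)) (.D 22663)) (.D 50092)) (.D 50090)) (.D 50089)) (.N (.N (.D 34214) (.N (.D 18086) (.N
  (.N (.D 5395) (.N (.N (.D 5401) (.L 111289931)) (.D 23047))) (.D 22663)))) (.D 50089))) (.N (.N
  (.D 34213) (.N (.N (.D 1829) (.N (.D 21139) (.N (.N (.D 21142) (.N (.L 111555595) (.D 7179)))
  (.D 6411)))) (.D 50090))) (.N (.D 34213) (.N (.D 34214) (.N (.N (.D 21139) (.N (.D 5395) (.N (.D
  21142) (.N (.D 5401) (.L 107659783))))) (.N (.D 21139) (.N (.D 5395) (.N (.D 21142) (.N (.D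
  5401) (.L 102942340)))))))))) (.N (.N (.N (.D 18083) (.N (.D 1827) (.N (.N (.N (.D 5395) (.N (.N
  (.D 5401) (.L 111806027)) (.D 23047))) (.D 22663)) (.D 50092)))) (.N (.D 18083) (.N (.N (.D
  18086) (.N (.N (.N (.N (.L 112301068) (.D 7179)) (.D 23047)) (.D 6411)) (.D 22663))) (.N (.D
  18086) (.N (.N (.D 5395) (.N (.N (.D 5401) (.L 110429769)) (.D 23047))) (.D 22663)))))) (.N (.N
  (.N (.D 1827) (.N (.D 1829) (.N (.D 21139) (.N (.D 5395) (.N (.D 21142) (.N (.D 5401) (.L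
  103699463))))))) (.N (.D 1827) (.N (.D 1829) (.N (.D 21139) (.N (.D 5395) (.N (.D 21142) (.N (.D
  5401) (.L 103466500)))))))) (.N (.N (.N (.N (.D 21139) (.N (.N (.D 21142) (.N (.L 112071691) (.D
  7179))) (.D 6411))) (.D 34220)) (.N (.D 18090) (.N (.D 21139) (.N (.D 5395) (.N (.D 21142) (.N
  (.D 5401) (.L 101631044))))))) (.N (.N (.D 1833) (.N (.D 21139) (.N (.N (.D 21142) (.N (.L
  110466057) (.D 7179))) (.D 6411)))) (.N (.N (.D 21139) (.N (.D 5395) (.N (.D 21142) (.N (.D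
  5401) (.L 107659780))))) (.N (.D 21139) (.N (.D 5395) (.N (.D 21142) (.N (.D 5401) (.L
  109879618)))))))))))) (.N (.D 18070) (.N (.N (.N (.N (.N (.N (.N (.N (.N (.N (.L 112264787) (.D
  50104)) (.D 23047)) (.D 66482)) (.D 22663)) (.D 50092)) (.D 50090)) (.D 50089)) (.N (.N (.D
  34214) (.N (.D 18086) (.N (.N (.D 35238) (.N (.N (.D 19626) (.L 111289930)) (.D 23047))) (.D
  22663)))) (.D 50089))) (.N (.N (.D 34213) (.N (.N (.D 1829) (.N (.D 21139) (.N (.N (.D 21142)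
  (.N (.D 3369) (.L 111550664))) (.D 66482)))) (.D 50090))) (.N (.D 34213) (.N (.D 34214) (.N (.N
  (.D 21139) (.N (.D 35238) (.N (.D 21142) (.N (.D 3625) (.L 105010756))))) (.N (.D 21139) (.N (.D
  35238) (.N (.D 21142) (.N (.L 110462020) (.L 101798594)))))))))) (.N (.N (.N (.D 18083) (.N (.D
  1827) (.N (.N (.N (.D 2851) (.N (.N (.D 3625) (.L 111806026)) (.D 23047))) (.D 22663)) (.D
  50092)))) (.N (.D 18083) (.N (.N (.D 18086) (.N (.N (.D 3363) (.N (.N (.D 3369) (.L 112264777))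
  (.D 23047))) (.D 22663))) (.N (.D 18086) (.N (.N (.N (.N (.L 112264778) (.D 50104)) (.D 23047))
  (.N (.N (.D 18098) (.L 112264774)) (.D 23047))) (.D 22663)))))) (.N (.N (.N (.D 1827) (.N (.D
  1829) (.N (.D 21139) (.N (.D 2851) (.N (.D 21142) (.N (.D 19626) (.L 101340740))))))) (.N (.D
  1827) (.N (.D 1829) (.N (.D 21139) (.N (.D 2851) (.N (.D 21142) (.N (.L 112304644) (.L
  106217666)))))))) (.N (.N (.N (.N (.D 21139) (.N (.D 3363) (.N (.D 21142) (.N (.L 112074824) (.D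
  66488))))) (.D 34220)) (.N (.D 18090) (.N (.D 21139) (.N (.N (.D 21142) (.N (.D 19626) (.L
  102089796))) (.N (.D 21142) (.N (.D 19626) (.L 102089794))))))) (.N (.N (.D 1833) (.N (.D 21139)
  (.N (.D 3363) (.N (.D 21142) (.N (.D 3369) (.L 111985667)))))) (.N (.N (.D 21139) (.N (.N (.D
  21142) (.N (.D 3625) (.L 111788548))) (.N (.D 21142) (.N (.D 3625) (.L 106283074))))) (.N (.D
  21139) (.N (.N (.D 21142) (.N (.D 3377) (.L 110403778))) (.N (.D 21142) (.N (.L 110469186) (.L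
  109598273))))))))))))

def sx50 : CT :=
  .N (.N (.D 1811) (.N (.D 1813) (.N (.N (.N (.N (.N (.N (.N (.N (.N (.N (.L 112268822) (.D
  23563)) (.D 6663)) (.D 6407)) (.D 22667)) (.D 50092)) (.D 50090)) (.D 50089)) (.N (.N (.D 34214)
  (.N (.D 18086) (.N (.N (.D 4883) (.N (.D 4885) (.N (.L 111293515) (.D 23563)))) (.D 22667))))
  (.D 50089))) (.N (.N (.D 34213) (.N (.N (.D 1829) (.N (.D 21651) (.N (.N (.N (.D 21658) (.L
  111552011)) (.D 6663)) (.D 6407)))) (.D 50090))) (.N (.D 34213) (.N (.D 34214) (.N (.N (.D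
  21651) (.N (.D 4883) (.N (.D 4885) (.N (.D 21658) (.L 105824775))))) (.N (.D 21651) (.N (.D
  4883) (.N (.D 4885) (.N (.D 21658) (.L 101107332)))))))))) (.N (.N (.N (.D 18083) (.N (.D 1827)
  (.N (.N (.D 21651) (.N (.N (.N (.D 21658) (.L 111810059)) (.D 6663)) (.D 6407))) (.D 50092))))
  (.N (.D 18083) (.N (.N (.D 18086) (.N (.D 21651) (.N (.D 4883) (.N (.D 4885) (.N (.D 21658) (.L
  103728135)))))) (.N (.D 18086) (.N (.D 21651) (.N (.D 4883) (.N (.D 4885) (.N (.D 21658) (.L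
  101369412))))))))) (.N (.N (.N (.D 1827) (.N (.D 1829) (.N (.N (.N (.N (.L 112268812) (.D
  23563)) (.D 6663)) (.D 6407)) (.D 22667)))) (.N (.D 1827) (.N (.D 1829) (.N (.D 21651) (.N (.N
  (.N (.D 21658) (.L 110433801)) (.D 6663)) (.D 6407)))))) (.N (.N (.N (.N (.N (.D 4883) (.N (.D
  4885) (.N (.L 112067659) (.D 23563)))) (.D 22667)) (.D 34220)) (.N (.D 18090) (.N (.N (.D 4883)
  (.N (.D 4885) (.N (.L 110462025) (.D 23563)))) (.D 22667)))) (.N (.N (.D 1833) (.N (.D 21651)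
  (.N (.D 4883) (.N (.D 4885) (.N (.D 21658) (.L 103728132)))))) (.N (.N (.D 21651) (.N (.D 4883)
  (.N (.D 4885) (.N (.D 21658) (.L 105824772))))) (.N (.D 21651) (.N (.D 4883) (.N (.D 4885) (.N
  (.D 21658) (.L 109621570))))))))))))) (.N (.D 1811) (.N (.D 1813) (.N (.N (.N (.N (.N (.N (.N
  (.N (.N (.N (.L 112268819) (.D 50104)) (.D 6663)) (.D 6407)) (.D 66481)) (.D 50092)) (.D 50090))
  (.D 50089)) (.N (.N (.D 34214) (.N (.D 18086) (.N (.N (.D 4883) (.N (.D 4885) (.N (.D 19626) (.L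
  111289032)))) (.D 66481)))) (.D 50089))) (.N (.N (.D 34213) (.N (.N (.D 1829) (.N (.D 35237) (.N
  (.N (.N (.D 3369) (.L 111552010)) (.D 6663)) (.D 6407)))) (.D 50090))) (.N (.D 34213) (.N (.D
  34214) (.N (.N (.D 35237) (.N (.D 4883) (.N (.D 4885) (.N (.D 3625) (.L 105272836))))) (.N (.D
  35237) (.N (.D 4883) (.N (.D 4885) (.N (.L 110466052) (.L 103895234)))))))))) (.N (.N (.N (.D
  18083) (.N (.D 1827) (.N (.N (.D 19107) (.N (.N (.N (.D 3625) (.L 111810058)) (.D 6663)) (.D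
  6407))) (.D 50092)))) (.N (.D 18083) (.N (.N (.D 18086) (.N (.D 19107) (.N (.D 4883) (.N (.D
  4885) (.N (.D 3369) (.L 103437828)))))) (.N (.D 18086) (.N (.D 19107) (.N (.D 4883) (.N (.D
  4885) (.N (.L 110469636) (.L 105959618))))))))) (.N (.N (.N (.D 1827) (.N (.D 1829) (.N (.D
  19619) (.N (.N (.N (.D 19626) (.L 112268809)) (.D 6663)) (.D 6407))))) (.N (.D 1827) (.N (.D
  1829) (.N (.N (.N (.N (.L 112268810) (.D 50104)) (.D 6663)) (.D 6407)) (.N (.N (.N (.D 1841) (.L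
  112268806)) (.D 6663)) (.D 6407)))))) (.N (.N (.N (.N (.D 19619) (.N (.D 4883) (.N (.D 4885) (.N
  (.L 112075272) (.D 66488))))) (.D 34220)) (.N (.D 18090) (.N (.D 19619) (.N (.D 4883) (.N (.D
  4885) (.N (.D 19626) (.L 109630979))))))) (.N (.N (.D 1833) (.N (.N (.D 4883) (.N (.D 4885) (.N
  (.D 3369) (.L 104186884)))) (.N (.D 4883) (.N (.D 4885) (.N (.D 3369) (.L 104186882)))))) (.N
  (.N (.N (.D 4883) (.N (.D 4885) (.N (.D 3625) (.L 106283524)))) (.N (.D 4883) (.N (.D 4885) (.N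
  (.D 3625) (.L 106283522))))) (.N (.N (.D 4883) (.N (.D 4885) (.N (.D 19634) (.L 109629634))))
  (.N (.D 4883) (.N (.D 4885) (.N (.L 110469634) (.L 109630977)))))))))))))

def sx51 : CT :=
  .N (.N (.N (.N (.N (.N (.N (.N (.N (.N (.N (.N (.L 112304665) (.D 7179)) (.D 6669)) (.D 6411))
  (.D 22667)) (.D 50092)) (.D 50090)) (.D 50089)) (.N (.N (.D 34214) (.N (.D 18086) (.N (.N (.D
  5395) (.N (.D 5653) (.N (.L 110003277) (.D 23563)))) (.D 22667)))) (.D 50089))) (.N (.N (.D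
  34213) (.N (.N (.D 1829) (.N (.D 21651) (.N (.N (.D 5653) (.N (.L 110007309) (.D 7179))) (.D
  6411)))) (.D 50090))) (.N (.D 34213) (.N (.D 34214) (.N (.N (.D 21651) (.N (.D 5395) (.N (.N (.L
  110010891) (.D 7181)) (.D 6669)))) (.N (.D 21651) (.N (.D 5395) (.N (.D 5653) (.N (.L 110006408)
  (.D 82872)))))))))) (.N (.N (.N (.D 18083) (.N (.D 1827) (.N (.N (.D 21651) (.N (.D 5395) (.N
  (.N (.L 110010893) (.D 7181)) (.D 6669)))) (.D 50092)))) (.N (.D 18083) (.N (.N (.D 18086) (.N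
  (.D 21651) (.N (.N (.D 5653) (.N (.L 110007307) (.D 7179))) (.D 6411)))) (.N (.D 18086) (.N (.D
  21651) (.N (.D 5395) (.N (.D 5653) (.N (.L 110010440) (.D 82872))))))))) (.N (.N (.N (.D 1827)
  (.N (.D 1829) (.N (.N (.D 5395) (.N (.D 5653) (.N (.L 110003275) (.D 23563)))) (.D 22667)))) (.N
  (.D 1827) (.N (.D 1829) (.N (.D 21651) (.N (.D 5395) (.N (.D 5653) (.N (.L 110010888) (.D
  82872)))))))) (.N (.N (.N (.N (.N (.N (.N (.L 112304656) (.D 7179)) (.D 6669)) (.D 6411)) (.D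
  22667)) (.D 34220)) (.N (.D 18090) (.N (.N (.D 5395) (.N (.D 5653) (.N (.L 110003274) (.D
  23563)))) (.D 22667)))) (.N (.N (.D 1833) (.N (.D 21651) (.N (.N (.D 5653) (.N (.L 110007306)
  (.D 7179))) (.D 6411)))) (.N (.N (.D 21651) (.N (.D 5395) (.N (.N (.L 110010890) (.D 7181)) (.D
  6669)))) (.N (.D 21651) (.N (.D 5395) (.N (.D 5653) (.N (.L 110010885) (.D 82872))))))))))) (.D
  34204)) (.N (.D 18074) (.N (.N (.N (.N (.N (.N (.N (.N (.N (.N (.L 112297043) (.D 23563)) (.D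
  66484)) (.D 66482)) (.D 22667)) (.D 50092)) (.D 50090)) (.D 50089)) (.N (.N (.D 34214) (.N (.D
  18086) (.N (.N (.D 35238) (.N (.D 19110) (.N (.L 111293514) (.D 23563)))) (.D 22667)))) (.D
  50089))) (.N (.N (.D 34213) (.N (.N (.D 1829) (.N (.D 21651) (.N (.N (.D 2853) (.N (.D 21658)
  (.L 111554696))) (.D 66482)))) (.D 50090))) (.N (.D 34213) (.N (.D 34214) (.N (.N (.D 21651) (.N
  (.D 35238) (.N (.D 3621) (.N (.D 21658) (.L 107107396))))) (.N (.D 21651) (.N (.D 35238) (.N (.N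
  (.D 21658) (.L 109171780)) (.N (.D 21658) (.L 101831298)))))))))) (.N (.N (.N (.D 18083) (.N (.D
  1827) (.N (.N (.D 21651) (.N (.D 2851) (.N (.N (.D 21658) (.L 111816776)) (.D 66484)))) (.D
  50092)))) (.N (.D 18083) (.N (.N (.D 18086) (.N (.D 21651) (.N (.D 3363) (.N (.D 19110) (.N (.D
  21658) (.L 101602372)))))) (.N (.D 18086) (.N (.D 21651) (.N (.N (.D 19110) (.N (.D 21658) (.L
  101831748))) (.N (.D 19110) (.N (.D 21658) (.L 101831746))))))))) (.N (.N (.N (.D 1827) (.N (.D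
  1829) (.N (.N (.D 2851) (.N (.D 2853) (.N (.L 112297033) (.D 23563)))) (.D 22667)))) (.N (.D
  1827) (.N (.D 1829) (.N (.D 21651) (.N (.D 2851) (.N (.D 2853) (.N (.D 21658) (.L
  111724035)))))))) (.N (.N (.N (.N (.N (.D 3363) (.N (.D 3621) (.N (.L 112067658) (.D 23563))))
  (.D 22667)) (.D 34220)) (.N (.D 18090) (.N (.N (.N (.N (.L 112297034) (.D 23563)) (.D 35252))
  (.N (.D 19122) (.N (.L 112297030) (.D 23563)))) (.D 22667)))) (.N (.N (.D 1833) (.N (.D 21651)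
  (.N (.D 3363) (.N (.N (.D 21658) (.L 112275972)) (.N (.D 21658) (.L 108314754)))))) (.N (.N (.D
  21651) (.N (.N (.D 3621) (.N (.D 21658) (.L 112017924))) (.N (.D 3621) (.N (.D 21658) (.L
  108347458))))) (.N (.D 21651) (.N (.N (.D 2865) (.N (.D 21658) (.L 110407810))) (.N (.N (.D
  21658) (.L 110440514)) (.N (.D 21658) (.L 109859905))))))))))))

def sx52 : CT :=
  .N (.N (.N (.N (.N (.N (.N (.N (.N (.N (.N (.L 112304659) (.D 7181)) (.D 6669)) (.D 66482)) (.D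
  66481)) (.D 50092)) (.D 50090)) (.D 50089)) (.N (.N (.D 34214) (.N (.D 18086) (.N (.N (.D 35238)
  (.N (.D 5653) (.N (.D 5657) (.L 111293512)))) (.D 66481)))) (.D 50089))) (.N (.N (.D 34213) (.N
  (.N (.D 1829) (.N (.D 35237) (.N (.N (.D 5653) (.N (.D 5657) (.L 111555592))) (.D 66482)))) (.D
  50090))) (.N (.D 34213) (.N (.D 34214) (.N (.N (.D 35237) (.N (.D 35238) (.N (.N (.L 112304649)
  (.D 7181)) (.D 6669)))) (.N (.D 35237) (.N (.D 35238) (.N (.D 5653) (.N (.D 5657) (.L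
  109924867)))))))))) (.N (.N (.N (.D 18083) (.N (.D 1827) (.N (.N (.D 19107) (.N (.D 2851) (.N
  (.N (.L 111817226) (.D 7181)) (.D 6669)))) (.D 50092)))) (.N (.D 18083) (.N (.N (.D 18086) (.N
  (.D 19107) (.N (.D 3363) (.N (.D 5653) (.N (.D 5657) (.L 107631108)))))) (.N (.D 18086) (.N (.D
  19107) (.N (.N (.D 5653) (.N (.D 5657) (.L 109695492))) (.N (.D 5653) (.N (.D 5657) (.L
  106025026))))))))) (.N (.N (.N (.D 1827) (.N (.D 1829) (.N (.D 19619) (.N (.D 2851) (.N (.D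
  5653) (.N (.D 5657) (.L 105796100))))))) (.N (.D 1827) (.N (.D 1829) (.N (.N (.D 2851) (.N (.D
  5653) (.N (.D 5657) (.L 106025476)))) (.N (.D 2851) (.N (.D 5653) (.N (.D 5657) (.L
  106025474)))))))) (.N (.N (.N (.N (.D 19619) (.N (.D 3363) (.N (.N (.L 112075274) (.D 7181)) (.D
  6669)))) (.D 34220)) (.N (.D 18090) (.N (.D 19619) (.N (.N (.D 5653) (.N (.D 5657) (.L
  109924868))) (.N (.D 5653) (.N (.D 5657) (.L 108089410))))))) (.N (.N (.D 1833) (.N (.N (.D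
  3363) (.N (.D 5653) (.N (.D 5657) (.L 108089860)))) (.N (.D 3363) (.N (.D 5653) (.N (.D 5657)
  (.L 108089858)))))) (.N (.N (.N (.N (.N (.L 112304650) (.D 7181)) (.D 6669)) (.N (.D 19122) (.D
  6669))) (.N (.N (.D 2865) (.D 6669)) (.N (.N (.L 112304646) (.D 7181)) (.D 6669)))) (.N (.N (.N
  (.D 5653) (.D 35252)) (.N (.D 5653) (.N (.D 5657) (.L 109924418)))) (.N (.N (.D 5653) (.N (.D
  5657) (.L 109924866))) (.N (.D 5653) (.N (.D 5657) (.L 109924865))))))))))) (.N (.N (.N (.N (.N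
  (.N (.N (.N (.N (.N (.L 112304655) (.D 50104)) (.D 66484)) (.D 66482)) (.D 66481)) (.D 50092))
  (.D 50090)) (.D 50089)) (.N (.N (.D 34214) (.N (.D 18086) (.N (.N (.D 35238) (.N (.D 19110) (.N
  (.D 19626) (.L 111293509)))) (.D 66481)))) (.D 50089))) (.N (.N (.D 34213) (.N (.N (.D 1829) (.N
  (.D 35237) (.N (.N (.D 2853) (.N (.D 3369) (.L 111555589))) (.D 66482)))) (.D 50090))) (.N (.D
  34213) (.N (.D 34214) (.N (.N (.D 35237) (.N (.D 35238) (.N (.D 3621) (.N (.D 3625) (.L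
  112005378))))) (.N (.D 35237) (.N (.D 35238) (.N (.N (.D 3633) (.L 112267458)) (.N (.L
  112300162) (.L 111429249)))))))))) (.N (.N (.N (.D 18083) (.N (.D 1827) (.N (.N (.D 19107) (.N
  (.D 2851) (.N (.N (.D 3625) (.L 111817221)) (.D 66484)))) (.D 50092)))) (.N (.D 18083) (.N (.N
  (.D 18086) (.N (.D 19107) (.N (.D 3363) (.N (.D 19110) (.N (.D 3369) (.L 111976706)))))) (.N (.D
  18086) (.N (.D 19107) (.N (.N (.D 19110) (.N (.D 3377) (.L 112238786))) (.N (.D 19110) (.N (.L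
  112304194) (.L 111691329))))))))) (.N (.N (.N (.D 1827) (.N (.D 1829) (.N (.D 19619) (.N (.D
  2851) (.N (.D 2853) (.N (.D 19626) (.L 111718658))))))) (.N (.D 1827) (.N (.D 1829) (.N (.N (.D
  2851) (.N (.D 2853) (.N (.D 19634) (.L 111722690)))) (.N (.D 2851) (.N (.D 2853) (.N (.L
  112304642) (.L 111724033)))))))) (.N (.N (.N (.N (.D 19619) (.N (.D 3363) (.N (.D 3621) (.N (.L
  112075269) (.D 66488))))) (.D 34220)) (.N (.D 18090) (.N (.D 19619) (.N (.N (.D 2865) (.N (.D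
  19626) (.L 112242818))) (.N (.N (.D 19626) (.L 112275522)) (.N (.D 19626) (.L 111952961)))))))
  (.N (.N (.D 1833) (.N (.N (.D 3363) (.N (.D 19122) (.N (.D 3369) (.L 111984770)))) (.N (.D 3363)
  (.N (.N (.D 3369) (.L 112275970)) (.N (.D 3369) (.L 111985665)))))) (.N (.N (.N (.N (.D 3621)
  (.D 35252)) (.N (.D 3621) (.N (.D 3625) (.L 112017474)))) (.N (.N (.D 3621) (.N (.D 3625) (.L
  112017922))) (.N (.D 3621) (.N (.D 3625) (.L 112017921))))) (.N (.N (.N (.N (.L 112304645) (.D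
  50104)) (.D 35252)) (.N (.D 19122) (.N (.D 19634) (.L 112211009)))) (.N (.N (.D 2865) (.N (.D
  3377) (.L 112243713))) (.N (.N (.D 3633) (.L 112275969)) (.N (.L 112304641) (.L
  112304640)))))))))))

def sx53 : CT :=
  .N (.N (.N (.D 18067) (.N (.D 1811) (.N (.N (.N (.N (.N (.N (.N (.N (.N (.N (.N (.L 112275993)
  (.D 7181)) (.D 6663)) (.D 6407)) (.D 22663)) (.D 50092)) (.D 50090)) (.D 50089)) (.N (.N (.D
  34214) (.N (.D 18086) (.N (.N (.D 4883) (.N (.N (.D 5657) (.L 109741645)) (.D 23047))) (.D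
  22663)))) (.D 50089))) (.N (.N (.D 34213) (.N (.N (.D 1829) (.N (.D 21139) (.N (.N (.N (.D 5657)
  (.L 109745677)) (.D 6663)) (.D 6407)))) (.D 50090))) (.N (.D 34213) (.N (.D 34214) (.N (.N (.D
  21139) (.N (.D 4883) (.N (.N (.L 109752843) (.D 7181)) (.D 6669)))) (.N (.D 21139) (.N (.D 4883)
  (.N (.N (.D 5657) (.L 109744328)) (.D 82868))))))))) (.N (.N (.N (.D 18083) (.N (.D 1827) (.N
  (.N (.N (.N (.N (.L 112275984) (.D 7181)) (.D 6663)) (.D 6407)) (.D 22663)) (.D 50092)))) (.N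
  (.D 18083) (.N (.N (.D 18086) (.N (.N (.D 4883) (.N (.N (.D 5657) (.L 109741643)) (.D 23047)))
  (.D 22663))) (.N (.D 18086) (.N (.N (.D 4883) (.N (.N (.D 5657) (.L 109741642)) (.D 23047))) (.D
  22663)))))) (.N (.N (.N (.D 1827) (.N (.D 1829) (.N (.D 21139) (.N (.N (.N (.D 5657) (.L
  109745675)) (.D 6663)) (.D 6407))))) (.N (.D 1827) (.N (.D 1829) (.N (.D 21139) (.N (.N (.N (.D
  5657) (.L 109745674)) (.D 6663)) (.D 6407)))))) (.N (.N (.N (.N (.D 21139) (.N (.D 4883) (.N (.N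
  (.L 112075277) (.D 7181)) (.D 6669)))) (.D 34220)) (.N (.D 18090) (.N (.D 21139) (.N (.D 4883)
  (.N (.N (.D 5657) (.L 109752392)) (.D 82868)))))) (.N (.N (.D 1833) (.N (.D 21139) (.N (.D 4883)
  (.N (.N (.D 5657) (.L 109752840)) (.D 82868))))) (.N (.N (.D 21139) (.N (.D 4883) (.N (.N (.L
  109752842) (.D 7181)) (.D 6669)))) (.N (.D 21139) (.N (.D 4883) (.N (.N (.D 5657) (.L
  109752837)) (.D 82868)))))))))) (.D 50076)))) (.N (.D 18067) sx49)) (.N sx50 (.N sx51 (.N (.N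
  (.D 1817) (.N (.N (.N (.N (.N (.N (.N (.N (.N (.N (.L 112301075) (.D 7179)) (.D 66484)) (.D
  6411)) (.D 66481)) (.D 50092)) (.D 50090)) (.D 50089)) (.N (.N (.D 34214) (.N (.D 18086) (.N (.N
  (.D 5395) (.N (.D 19110) (.N (.D 5401) (.L 111293064)))) (.D 66481)))) (.D 50089))) (.N (.N (.D
  34213) (.N (.N (.D 1829) (.N (.D 35237) (.N (.N (.D 2853) (.N (.L 111555594) (.D 7179))) (.D
  6411)))) (.D 50090))) (.N (.D 34213) (.N (.D 34214) (.N (.N (.D 35237) (.N (.D 5395) (.N (.D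
  3621) (.N (.D 5401) (.L 107369476))))) (.N (.D 35237) (.N (.D 5395) (.N (.N (.D 5401) (.L
  109433860)) (.N (.D 5401) (.L 103927938)))))))))) (.N (.N (.N (.D 18083) (.N (.D 1827) (.N (.N
  (.D 19107) (.N (.D 5395) (.N (.N (.D 5401) (.L 111817224)) (.D 66484)))) (.D 50092)))) (.N (.D
  18083) (.N (.N (.D 18086) (.N (.D 19107) (.N (.N (.D 19110) (.N (.L 112301065) (.D 7179))) (.D
  6411)))) (.N (.D 18086) (.N (.D 19107) (.N (.D 5395) (.N (.D 19110) (.N (.D 5401) (.L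
  109892611))))))))) (.N (.N (.N (.D 1827) (.N (.D 1829) (.N (.D 19619) (.N (.D 5395) (.N (.D
  2853) (.N (.D 5401) (.L 103699460))))))) (.N (.D 1827) (.N (.D 1829) (.N (.N (.D 5395) (.N (.D
  2853) (.N (.D 5401) (.L 103928836)))) (.N (.D 5395) (.N (.D 2853) (.N (.D 5401) (.L
  103928834)))))))) (.N (.N (.N (.N (.D 19619) (.N (.N (.D 3621) (.N (.L 112071690) (.D 7179)))
  (.D 6411))) (.D 34220)) (.N (.D 18090) (.N (.D 19619) (.N (.D 5395) (.N (.N (.D 5401) (.L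
  110440964)) (.N (.D 5401) (.L 108056706))))))) (.N (.N (.D 1833) (.N (.N (.N (.N (.L 112301066)
  (.D 7179)) (.D 35252)) (.D 6411)) (.N (.N (.D 2865) (.N (.L 112301062) (.D 7179))) (.D 6411))))
  (.N (.N (.N (.D 5395) (.N (.D 3621) (.N (.D 5401) (.L 108347908)))) (.N (.D 5395) (.N (.D 3621)
  (.N (.D 5401) (.L 108347906))))) (.N (.N (.D 5395) (.N (.D 19122) (.N (.D 5401) (.L
  109891714)))) (.N (.D 5395) (.N (.N (.D 5401) (.L 110440962)) (.N (.D 5401) (.L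
  109892609)))))))))))) sx52)))

def sx54 : CT :=
  .N (.N (.N sx35 (.N (.N (.N (.N (.N (.N (.N (.N (.N (.N (.N (.N (.N (.N (.N (.L 112304675) (.D
  7175)) (.D 6663)) (.D 6407)) (.D 22663)) (.D 5639)) (.D 5383)) (.D 21639)) (.N (.N (.D 4875) (.N
  (.N (.N (.D 4883) (.N (.N (.L 109924445) (.D 23559)) (.D 23047))) (.D 22663)) (.D 22023))) (.D
  21639))) (.N (.N (.D 21131) (.N (.N (.N (.D 21139) (.N (.N (.N (.L 109924893) (.D 7175)) (.D
  6663)) (.D 6407))) (.D 5639)) (.D 5383))) (.N (.D 21131) (.N (.D 4875) (.N (.N (.D 21139) (.N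
  (.D 4883) (.N (.N (.L 109924884) (.D 7205)) (.D 82868)))) (.D 82860)))))) (.N (.N (.N (.N (.N
  (.N (.N (.N (.N (.L 112304673) (.D 7175)) (.D 6663)) (.D 6407)) (.D 22663)) (.D 5639)) (.D
  5383)) (.D 21639)) (.N (.N (.D 4875) (.N (.N (.N (.D 4883) (.N (.N (.L 109924442) (.D 23559))
  (.D 23047))) (.D 22663)) (.D 22023))) (.D 21639))) (.N (.N (.D 21131) (.N (.N (.N (.D 21139) (.N
  (.N (.N (.L 109924890) (.D 7175)) (.D 6663)) (.D 6407))) (.D 5639)) (.D 5383))) (.N (.D 21131)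
  (.N (.D 4875) (.N (.N (.D 21139) (.N (.D 4883) (.N (.N (.L 109924880) (.D 7205)) (.D 82868))))
  (.D 82860))))))) (.D 3591)) (.D 3335)) (.D 19591)) (.N (.N (.D 2827) (.N (.N (.N (.N (.N (.N (.N
  (.N (.N (.N (.N (.L 112017502) (.D 23559)) (.D 23047)) (.D 66482)) (.D 22663)) (.D 5639)) (.D
  5383)) (.D 21639)) (.N (.N (.D 4875) (.N (.N (.N (.D 35238) (.N (.N (.L 107645015) (.D 23559))
  (.D 23047))) (.D 22663)) (.D 22023))) (.D 21639))) (.N (.N (.D 21131) (.N (.N (.N (.D 21139) (.N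
  (.N (.D 21142) (.N (.D 21146) (.L 107649041))) (.D 66482))) (.D 5639)) (.D 5383))) (.N (.D
  21131) (.N (.D 4875) (.N (.N (.D 21139) (.N (.D 35238) (.N (.D 21142) (.N (.D 21146) (.L
  107498059))))) (.D 82860)))))) (.N (.N (.N (.N (.N (.N (.N (.D 2851) (.N (.N (.L 112017498) (.D
  23559)) (.D 23047))) (.D 22663)) (.D 5639)) (.D 5383)) (.D 21639)) (.N (.N (.D 4875) (.N (.N (.N
  (.N (.N (.L 112304215) (.D 23559)) (.D 23047)) (.N (.N (.L 107659349) (.D 23559)) (.D 23047)))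
  (.D 22663)) (.D 22023))) (.D 21639))) (.N (.N (.D 21131) (.N (.N (.N (.D 21139) (.N (.D 2851)
  (.N (.D 21142) (.N (.D 21146) (.L 107649036))))) (.D 5639)) (.D 5383))) (.N (.D 21131) (.N (.D
  4875) (.N (.N (.D 21139) (.N (.N (.D 21142) (.N (.D 21146) (.L 107612747))) (.N (.D 21142) (.N
  (.D 21146) (.L 107612746))))) (.D 82860))))))) (.D 19975))) (.D 19591))) sx36)) (.N (.N sx37
  sx38) sx41)) (.N (.N (.N sx42 sx43) (.N sx44 (.N sx45 sx46))) (.N (.N sx47 (.N (.N (.D 34197)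
  (.N (.N (.D 1813) (.N (.N (.N (.N (.N (.N (.N (.N (.N (.N (.L 112243737) (.D 7179)) (.D 6663))
  (.D 6407)) (.D 39047)) (.D 50092)) (.D 50090)) (.D 50089)) (.N (.N (.D 34214) (.N (.D 18086) (.N
  (.N (.N (.D 4885) (.N (.D 5401) (.L 109479565))) (.D 39175)) (.D 39047)))) (.D 50089))) (.N (.N
  (.D 34213) (.N (.N (.D 1829) (.N (.N (.N (.N (.L 112243728) (.D 7179)) (.D 6663)) (.D 6407)) (.D
  39047))) (.D 50090))) (.N (.D 34213) (.N (.D 34214) (.N (.N (.N (.N (.D 4885) (.N (.D 5401) (.L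
  109479563))) (.D 39175)) (.D 39047)) (.N (.N (.N (.D 4885) (.N (.D 5401) (.L 109479562))) (.D
  39175)) (.D 39047))))))) (.N (.N (.N (.D 18083) (.N (.D 1827) (.N (.N (.D 37269) (.N (.N (.N (.D
  5401) (.L 111810061)) (.D 6663)) (.D 6407))) (.D 50092)))) (.N (.D 18083) (.N (.N (.D 18086) (.N
  (.D 37269) (.N (.N (.D 4885) (.N (.L 109491211) (.D 7179))) (.D 6411)))) (.N (.D 18086) (.N (.D
  37269) (.N (.N (.D 4885) (.N (.D 5401) (.L 109486280))) (.D 82866))))))) (.N (.N (.N (.D 1827)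
  (.N (.D 1829) (.N (.D 37269) (.N (.N (.N (.D 5401) (.L 109487627)) (.D 6663)) (.D 6407))))) (.N
  (.D 1827) (.N (.D 1829) (.N (.D 37269) (.N (.N (.N (.D 5401) (.L 109487626)) (.D 6663)) (.D
  6407)))))) (.N (.N (.N (.N (.D 37269) (.N (.N (.D 4885) (.N (.L 112071693) (.D 7179))) (.D
  6411))) (.D 34220)) (.N (.D 18090) (.N (.D 37269) (.N (.N (.D 4885) (.N (.D 5401) (.L
  109490312))) (.D 82866))))) (.N (.N (.D 1833) (.N (.D 37269) (.N (.N (.D 4885) (.N (.L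
  109491210) (.D 7179))) (.D 6411)))) (.N (.N (.D 37269) (.N (.N (.D 4885) (.N (.D 5401) (.L
  109491208))) (.D 82866))) (.N (.D 37269) (.N (.N (.D 4885) (.N (.D 5401) (.L 109491205))) (.D
  82866)))))))))) (.D 50074))) (.N (.D 34197) (.N (.D 34198) sx48)))) sx53))

def tree6 : CT :=
  .N sx22 (.N (.N sx27 sx34) sx54)

end MP7ea278
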