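import Pool.Agent.Lib.MP_7ea278_ag.Sv.Tests
import Pool.Agent.Lib.MP_7ea278_ag.Sv.Tree6

/-!
Evaluation of the search tree for six elements.
-/

namespace MP7ea278

theorem run6 : chk leaf6 tree6 T6m 0 0 = true := by decide +kernel

end MP7ea278
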