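import Mathlib

/-!
A certified search over the families of three-element subsets which satisfy the exchange axiom.
A family `F` of subsets of a set of at most seven elements is a natural number; the subset with
characteristic number `m` belongs to `F` if the bit `m` of `F` is set.
-/

namespace MP7ea278

/-- Search trees: dead ends, leaves with a code, branchings. -/
inductive CT where
  | D (c : ℕ) : CT
  | L (c : ℕ) : CT
  | N (a b : CT) : CT

/-- The exchange axiom. -/
def Exch (F : ℕ) : Prop := ∀ A B i : ℕ, A.testBit i = true → B.testBit i = false →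
  F.testBit A = true → F.testBit B = true →
    ∃ j, B.testBit j = true ∧ A.testBit j = false ∧ F.testBit (A ^^^ 2 ^ i ^^^ 2 ^ j) = true

/-- The code `c` of a violated exchange: `A`, `B` belong to `Y`, and no exchange of the element `i`
of `A` is possible. -/
def dead (DM Y c : ℕ) : Bool :=
  (c % 128).testBit (c / 16384) && !(c / 128 % 128).testBit (c / 16384) &&
    Y.testBit (c % 128) && Y.testBit (c / 128 % 128) &&
    [0, 1, 2, 3, 4, 5, 6].all fun j =>
      !((c / 128 % 128).testBit j && !(c % 128).testBit j) ||
        (DM.testBit ((c % 128) ^^^ 2 ^ (c / 16384) ^^^ 2 ^ j) &&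
          !Y.testBit ((c % 128) ^^^ 2 ^ (c / 16384) ^^^ 2 ^ j))

/-- The check of a search tree; `ps` are the undecided subsets, `DM` the decided ones, `Y` the
family of the decided subsets which belong to it. -/
def chk (leafOK : ℕ → ℕ → Bool) : CT → List ℕ → ℕ → ℕ → Bool
  | .D c, _, DM, Y => dead DM Y c
  | .L c, [], _, Y => leafOK Y c
  | .L _, _ :: _, _, _ => false
  | .N _ _, [], _, _ => false
  | .N a b, t :: ps, DM, Y =>
    chk leafOK a ps (DM ||| 2 ^ t) Y && chk leafOK b ps (DM ||| 2 ^ t) (Y ||| 2 ^ t)

theorem dead_false {F DM Y c : ℕ} (hF : Exch F) (h : dead DM Y c = true)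
    (h1 : ∀ m, Y.testBit m = true → F.testBit m = true)
    (h2 : ∀ m, DM.testBit m = true → F.testBit m = true → Y.testBit m = true) : False := by
  unfold dead at h
  simp only [Bool.and_eq_true, Bool.not_eq_true'] at h
  obtain ⟨⟨⟨⟨hA, hB⟩, hYA⟩, hYB⟩, hall⟩ := h
  obtain ⟨j, hj1, hj2, hj3⟩ := hF _ _ _ hA hB (h1 _ hYA) (h1 _ hYB)
  have hj : j < 7 := by
    by_contra hcon
    have h3 : c / 128 % 128 < 2 ^ j := lt_of_lt_of_le (Nat.mod_lt _ (by norm_num))
      (by calc (128 : ℕ) = 2 ^ 7 := by norm_num
            _ ≤ 2 ^ j := Nat.pow_le_pow_right (by norm_num) (by omega))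
    rw [Nat.testBit_lt_two_pow h3] at hj1
    exact Bool.false_ne_true hj1
  rw [List.all_eq_true] at hall
  have hmem : j ∈ [0, 1, 2, 3, 4, 5, 6] := by
    simp only [List.mem_cons, List.not_mem_nil, or_false]
    omega
  have h4 := hall j hmem
  rw [hj1, hj2] at h4
  simp only [Bool.not_false, Bool.and_self, Bool.not_true, Bool.false_or, Bool.and_eq_true,
    Bool.not_eq_true'] at h4
  rw [h2 _ h4.1 hj3] at h4
  exact Bool.false_ne_true h4.2.symm

theorem chk_sound (leafOK : ℕ → ℕ → Bool) {F : ℕ} (hF : Exch F) :
    ∀ (T : CT) (ps : List ℕ) (DM Y : ℕ), chk leafOK T ps DM Y = true →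
      (∀ m, Y.testBit m = true → F.testBit m = true) →
      (∀ m, DM.testBit m = true → F.testBit m = true → Y.testBit m = true) →
      (∀ m, F.testBit m = true → DM.testBit m = true ∨ m ∈ ps) → ∃ c, leafOK F c = true := by
  intro T
  induction T with
  | D c =>
    intro ps DM Y h h1 h2 _
    exact (dead_false hF h h1 h2).elim
  | L c =>
    intro ps DM Y h h1 h2 h3
    cases ps with
    | nil =>
      have hY : Y = F := by
        apply Nat.eq_of_testBit_eq
        intro m
        by_cases hm : F.testBit m = true
        · rw [hm]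
          exact h2 m ((h3 m hm).resolve_right (by simp)) hm
        · by_cases hm2 : Y.testBit m = true
          · exact absurd (h1 m hm2) hm
          · rw [Bool.not_eq_true] at hm hm2
            rw [hm, hm2]
      rw [← hY]
      exact ⟨c, h⟩
    | cons t ps => exact absurd h (by simp [chk])
  | N a b iha ihb =>
    intro ps DM Y h h1 h2 h3
    cases ps with
    | nil => exact absurd h (by simp [chk])
    | cons t ps =>
      simp only [chk, Bool.and_eq_true] at h
      have h3' : ∀ m, F.testBit m = true → (DM ||| 2 ^ t).testBit m = true ∨ m ∈ ps := by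
        intro m hm
        rw [Nat.testBit_or, Nat.testBit_two_pow, Bool.or_eq_true, decide_eq_true_eq]
        rcases h3 m hm with h4 | h4
        · exact Or.inl (Or.inl h4)
        · rcases List.mem_cons.1 h4 with h5 | h5
          · exact Or.inl (Or.inr h5.symm)
          · exact Or.inr h5
      by_cases ht : F.testBit t = true
      · refine ihb ps _ _ h.2 ?_ ?_ h3'
        · intro m hm
          rw [Nat.testBit_or, Nat.testBit_two_pow, Bool.or_eq_true, decide_eq_true_eq] at hm
          rcases hm with hm | hm
          · exact h1 m hm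
          · rw [← hm]
            exact ht
        · intro m hm hm2
          rw [Nat.testBit_or, Nat.testBit_two_pow, Bool.or_eq_true, decide_eq_true_eq] at hm ⊢
          rcases hm with hm | hm
          · exact Or.inl (h2 m hm hm2)
          · exact Or.inr hm
      · refine iha ps _ _ h.1 h1 ?_ h3'
        intro m hm hm2
        rw [Nat.testBit_or, Nat.testBit_two_pow, Bool.or_eq_true, decide_eq_true_eq] at hm
        rcases hm with hm | hm
        · exact h2 m hm hm2
        · rw [hm] at ht
          exact absurd hm2 ht

end MP7ea278
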