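import Pool.Agent.Lib.MP_7ea278_ag.Sv.Leaf

/-!
Representatives and leaf tests.
-/

namespace MP7ea278

/-- Representatives of the families on six elements up to relabelling. -/
def reps : List ℕ := [78274679833913472, 6217085795985536, 6216810918078592, 6217085795985408,
  6216810915981440, 24636308351104, 1695893714135168, 6216810915979392, 24636308334720,
  1695859354396800, 7043853871232, 7043853869184, 7009493608576, 7043853846656,
  24636308324352, 375941248, 446683441280, 7009493584000, 565320811554944, 107505792,
  446683441152, 2370858133632, 106981504, 2370858125440, 7009493581824, 6842496,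
  171801323648, 6842368, 36186240, 171801323520, 2631808, 26752, 2631680, 34360264832,
  10368, 526464, 2176, 128, 0]

/-- The families on seven elements without the interval property (the number `0` is a dummy; the
last one is the Fano matroid). -/
def typs : List ℕ := [0, 22025765290448503320889608661120, 5213054968455605256646543207327872,
  5214322619055833486048039910533248, 5214322623825276059793517022046336,
  5214164148214250389031288557824128, 5214322604539278917706475645724800,
  5213054968455605256646543207327744, 1743046277344803219919038081152,
  5214164162664691826612402909636736, 6216810915979392, 5214164145786216147073342533820544,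
  5214005401765324394443546187817088]

/-- Leaf test, six elements. -/
def leaf6 (Y c : ℕ) : Bool :=
  Nat.blt (c % 64) 39 && (vld (c / 64) && (Nat.beq (dgt (c / 64) 6) 6 &&
    agree tr6 Y (c / 64) (reps.getD (c % 64) 0)))

/-- Leaf test, seven elements. -/
def leaf7 (Y c : ℕ) : Bool :=
  cond (Nat.beq (c % 16) 0) (intv Y (c / 16))
    (Nat.blt (c % 16) 13 && (vld (c / 16) && agree tr7 Y (c / 16) (typs.getD (c % 16) 0)))

/-- The triples of the first six elements. -/
def T6m : List ℕ := [7, 11, 13, 14, 19, 21, 22, 25, 26, 28, 35, 37, 38, 41, 42, 44, 49, 50, 52, 56]

/-- The triples which contain the last element. -/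
def X7m : List ℕ := [67, 69, 70, 73, 74, 76, 81, 82, 84, 88, 97, 98, 100, 104, 112]

end MP7ea278
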