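import Pool.Agent.Lib.MP_7ea278_ag.Sv.Cone

/-!
Cut tree of the matroid number 9 on seven elements with nonbases 124, 135, 236, 456, 127, 137, 237, 147, 247, 347, 157, 257.
-/

namespace MP7ea278

/-- The cone over the base polytope. -/
def ty9R : Set (Amb 7) := {x | 1 ≤ x.1 ∧
  (0 ≤ x.2 0 ∧ x.2 0 ≤ (x.1 : ℤ)) ∧
  (0 ≤ x.2 1 ∧ x.2 1 ≤ (x.1 : ℤ)) ∧
  (0 ≤ x.2 2 ∧ x.2 2 ≤ (x.1 : ℤ)) ∧
  (0 ≤ x.2 3 ∧ x.2 3 ≤ (x.1 : ℤ)) ∧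
  (0 ≤ x.2 4 ∧ x.2 4 ≤ (x.1 : ℤ)) ∧
  (0 ≤ x.2 5 ∧ x.2 5 ≤ (x.1 : ℤ)) ∧
  (0 ≤ x.2 6 ∧ x.2 6 ≤ (x.1 : ℤ)) ∧
  x.2 0 + x.2 1 + x.2 2 + x.2 3 + x.2 4 + x.2 5 + x.2 6 = 3 * (x.1 : ℤ) ∧
  x.2 6 = 0 ∧
  x.2 0 + x.2 1 + x.2 3 ≤ 2 * (x.1 : ℤ) ∧
  x.2 0 + x.2 2 + x.2 4 ≤ 2 * (x.1 : ℤ) ∧
  x.2 1 + x.2 2 + x.2 5 ≤ 2 * (x.1 : ℤ) ∧
  x.2 3 + x.2 4 + x.2 5 ≤ 2 * (x.1 : ℤ)}

theorem ty9R_add : ∀ a ∈ ty9R, ∀ b ∈ ty9R, a + b ∈ ty9R := by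
  rintro a ha b hb
  unfold ty9R at ha hb ⊢
  rw [Set.mem_ofPred_eq] at ha hb ⊢
  have e1 : (a + b).1 = a.1 + b.1 := rfl
  have e2 : ∀ i, (a + b).2 i = a.2 i + b.2 i := fun _ => rfl
  simp only [e1, e2]
  push_cast
  omega

theorem ty9R_pos : ∀ a ∈ ty9R, 1 ≤ a.1 := fun _ ha => ha.1

/-- Order of leaf 0. -/
def t9s0 : Equiv.Perm (Fin 7) := mkQ ![0, 1, 2, 5, 3, 4, 6] ![0, 1, 2, 4, 5, 3, 6]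
  (by decide) (by decide)

/-- Lower bounds of leaf 0. -/
def t9l0 : ℕ → ℕ → ℤ := tb
  [[0, 0, 0, 1, 1, 2, 3, 3], [0, 0, 0, 0, 1, 2, 2, 2], [0, 0, 0, 0, 0, 1, 2, 2], [0, 0, 0, 0, 0,
    0, 1, 1], [0, 0, 0, 0, 0, 0, 0, 0], [0, 0, 0, 0, 0, 0, 0, 0], [0, 0, 0, 0, 0, 0, 0, 0], [0,
    0, 0, 0, 0, 0, 0, 0]]

/-- Upper bounds of leaf 0. -/
def t9h0 : ℕ → ℕ → ℤ := tb
  [[0, 1, 1, 2, 3, 3, 3, 3], [0, 0, 1, 2, 2, 3, 3, 3], [0, 0, 0, 1, 2, 3, 3, 3], [0, 0, 0, 0, 1,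
    2, 2, 2], [0, 0, 0, 0, 0, 1, 2, 2], [0, 0, 0, 0, 0, 0, 1, 1], [0, 0, 0, 0, 0, 0, 0, 0], [0,
    0, 0, 0, 0, 0, 0, 0]]

theorem t9leaf0 (K : Type) [CommRing K] : TV K (dg 7)
    {a : Amb 7 | a ∈ {a : Amb 7 | a ∈ ty9R ∧ 0 ≤ cutH7 1 1 1 0 0 0 0 0 a} ∧ 0 ≤ cutH7 1 1 0 0 0 1 0
    0 a} := by
  refine TV_leaf7 t9s0 t9l0 t9h0 (by decide) (by decide) _ fun x => ?_
  simp only [Set.mem_ofPred_eq, ty9R, B7, t9l0, t9h0, tb, t9s0, mkQ, cutH7,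
    AddMonoidHom.coe_mk, ZeroHom.coe_mk, Equiv.coe_fn_mk, List.getD_cons_zero,
    List.getD_cons_succ, Matrix.cons_val]
  constructor
  · intro h
    omega
  · intro h
    omega

/-- Order of leaf 1. -/
def t9s1 : Equiv.Perm (Fin 7) := mkQ ![0, 1, 3, 5, 2, 4, 6] ![0, 1, 4, 2, 5, 3, 6]
  (by decide) (by decide)

/-- Lower bounds of leaf 1. -/
def t9l1 : ℕ → ℕ → ℤ := tb
  [[0, 0, 0, 0, 1, 2, 3, 3], [0, 0, 0, 0, 1, 1, 2, 2], [0, 0, 0, 0, 0, 1, 2, 2], [0, 0, 0, 0, 0,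
    0, 1, 1], [0, 0, 0, 0, 0, 0, 1, 1], [0, 0, 0, 0, 0, 0, 0, 0], [0, 0, 0, 0, 0, 0, 0, 0], [0,
    0, 0, 0, 0, 0, 0, 0]]

/-- Upper bounds of leaf 1. -/
def t9h1 : ℕ → ℕ → ℤ := tb
  [[0, 1, 1, 2, 2, 3, 3, 3], [0, 0, 1, 2, 2, 2, 3, 3], [0, 0, 0, 1, 1, 2, 3, 3], [0, 0, 0, 0, 1,
    2, 3, 3], [0, 0, 0, 0, 0, 1, 2, 2], [0, 0, 0, 0, 0, 0, 1, 1], [0, 0, 0, 0, 0, 0, 0, 0], [0,
    0, 0, 0, 0, 0, 0, 0]]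

theorem t9leaf1 (K : Type) [CommRing K] : TV K (dg 7)
    {a : Amb 7 | a ∈ {a : Amb 7 | a ∈ {a : Amb 7 | a ∈ ty9R ∧ 0 ≤ cutH7 1 1 1 0 0 0 0 0 a} ∧ cutH7 1
    1 0 0 0 1 0 0 a ≤ 0} ∧ 0 ≤ cutH7 1 0 0 0 1 0 1 0 a} := by
  refine TV_leaf7 t9s1 t9l1 t9h1 (by decide) (by decide) _ fun x => ?_
  simp only [Set.mem_ofPred_eq, ty9R, B7, t9l1, t9h1, tb, t9s1, mkQ, cutH7,
    AddMonoidHom.coe_mk, ZeroHom.coe_mk, Equiv.coe_fn_mk, List.getD_cons_zero,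
    List.getD_cons_succ, Matrix.cons_val]
  constructor
  · intro h
    omega
  · intro h
    omega

/-- Order of leaf 2. -/
def t9s2 : Equiv.Perm (Fin 7) := mkQ ![0, 1, 2, 3, 5, 4, 6] ![0, 1, 2, 3, 5, 4, 6]
  (by decide) (by decide)

/-- Lower bounds of leaf 2. -/
def t9l2 : ℕ → ℕ → ℤ := tb
  [[0, 0, 0, 1, 1, 2, 3, 3], [0, 0, 0, 0, 0, 1, 2, 2], [0, 0, 0, 0, 0, 1, 2, 2], [0, 0, 0, 0, 0,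
    1, 1, 1], [0, 0, 0, 0, 0, 0, 0, 0], [0, 0, 0, 0, 0, 0, 0, 0], [0, 0, 0, 0, 0, 0, 0, 0], [0,
    0, 0, 0, 0, 0, 0, 0]]

/-- Upper bounds of leaf 2. -/
def t9h2 : ℕ → ℕ → ℤ := tb
  [[0, 1, 1, 2, 3, 3, 3, 3], [0, 0, 1, 1, 2, 2, 3, 3], [0, 0, 0, 1, 2, 2, 3, 3], [0, 0, 0, 0, 1,
    2, 2, 2], [0, 0, 0, 0, 0, 1, 2, 2], [0, 0, 0, 0, 0, 0, 1, 1], [0, 0, 0, 0, 0, 0, 0, 0], [0,
    0, 0, 0, 0, 0, 0, 0]]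

theorem t9leaf2 (K : Type) [CommRing K] : TV K (dg 7)
    {a : Amb 7 | a ∈ {a : Amb 7 | a ∈ {a : Amb 7 | a ∈ ty9R ∧ 0 ≤ cutH7 1 1 1 0 0 0 0 0 a} ∧ cutH7 1
    1 0 0 0 1 0 0 a ≤ 0} ∧ cutH7 1 0 0 0 1 0 1 0 a ≤ 0} := by
  refine TV_leaf7 t9s2 t9l2 t9h2 (by decide) (by decide) _ fun x => ?_
  simp only [Set.mem_ofPred_eq, ty9R, B7, t9l2, t9h2, tb, t9s2, mkQ, cutH7,
    AddMonoidHom.coe_mk, ZeroHom.coe_mk, Equiv.coe_fn_mk, List.getD_cons_zero,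
    List.getD_cons_succ, Matrix.cons_val]
  constructor
  · intro h
    omega
  · intro h
    omega

/-- Order of leaf 3. -/
def t9s3 : Equiv.Perm (Fin 7) := mkQ ![0, 1, 3, 2, 5, 4, 6] ![0, 1, 3, 2, 5, 4, 6]
  (by decide) (by decide)

/-- Lower bounds of leaf 3. -/
def t9l3 : ℕ → ℕ → ℤ := tb
  [[0, 0, 1, 1, 1, 2, 3, 3], [0, 0, 0, 1, 1, 2, 2, 2], [0, 0, 0, 0, 0, 1, 1, 1], [0, 0, 0, 0, 0,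
    0, 1, 1], [0, 0, 0, 0, 0, 0, 0, 0], [0, 0, 0, 0, 0, 0, 0, 0], [0, 0, 0, 0, 0, 0, 0, 0], [0,
    0, 0, 0, 0, 0, 0, 0]]

/-- Upper bounds of leaf 3. -/
def t9h3 : ℕ → ℕ → ℤ := tb
  [[0, 1, 2, 2, 3, 3, 3, 3], [0, 0, 1, 2, 3, 3, 3, 3], [0, 0, 0, 1, 2, 2, 2, 2], [0, 0, 0, 0, 1,
    1, 2, 2], [0, 0, 0, 0, 0, 1, 2, 2], [0, 0, 0, 0, 0, 0, 1, 1], [0, 0, 0, 0, 0, 0, 0, 0], [0,
    0, 0, 0, 0, 0, 0, 0]]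

theorem t9leaf3 (K : Type) [CommRing K] : TV K (dg 7)
    {a : Amb 7 | a ∈ {a : Amb 7 | a ∈ {a : Amb 7 | a ∈ ty9R ∧ cutH7 1 1 1 0 0 0 0 0 a ≤ 0} ∧ 0 ≤
    cutH7 1 1 0 0 0 1 0 0 a} ∧ 0 ≤ cutH7 1 0 0 1 0 0 1 0 a} := by
  refine TV_leaf7 t9s3 t9l3 t9h3 (by decide) (by decide) _ fun x => ?_
  simp only [Set.mem_ofPred_eq, ty9R, B7, t9l3, t9h3, tb, t9s3, mkQ, cutH7,
    AddMonoidHom.coe_mk, ZeroHom.coe_mk, Equiv.coe_fn_mk, List.getD_cons_zero,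
    List.getD_cons_succ, Matrix.cons_val]
  constructor
  · intro h
    omega
  · intro h
    omega

/-- Order of leaf 4. -/
def t9s4 : Equiv.Perm (Fin 7) := mkQ ![0, 1, 2, 5, 3, 4, 6] ![0, 1, 2, 4, 5, 3, 6]
  (by decide) (by decide)

/-- Lower bounds of leaf 4. -/
def t9l4 : ℕ → ℕ → ℤ := tb
  [[0, 0, 1, 1, 2, 2, 3, 3], [0, 0, 0, 0, 1, 2, 2, 2], [0, 0, 0, 0, 1, 1, 1, 1], [0, 0, 0, 0, 0,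
    0, 0, 0], [0, 0, 0, 0, 0, 0, 0, 0], [0, 0, 0, 0, 0, 0, 0, 0], [0, 0, 0, 0, 0, 0, 0, 0], [0,
    0, 0, 0, 0, 0, 0, 0]]

/-- Upper bounds of leaf 4. -/
def t9h4 : ℕ → ℕ → ℤ := tb
  [[0, 1, 2, 3, 3, 3, 3, 3], [0, 0, 1, 2, 2, 3, 3, 3], [0, 0, 0, 1, 2, 2, 2, 2], [0, 0, 0, 0, 1,
    2, 2, 2], [0, 0, 0, 0, 0, 1, 1, 1], [0, 0, 0, 0, 0, 0, 1, 1], [0, 0, 0, 0, 0, 0, 0, 0], [0,
    0, 0, 0, 0, 0, 0, 0]]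

theorem t9leaf4 (K : Type) [CommRing K] : TV K (dg 7)
    {a : Amb 7 | a ∈ {a : Amb 7 | a ∈ {a : Amb 7 | a ∈ ty9R ∧ cutH7 1 1 1 0 0 0 0 0 a ≤ 0} ∧ 0 ≤
    cutH7 1 1 0 0 0 1 0 0 a} ∧ cutH7 1 0 0 1 0 0 1 0 a ≤ 0} := by
  refine TV_leaf7 t9s4 t9l4 t9h4 (by decide) (by decide) _ fun x => ?_
  simp only [Set.mem_ofPred_eq, ty9R, B7, t9l4, t9h4, tb, t9s4, mkQ, cutH7,
    AddMonoidHom.coe_mk, ZeroHom.coe_mk, Equiv.coe_fn_mk, List.getD_cons_zero,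
    List.getD_cons_succ, Matrix.cons_val]
  constructor
  · intro h
    omega
  · intro h
    omega

/-- Order of leaf 5. -/
def t9s5 : Equiv.Perm (Fin 7) := mkQ ![0, 1, 3, 5, 2, 4, 6] ![0, 1, 4, 2, 5, 3, 6]
  (by decide) (by decide)

/-- Lower bounds of leaf 5. -/
def t9l5 : ℕ → ℕ → ℤ := tb
  [[0, 0, 1, 1, 1, 2, 3, 3], [0, 0, 0, 0, 1, 1, 2, 2], [0, 0, 0, 0, 0, 0, 1, 1], [0, 0, 0, 0, 0,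
    0, 1, 1], [0, 0, 0, 0, 0, 0, 0, 0], [0, 0, 0, 0, 0, 0, 0, 0], [0, 0, 0, 0, 0, 0, 0, 0], [0,
    0, 0, 0, 0, 0, 0, 0]]

/-- Upper bounds of leaf 5. -/
def t9h5 : ℕ → ℕ → ℤ := tb
  [[0, 1, 2, 2, 3, 3, 3, 3], [0, 0, 1, 2, 2, 2, 3, 3], [0, 0, 0, 1, 2, 2, 2, 2], [0, 0, 0, 0, 1,
    2, 2, 2], [0, 0, 0, 0, 0, 1, 2, 2], [0, 0, 0, 0, 0, 0, 1, 1], [0, 0, 0, 0, 0, 0, 0, 0], [0,
    0, 0, 0, 0, 0, 0, 0]]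

theorem t9leaf5 (K : Type) [CommRing K] : TV K (dg 7)
    {a : Amb 7 | a ∈ {a : Amb 7 | a ∈ ty9R ∧ cutH7 1 1 1 0 0 0 0 0 a ≤ 0} ∧ cutH7 1 1 0 0 0 1 0 0 a
    ≤ 0} := by
  refine TV_leaf7 t9s5 t9l5 t9h5 (by decide) (by decide) _ fun x => ?_
  simp only [Set.mem_ofPred_eq, ty9R, B7, t9l5, t9h5, tb, t9s5, mkQ, cutH7,
    AddMonoidHom.coe_mk, ZeroHom.coe_mk, Equiv.coe_fn_mk, List.getD_cons_zero,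
    List.getD_cons_succ, Matrix.cons_val]
  constructor
  · intro h
    omega
  · intro h
    omega

/-- The cut tree. -/
theorem TV_ty9R (K : Type) [CommRing K] : TV K (dg 7) ty9R := by
  refine TV_cut7 _ ty9R_add ty9R_pos (cutH7 1 1 1 0 0 0 0 0) ?_ ?_
  · refine TV_cut7 _ (piece7_add _ ty9R_add _) (fun a ha => ty9R_pos a ha.1) (cutH7 1 1 0 0 0 1 0 0) ?_ ?_
    · exact t9leaf0 K
    · refine TV_cut7 _ (piece7_add' _ (piece7_add _ ty9R_add _) _) (fun a ha => ty9R_pos a ha.1.1) (cutH7 1 0 0 0 1 0 1 0) ?_ ?_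
      · exact t9leaf1 K
      · exact t9leaf2 K
  · refine TV_cut7 _ (piece7_add' _ ty9R_add _) (fun a ha => ty9R_pos a ha.1) (cutH7 1 1 0 0 0 1 0 0) ?_ ?_
    · refine TV_cut7 _ (piece7_add _ (piece7_add' _ ty9R_add _) _) (fun a ha => ty9R_pos a ha.1.1) (cutH7 1 0 0 1 0 0 1 0) ?_ ?_
      · exact t9leaf3 K
      · exact t9leaf4 K
    · exact t9leaf5 K

/-- The family of the bases. -/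
def ty9M : ℕ := 6216810915979392

theorem ty9_spec : ∀ m < 128, (ty9M.testBit m = true ↔ ((1 : ℕ), vec m) ∈ ty9R) := by
  unfold ty9R
  simp only [Set.mem_ofPred_eq]
  decide +kernel

/-- Families isomorphic to this one. -/
theorem TV_ty9 {K : Type} [CommRing K] [Nontrivial K] (C : Set (Fin 7 → ℤ))
    (h01 : ∀ u ∈ C, ∀ i, 0 ≤ u i ∧ u i ≤ 1)
    (hC : ∀ m < 128, (vec m ∈ C ↔ ty9M.testBit m = true)) : TV K (dg 7) (Sg C) := by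
  refine TV_Sg_of_cone ty9R (TV_ty9R K) ty9R_add ty9R_pos C fun u => ?_
  constructor
  · intro hu
    obtain ⟨m, hm, rfl⟩ := exists_vec (h01 u hu)
    exact (ty9_spec m hm).1 ((hC m hm).1 hu)
  · intro hu
    have h2 : ∀ i, 0 ≤ u i ∧ u i ≤ 1 := by
      have h3 := hu
      unfold ty9R at h3
      rw [Set.mem_ofPred_eq] at h3
      simp only [Nat.cast_one] at h3
      have h4 : (0 ≤ u 0 ∧ u 0 ≤ 1) ∧ (0 ≤ u 1 ∧ u 1 ≤ 1) ∧ (0 ≤ u 2 ∧ u 2 ≤ 1) ∧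
          (0 ≤ u 3 ∧ u 3 ≤ 1) ∧ (0 ≤ u 4 ∧ u 4 ≤ 1) ∧ (0 ≤ u 5 ∧ u 5 ≤ 1) ∧
          (0 ≤ u 6 ∧ u 6 ≤ 1) := by omega
      intro i
      fin_cases i
      · exact h4.1
      · exact h4.2.1
      · exact h4.2.2.1
      · exact h4.2.2.2.1
      · exact h4.2.2.2.2.1
      · exact h4.2.2.2.2.2.1
      · exact h4.2.2.2.2.2.2
    obtain ⟨m, hm, rfl⟩ := exists_vec h2
    exact (hC m hm).2 ((ty9_spec m hm).2 hu)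

end MP7ea278
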